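import Pool.Agent.Lib.MP_745d3a_ag.PB.Defs

/-!
Depth of the homology of a monad, from homotopies for powers of the variables.
-/

set_option autoImplicit false
set_option linter.unusedSectionVars false

noncomputable section

open MvPolynomial Matrix

namespace Pool.Agent.Lib.MP_745d3a_ag.NB

open Pool.Agent.Lib.MP_745d3a_ag.PB

variable {K : Type*} [Field K]

lemma Aa1_mem (M : ℕ) (A : Finset (Fin 5)) (a : S K) :
    a ∈ idl K M A ↔ ∀ s ∈ a.support, ∃ j ∈ A, M ≤ s j := by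
  have h1 : idl K M A = Ideal.span ((fun s => monomial s (1 : K)) ''
      ((fun j => Finsupp.single j M) '' (A : Set (Fin 5)))) := by
    unfold idl
    rw [Set.image_image]
    congr 1
    refine Set.image_congr fun j _ => ?_
    exact X_pow_eq_monomial
  rw [h1, mem_ideal_span_monomial_image]
  refine forall₂_congr fun s _ => ?_
  constructor
  · rintro ⟨t, ⟨j, hj, rfl⟩, hle⟩
    refine ⟨j, hj, ?_⟩
    simpa using hle j
  · rintro ⟨j, hj, hle⟩
    exact ⟨_, ⟨j, hj, rfl⟩, by simpa using hle⟩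

lemma idl_nzd (M : ℕ) (A : Finset (Fin 5)) (j : Fin 5) (hj : j ∉ A) (a : S K)
    (h : X j ^ M * a ∈ idl K M A) : a ∈ idl K M A := by
  rw [Aa1_mem] at h ⊢
  intro s hs
  have h1 : Finsupp.single j M + s ∈ (X j ^ M * a).support := by
    rw [mem_support_iff, X_pow_eq_monomial, coeff_monomial_mul, one_mul]
    exact mem_support_iff.mp hs
  obtain ⟨k, hk, hle⟩ := h _ h1
  refine ⟨k, hk, ?_⟩
  have hne : j ≠ k := fun e => hj (e ▸ hk)
  rwa [Finsupp.add_apply, Finsupp.single_eq_of_ne' hne, zero_add] at hle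

lemma idl_insert (M : ℕ) (A : Finset (Fin 5)) (j : Fin 5) (a : S K)
    (h : a ∈ idl K M (insert j A)) : ∃ b, a - X j ^ M * b ∈ idl K M A := by
  unfold idl at h
  rw [Finset.coe_insert, Set.image_insert_eq, Ideal.mem_span_insert] at h
  obtain ⟨b, a', ha', rfl⟩ := h
  refine ⟨b, ?_⟩
  have : b * X j ^ M + a' - X j ^ M * b = a' := by ring
  rw [this]
  exact ha'

lemma idl_mono (M : ℕ) {A B : Finset (Fin 5)} (h : A ⊆ B) : idl K M A ≤ idl K M B := by
  unfold idl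
  exact Ideal.span_mono (Set.image_mono (Finset.coe_subset.mpr h))

lemma idl_empty (M : ℕ) (a : S K) (h : a ∈ idl K M ∅) : a = 0 := by
  unfold idl at h
  simpa using h

section mo

variable {α β : Type*} {N : ℕ} {A₀ : Finset (Fin 5)} {z w : α → S K}

lemma mo_add (hz : Mo N A₀ z) (hw : Mo N A₀ w) : Mo N A₀ (z + w) :=
  fun i => Ideal.add_mem _ (hz i) (hw i)

lemma mo_sub (hz : Mo N A₀ z) (hw : Mo N A₀ w) : Mo N A₀ (z - w) :=
  fun i => Ideal.sub_mem _ (hz i) (hw i)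

lemma mo_mono {B₀ : Finset (Fin 5)} (h : A₀ ⊆ B₀) (hz : Mo N A₀ z) : Mo N B₀ z :=
  fun i => idl_mono N h (hz i)

lemma mo_mulVec [Fintype α] (M : Matrix β α (S K)) (hz : Mo N A₀ z) : Mo N A₀ (M *ᵥ z) := by
  intro i
  rw [Matrix.mulVec, dotProduct]
  exact Ideal.sum_mem _ fun j _ => Ideal.mul_mem_left _ _ (hz j)

lemma mo_sm (c : S K) (hz : Mo N A₀ z) : Mo N A₀ (c • z) :=
  fun i => Ideal.mul_mem_left _ _ (hz i)

lemma mo_x {j : Fin 5} (hj : j ∈ A₀) (z : α → S K) : Mo N A₀ ((X j ^ N : S K) • z) :=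
  fun _ => Ideal.mul_mem_right _ _ (Ideal.subset_span ⟨j, hj, rfl⟩)

lemma mo_nz {j : Fin 5} (hj : j ∉ A₀) (h : Mo N A₀ ((X j ^ N : S K) • z)) : Mo N A₀ z :=
  fun i => idl_nzd N A₀ j hj (z i) (h i)

lemma mo_ins {j : Fin 5} (h : Mo N (insert j A₀) z) :
    ∃ w : α → S K, Mo N A₀ (z - (X j ^ N : S K) • w) := by
  choose w hw using fun i => idl_insert N A₀ j (z i) (h i)
  exact ⟨w, hw⟩

lemma mo_empty (h : Mo N ∅ z) : z = 0 := by
  funext i
  exact idl_empty N _ (h i)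

lemma mo_zero : Mo N A₀ (0 : α → S K) := fun _ => Ideal.zero_mem _

/-- exchange of two powers of variables -/
lemma mo_swap {i j : Fin 5} (hi : i ∉ insert j A₀) (h : Mo N A₀ ((X i ^ N : S K) • z - (X j ^ N : S K) • w)) :
    ∃ c : α → S K, Mo N A₀ (z - (X j ^ N : S K) • c) := by
  refine mo_ins (mo_nz hi ?_)
  have h1 := mo_add (mo_mono (Finset.subset_insert j A₀) h)
    (mo_x (N := N) (Finset.mem_insert_self j A₀) w)
  rwa [sub_add_cancel] at h1

end mo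

section

variable {α₃ α₂ α₁ α₀ : Type*} [Fintype α₃] [Fintype α₂] [Fintype α₁] [Fintype α₀]
  [DecidableEq α₃] [DecidableEq α₂] [DecidableEq α₁] [DecidableEq α₀]

/-- two composable matrices with homotopies -/
structure Pre (N : ℕ) (A : Matrix α₂ α₃ (S K)) (B : Matrix α₁ α₂ (S K))
    (L : Fin 5 → Matrix α₂ α₁ (S K)) (L' : Fin 5 → Matrix α₃ α₂ (S K)) : Prop where
  BA : B * A = 0
  LB : ∀ j, L j * B + A * L' j = (X j ^ N : S K) • (1 : Matrix α₂ α₂ (S K))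
  LA : ∀ j, L' j * A = (X j ^ N : S K) • (1 : Matrix α₃ α₃ (S K))

namespace Pre

variable {N : ℕ} {A : Matrix α₂ α₃ (S K)} {B : Matrix α₁ α₂ (S K)}
  {L : Fin 5 → Matrix α₂ α₁ (S K)} {L' : Fin 5 → Matrix α₃ α₂ (S K)} (h : Pre N A B L L')
  {A₀ : Finset (Fin 5)}

include h

lemma hLB (j : Fin 5) (x : α₂ → S K) :
    L j *ᵥ (B *ᵥ x) + A *ᵥ (L' j *ᵥ x) = (X j ^ N : S K) • x := by
  rw [Matrix.mulVec_mulVec, Matrix.mulVec_mulVec, ← Matrix.add_mulVec, h.LB, Matrix.smul_mulVec,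
    Matrix.one_mulVec]

lemma hLA (j : Fin 5) (x : α₃ → S K) : L' j *ᵥ (A *ᵥ x) = (X j ^ N : S K) • x := by
  rw [Matrix.mulVec_mulVec, h.LA, Matrix.smul_mulVec, Matrix.one_mulVec]

lemma hBA (x : α₃ → S K) : B *ᵥ (A *ᵥ x) = 0 := by
  rw [Matrix.mulVec_mulVec, h.BA, Matrix.zero_mulVec]

lemma inj {j : Fin 5} (hj : j ∉ A₀) {x : α₃ → S K} (hx : Mo N A₀ (A *ᵥ x)) : Mo N A₀ x := by
  refine mo_nz hj ?_
  have := mo_mulVec (L' j) hx
  rwa [h.hLA] at this

/-- exactness at the second place -/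
lemma ex {i j : Fin 5} (hi : i ∉ A₀) (hj : j ∉ A₀) (hij : i ≠ j) {x : α₂ → S K}
    (hx : Mo N A₀ (B *ᵥ x)) : ∃ s, Mo N A₀ (x - A *ᵥ s) := by
  have h1 : ∀ k, Mo N A₀ ((X k ^ N : S K) • x - A *ᵥ (L' k *ᵥ x)) := by
    intro k
    rw [← h.hLB k x, add_sub_cancel_right]
    exact mo_mulVec _ hx
  have h2 : Mo N A₀ (A *ᵥ ((X j ^ N : S K) • (L' i *ᵥ x) - (X i ^ N : S K) • (L' j *ᵥ x))) := by
    have e := mo_sub (mo_sm (X i ^ N : S K) (h1 j)) (mo_sm (X j ^ N : S K) (h1 i))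
    rw [Matrix.mulVec_sub, Matrix.mulVec_smul, Matrix.mulVec_smul]
    convert e using 1
    rw [smul_sub, smul_sub, smul_smul, smul_smul, mul_comm (X j ^ N : S K)]
    abel
  obtain ⟨s, hs⟩ := mo_swap (i := j) (j := i) (A₀ := A₀) (by simp [hj, Ne.symm hij])
    (h.inj hi h2)
  refine ⟨s, mo_nz hi ?_⟩
  have h3 := mo_add (h1 i) (mo_mulVec A hs)
  convert h3 using 1
  rw [Matrix.mulVec_sub, Matrix.mulVec_smul, smul_sub]
  abel

/-- powers of variables are regular on the cokernel of `A` -/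
lemma regA {i j : Fin 5} (hi : i ∉ A₀) (hj : j ∉ A₀) (hij : i ≠ j) {y : α₂ → S K}
    {s : α₃ → S K} (hy : Mo N A₀ ((X i ^ N : S K) • y - A *ᵥ s)) :
    ∃ s', Mo N A₀ (y - A *ᵥ s') := by
  -- `Q j = X_j ^ N - A L'_j` kills the image of `A`
  have h1 : Mo N A₀ ((X j ^ N : S K) • y - A *ᵥ (L' j *ᵥ y)) := by
    refine mo_nz hi ?_
    have e := mo_sub (mo_sm (X j ^ N : S K) hy) (mo_mulVec A (mo_mulVec (L' j) hy))
    convert e using 1
    rw [Matrix.mulVec_sub, Matrix.mulVec_sub, h.hLA, Matrix.mulVec_smul, Matrix.mulVec_smul,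
      Matrix.mulVec_smul, smul_sub, smul_sub, smul_smul, smul_smul, mul_comm (X j ^ N : S K)]
    abel
  have h2 : Mo N A₀ (A *ᵥ ((X j ^ N : S K) • s - (X i ^ N : S K) • (L' j *ᵥ y))) := by
    have e := mo_sub (mo_sm (X i ^ N : S K) h1) (mo_sm (X j ^ N : S K) hy)
    convert e using 1
    rw [Matrix.mulVec_sub, Matrix.mulVec_smul, Matrix.mulVec_smul, smul_sub, smul_sub, smul_smul,
      smul_smul, mul_comm (X j ^ N : S K)]
    abel
  obtain ⟨s', hs'⟩ := mo_swap (i := j) (j := i) (A₀ := A₀) (by simp [hj, Ne.symm hij])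
    (h.inj hi h2)
  refine ⟨s', mo_nz hi ?_⟩
  have h3 := mo_add hy (mo_mulVec A hs')
  convert h3 using 1
  rw [Matrix.mulVec_sub, Matrix.mulVec_smul, smul_sub]
  abel

/-- powers of variables are regular on the cokernel of `B` -/
lemma regB {i j k : Fin 5} (hi : i ∉ A₀) (hj : j ∉ A₀) (hk : k ∉ A₀) (hij : i ≠ j) (hik : i ≠ k)
    (hjk : j ≠ k) {u : α₁ → S K} {y : α₂ → S K} (hy : Mo N A₀ ((X i ^ N : S K) • u - B *ᵥ y)) :
    ∃ y', Mo N A₀ (u - B *ᵥ y') := by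
  have hBLB : ∀ x : α₂ → S K, B *ᵥ (L j *ᵥ (B *ᵥ x)) = (X j ^ N : S K) • (B *ᵥ x) := by
    intro x
    have := congrArg (fun t => B *ᵥ t) (h.hLB j x)
    simp only [Matrix.mulVec_add, Matrix.mulVec_smul, h.hBA, add_zero] at this
    exact this
  have h1 : Mo N A₀ ((X j ^ N : S K) • u - B *ᵥ (L j *ᵥ u)) := by
    refine mo_nz hi ?_
    have e := mo_sub (mo_sm (X j ^ N : S K) hy) (mo_mulVec B (mo_mulVec (L j) hy))
    convert e using 1
    rw [Matrix.mulVec_sub, Matrix.mulVec_sub, hBLB, Matrix.mulVec_smul, Matrix.mulVec_smul,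
      smul_sub, smul_sub, smul_smul, smul_smul, mul_comm (X j ^ N : S K)]
    abel
  have h2 : Mo N A₀ (B *ᵥ ((X j ^ N : S K) • y - (X i ^ N : S K) • (L j *ᵥ u))) := by
    have e := mo_sub (mo_sm (X i ^ N : S K) h1) (mo_sm (X j ^ N : S K) hy)
    convert e using 1
    rw [Matrix.mulVec_sub, Matrix.mulVec_smul, Matrix.mulVec_smul, smul_sub, smul_sub, smul_smul,
      smul_smul, mul_comm (X j ^ N : S K)]
    abel
  obtain ⟨s, hs⟩ := h.ex hi hj hij h2
  have h3 : Mo N (insert i A₀) ((X j ^ N : S K) • y - A *ᵥ s) := by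
    have e := mo_add (mo_mono (Finset.subset_insert i A₀) hs)
      (mo_x (N := N) (Finset.mem_insert_self i A₀) (L j *ᵥ u))
    convert e using 1
    abel
  obtain ⟨s', hs'⟩ := h.regA (A₀ := insert i A₀) (i := j) (j := k) (by simp [hj, Ne.symm hij])
    (by simp [hk, Ne.symm hik]) hjk h3
  obtain ⟨y', hy'⟩ := mo_ins hs'
  refine ⟨y', mo_nz hi ?_⟩
  have h4 := mo_add hy (mo_mulVec B hy')
  convert h4 using 1
  rw [Matrix.mulVec_sub, Matrix.mulVec_sub, h.hBA, Matrix.mulVec_smul, smul_sub]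
  abel

/-- the cokernel of `B` is torsion free -/
lemma tf {a : S K} (ha : a ≠ 0) {u : α₁ → S K} {y : α₂ → S K} (hy : a • u = B *ᵥ y) :
    ∃ y', u = B *ᵥ y' := by
  have hBLB : ∀ (j : Fin 5) (x : α₂ → S K),
      B *ᵥ (L j *ᵥ (B *ᵥ x)) = (X j ^ N : S K) • (B *ᵥ x) := by
    intro j x
    have := congrArg (fun t => B *ᵥ t) (h.hLB j x)
    simp only [Matrix.mulVec_add, Matrix.mulVec_smul, h.hBA, add_zero] at this
    exact this
  have h1 : (X 0 ^ N : S K) • u = B *ᵥ (L 0 *ᵥ u) := by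
    have e1 : a • ((X 0 ^ N : S K) • u - B *ᵥ (L 0 *ᵥ u)) = 0 := by
      have : a • (B *ᵥ (L 0 *ᵥ u)) = B *ᵥ (L 0 *ᵥ (B *ᵥ y)) := by
        rw [← hy, Matrix.mulVec_smul, Matrix.mulVec_smul]
      rw [smul_sub, this, hBLB, ← hy, smul_smul, smul_smul, mul_comm, sub_self]
    exact sub_eq_zero.mp ((smul_eq_zero.mp e1).resolve_left ha)
  obtain ⟨y', hy'⟩ := h.regB (A₀ := ∅) (i := 0) (j := 1) (k := 2) (by simp) (by simp) (by simp)
    (by decide) (by decide) (by decide) (u := u) (y := L 0 *ᵥ u) (by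
      rw [h1, sub_self]; exact mo_zero)
  exact ⟨y', sub_eq_zero.mp (mo_empty hy')⟩

/-- the kernel of `C` modulo the image of `B` satisfies Serre's condition for `b` and every
element without common factor -/
lemma ht {C : Matrix α₀ α₁ (S K)} (CB : C * B = 0) {a b : S K} (hab : IsRelPrime a b)
    {u w : α₁ → S K} (hu : C *ᵥ u = 0) {y : α₂ → S K} (hy : a • u - b • w = B *ᵥ y) :
    ∃ k : α₁ → S K, C *ᵥ k = 0 ∧ ∃ y', u - b • k = B *ᵥ y' := by
  have hCB : ∀ x : α₂ → S K, C *ᵥ (B *ᵥ x) = 0 := fun x => by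
    rw [Matrix.mulVec_mulVec, CB, Matrix.zero_mulVec]
  by_cases hb : b = 0
  · subst hb
    have ha : IsUnit a := by
      rw [isRelPrime_zero_right] at hab; exact hab
    rw [zero_smul, sub_zero] at hy
    obtain ⟨y', hy'⟩ := h.tf ha.ne_zero hy
    exact ⟨0, by simp, y', by simpa using hy'⟩
  have hBLB : ∀ (j : Fin 5) (x : α₂ → S K),
      B *ᵥ (L j *ᵥ (B *ᵥ x)) = (X j ^ N : S K) • (B *ᵥ x) := by
    intro j x
    have := congrArg (fun t => B *ᵥ t) (h.hLB j x)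
    simp only [Matrix.mulVec_add, Matrix.mulVec_smul, h.hBA, add_zero] at this
    exact this
  have h1 : ∀ j : Fin 5, ∃ k : α₁ → S K, (X j ^ N : S K) • u - B *ᵥ (L j *ᵥ u) = b • k := by
    intro j
    have e1 : a • ((X j ^ N : S K) • u - B *ᵥ (L j *ᵥ u)) =
        b • ((X j ^ N : S K) • w - B *ᵥ (L j *ᵥ w)) := by
      have e2 : a • (B *ᵥ (L j *ᵥ u)) - b • (B *ᵥ (L j *ᵥ w)) = B *ᵥ (L j *ᵥ (B *ᵥ y)) := by
        rw [← hy, Matrix.mulVec_sub, Matrix.mulVec_sub, Matrix.mulVec_smul, Matrix.mulVec_smul,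
          Matrix.mulVec_smul, Matrix.mulVec_smul]
      rw [hBLB, ← hy] at e2
      have e3 : a • (B *ᵥ (L j *ᵥ u)) = (X j ^ N : S K) • (a • u - b • w) + b • (B *ᵥ (L j *ᵥ w)) := by
        rw [← e2]; abel
      rw [smul_sub, e3, smul_sub, smul_sub, smul_smul, smul_smul, smul_smul, smul_smul,
        mul_comm a, mul_comm b]
      abel
    have h2 : ∀ i, ∃ c, ((X j ^ N : S K) • u - B *ᵥ (L j *ᵥ u)) i = b * c := by
      intro i
      have e4 := congrFun e1 i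
      simp only [Pi.smul_apply, smul_eq_mul] at e4
      exact hab.symm.dvd_of_dvd_mul_left ⟨_, e4⟩
    choose c hc using h2
    exact ⟨c, funext hc⟩
  choose k hk using h1
  have hbc : ∀ z : α₁ → S K, C *ᵥ (b • z) = 0 → C *ᵥ z = 0 := by
    intro z hz
    rw [Matrix.mulVec_smul] at hz
    exact (smul_eq_zero.mp hz).resolve_left hb
  have hCk : ∀ j, C *ᵥ k j = 0 := by
    intro j
    apply hbc
    rw [← hk j, Matrix.mulVec_sub, hCB, Matrix.mulVec_smul, hu, smul_zero, sub_zero]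
  -- compare two of them
  have h5 : b • ((X 1 ^ N : S K) • k 0 - (X 0 ^ N : S K) • k 1) =
      B *ᵥ ((X 0 ^ N : S K) • (L 1 *ᵥ u) - (X 1 ^ N : S K) • (L 0 *ᵥ u)) := by
    rw [smul_sub, smul_comm b, smul_comm b, ← hk, ← hk, smul_sub, smul_sub, Matrix.mulVec_sub,
      Matrix.mulVec_smul, Matrix.mulVec_smul, smul_smul, smul_smul, mul_comm (X 1 ^ N : S K)]
    abel
  obtain ⟨y₂, hy₂⟩ := h.tf hb h5
  obtain ⟨y₃, hy₃⟩ := h.regB (A₀ := {0}) (i := 1) (j := 2) (k := 3) (by simp) (by simp) (by simp)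
    (by decide) (by decide) (by decide) (u := k 0) (y := y₂) (by
      rw [← hy₂]
      have := mo_x (N := N) (A₀ := ({0} : Finset (Fin 5))) (j := 0) (by simp) (k 1)
      convert this using 1
      abel)
  obtain ⟨z, hz⟩ := mo_ins (A₀ := ∅) (j := 0) (by simpa using hy₃)
  have hz' : k 0 = B *ᵥ y₃ + (X 0 ^ N : S K) • z := by
    have := mo_empty hz
    rw [sub_sub, sub_eq_zero] at this
    exact this
  have hX : (X 0 ^ N : S K) ≠ 0 := pow_ne_zero _ (X_ne_zero 0)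
  refine ⟨z, ?_, ?_⟩
  · have e := hCk 0
    rw [hz', Matrix.mulVec_add, hCB, zero_add, Matrix.mulVec_smul] at e
    exact (smul_eq_zero.mp e).resolve_left hX
  · refine h.tf hX (y := L 0 *ᵥ u + b • y₃) ?_
    have e := hk 0
    rw [hz', smul_add, sub_eq_iff_eq_add] at e
    rw [smul_sub, e, Matrix.mulVec_add, Matrix.mulVec_smul, smul_comm b (X 0 ^ N : S K)]
    abel

end Pre

end

end Pool.Agent.Lib.MP_745d3a_ag.NB
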