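import Pool.Agent.Lib.MP_745d3a_ag.NB.Hty

/-!
The homology of a monad is free of rank two at every prime missing a variable.
-/

set_option autoImplicit false
set_option linter.unusedSectionVars false

noncomputable section

open MvPolynomial Matrix

namespace Pool.Agent.Lib.MP_745d3a_ag.NB

open Pool.Agent.Lib.MP_745d3a_ag.PB

variable {K : Type*} [Field K]

section

variable {α₃ α₂ α₁ α₀ : Type*} [Fintype α₃] [Fintype α₂] [Fintype α₁] [Fintype α₀]
  [DecidableEq α₃] [DecidableEq α₂] [DecidableEq α₁] [DecidableEq α₀]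

/-- homology of a complex of vector spaces -/
lemma lf_field (A : Matrix α₂ α₃ K) (B : Matrix α₁ α₂ K) (C : Matrix α₀ α₁ K)
    (BA : B * A = 0) (CB : C * B = 0)
    (injA : ∀ u, A *ᵥ u = 0 → u = 0)
    (exB : ∀ u, B *ᵥ u = 0 → ∃ w, A *ᵥ w = u)
    (surC : ∀ u, ∃ w, C *ᵥ w = u)
    (hc : Fintype.card α₁ + Fintype.card α₃ = Fintype.card α₀ + Fintype.card α₂ + 2) :
    ∃ w : Fin 2 → α₁ → K, (∀ i, C *ᵥ w i = 0) ∧
      (∀ u, C *ᵥ u = 0 → ∃ (c : Fin 2 → K) (y : α₂ → K), u = ∑ i, c i • w i + B *ᵥ y) ∧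
      (∀ (c : Fin 2 → K) (y : α₂ → K), ∑ i, c i • w i + B *ᵥ y = 0 → c = 0) := by
  classical
  set kC := LinearMap.ker (Matrix.mulVecLin C) with hkC
  set rB := LinearMap.range (Matrix.mulVecLin B) with hrB
  have hle : rB ≤ kC := by
    rintro _ ⟨y, rfl⟩
    rw [hkC, LinearMap.mem_ker, Matrix.mulVecLin_apply, Matrix.mulVecLin_apply,
      Matrix.mulVec_mulVec, CB, Matrix.zero_mulVec]
  have h1 : Module.finrank K kC + Fintype.card α₀ = Fintype.card α₁ := by
    have e := LinearMap.finrank_range_add_finrank_ker (Matrix.mulVecLin C)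
    have e2 : LinearMap.range (Matrix.mulVecLin C) = ⊤ := by
      rw [LinearMap.range_eq_top]
      intro u
      obtain ⟨w, hw⟩ := surC u
      exact ⟨w, by simpa using hw⟩
    rw [e2, finrank_top, Module.finrank_fintype_fun_eq_card, Module.finrank_fintype_fun_eq_card] at e
    rw [add_comm]; exact e
  have h2 : Module.finrank K rB + Fintype.card α₃ = Fintype.card α₂ := by
    have e := LinearMap.finrank_range_add_finrank_ker (Matrix.mulVecLin B)
    have e2 : LinearMap.ker (Matrix.mulVecLin B) = LinearMap.range (Matrix.mulVecLin A) := by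
      ext u
      constructor
      · intro hu
        obtain ⟨w, hw⟩ := exB u (by simpa using hu)
        exact ⟨w, by simpa using hw⟩
      · rintro ⟨w, rfl⟩
        rw [LinearMap.mem_ker, Matrix.mulVecLin_apply, Matrix.mulVecLin_apply,
          Matrix.mulVec_mulVec, BA, Matrix.zero_mulVec]
    have e3 : Module.finrank K (LinearMap.range (Matrix.mulVecLin A)) = Fintype.card α₃ := by
      have hi : Function.Injective (Matrix.mulVecLin A) := by
        rw [← LinearMap.ker_eq_bot, LinearMap.ker_eq_bot']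
        intro u hu
        exact injA u (by simpa using hu)
      rw [LinearMap.finrank_range_of_inj hi, Module.finrank_fintype_fun_eq_card]
    rw [e2, e3, Module.finrank_fintype_fun_eq_card] at e
    exact e
  set rB' := rB.comap kC.subtype with hrB'
  have h3 : Module.finrank K (kC ⧸ rB') = 2 := by
    have e := Submodule.finrank_quotient_add_finrank rB'
    have e2 : Module.finrank K rB' = Module.finrank K rB :=
      LinearEquiv.finrank_eq (Submodule.comapSubtypeEquivOfLe hle)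
    rw [e2] at e
    omega
  let bs := Module.finBasisOfFinrankEq K (kC ⧸ rB') h3
  have h4 : ∀ i, ∃ w : kC, rB'.mkQ w = bs i := fun i => Submodule.mkQ_surjective _ _
  choose w hw using h4
  refine ⟨fun i => (w i : α₁ → K), fun i => ?_, ?_, ?_⟩
  · exact LinearMap.mem_ker.mp (w i).2
  · intro u hu
    have hu' : u ∈ kC := by
      rw [hkC, LinearMap.mem_ker, Matrix.mulVecLin_apply]; exact hu
    have e := bs.sum_repr (rB'.mkQ ⟨u, hu'⟩)
    have e2 : rB'.mkQ (⟨u, hu'⟩ - ∑ i, bs.repr (rB'.mkQ ⟨u, hu'⟩) i • w i) = 0 := by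
      rw [map_sub, map_sum]
      simp only [map_smul, hw]
      rw [e, sub_self]
    rw [Submodule.mkQ_apply, Submodule.Quotient.mk_eq_zero] at e2
    obtain ⟨y, hy⟩ := e2
    refine ⟨fun i => bs.repr (rB'.mkQ ⟨u, hu'⟩) i, y, ?_⟩
    rw [Matrix.mulVecLin_apply] at hy
    rw [hy]
    simp
  · intro c y h
    have e2 : rB'.mkQ (∑ i, c i • w i) = 0 := by
      rw [Submodule.mkQ_apply, Submodule.Quotient.mk_eq_zero]
      refine ⟨-y, ?_⟩
      rw [Matrix.mulVecLin_apply, Matrix.mulVec_neg]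
      have : ((∑ i, c i • w i : kC) : α₁ → K) = ∑ i, c i • (w i : α₁ → K) := by simp
      rw [Submodule.subtype_apply, this]
      exact neg_eq_of_add_eq_zero_left h
    rw [map_sum] at e2
    simp only [map_smul, hw] at e2
    have := Fintype.linearIndependent_iff.mp bs.linearIndependent c e2
    exact funext this

/-- freeness near a point -/
theorem lf_pt (v : Fin 5 → K) (A : Matrix α₂ α₃ (S K)) (B : Matrix α₁ α₂ (S K))
    (C : Matrix α₀ α₁ (S K)) (BA : B * A = 0) (CB : C * B = 0)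
    (injA : ∀ u, ev v A *ᵥ u = 0 → u = 0)
    (exB : ∀ u, ev v B *ᵥ u = 0 → ∃ w, ev v A *ᵥ w = u)
    (surC : ∀ u, ∃ w, ev v C *ᵥ w = u)
    (hc : Fintype.card α₁ + Fintype.card α₃ = Fintype.card α₀ + Fintype.card α₂ + 2) :
    ∃ (s : S K) (m : Fin 2 → α₁ → S K), eval v s ≠ 0 ∧ (∀ i, C *ᵥ m i = 0) ∧
      (∀ u, C *ᵥ u = 0 → ∃ (c : Fin 2 → S K) (y : α₂ → S K),
        s • u = ∑ i, c i • m i + B *ᵥ y) ∧
      (∀ (c : Fin 2 → S K) (y : α₂ → S K), ∑ i, c i • m i + B *ᵥ y = 0 → c = 0) := by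
  classical
  obtain ⟨w, hw, hgen, hind⟩ := lf_field (ev v A) (ev v B) (ev v C)
    (by rw [← ev_mul, BA, ev_zero]) (by rw [← ev_mul, CB, ev_zero]) injA exB surC hc
  obtain ⟨g, R, hg, hR⟩ := pt_hR v C surC
  have hg0 : g ≠ 0 := by
    intro h; rw [h, map_zero] at hg; exact zero_ne_one hg
  have hCB : ∀ x : α₂ → S K, C *ᵥ (B *ᵥ x) = 0 := fun x => by
    rw [Matrix.mulVec_mulVec, CB, Matrix.zero_mulVec]
  have hCR : ∀ x : α₀ → S K, C *ᵥ (R *ᵥ x) = g • x := fun x => by
    rw [Matrix.mulVec_mulVec, hR, Matrix.smul_mulVec, Matrix.one_mulVec]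
  -- the two columns
  set W : Matrix α₁ (Fin 2) K := Matrix.of (fun a i => w i a) with hW
  set M : Matrix α₁ (Fin 2) (S K) := g • cst W - R * (C * cst W) with hM
  have hCM : C * M = 0 := by
    rw [hM, Matrix.mul_sub, Matrix.mul_smul, ← Matrix.mul_assoc, hR, Matrix.smul_mul,
      Matrix.one_mul, sub_self]
  have hCW : ev v C * W = 0 := by
    ext a i
    exact congrFun (hw i) a
  have hMv : ev v M = W := by
    rw [hM, ev_sub, ev_smul, hg, one_smul, ev_cst, ev_mul, ev_mul, ev_cst, hCW, Matrix.mul_zero,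
      sub_zero]
  have hsum : ∀ (c : Fin 2 → S K), ∑ i, c i • (fun a => M a i) = M *ᵥ c := by
    intro c
    ext a
    simp [Matrix.mulVec, dotProduct, mul_comm]
  have hsumK : ∀ (c : Fin 2 → K), ∑ i, c i • w i = W *ᵥ c := by
    intro c
    ext a
    simp [Matrix.mulVec, dotProduct, mul_comm, hW]
  have hCMc : ∀ c : Fin 2 → S K, C *ᵥ (M *ᵥ c) = 0 := fun c => by
    rw [Matrix.mulVec_mulVec, hCM, Matrix.zero_mulVec]
  -- generation
  obtain ⟨s, H, hs, hH⟩ := pt_hR v (Matrix.fromCols (Matrix.fromCols B M) R) (by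
    intro z
    have e1 : ev v C *ᵥ (z - ev v R *ᵥ (ev v C *ᵥ z)) = 0 := by
      rw [Matrix.mulVec_sub, Matrix.mulVec_mulVec _ (ev v C) (ev v R), ← ev_mul, hR, ev_smul, hg,
        one_smul, ev_one, Matrix.one_mulVec, sub_self]
    obtain ⟨c, y, hcy⟩ := hgen _ e1
    refine ⟨Sum.elim (Sum.elim y c) (ev v C *ᵥ z), ?_⟩
    have e2 : ev v (Matrix.fromCols (Matrix.fromCols B M) R) =
        Matrix.fromCols (Matrix.fromCols (ev v B) (ev v M)) (ev v R) := by
      ext a j
      rcases j with (j | j) | j <;> rfl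
    rw [e2, Matrix.fromCols_mulVec, Matrix.fromCols_mulVec]
    have e3 : (Sum.elim (Sum.elim y c) (ev v C *ᵥ z) ∘ Sum.inl) ∘ Sum.inl = y := rfl
    have e4 : (Sum.elim (Sum.elim y c) (ev v C *ᵥ z) ∘ Sum.inl) ∘ Sum.inr = c := rfl
    have e5 : Sum.elim (Sum.elim y c) (ev v C *ᵥ z) ∘ Sum.inr = ev v C *ᵥ z := rfl
    rw [e3, e4, e5, hMv, ← hsumK, add_comm (ev v B *ᵥ y), ← hcy, sub_add_cancel])
  refine ⟨s, fun i a => M a i, by rw [hs]; exact one_ne_zero, fun i => ?_, ?_, ?_⟩
  · funext a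
    exact congrFun (congrFun hCM a) i
  · intro u hu
    have e1 := congrArg (fun Z => Z *ᵥ u) hH
    simp only [Matrix.smul_mulVec, Matrix.one_mulVec, ← Matrix.mulVec_mulVec,
      Matrix.fromCols_mulVec] at e1
    set t := H *ᵥ u with ht
    have e2 : t ∘ Sum.inr = 0 := by
      have e3 := congrArg (fun Z => C *ᵥ Z) e1
      simp only [Matrix.mulVec_add, hCB, hCMc, hCR, Matrix.mulVec_smul, hu, smul_zero,
        zero_add] at e3
      exact (smul_eq_zero.mp e3).resolve_left hg0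
    refine ⟨(t ∘ Sum.inl) ∘ Sum.inr, (t ∘ Sum.inl) ∘ Sum.inl, ?_⟩
    rw [hsum, ← e1, e2, Matrix.mulVec_zero, add_zero, add_comm]
  · -- independence
    intro c y hcy
    rw [hsum] at hcy
    obtain ⟨q, L, L', hq, h1, -⟩ := pt_hL v (Matrix.fromRows A (0 : Matrix (Fin 2) α₃ (S K)))
      (Matrix.fromCols B M) (by
        rw [Matrix.fromCols_mul_fromRows, BA, Matrix.mul_zero, add_zero])
      (by
        intro u hu
        apply injA
        have e2 : ev v (Matrix.fromRows A (0 : Matrix (Fin 2) α₃ (S K))) =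
            Matrix.fromRows (ev v A) 0 := by
          ext a j
          rcases a with a | a
          · rfl
          · simp
        rw [e2, Matrix.fromRows_mulVec] at hu
        funext a
        simpa using congrFun hu (Sum.inl a))
      (by
        intro u hu
        have e2 : ev v (Matrix.fromCols B M) = Matrix.fromCols (ev v B) (ev v M) := by
          ext a j
          rcases j with j | j <;> rfl
        rw [e2, Matrix.fromCols_mulVec, hMv, add_comm, ← hsumK] at hu
        have hc := hind _ _ hu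
        have hB : ev v B *ᵥ (u ∘ Sum.inl) = 0 := by
          rw [hc] at hu
          simpa using hu
        obtain ⟨x, hx⟩ := exB _ hB
        refine ⟨x, ?_⟩
        have e3 : ev v (Matrix.fromRows A (0 : Matrix (Fin 2) α₃ (S K))) =
            Matrix.fromRows (ev v A) 0 := by
          ext a j
          rcases a with a | a
          · rfl
          · simp
        rw [e3, Matrix.fromRows_mulVec, hx, Matrix.zero_mulVec, ← hc]
        ext a
        rcases a with a | a <;> rfl)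
    have hq0 : q ≠ 0 := by
      intro h; rw [h, map_zero] at hq; exact zero_ne_one hq
    have e1 := congrArg (fun Z => Z *ᵥ (Sum.elim y c : α₂ ⊕ Fin 2 → S K)) h1
    simp only [Matrix.smul_mulVec, Matrix.one_mulVec, Matrix.add_mulVec, ← Matrix.mulVec_mulVec,
      Matrix.fromCols_mulVec, Matrix.fromRows_mulVec] at e1
    have e4 : (Sum.elim y c : α₂ ⊕ Fin 2 → S K) ∘ Sum.inl = y := rfl
    have e5 : (Sum.elim y c : α₂ ⊕ Fin 2 → S K) ∘ Sum.inr = c := rfl
    rw [e4, e5, add_comm (B *ᵥ y), hcy, Matrix.mulVec_zero, zero_add, Matrix.zero_mulVec] at e1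
    have e6 : q • c = 0 := by
      funext i
      have := congrFun e1 (Sum.inr i)
      simpa using this.symm
    exact (smul_eq_zero.mp e6).resolve_left hq0

/-- a prime missing a variable vanishes at a point outside the origin -/
lemma exists_pt [IsAlgClosed K] (p : Ideal (S K)) (hp : p.IsPrime) (h : ∃ j, (X j : S K) ∉ p) :
    ∃ v : Fin 5 → K, v ≠ 0 ∧ ∀ g, eval v g ≠ 0 → g ∉ p := by
  by_contra hcon
  push Not at hcon
  obtain ⟨N, hN⟩ := exists_pow_mem p (fun v hv => by
    obtain ⟨g, hg, hgp⟩ := hcon v hv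
    exact ⟨g, hgp, hg⟩)
  obtain ⟨j, hj⟩ := h
  exact hj (hp.mem_of_pow_mem N (hN j))

/-- freeness at the primes missing a variable -/
theorem lf_prime [IsAlgClosed K] (A : Matrix α₂ α₃ (S K)) (B : Matrix α₁ α₂ (S K))
    (C : Matrix α₀ α₁ (S K)) (BA : B * A = 0) (CB : C * B = 0)
    (injA : ∀ v : Fin 5 → K, v ≠ 0 → ∀ u, ev v A *ᵥ u = 0 → u = 0)
    (exB : ∀ v : Fin 5 → K, v ≠ 0 → ∀ u, ev v B *ᵥ u = 0 → ∃ w, ev v A *ᵥ w = u)
    (surC : ∀ v : Fin 5 → K, v ≠ 0 → ∀ u, ∃ w, ev v C *ᵥ w = u)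
    (hc : Fintype.card α₁ + Fintype.card α₃ = Fintype.card α₀ + Fintype.card α₂ + 2)
    (p : Ideal (S K)) (hp : p.IsPrime) (h : ∃ j, (X j : S K) ∉ p) :
    ∃ (s : S K) (m : Fin 2 → α₁ → S K), s ∉ p ∧ (∀ i, C *ᵥ m i = 0) ∧
      (∀ u, C *ᵥ u = 0 → ∃ (c : Fin 2 → S K) (y : α₂ → S K),
        s • u = ∑ i, c i • m i + B *ᵥ y) ∧
      (∀ (c : Fin 2 → S K) (y : α₂ → S K), ∑ i, c i • m i + B *ᵥ y = 0 → c = 0) := by
  obtain ⟨v, hv, hvp⟩ := exists_pt p hp h
  obtain ⟨s, m, hs, h1, h2, h3⟩ := lf_pt v A B C BA CB (injA v hv) (exB v hv) (surC v hv) hc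
  exact ⟨s, m, hvp s hs, h1, h2, h3⟩

end

end Pool.Agent.Lib.MP_745d3a_ag.NB
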