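import Pool.Agent.Lib.MP_745d3a_ag.PFBun
import Pool.Agent.Lib.MP_745d3a_ag.NB.Dep
import Pool.Agent.Lib.MP_745d3a_ag.NB.Lf

/-!
The homology of a monad is a reflexive module of rank two.
-/

set_option autoImplicit false
set_option linter.unusedSectionVars false

noncomputable section

open MvPolynomial Matrix

namespace Pool.Agent.Lib.MP_745d3a_ag.NB

open Pool.Agent.Lib.MP_745d3a_ag.PB

variable {K : Type*} [Field K]

section

variable {α₃ α₂ α₁ α₀ : Type*} [Fintype α₃] [Fintype α₂] [Fintype α₁] [Fintype α₀]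
  [DecidableEq α₃] [DecidableEq α₂] [DecidableEq α₁] [DecidableEq α₀]

/-- the homology of two composable matrices -/
abbrev Hm (B : Matrix α₁ α₂ (S K)) (C : Matrix α₀ α₁ (S K)) : Type _ :=
  LinearMap.ker C.mulVecLin ⧸ (LinearMap.range B.mulVecLin).comap
    (LinearMap.ker C.mulVecLin).subtype

/-- the homology of a pointwise exact monad -/
theorem bun [IsAlgClosed K] (A : Matrix α₂ α₃ (S K)) (B : Matrix α₁ α₂ (S K))
    (C : Matrix α₀ α₁ (S K)) (BA : B * A = 0) (CB : C * B = 0)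
    (injA : ∀ v : Fin 5 → K, v ≠ 0 → ∀ u, ev v A *ᵥ u = 0 → u = 0)
    (exB : ∀ v : Fin 5 → K, v ≠ 0 → ∀ u, ev v B *ᵥ u = 0 → ∃ w, ev v A *ᵥ w = u)
    (surC : ∀ v : Fin 5 → K, v ≠ 0 → ∀ u, ∃ w, ev v C *ᵥ w = u)
    (hc : Fintype.card α₁ + Fintype.card α₃ = Fintype.card α₀ + Fintype.card α₂ + 2) :
    PF.Bun (X : Fin 5 → S K) (Hm B C) := by
  obtain ⟨N, hN⟩ := exists_hL A B BA injA exB
  choose L L' hL hL' using hN
  have P : Pre N A B L L' := ⟨BA, hL, hL'⟩
  have mem : ∀ z : LinearMap.ker C.mulVecLin,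
      ((LinearMap.range B.mulVecLin).comap (LinearMap.ker C.mulVecLin).subtype).mkQ z = 0 ↔
        ∃ y, (z : α₁ → S K) = B *ᵥ y := by
    intro z
    rw [Submodule.mkQ_apply, Submodule.Quotient.mk_eq_zero]
    constructor
    · rintro ⟨y, hy⟩
      exact ⟨y, hy.symm⟩
    · rintro ⟨y, hy⟩
      exact ⟨y, hy.symm⟩
  refine ⟨inferInstance, ?_, ?_, ?_⟩
  · intro a m h
    obtain ⟨z, rfl⟩ := Submodule.mkQ_surjective _ m
    by_cases ha : a = 0
    · exact Or.inl ha
    right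
    rw [← map_smul, mem] at h
    obtain ⟨y, hy⟩ := h
    rw [mem]
    exact P.tf ha hy
  · intro a b hab m n h
    obtain ⟨z, rfl⟩ := Submodule.mkQ_surjective _ m
    obtain ⟨w, rfl⟩ := Submodule.mkQ_surjective _ n
    rw [← map_smul, ← map_smul, ← sub_eq_zero, ← map_sub, mem] at h
    obtain ⟨y, hy⟩ := h
    obtain ⟨k, hk, y', hy'⟩ := P.ht CB hab (u := z) (w := w) z.2 hy
    refine ⟨((LinearMap.range B.mulVecLin).comap
      (LinearMap.ker C.mulVecLin).subtype).mkQ ⟨k, hk⟩, ?_⟩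
    rw [← sub_eq_zero, ← map_smul, ← map_sub, mem]
    exact ⟨y', hy'⟩
  · intro p hp hx
    obtain ⟨s, m, hs, hm, hgen, hind⟩ := lf_prime A B C BA CB injA exB surC hc p hp hx
    refine ⟨s, hs, ((LinearMap.range B.mulVecLin).comap
      (LinearMap.ker C.mulVecLin).subtype).mkQ ⟨m 0, hm 0⟩, ((LinearMap.range B.mulVecLin).comap
      (LinearMap.ker C.mulVecLin).subtype).mkQ ⟨m 1, hm 1⟩, ?_, ?_⟩
    · intro n
      obtain ⟨z, rfl⟩ := Submodule.mkQ_surjective _ n
      obtain ⟨c, y, hcy⟩ := hgen z z.2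
      refine ⟨c 0, c 1, ?_⟩
      rw [← map_smul, ← map_smul, ← map_smul, ← map_add, ← sub_eq_zero, ← map_sub, mem]
      refine ⟨y, ?_⟩
      rw [Fin.sum_univ_two] at hcy
      simp only [Submodule.coe_sub, Submodule.coe_add, Submodule.coe_smul]
      rw [hcy]
      abel
    · intro a b hab
      rw [← map_smul, ← map_smul, ← map_add, mem] at hab
      obtain ⟨y, hy⟩ := hab
      have h1 := hind ![a, b] (-y) (by
        rw [Fin.sum_univ_two, Matrix.mulVec_neg, ← hy]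
        simp)
      exact ⟨congrFun h1 0, congrFun h1 1⟩

end

end Pool.Agent.Lib.MP_745d3a_ag.NB
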