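import Pool.Agent.Lib.MP_745d3a_ag.PB.Defs

/-!
Definitions: graded monads on projective four-space with homology of rank two.
-/

set_option autoImplicit false

noncomputable section

open MvPolynomial Matrix

namespace Pool.Agent.Lib.MP_745d3a_ag.NB

open Pool.Agent.Lib.MP_745d3a_ag.PB

variable {K : Type} [Field K]

/-- forms of integral degree (only `0` has negative degree) -/
def Form (t : ℤ) (g : S K) : Prop := IsWeightedHomogeneous (fun _ : Fin 5 => (1 : ℤ)) g t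

/-- homogeneous matrices: the basis of the target has degrees `d`, the basis of the source `e` -/
def HMat {α β : Type} (d : α → ℤ) (e : β → ℤ) (B : Matrix α β (S K)) : Prop :=
  ∀ i j, Form (e j - d i) (B i j)

/-- the vectors of degree `t` in the free module with basis of degrees `d` -/
def gr (K : Type) [Field K] {α : Type} (d : α → ℤ) (t : ℤ) : Submodule K (α → S K) where
  carrier := {u | ∀ i, Form (t - d i) (u i)}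
  add_mem' := fun hu hv i => (hu i).add (hv i)
  zero_mem' := fun _ => isWeightedHomogeneous_zero K _ _
  smul_mem' := fun c _ hu i =>
    (weightedHomogeneousSubmodule K (fun _ : Fin 5 => (1 : ℤ)) _).smul_mem c (hu i)

/-- A complex `L₃ → L₂ → L₁ → L₀` of graded free modules over `K[x_0, …, x_4]`, given by matrices
`A`, `B`, `C`, which at each point `v ≠ 0` is exact at `L₃`, `L₂` and `L₀`, and
`rk L₁ = rk L₀ + (rk L₂ - rk L₃) + 2`. -/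
structure Mnd (K : Type) [Field K] (α₃ α₂ α₁ α₀ : Type) [Fintype α₃] [Fintype α₂] [Fintype α₁]
    [Fintype α₀] where
  A : Matrix α₂ α₃ (S K)
  B : Matrix α₁ α₂ (S K)
  C : Matrix α₀ α₁ (S K)
  d₃ : α₃ → ℤ
  d₂ : α₂ → ℤ
  d₁ : α₁ → ℤ
  d₀ : α₀ → ℤ
  hA : HMat d₂ d₃ A
  hB : HMat d₁ d₂ B
  hC : HMat d₀ d₁ C
  BA : B * A = 0
  CB : C * B = 0
  injA : ∀ v : Fin 5 → K, v ≠ 0 → ∀ u, ev v A *ᵥ u = 0 → u = 0
  exB : ∀ v : Fin 5 → K, v ≠ 0 → ∀ u, ev v B *ᵥ u = 0 → ∃ w, ev v A *ᵥ w = u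
  surC : ∀ v : Fin 5 → K, v ≠ 0 → ∀ u, ∃ w, ev v C *ᵥ w = u
  card_eq : Fintype.card α₁ + Fintype.card α₃ = Fintype.card α₀ + Fintype.card α₂ + 2

namespace Mnd

variable {α₃ α₂ α₁ α₀ : Type} [Fintype α₃] [Fintype α₂] [Fintype α₁] [Fintype α₀]
  (W : Mnd K α₃ α₂ α₁ α₀)

/-- the kernel of `C` -/
def cyc : Submodule (S K) (α₁ → S K) := LinearMap.ker W.C.mulVecLin

/-- the image of `B` -/
def bdy : Submodule (S K) (α₁ → S K) := LinearMap.range W.B.mulVecLin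

/-- the homology -/
abbrev Md : Type := W.cyc ⧸ W.bdy.comap W.cyc.subtype

/-- the class of a cycle -/
def cl : W.cyc →ₗ[S K] W.Md := (W.bdy.comap W.cyc.subtype).mkQ

/-- the part of degree `t` of the homology -/
def deg (t : ℤ) : Submodule K W.Md :=
  ((gr K W.d₁ t).comap (W.cyc.subtype.restrictScalars K)).map (W.cl.restrictScalars K)

/-- power sums of the degrees -/
def ps (m : ℕ) : ℤ :=
  ∑ i, W.d₁ i ^ m - ∑ i, W.d₀ i ^ m - ∑ i, W.d₂ i ^ m + ∑ i, W.d₃ i ^ m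

/-- the discriminant `c₁² - 4 c₂` -/
def disc : ℤ := 2 * W.ps 2 - W.ps 1 ^ 2

end Mnd

/-- homotopies for the exact parts, for the `N`-th powers of the variables -/
structure Hty {α₃ α₂ α₁ α₀ : Type} [Fintype α₃] [Fintype α₂] [Fintype α₁] [Fintype α₀]
    [DecidableEq α₃] [DecidableEq α₂] [DecidableEq α₀] (W : Mnd K α₃ α₂ α₁ α₀) (N : ℕ) where
  R : Fin 5 → Matrix α₁ α₀ (S K)
  L : Fin 5 → Matrix α₂ α₁ (S K)
  L' : Fin 5 → Matrix α₃ α₂ (S K)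
  CR : ∀ j, W.C * R j = (X j ^ N : S K) • (1 : Matrix α₀ α₀ (S K))
  LB : ∀ j, L j * W.B + W.A * L' j = (X j ^ N : S K) • (1 : Matrix α₂ α₂ (S K))
  LA : ∀ j, L' j * W.A = (X j ^ N : S K) • (1 : Matrix α₃ α₃ (S K))

/-- four times six times a binomial coefficient: `24 * choose (x + 4) 4` -/
def qq (x : ℤ) : ℤ := (x + 1) * (x + 2) * (x + 3) * (x + 4)

/-! ### Graded modules and sheaves -/

section

variable {M N : Type} [AddCommGroup M] [Module (S K) M] [AddCommGroup N] [Module (S K) N]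

/-- the part of degrees at least `t₀` of a graded module -/
def trunc (𝓜 : ℤ → AddSubgroup M) (t₀ : ℤ) : Submodule (S K) M :=
  Submodule.span (S K) {m | ∃ t, t₀ ≤ t ∧ m ∈ 𝓜 t}

/-- an isomorphism of the parts of large degree of `M` and `N`, of degree `k` -/
def TIso (K : Type) [Field K] {M N : Type} [AddCommGroup M] [Module (S K) M] [AddCommGroup N]
    [Module (S K) N] (𝓜 : ℤ → AddSubgroup M) (𝓝 : ℤ → AddSubgroup N) (k : ℤ) : Prop :=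
  ∃ (t₀ : ℤ) (e : (trunc 𝓜 t₀ : Submodule (S K) M) ≃ₗ[S K]
    (trunc 𝓝 (t₀ + k) : Submodule (S K) N)),
    ∀ t, t₀ ≤ t → ∀ m : (trunc 𝓜 t₀ : Submodule (S K) M), (m : M) ∈ 𝓜 t ↔ (e m : N) ∈ 𝓝 (t + k)

end

/-! ### The new bundle -/

section

variable {R : Type} [CommRing R]

/-- the map `L₃ → L₂` -/
def nA (p : Fin 3 → R) (z : Fin 2 → R) (a : Fin 3 → R) : Fin 17 → R :=
  ![-(z 1 * a 0), -(z 1 * a 1), -(z 1 * a 2), z 0 * a 0, z 0 * a 1, z 0 * a 2,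
    -(2 * p 0 * a 0), -(2 * p 1 * a 1), -(2 * p 2 * a 2), -(p 2 * a 1 + p 1 * a 2),
    -(p 2 * a 0 + p 0 * a 2), -(p 1 * a 0 + p 0 * a 1), 0, 0, 0, 0, 0]

/-- the map `L₂ → L₁` -/
def nB (p : Fin 3 → R) (z : Fin 2 → R) (x : Fin 17 → R) : Fin 21 → R :=
  ![x 12 - 2 * (z 0 * x 0 + z 1 * x 3), x 13 - 2 * (z 0 * x 1 + z 1 * x 4),
    x 14 - 2 * (z 0 * x 2 + z 1 * x 5),
    2 * p 0 * x 0 - z 1 * x 6 + x 15, 2 * p 1 * x 1 - z 1 * x 7 + x 15,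
    2 * p 2 * x 2 - z 1 * x 8 + x 16, p 1 * x 2 + p 2 * x 1 - z 1 * x 9,
    p 0 * x 2 + p 2 * x 0 - z 1 * x 10, p 0 * x 1 + p 1 * x 0 - z 1 * x 11,
    2 * p 0 * x 3 + z 0 * x 6 + x 16, 2 * p 1 * x 4 + z 0 * x 7 - x 16,
    2 * p 2 * x 5 + z 0 * x 8 + x 15, p 1 * x 5 + p 2 * x 4 + z 0 * x 9,
    p 0 * x 5 + p 2 * x 3 + z 0 * x 10, p 0 * x 4 + p 1 * x 3 + z 0 * x 11,
    p 1 ^ 2 * x 8 - 2 * p 1 * p 2 * x 9 + p 2 ^ 2 * x 7,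
    p 0 ^ 2 * x 8 - 2 * p 0 * p 2 * x 10 + p 2 ^ 2 * x 6,
    p 0 ^ 2 * x 7 - 2 * p 0 * p 1 * x 11 + p 1 ^ 2 * x 6,
    x 12 - p 0 ^ 2 * x 9 + p 0 * p 1 * x 10 + p 0 * p 2 * x 11 - p 1 * p 2 * x 6,
    x 13 + p 0 * p 1 * x 9 - p 0 * p 2 * x 7 - p 1 ^ 2 * x 10 + p 1 * p 2 * x 11,
    x 14 - p 0 * p 1 * x 8 + p 0 * p 2 * x 9 + p 1 * p 2 * x 10 - p 2 ^ 2 * x 11]

/-- the map `L₁ → L₀` -/
def nC (p : Fin 3 → R) (z : Fin 2 → R) (u : Fin 21 → R) : Fin 5 → R :=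
  ![p 1 * u 2 + p 2 * u 1 - p 0 * u 15 - p 1 * u 20 - p 2 * u 19 + 2 * (z 0 * u 6 + z 1 * u 12),
    p 0 * u 2 + p 2 * u 0 - p 0 * u 20 - p 1 * u 16 - p 2 * u 18 + 2 * (z 0 * u 7 + z 1 * u 13),
    p 0 * u 1 + p 1 * u 0 - p 0 * u 19 - p 1 * u 18 - p 2 * u 17 + 2 * (z 0 * u 8 + z 1 * u 14),
    p 0 ^ 2 * u 11 - p 0 ^ 2 * u 4 + 2 * p 0 * p 1 * u 8 - 2 * p 0 * p 2 * u 13 + p 1 ^ 2 * u 11
      - p 1 ^ 2 * u 3 - 2 * p 1 * p 2 * u 12 + p 2 ^ 2 * u 10 + p 2 ^ 2 * u 9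
      - z 0 * u 15 - z 0 * u 16 - z 1 * u 17,
    p 0 ^ 2 * u 10 + p 0 ^ 2 * u 5 - 2 * p 0 * p 1 * u 14 - 2 * p 0 * p 2 * u 7 - p 1 ^ 2 * u 5
      + p 1 ^ 2 * u 9 + 2 * p 1 * p 2 * u 6 + p 2 ^ 2 * u 3 - p 2 ^ 2 * u 4
      - z 1 * u 15 + z 1 * u 16 - z 0 * u 17]

/-- the map `L₃ → L₂` of the Horrocks-Mumford monad -/
def hA (f : Fin 5 → R) (c : Fin 2 → R) : Fin 15 → R :=
  ![c 0 * f 0, c 0 * f 1, c 0 * f 2, c 0 * f 3, c 0 * f 4,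
    c 1 * f 0, c 1 * f 1, c 1 * f 2, c 1 * f 3, c 1 * f 4, 0, 0, 0, 0, 0]

/-- the map `L₂ → L₁` of the Horrocks-Mumford monad: two vectors `w` are mapped to `f ∧ w`, and the
last five basis vectors to `(a_i⁺, a_i⁻)`, `a_i⁺ = e_{i+2} ∧ e_{i+3}`, `a_i⁻ = e_{i+1} ∧ e_{i+4}`;
the basis of the second exterior power is
`e_0 e_1, e_0 e_2, e_0 e_3, e_0 e_4, e_1 e_2, e_1 e_3, e_1 e_4, e_2 e_3, e_2 e_4, e_3 e_4` -/
def hB (f : Fin 5 → R) (w : Fin 15 → R) : Fin 20 → R :=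
  ![f 0 * w 1 - f 1 * w 0 + w 13, f 0 * w 2 - f 2 * w 0, f 0 * w 3 - f 3 * w 0,
    f 0 * w 4 - f 4 * w 0 - w 12, f 1 * w 2 - f 2 * w 1 + w 14, f 1 * w 3 - f 3 * w 1,
    f 1 * w 4 - f 4 * w 1, f 2 * w 3 - f 3 * w 2 + w 10, f 2 * w 4 - f 4 * w 2,
    f 3 * w 4 - f 4 * w 3 + w 11,
    f 0 * w 6 - f 1 * w 5, f 0 * w 7 - f 2 * w 5 - w 11, f 0 * w 8 - f 3 * w 5 + w 14,
    f 0 * w 9 - f 4 * w 5, f 1 * w 7 - f 2 * w 6, f 1 * w 8 - f 3 * w 6 - w 12,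
    f 1 * w 9 - f 4 * w 6 + w 10, f 2 * w 8 - f 3 * w 7, f 2 * w 9 - f 4 * w 7 - w 13,
    f 3 * w 9 - f 4 * w 8]

/-- the map `L₁ → L₀` of the Horrocks-Mumford monad: `f ∧ (a_i⁺ ∧ v⁻ - a_i⁻ ∧ v⁺)` -/
def hC (f : Fin 5 → R) (v : Fin 20 → R) : Fin 5 → R :=
  ![f 0 * v 16 - f 1 * v 13 + f 4 * v 10 - (f 0 * v 7 - f 2 * v 2 + f 3 * v 1),
    f 0 * v 14 - f 1 * v 11 + f 2 * v 10 - (f 1 * v 9 - f 3 * v 6 + f 4 * v 5),
    f 1 * v 17 - f 2 * v 15 + f 3 * v 14 - (f 0 * v 8 - f 2 * v 3 + f 4 * v 1),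
    f 2 * v 19 - f 3 * v 18 + f 4 * v 17 - (f 0 * v 5 - f 1 * v 2 + f 3 * v 0),
    f 0 * v 19 - f 3 * v 13 + f 4 * v 12 - (f 1 * v 8 - f 2 * v 6 + f 4 * v 4)]

/-- the matrix of a linear map -/
def mt {m n : ℕ} (F : (Fin n → R) → (Fin m → R)) : Matrix (Fin m) (Fin n) R :=
  fun i j => F (Pi.single j 1) i

end

/-- the squares of the first three variables -/
def pp (K : Type) [Field K] : Fin 3 → S K := ![X 0 ^ 2, X 1 ^ 2, X 2 ^ 2]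

/-- the cubes of the last two variables -/
def zz (K : Type) [Field K] : Fin 2 → S K := ![X 3 ^ 3, X 4 ^ 3]

/-- degrees of `L₃` -/
def n3 : Fin 3 → ℤ := fun _ => 7

/-- degrees of `L₂` -/
def n2 : Fin 17 → ℤ := ![4, 4, 4, 4, 4, 4, 5, 5, 5, 5, 5, 5, 1, 1, 1, 2, 2]

/-- degrees of `L₁` -/
def n1 : Fin 21 → ℤ := ![1, 1, 1, 2, 2, 2, 2, 2, 2, 2, 2, 2, 2, 2, 2, 1, 1, 1, 1, 1, 1]

/-- degrees of `L₀` -/
def n0 : Fin 5 → ℤ := ![-1, -1, -1, -2, -2]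

/-- degrees of `L₃` for Horrocks-Mumford -/
def h3 (d : ℤ) : Fin 2 → ℤ := fun _ => 2 * d

/-- degrees of `L₂` for Horrocks-Mumford -/
def h2 (d : ℤ) : Fin 15 → ℤ := ![d, d, d, d, d, d, d, d, d, d, 0, 0, 0, 0, 0]

/-- degrees of `L₁` for Horrocks-Mumford -/
def h1 : Fin 20 → ℤ := fun _ => 0

/-- degrees of `L₀` for Horrocks-Mumford -/
def h0 (d : ℤ) : Fin 5 → ℤ := fun _ => -d

end Pool.Agent.Lib.MP_745d3a_ag.NB
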