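import Mathlib

/-!
Vanishing of `Ext` of a module which is killed by a regular sequence.
-/

set_option autoImplicit false

open CategoryTheory Abelian RingTheory.Sequence MvPolynomial

namespace Pool.Agent.Lib.MP_745d3a_ag.NB

universe u

section gen

variable {R : Type u} [CommRing R]

/-- an element killing the first argument kills `Ext` -/
lemma smul_ext_eq_zero {T N : ModuleCat.{u} R} {r : R} (h : ∀ t : T, r • t = 0) {i : ℕ}
    (x : Ext T N i) : r • x = 0 := by
  have h1 : r • 𝟙 T = 0 := by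
    ext t
    exact h t
  have h2 : r • x = (Ext.mk₀ (r • 𝟙 T)).comp x (zero_add i) := by
    rw [Ext.mk₀_smul, Ext.smul_comp, Ext.mk₀_id_comp]
  rw [h2, h1, Ext.mk₀_zero, Ext.zero_comp]

/-- `Ext i T N = 0` for `i` smaller than the length of an `N`-regular sequence which kills `T`. -/
theorem ext_eq_zero_of_regular (rs : List R) : ∀ (N : ModuleCat.{u} R), IsWeaklyRegular N rs →
    ∀ (T : ModuleCat.{u} R), (∀ r ∈ rs, ∀ t : T, r • t = 0) → ∀ i < rs.length,
      ∀ x : Ext T N i, x = 0 := by
  induction rs with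
  | nil => intro N _ T _ i hi; simp at hi
  | cons r rs ih =>
    intro N hN T hT i hi x
    rw [isWeaklyRegular_cons_iff] at hN
    have hr : ∀ t : T, r • t = 0 := hT r (by simp)
    have hx : r • x = 0 := smul_ext_eq_zero hr x
    have hS := hN.1.smulShortComplex_shortExact
    have hx' : x.comp (Ext.mk₀ (ModuleCat.smulShortComplex N r).f) (add_zero i) = 0 := by
      have h1 : x.comp (Ext.mk₀ (r • 𝟙 N)) (add_zero i) = 0 := by
        rw [Ext.mk₀_smul, Ext.comp_smul, Ext.comp_mk₀_id, hx]
      exact h1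
    rcases i with _ | j
    · have := hS.mono_f
      have hinj := Ext.postcomp_mk₀_injective_of_mono T (ModuleCat.smulShortComplex N r).f
      exact hinj (hx'.trans (map_zero _).symm)
    · obtain ⟨y, hy⟩ := Ext.covariant_sequence_exact₁ T hS x hx' (rfl : j + 1 = j + 1)
      have h0 : y = 0 := ih (ModuleCat.of R (QuotSMulTop r N)) hN.2 T
        (fun s hs t => hT s (List.mem_cons_of_mem _ hs) t) j (by simpa using hi) y
      rw [← hy, h0]
      exact Ext.zero_comp _ _ hS.extClass (j + 1) rfl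

end gen

section mv

variable {K : Type u} [Field K]

/-- the ideal generated by the `N`-th powers of some variables -/
noncomputable def pid (K : Type u) [Field K] (N : ℕ) (A : Set (Fin 5)) : Ideal (MvPolynomial (Fin 5) K) :=
  Ideal.span ((fun j => (X j ^ N : MvPolynomial (Fin 5) K)) '' A)

lemma mem_pid_iff {N : ℕ} {A : Set (Fin 5)} {f : MvPolynomial (Fin 5) K} :
    f ∈ pid K N A ↔ ∀ m ∈ f.support, ∃ j ∈ A, N ≤ m j := by
  have h1 : pid K N A = Ideal.span ((fun s => monomial s (1 : K)) ''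
      ((fun j => Finsupp.single j N) '' A)) := by
    rw [pid, Set.image_image]
    refine congrArg _ (Set.image_congr fun j _ => ?_)
    exact MvPolynomial.X_pow_eq_monomial
  rw [h1, mem_ideal_span_monomial_image]
  refine forall₂_congr fun m _ => ?_
  constructor
  · rintro ⟨_, ⟨j, hj, rfl⟩, h⟩
    exact ⟨j, hj, by simpa using h j⟩
  · rintro ⟨j, hj, h⟩
    exact ⟨_, ⟨j, hj, rfl⟩, Finsupp.single_le_iff.2 h⟩

lemma mem_pid_of_mul {N M : ℕ} {A : Set (Fin 5)} {k : Fin 5} (hk : k ∉ A)
    {f : MvPolynomial (Fin 5) K} (h : (X k ^ M : MvPolynomial (Fin 5) K) * f ∈ pid K N A) :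
    f ∈ pid K N A := by
  rw [mem_pid_iff] at h ⊢
  intro m hm
  have h1 : Finsupp.single k M + m ∈ ((X k ^ M : MvPolynomial (Fin 5) K) * f).support := by
    rw [MvPolynomial.X_pow_eq_monomial, mem_support_iff, coeff_monomial_mul, one_mul]
    exact mem_support_iff.1 hm
  obtain ⟨j, hj, h2⟩ := h _ h1
  have hjk : k ≠ j := fun h => hk (h ▸ hj)
  refine ⟨j, hj, ?_⟩
  simpa [Finsupp.single_apply, hjk] using h2

/-- the list of the `N`-th powers of the variables -/
noncomputable def pl (K : Type u) [Field K] (N : ℕ) : List (MvPolynomial (Fin 5) K) :=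
  [X 0 ^ N, X 1 ^ N, X 2 ^ N, X 3 ^ N, X 4 ^ N]

lemma regular_pl (N : ℕ) : IsWeaklyRegular (MvPolynomial (Fin 5) K) (pl K N) := by
  have key : ∀ (A : Set (Fin 5)) (k : Fin 5) (I : Ideal (MvPolynomial (Fin 5) K)), k ∉ A →
      I = pid K N A → IsSMulRegular (MvPolynomial (Fin 5) K ⧸
        (I • ⊤ : Submodule (MvPolynomial (Fin 5) K) (MvPolynomial (Fin 5) K)))
        (X k ^ N : MvPolynomial (Fin 5) K) := by
    intro A k I hk hI
    have hI' : (I • ⊤ : Submodule (MvPolynomial (Fin 5) K) (MvPolynomial (Fin 5) K)) = pid K N A := by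
      rw [hI, smul_eq_mul, Ideal.mul_top]
    rw [hI']
    rw [isSMulRegular_iff_right_eq_zero_of_smul]
    intro x
    induction x using Submodule.Quotient.induction_on with
    | _ f =>
      intro h
      rw [← Submodule.Quotient.mk_smul, Submodule.Quotient.mk_eq_zero] at h
      rw [Submodule.Quotient.mk_eq_zero]
      exact mem_pid_of_mul hk h
  constructor
  intro i hi
  have hi' : i < 5 := hi
  interval_cases i
  · refine key ∅ 0 _ (by simp) ?_
    simp [pl, pid]
  · refine key {0} 1 _ (by simp) ?_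
    simp [pl, pid]
  · refine key {0, 1} 2 _ (by simp) ?_
    simp [pl, pid, Ideal.ofList_cons, Set.image_insert_eq, Ideal.span_insert]
  · refine key {0, 1, 2} 3 _ (by simp) ?_
    simp [pl, pid, Ideal.ofList_cons, Set.image_insert_eq, Ideal.span_insert]
  · refine key {0, 1, 2, 3} 4 _ (by simp) ?_
    simp [pl, pid, Ideal.ofList_cons, Set.image_insert_eq, Ideal.span_insert]

/-- Modules killed by a power of every variable. -/
def IsTors (K : Type u) [Field K] (T : Type u) [AddCommGroup T]
    [Module (MvPolynomial (Fin 5) K) T] : Prop :=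
  ∀ i : Fin 5, ∃ N : ℕ, ∀ t : T, (X i ^ N : MvPolynomial (Fin 5) K) • t = 0

lemma IsTors.exists_pow {T : Type u} [AddCommGroup T] [Module (MvPolynomial (Fin 5) K) T]
    (h : IsTors K T) : ∃ N : ℕ, ∀ i : Fin 5, ∀ t : T,
      (X i ^ N : MvPolynomial (Fin 5) K) • t = 0 := by
  choose N hN using h
  refine ⟨∑ i, N i, fun i t => ?_⟩
  obtain ⟨k, hk⟩ : ∃ k, ∑ i, N i = k + N i :=
    ⟨∑ j ∈ Finset.univ.erase i, N j, by rw [Finset.sum_erase_add _ _ (Finset.mem_univ i)]⟩
  rw [hk, pow_add, mul_smul, hN, smul_zero]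

/-- `Ext i T S = 0` for `i ≤ 4` when `T` is killed by a power of every variable. -/
theorem ext_eq_zero_of_tors {T : Type u} [AddCommGroup T] [Module (MvPolynomial (Fin 5) K) T]
    (h : IsTors K T) {i : ℕ} (hi : i ≤ 4)
    (x : Ext (ModuleCat.of (MvPolynomial (Fin 5) K) T)
      (ModuleCat.of (MvPolynomial (Fin 5) K) (MvPolynomial (Fin 5) K)) i) : x = 0 := by
  obtain ⟨N, hN⟩ := h.exists_pow
  refine ext_eq_zero_of_regular (pl K N) _ (regular_pl N) _ ?_ i ?_ x
  · intro r hr t
    simp only [pl, List.mem_cons, List.not_mem_nil, or_false] at hr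
    rcases hr with rfl | rfl | rfl | rfl | rfl
    · exact hN 0 t
    · exact hN 1 t
    · exact hN 2 t
    · exact hN 3 t
    · exact hN 4 t
  · simp only [pl, List.length_cons, List.length_nil]
    omega

end mv

end Pool.Agent.Lib.MP_745d3a_ag.NB
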