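import Pool.Agent.Lib.MP_745d3a_ag.NB.ExtA

/-!
Long exact sequences of `Ext` for linear maps.
-/

set_option autoImplicit false

open CategoryTheory Abelian

namespace Pool.Agent.Lib.MP_745d3a_ag.NB

universe u

section

variable {R : Type u} [CommRing R]

/-- the module `Ext i A N` -/
abbrev EX (R : Type u) [CommRing R] (A N : Type u) [AddCommGroup A] [Module R A] [AddCommGroup N]
    [Module R N] (i : ℕ) : Type u :=
  Ext (ModuleCat.of R A) (ModuleCat.of R N) i

variable {A B C N : Type u} [AddCommGroup A] [Module R A] [AddCommGroup B] [Module R B]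
  [AddCommGroup C] [Module R C] [AddCommGroup N] [Module R N]

/-- a short complex of modules -/
def sc (f : A →ₗ[R] B) (g : B →ₗ[R] C) (h : g ∘ₗ f = 0) : ShortComplex (ModuleCat.{u} R) :=
  ShortComplex.mk (ModuleCat.ofHom f) (ModuleCat.ofHom g) (by
    rw [← ModuleCat.ofHom_comp, h]; rfl)

lemma sc_shortExact (f : A →ₗ[R] B) (g : B →ₗ[R] C) (h : g ∘ₗ f = 0)
    (hf : Function.Injective f) (hg : Function.Surjective g) (hex : ∀ x, g x = 0 → ∃ y, f y = x) :
    (sc f g h).ShortExact where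
  exact := by
    rw [ShortComplex.moduleCat_exact_iff]
    intro x hx
    exact hex x hx
  mono_f := by
    rw [ModuleCat.mono_iff_injective]
    exact hf
  epi_g := by
    rw [ModuleCat.epi_iff_surjective]
    exact hg

/-- pull back along a linear map -/
noncomputable def pb (N : Type u) [AddCommGroup N] [Module R N] (f : A →ₗ[R] B) (i : ℕ) :
    EX R B N i →ₗ[R] EX R A N i :=
  (Ext.mk₀ (ModuleCat.ofHom f)).precompOfLinear R (ModuleCat.of R N) (zero_add i)

lemma pb_comp (f : A →ₗ[R] B) (g : B →ₗ[R] C) (i : ℕ) (x : EX R C N i) :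
    pb N (g ∘ₗ f) i x = pb N f i (pb N g i x) := by
  simp only [pb, Ext.precompOfLinear, Ext.bilinearCompOfLinear_apply_apply]
  rw [ModuleCat.ofHom_comp, ← Ext.mk₀_comp_mk₀, Ext.comp_assoc_of_second_deg_zero]

lemma pb_id (i : ℕ) (x : EX R A N i) : pb N (LinearMap.id : A →ₗ[R] A) i x = x := by
  simp only [pb, Ext.precompOfLinear, Ext.bilinearCompOfLinear_apply_apply]
  exact Ext.mk₀_id_comp _

/-- exactness in the middle -/
lemma pb_exact (f : A →ₗ[R] B) (g : B →ₗ[R] C) (h : g ∘ₗ f = 0)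
    (hf : Function.Injective f) (hg : Function.Surjective g) (hex : ∀ x, g x = 0 → ∃ y, f y = x)
    {i : ℕ} (x : EX R B N i) (hx : pb N f i x = 0) : ∃ y : EX R C N i, pb N g i y = x :=
  Ext.contravariant_sequence_exact₂ (sc_shortExact f g h hf hg hex) (ModuleCat.of R N) x hx

/-- the connecting map -/
noncomputable def dl (f : A →ₗ[R] B) (g : B →ₗ[R] C) (h : g ∘ₗ f = 0)
    (hf : Function.Injective f) (hg : Function.Surjective g) (hex : ∀ x, g x = 0 → ∃ y, f y = x)
    (N : Type u) [AddCommGroup N] [Module R N] (i : ℕ) : EX R A N i →ₗ[R] EX R C N (i + 1) :=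
  (sc_shortExact f g h hf hg hex).extClass.precompOfLinear R (ModuleCat.of R N) (add_comm 1 i)

lemma dl_exact₁ (f : A →ₗ[R] B) (g : B →ₗ[R] C) (h : g ∘ₗ f = 0)
    (hf : Function.Injective f) (hg : Function.Surjective g) (hex : ∀ x, g x = 0 → ∃ y, f y = x)
    {i : ℕ} (x : EX R A N i) (hx : dl f g h hf hg hex N i x = 0) :
    ∃ y : EX R B N i, pb N f i y = x :=
  Ext.contravariant_sequence_exact₁ (sc_shortExact f g h hf hg hex) (ModuleCat.of R N) x
    (add_comm 1 i) hx

lemma dl_exact₃ (f : A →ₗ[R] B) (g : B →ₗ[R] C) (h : g ∘ₗ f = 0)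
    (hf : Function.Injective f) (hg : Function.Surjective g) (hex : ∀ x, g x = 0 → ∃ y, f y = x)
    {i : ℕ} (x : EX R C N (i + 1)) (hx : pb N g (i + 1) x = 0) :
    ∃ y : EX R A N i, dl f g h hf hg hex N i y = x :=
  Ext.contravariant_sequence_exact₃ (sc_shortExact f g h hf hg hex) (ModuleCat.of R N) x hx
    (add_comm 1 i)

lemma dl_pb (f : A →ₗ[R] B) (g : B →ₗ[R] C) (h : g ∘ₗ f = 0)
    (hf : Function.Injective f) (hg : Function.Surjective g) (hex : ∀ x, g x = 0 → ∃ y, f y = x)
    {i : ℕ} (x : EX R B N i) : dl f g h hf hg hex N i (pb N f i x) = 0 := by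
  exact (sc_shortExact f g h hf hg hex).extClass_comp_assoc x (h := add_comm 1 i)

/-- vanishing of `Ext i A N` -/
def Van (R : Type u) [CommRing R] (A N : Type u) [AddCommGroup A] [Module R A] [AddCommGroup N]
    [Module R N] (i : ℕ) : Prop := ∀ x : EX R A N i, x = 0

lemma van_free [Module.Projective R A] (i : ℕ) : Van R A N (i + 1) := by
  intro x
  have : Projective (ModuleCat.of R A) := inferInstance
  exact Ext.eq_zero_of_projective x

lemma van_sub (f : A →ₗ[R] B) (g : B →ₗ[R] C) (h : g ∘ₗ f = 0)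
    (hf : Function.Injective f) (hg : Function.Surjective g) (hex : ∀ x, g x = 0 → ∃ y, f y = x)
    {i : ℕ} (hB : Van R B N i) (hC : Van R C N (i + 1)) : Van R A N i := by
  intro x
  obtain ⟨y, hy⟩ := dl_exact₁ f g h hf hg hex x (hC _)
  rw [← hy, hB y, map_zero]

lemma van_quot (f : A →ₗ[R] B) (g : B →ₗ[R] C) (h : g ∘ₗ f = 0)
    (hf : Function.Injective f) (hg : Function.Surjective g) (hex : ∀ x, g x = 0 → ∃ y, f y = x)
    {i : ℕ} (hA : Van R A N i) (hB : Van R B N (i + 1)) : Van R C N (i + 1) := by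
  intro x
  obtain ⟨y, hy⟩ := dl_exact₃ f g h hf hg hex x (hB _)
  rw [← hy, hA y, map_zero]

end

end Pool.Agent.Lib.MP_745d3a_ag.NB
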