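import Pool.Agent.Lib.MP_745d3a_ag.NB.ExtB

/-!
The second `Ext` module of the homology of a complex of free modules.
-/

set_option autoImplicit false

open CategoryTheory Abelian Matrix MvPolynomial

namespace Pool.Agent.Lib.MP_745d3a_ag.NB

universe u

section gen

variable {R : Type u} [CommRing R]
variable {A B C N : Type u} [AddCommGroup A] [Module R A] [AddCommGroup B] [Module R B]
  [AddCommGroup C] [Module R C] [AddCommGroup N] [Module R N]

/-- linear maps as elements of `Ext 0` -/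
noncomputable def ev0 : (A →ₗ[R] N) →ₗ[R] EX R A N 0 where
  toFun θ := Ext.mk₀ (ModuleCat.ofHom θ)
  map_add' θ η := by
    rw [← Ext.mk₀_add]
    rfl
  map_smul' r θ := by
    rw [RingHom.id_apply, ← Ext.mk₀_smul]
    rfl

lemma ev0_surj (x : EX R A N 0) : ∃ θ : A →ₗ[R] N, ev0 θ = x := by
  obtain ⟨θ, rfl⟩ := (Ext.mk₀_bijective _ _).2 x
  exact ⟨θ.hom, rfl⟩

lemma ev0_inj {θ : A →ₗ[R] N} (h : ev0 θ = 0) : θ = 0 := by
  have h1 : Ext.mk₀ (ModuleCat.ofHom θ) = Ext.mk₀ (0 : ModuleCat.of R A ⟶ ModuleCat.of R N) := by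
    rw [Ext.mk₀_zero]; exact h
  have h2 := (Ext.mk₀_bijective _ _).1 h1
  have h3 := congrArg ModuleCat.Hom.hom h2
  exact h3

lemma pb_ev0 (f : A →ₗ[R] B) (θ : B →ₗ[R] N) : pb N f 0 (ev0 θ) = ev0 (θ ∘ₗ f) := by
  have h : (Ext.mk₀ (ModuleCat.ofHom f)).comp (Ext.mk₀ (ModuleCat.ofHom θ)) (zero_add 0) =
    Ext.mk₀ (ModuleCat.ofHom f ≫ ModuleCat.ofHom θ) := Ext.mk₀_comp_mk₀ _ _
  exact h

/-- the functional given by a vector -/
noncomputable def fnl (n : Type*) [Fintype n] : (n → R) →ₗ[R] ((n → R) →ₗ[R] R) :=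
  LinearMap.mk₂ R (fun w v => w ⬝ᵥ v) (fun w w' v => add_dotProduct w w' v)
    (fun r w v => smul_dotProduct r w v) (fun w v v' => dotProduct_add w v v')
    (fun r w v => dotProduct_smul r w v)

lemma fnl_apply {n : Type*} [Fintype n] (w v : n → R) : fnl n w v = w ⬝ᵥ v := rfl

lemma fnl_surj {n : Type*} [Fintype n] [DecidableEq n] (θ : (n → R) →ₗ[R] R) :
    ∃ w, fnl n w = θ := by
  refine ⟨fun j => θ (Pi.single j 1), ?_⟩
  refine LinearMap.pi_ext' fun j => LinearMap.ext_ring ?_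
  simp [fnl_apply]

lemma fnl_inj {n : Type*} [Fintype n] [DecidableEq n] {w : n → R} (h : fnl n w = 0) : w = 0 := by
  ext j
  have := LinearMap.congr_fun h (Pi.single j 1)
  simpa [fnl_apply] using this

end gen

section main


variable {K : Type u} [Field K] {i5 i4 i3 i2 : Type u} [Fintype i5] [Fintype i4] [Fintype i3]
  [Fintype i2] [DecidableEq i5] [DecidableEq i4] [DecidableEq i3] [DecidableEq i2]

lemma van_tors {T : Type u} [AddCommGroup T] [Module (MvPolynomial (Fin 5) K) T]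
    (h : IsTors K T) {i : ℕ} (hi : i ≤ 4) :
    Van (MvPolynomial (Fin 5) K) T (MvPolynomial (Fin 5) K) i := fun x =>
  ext_eq_zero_of_tors h hi x

/-- `Ext 2 (ker D₃ / im D₄, S)` is the cokernel of the transpose of `D₅`. -/
theorem exists_ext_two (D5 : Matrix i4 i5 (MvPolynomial (Fin 5) K))
    (D4 : Matrix i3 i4 (MvPolynomial (Fin 5) K)) (D3 : Matrix i2 i3 (MvPolynomial (Fin 5) K))
    (h45 : D4 * D5 = 0) (h34 : D3 * D4 = 0)
    (inj : ∀ v, D5 *ᵥ v = 0 → v = 0) (ex : ∀ v, D4 *ᵥ v = 0 → ∃ u, D5 *ᵥ u = v)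
    (tor : ∀ i : Fin 5, ∃ N : ℕ, ∀ w, ∃ v, D3 *ᵥ v = (X i ^ N : MvPolynomial (Fin 5) K) • w)
    {M : Type u} [AddCommGroup M] [Module (MvPolynomial (Fin 5) K) M]
    (q : LinearMap.ker D3.mulVecLin →ₗ[MvPolynomial (Fin 5) K] M) (hq : Function.Surjective q)
    (hk : ∀ v, q v = 0 ↔ ∃ u, D4 *ᵥ u = v.1) :
    ∃ δ : (i5 → MvPolynomial (Fin 5) K) →ₗ[MvPolynomial (Fin 5) K]
      EX (MvPolynomial (Fin 5) K) M (MvPolynomial (Fin 5) K) 2, Function.Surjective δ ∧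
        ∀ w, δ w = 0 ↔ ∃ z, D5ᵀ *ᵥ z = w := by
  -- the four exact sequences
  let Z := LinearMap.ker D3.mulVecLin
  let I := LinearMap.range D3.mulVecLin
  let B := LinearMap.range D4.mulVecLin
  have h34' : ∀ u, D3 *ᵥ (D4 *ᵥ u) = 0 := by
    intro u
    rw [mulVec_mulVec, h34, zero_mulVec]
  have hBZ : B ≤ Z := by
    rintro _ ⟨u, rfl⟩
    exact h34' u
  -- vanishing
  have vQ : ∀ i ≤ 4, Van (MvPolynomial (Fin 5) K) ((i2 → (MvPolynomial (Fin 5) K)) ⧸ I) (MvPolynomial (Fin 5) K) i := by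
    intro i hi
    refine van_tors ?_ hi
    intro j
    obtain ⟨N, hN⟩ := tor j
    refine ⟨N, fun t => ?_⟩
    induction t using Submodule.Quotient.induction_on with
    | _ w =>
      obtain ⟨v, hv⟩ := hN w
      rw [← Submodule.Quotient.mk_smul, Submodule.Quotient.mk_eq_zero]
      exact ⟨v, hv⟩
  have vI : ∀ i, 1 ≤ i → i ≤ 3 → Van (MvPolynomial (Fin 5) K) I (MvPolynomial (Fin 5) K) i := by
    intro i hi1 hi
    obtain ⟨j, rfl⟩ : ∃ j, i = j + 1 := ⟨i - 1, by omega⟩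
    refine van_sub I.subtype I.mkQ (by ext; simp) (Submodule.subtype_injective _)
      (Submodule.mkQ_surjective _) ?_ (van_free j) (vQ _ (by omega))
    intro x hx
    exact ⟨⟨x, (Submodule.Quotient.mk_eq_zero _).1 hx⟩, rfl⟩
  have vZ : ∀ i, 1 ≤ i → i ≤ 2 → Van (MvPolynomial (Fin 5) K) Z (MvPolynomial (Fin 5) K) i := by
    intro i hi1 hi
    obtain ⟨j, rfl⟩ : ∃ j, i = j + 1 := ⟨i - 1, by omega⟩
    refine van_sub Z.subtype D3.mulVecLin.rangeRestrict ?_ (Submodule.subtype_injective _)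
      (LinearMap.surjective_rangeRestrict _) ?_ (van_free j) (vI _ (by omega) (by omega))
    · ext v : 1
      exact Subtype.ext v.2
    · intro x hx
      exact ⟨⟨x, congrArg Subtype.val hx⟩, rfl⟩
  -- connecting maps
  have hex2 : ∀ x : Z, q x = 0 → ∃ y : B, Submodule.inclusion hBZ y = x := by
    intro x hx
    obtain ⟨u, hu⟩ := (hk x).1 hx
    exact ⟨⟨x.1, u, hu⟩, rfl⟩
  have hz2 : q ∘ₗ Submodule.inclusion hBZ = 0 := by
    ext y : 1
    obtain ⟨u, hu⟩ := y.2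
    exact (hk _).2 ⟨u, hu⟩
  let d2 := dl (Submodule.inclusion hBZ) q hz2 (Submodule.inclusion_injective hBZ) hq hex2 (MvPolynomial (Fin 5) K) 1
  have hz1 : D4.mulVecLin.rangeRestrict ∘ₗ D5.mulVecLin = 0 := by
    refine LinearMap.ext fun v => Subtype.ext ?_
    show D4 *ᵥ (D5 *ᵥ v) = 0
    rw [mulVec_mulVec, h45, zero_mulVec]
  have hex1 : ∀ x, D4.mulVecLin.rangeRestrict x = 0 → ∃ y, D5.mulVecLin y = x := fun x hx =>
    ex x (congrArg Subtype.val hx)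
  have hi1 : Function.Injective D5.mulVecLin := by
    rw [← LinearMap.ker_eq_bot, LinearMap.ker_eq_bot']
    exact inj
  let d1 := dl D5.mulVecLin D4.mulVecLin.rangeRestrict hz1 hi1
    (LinearMap.surjective_rangeRestrict _) hex1 (MvPolynomial (Fin 5) K) 0
  refine ⟨d2 ∘ₗ d1 ∘ₗ ev0 ∘ₗ fnl i5, ?_, ?_⟩
  · intro x
    obtain ⟨y, hy⟩ := dl_exact₃ (Submodule.inclusion hBZ) q hz2 (Submodule.inclusion_injective hBZ)
      hq hex2 x (vZ 2 (by norm_num) le_rfl _)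
    obtain ⟨z, hz⟩ := dl_exact₃ D5.mulVecLin D4.mulVecLin.rangeRestrict hz1 hi1
      (LinearMap.surjective_rangeRestrict _) hex1 y (van_free 0 _)
    obtain ⟨θ, hθ⟩ := ev0_surj z
    obtain ⟨w, hw⟩ := fnl_surj θ
    refine ⟨w, ?_⟩
    show d2 (d1 (ev0 (fnl i5 w))) = x
    rw [hw, hθ]
    show d2 (d1 z) = x
    rw [show d1 z = y from hz]
    exact hy
  · intro w
    constructor
    · intro h
      obtain ⟨y, hy⟩ := dl_exact₁ (Submodule.inclusion hBZ) q hz2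
        (Submodule.inclusion_injective hBZ) hq hex2 (d1 (ev0 (fnl i5 w))) h
      have h1 : d1 (ev0 (fnl i5 w)) = 0 := by
        rw [← hy, vZ 1 le_rfl (by norm_num) y, map_zero]
      obtain ⟨z, hz⟩ := dl_exact₁ D5.mulVecLin D4.mulVecLin.rangeRestrict hz1 hi1
        (LinearMap.surjective_rangeRestrict _) hex1 (ev0 (fnl i5 w)) h1
      obtain ⟨θ, hθ⟩ := ev0_surj z
      obtain ⟨t, ht⟩ := fnl_surj θ
      refine ⟨t, ?_⟩
      rw [← hθ, ← ht, pb_ev0] at hz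
      have h2 : (fnl i4 t) ∘ₗ D5.mulVecLin = fnl i5 w := by
        rw [← sub_eq_zero]
        apply ev0_inj
        rw [map_sub, hz, sub_self]
      have h3 : fnl i5 (D5ᵀ *ᵥ t) = (fnl i4 t) ∘ₗ D5.mulVecLin := by
        refine LinearMap.ext fun v => ?_
        show (D5ᵀ *ᵥ t) ⬝ᵥ v = t ⬝ᵥ (D5 *ᵥ v)
        rw [mulVec_transpose, dotProduct_mulVec]
      rw [← sub_eq_zero]
      apply fnl_inj
      rw [map_sub, h3, h2, sub_self]
    · rintro ⟨t, rfl⟩
      have h3 : fnl i5 (D5ᵀ *ᵥ t) = (fnl i4 t) ∘ₗ D5.mulVecLin := by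
        refine LinearMap.ext fun v => ?_
        show (D5ᵀ *ᵥ t) ⬝ᵥ v = t ⬝ᵥ (D5 *ᵥ v)
        rw [mulVec_transpose, dotProduct_mulVec]
      show d2 (d1 (ev0 (fnl i5 (D5ᵀ *ᵥ t)))) = 0
      rw [h3, ← pb_ev0]
      have h4 : d1 (pb (MvPolynomial (Fin 5) K) D5.mulVecLin 0 (ev0 (fnl i4 t))) = 0 := dl_pb _ _ _ _ _ _ _
      rw [h4, map_zero]

end main

end Pool.Agent.Lib.MP_745d3a_ag.NB
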