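import Pool.Agent.Lib.MP_745d3a_ag.NB.ExtC

/-!
Linear maps which are isomorphisms up to powers of the variables, and `Ext 2`.
-/

set_option autoImplicit false

open CategoryTheory Abelian Matrix MvPolynomial

namespace Pool.Agent.Lib.MP_745d3a_ag.NB

universe u

section

variable {K : Type u} [Field K] {M M' M'' : Type u} [AddCommGroup M]
  [Module (MvPolynomial (Fin 5) K) M] [AddCommGroup M'] [Module (MvPolynomial (Fin 5) K) M']
  [AddCommGroup M''] [Module (MvPolynomial (Fin 5) K) M'']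

/-- A map whose kernel and cokernel are killed by a power of every variable induces an
isomorphism of the modules `Ext 2 _ S`. -/
theorem pb_bijective (κ : M →ₗ[MvPolynomial (Fin 5) K] M')
    (h1 : IsTors K (LinearMap.ker κ)) (h2 : IsTors K (M' ⧸ LinearMap.range κ)) :
    Function.Bijective (pb (MvPolynomial (Fin 5) K) κ 2) := by
  have e1 : ∀ x, κ.rangeRestrict x = 0 → ∃ y, (LinearMap.ker κ).subtype y = x := fun x hx =>
    ⟨⟨x, congrArg Subtype.val hx⟩, rfl⟩
  have z1 : κ.rangeRestrict ∘ₗ (LinearMap.ker κ).subtype = 0 :=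
    LinearMap.ext fun v => Subtype.ext v.2
  have e2 : ∀ x, (LinearMap.range κ).mkQ x = 0 → ∃ y, (LinearMap.range κ).subtype y = x :=
    fun x hx => ⟨⟨x, (Submodule.Quotient.mk_eq_zero _).1 hx⟩, rfl⟩
  have z2 : (LinearMap.range κ).mkQ ∘ₗ (LinearMap.range κ).subtype = 0 :=
    LinearMap.ext fun v => (Submodule.Quotient.mk_eq_zero _).2 v.2
  have hc : (LinearMap.range κ).subtype ∘ₗ κ.rangeRestrict = κ := rfl
  have hs1 := LinearMap.surjective_rangeRestrict κ
  have hi1 := Submodule.subtype_injective (LinearMap.ker κ)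
  have hs2 := Submodule.mkQ_surjective (LinearMap.range κ)
  have hi2 := Submodule.subtype_injective (LinearMap.range κ)
  have key : ∀ x, pb (MvPolynomial (Fin 5) K) κ 2 x =
      pb (MvPolynomial (Fin 5) K) κ.rangeRestrict 2
        (pb (MvPolynomial (Fin 5) K) (LinearMap.range κ).subtype 2 x) := by
    intro x
    rw [← pb_comp, hc]
  constructor
  · rw [← LinearMap.ker_eq_bot, LinearMap.ker_eq_bot']
    intro x hx
    rw [key] at hx
    obtain ⟨y, hy⟩ := dl_exact₃ (LinearMap.ker κ).subtype κ.rangeRestrict z1 hi1 hs1 e1 _ hx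
    rw [van_tors h1 (by norm_num) y, map_zero] at hy
    obtain ⟨z, hz⟩ := pb_exact (LinearMap.range κ).subtype (LinearMap.range κ).mkQ z2 hi2 hs2 e2
      x hy.symm
    rw [← hz, van_tors h2 (by norm_num) z, map_zero]
  · intro x
    obtain ⟨y, hy⟩ := pb_exact (LinearMap.ker κ).subtype κ.rangeRestrict z1 hi1 hs1 e1 x
      (van_tors h1 (by norm_num) _)
    obtain ⟨z, hz⟩ := dl_exact₁ (LinearMap.range κ).subtype (LinearMap.range κ).mkQ z2 hi2 hs2 e2
      y (van_tors h2 (by norm_num) _)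
    exact ⟨z, by rw [key, hz, hy]⟩

/-- Maps with a quasi-inverse up to a power of every variable. -/
def TI (κ : M →ₗ[MvPolynomial (Fin 5) K] M') : Prop :=
  ∀ i : Fin 5, ∃ (N : ℕ) (ρ : M' →ₗ[MvPolynomial (Fin 5) K] M),
    (∀ m', κ (ρ m') = (X i ^ N : MvPolynomial (Fin 5) K) • m') ∧
      ∀ m, ρ (κ m) = (X i ^ N : MvPolynomial (Fin 5) K) • m

lemma TI.comp {κ : M →ₗ[MvPolynomial (Fin 5) K] M'} {κ' : M' →ₗ[MvPolynomial (Fin 5) K] M''}
    (h' : TI κ') (h : TI κ) : TI (κ' ∘ₗ κ) := by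
  intro i
  obtain ⟨N, ρ, h1, h2⟩ := h i
  obtain ⟨N', ρ', h1', h2'⟩ := h' i
  refine ⟨N + N', ρ ∘ₗ ρ', fun m => ?_, fun m => ?_⟩
  · rw [LinearMap.comp_apply, LinearMap.comp_apply, h1, map_smul, h1', smul_smul, pow_add]
  · rw [LinearMap.comp_apply, LinearMap.comp_apply, h2', map_smul, h2, smul_smul, pow_add,
      mul_comm]

lemma TI.dual {κ : M →ₗ[MvPolynomial (Fin 5) K] M'} (h : TI κ) :
    TI (κ.dualMap : Module.Dual (MvPolynomial (Fin 5) K) M' →ₗ[MvPolynomial (Fin 5) K]
      Module.Dual (MvPolynomial (Fin 5) K) M) := by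
  intro i
  obtain ⟨N, ρ, h1, h2⟩ := h i
  refine ⟨N, ρ.dualMap, fun θ => ?_, fun θ => ?_⟩
  · ext m
    rw [LinearMap.dualMap_apply, LinearMap.dualMap_apply, h2, map_smul, LinearMap.smul_apply]
  · ext m
    rw [LinearMap.dualMap_apply, LinearMap.dualMap_apply, h1, map_smul, LinearMap.smul_apply]

lemma TI.ker {κ : M →ₗ[MvPolynomial (Fin 5) K] M'} (h : TI κ) : IsTors K (LinearMap.ker κ) := by
  intro i
  obtain ⟨N, ρ, _, h2⟩ := h i
  refine ⟨N, fun t => Subtype.ext ?_⟩
  have h3 := h2 t.1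
  rw [LinearMap.mem_ker.1 t.2, map_zero] at h3
  exact h3.symm

lemma TI.coker {κ : M →ₗ[MvPolynomial (Fin 5) K] M'} (h : TI κ) :
    IsTors K (M' ⧸ LinearMap.range κ) := by
  intro i
  obtain ⟨N, ρ, h1, _⟩ := h i
  refine ⟨N, fun t => ?_⟩
  induction t using Submodule.Quotient.induction_on with
  | _ w =>
    rw [← Submodule.Quotient.mk_smul, Submodule.Quotient.mk_eq_zero]
    exact ⟨ρ w, h1 w⟩

/-- kernel and cokernel killed by powers of the variables suffice -/
lemma TI.of_tors {κ : M →ₗ[MvPolynomial (Fin 5) K] M'}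
    (h1 : IsTors K (LinearMap.ker κ)) (h2 : IsTors K (M' ⧸ LinearMap.range κ)) : TI κ := by
  intro i
  obtain ⟨N, hN⟩ := h1 i
  obtain ⟨N', hN'⟩ := h2 i
  have h3 : ∀ m' : M', ∃ m : M, κ m = (X i ^ N' : MvPolynomial (Fin 5) K) • m' := by
    intro m'
    have := hN' (Submodule.Quotient.mk m')
    rw [← Submodule.Quotient.mk_smul, Submodule.Quotient.mk_eq_zero] at this
    exact this
  have h4 : ∀ m : M, κ m = 0 → (X i ^ N : MvPolynomial (Fin 5) K) • m = 0 := fun m hm =>
    congrArg Subtype.val (hN ⟨m, hm⟩)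
  choose s hs using h3
  refine ⟨N + N', ?_, ?_, ?_⟩
  · refine ⟨⟨fun m' => (X i ^ N : MvPolynomial (Fin 5) K) • s m', ?_⟩, ?_⟩
    · intro a b
      have := h4 (s (a + b) - (s a + s b)) (by
        rw [map_sub, map_add, hs, hs, hs, smul_add, sub_self])
      rw [smul_sub, sub_eq_zero, smul_add] at this
      exact this
    · intro r a
      have := h4 (s (r • a) - r • s a) (by
        rw [map_sub, map_smul, hs, hs, smul_smul, smul_smul, mul_comm, sub_self])
      rw [smul_sub, sub_eq_zero, smul_smul, mul_comm, ← smul_smul] at this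
      exact this
  · intro m'
    show κ ((X i ^ N : MvPolynomial (Fin 5) K) • s m') = _
    rw [map_smul, hs, smul_smul, pow_add]
  · intro m
    show (X i ^ N : MvPolynomial (Fin 5) K) • s (κ m) = _
    have := h4 (s (κ m) - (X i ^ N' : MvPolynomial (Fin 5) K) • m) (by
      rw [map_sub, map_smul, hs, sub_self])
    rw [smul_sub, sub_eq_zero, smul_smul, ← pow_add] at this
    exact this

/-- invariance of `Ext 2` -/
lemma TI.bijective {κ : M →ₗ[MvPolynomial (Fin 5) K] M'} (h : TI κ) :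
    Function.Bijective (pb (MvPolynomial (Fin 5) K) κ 2) := pb_bijective κ h.ker h.coker

end

end Pool.Agent.Lib.MP_745d3a_ag.NB
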