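import Pool.Agent.Lib.MP_745d3a_ag.NB.ExtD

/-!
Complexes `L₃ → L₂ → L₁ → L₀` of free modules which are exact up to powers of the variables except
at `L₁`: the number of generators of `Ext 2 M S` for the homology `M` at `L₁`.
-/

set_option autoImplicit false

open Matrix MvPolynomial

namespace Pool.Agent.Lib.MP_745d3a_ag.NB

universe u

section

variable {K : Type u} [Field K] {l3 l2 l1 l0 : Type u} [Fintype l3] [Fintype l2] [Fintype l1]
  [Fintype l0] [DecidableEq l3] [DecidableEq l2] [DecidableEq l1] [DecidableEq l0]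

/-- A complex which is exact up to powers of the variables except at the third place. -/
structure QE (A : Matrix l2 l3 (MvPolynomial (Fin 5) K)) (B : Matrix l1 l2 (MvPolynomial (Fin 5) K))
    (C : Matrix l0 l1 (MvPolynomial (Fin 5) K)) : Prop where
  BA : B * A = 0
  CB : C * B = 0
  left : ∀ i : Fin 5, ∃ (N : ℕ) (L : Matrix l2 l1 (MvPolynomial (Fin 5) K))
    (L' : Matrix l3 l2 (MvPolynomial (Fin 5) K)),
    L * B + A * L' = (X i ^ N : MvPolynomial (Fin 5) K) • (1 : Matrix l2 l2 _) ∧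
      L' * A = (X i ^ N : MvPolynomial (Fin 5) K) • (1 : Matrix l3 l3 _)
  right : ∀ i : Fin 5, ∃ (N : ℕ) (Q : Matrix l1 l0 (MvPolynomial (Fin 5) K)),
    C * Q = (X i ^ N : MvPolynomial (Fin 5) K) • (1 : Matrix l0 l0 _)

lemma X_pow_ne' (i : Fin 5) (N : ℕ) : (X i ^ N : MvPolynomial (Fin 5) K) ≠ 0 :=
  pow_ne_zero _ (X_ne_zero i)

lemma smul_vec_inj' {n : Type*} {s : MvPolynomial (Fin 5) K} (hs : s ≠ 0)
    {v w : n → MvPolynomial (Fin 5) K} (h : s • v = s • w) : v = w := by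
  ext1 j
  have := congrFun h j
  simp only [Pi.smul_apply, smul_eq_mul] at this
  exact mul_left_cancel₀ hs this

variable {A : Matrix l2 l3 (MvPolynomial (Fin 5) K)} {B : Matrix l1 l2 (MvPolynomial (Fin 5) K)}
    {C : Matrix l0 l1 (MvPolynomial (Fin 5) K)}

lemma QE.inj (h : QE A B C) (v : l3 → MvPolynomial (Fin 5) K) (hv : A *ᵥ v = 0) : v = 0 := by
  obtain ⟨N, L, L', _, h2⟩ := h.left 0
  have h3 : (X 0 ^ N : MvPolynomial (Fin 5) K) • v = 0 := by
    rw [← one_mulVec v, ← smul_mulVec, ← h2, ← mulVec_mulVec, hv, mulVec_zero]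
  apply smul_vec_inj' (X_pow_ne' 0 N)
  rw [h3, smul_zero]

lemma QE.exact (h : QE A B C) (v : l2 → MvPolynomial (Fin 5) K) (hv : B *ᵥ v = 0) :
    ∃ u, A *ᵥ u = v := by
  have key : ∀ {N : ℕ} {i : Fin 5} {L : Matrix l2 l1 (MvPolynomial (Fin 5) K)}
    {L' : Matrix l3 l2 (MvPolynomial (Fin 5) K)},
    L * B + A * L' = (X i ^ N : MvPolynomial (Fin 5) K) • (1 : Matrix l2 l2 _) →
      A *ᵥ (L' *ᵥ v) = (X i ^ N : MvPolynomial (Fin 5) K) • v := by
    intro N i L L' hc
    have h2 := congrArg (fun A => A *ᵥ v) hc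
    simp only [add_mulVec, ← mulVec_mulVec, hv, mulVec_zero, zero_add, smul_mulVec,
      one_mulVec] at h2
    exact h2
  obtain ⟨N, L, L', hc, _⟩ := h.left 0
  obtain ⟨N', M, M', hc', _⟩ := h.left 1
  have h1 := key hc
  have h2 := key hc'
  have h3 : (X 1 ^ N' : MvPolynomial (Fin 5) K) • (L' *ᵥ v) =
      (X 0 ^ N : MvPolynomial (Fin 5) K) • (M' *ᵥ v) := by
    rw [← sub_eq_zero]
    apply h.inj
    rw [mulVec_sub, mulVec_smul, mulVec_smul, h1, h2, smul_smul, smul_smul, mul_comm, sub_self]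
  have h4 : ∀ j, ∃ a, (L' *ᵥ v) j = (X 0 ^ N : MvPolynomial (Fin 5) K) * a := by
    intro j
    have h5 : (L' *ᵥ v) j ∈ pid K N {0} := by
      apply mem_pid_of_mul (k := 1) (M := N') (by simp)
      have := congrFun h3 j
      simp only [Pi.smul_apply, smul_eq_mul] at this
      rw [this]
      refine Ideal.mul_mem_right _ _ (Ideal.subset_span ⟨0, rfl, rfl⟩)
    rw [pid, Set.image_singleton, Ideal.mem_span_singleton'] at h5
    obtain ⟨a, ha⟩ := h5
    exact ⟨a, by rw [← ha, mul_comm]⟩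
  choose a ha using h4
  refine ⟨a, ?_⟩
  apply smul_vec_inj' (X_pow_ne' 0 N)
  rw [← h1, ← mulVec_smul]
  congr 1
  ext1 j
  exact (ha j).symm

variable {M : Type u} [AddCommGroup M] [Module (MvPolynomial (Fin 5) K) M]

/-- `Ext 2` of the homology. -/
theorem QE.ext_two (h : QE A B C)
    (q : LinearMap.ker C.mulVecLin →ₗ[MvPolynomial (Fin 5) K] M) (hq : Function.Surjective q)
    (hk : ∀ v, q v = 0 ↔ ∃ u, B *ᵥ u = v.1) :
    ∃ δ : (l3 → MvPolynomial (Fin 5) K) →ₗ[MvPolynomial (Fin 5) K]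
      EX (MvPolynomial (Fin 5) K) M (MvPolynomial (Fin 5) K) 2, Function.Surjective δ ∧
        ∀ w, δ w = 0 ↔ ∃ z, Aᵀ *ᵥ z = w := by
  refine exists_ext_two A B C h.BA h.CB h.inj h.exact ?_ q hq hk
  intro i
  obtain ⟨N, Q, hc⟩ := h.right i
  refine ⟨N, fun w => ⟨Q *ᵥ w, ?_⟩⟩
  rw [mulVec_mulVec, hc, smul_mulVec, one_mulVec]

/-- If the entries of `A` have no constant term and `M` is free, then `L₃ = 0`. -/
theorem QE.not_free (h : QE A B C) [Nonempty l3] (hA : ∀ i j, constantCoeff (A i j) = 0)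
    (q : LinearMap.ker C.mulVecLin →ₗ[MvPolynomial (Fin 5) K] M) (hq : Function.Surjective q)
    (hk : ∀ v, q v = 0 ↔ ∃ u, B *ᵥ u = v.1) : ¬ Module.Projective (MvPolynomial (Fin 5) K) M := by
  intro hM
  obtain ⟨δ, _, h2⟩ := h.ext_two q hq hk
  obtain ⟨j⟩ := ‹Nonempty l3›
  obtain ⟨z, hz⟩ := (h2 (Pi.single j 1)).1 (van_free 1 _)
  have h3 := congrArg constantCoeff (congrFun hz j)
  simp only [mulVec, dotProduct, transpose_apply, map_sum, map_mul, hA, zero_mul,
    Finset.sum_const_zero, Pi.single_eq_same, map_one] at h3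
  exact zero_ne_one h3

variable {l3' l2' l1' l0' : Type u} [Fintype l3'] [Fintype l2'] [Fintype l1']
  [Fintype l0'] [DecidableEq l3'] [DecidableEq l2'] [DecidableEq l1'] [DecidableEq l0']
  {A' : Matrix l2' l3' (MvPolynomial (Fin 5) K)} {B' : Matrix l1' l2' (MvPolynomial (Fin 5) K)}
  {C' : Matrix l0' l1' (MvPolynomial (Fin 5) K)} {M' : Type u} [AddCommGroup M']
  [Module (MvPolynomial (Fin 5) K) M']

/-- Modules with different numbers of generators of `Ext 2 _ S` are not related. -/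
theorem QE.not_equiv (h : QE A B C) (hA : ∀ i j, constantCoeff (A i j) = 0)
    (q : LinearMap.ker C.mulVecLin →ₗ[MvPolynomial (Fin 5) K] M) (hq : Function.Surjective q)
    (hk : ∀ v, q v = 0 ↔ ∃ u, B *ᵥ u = v.1) (h' : QE A' B' C')
    (q' : LinearMap.ker C'.mulVecLin →ₗ[MvPolynomial (Fin 5) K] M') (hq' : Function.Surjective q')
    (hk' : ∀ v, q' v = 0 ↔ ∃ u, B' *ᵥ u = v.1) (hcard : Fintype.card l3' < Fintype.card l3)
    (e : EX (MvPolynomial (Fin 5) K) M (MvPolynomial (Fin 5) K) 2 ≃ₗ[MvPolynomial (Fin 5) K]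
      EX (MvPolynomial (Fin 5) K) M' (MvPolynomial (Fin 5) K) 2) : False := by
  obtain ⟨δ, h1, h2⟩ := h.ext_two q hq hk
  obtain ⟨δ', h1', h2'⟩ := h'.ext_two q' hq' hk'
  have hb := e.bijective
  choose w hw using fun j : l3 => h1' (e (δ (Pi.single j 1)))
  choose z hz using fun k : l3' => (hb.2.comp h1) (δ' (Pi.single k 1))
  have key : ∀ j : l3, δ (Pi.single j 1) = δ (∑ k, w j k • z k) := by
    intro j
    apply hb.1
    rw [← hw j, map_sum, map_sum]
    have h3 : w j = ∑ k, w j k • (Pi.single k (1 : MvPolynomial (Fin 5) K) : l3' → _) := by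
      ext1 i
      simp [Finset.sum_apply, Pi.single_apply]
    conv_lhs => rw [h3]
    rw [map_sum]
    refine Finset.sum_congr rfl fun k _ => ?_
    rw [map_smul, map_smul, map_smul]
    congr 1
    exact (hz k).symm
  have key2 : ∀ j : l3, ∃ t, Aᵀ *ᵥ t = Pi.single j 1 - ∑ k, w j k • z k := by
    intro j
    rw [← h2, map_sub, key, sub_self]
  have key3 : (1 : Matrix l3 l3 K) =
      (Matrix.of fun j k => constantCoeff (w j k)) * (Matrix.of fun k i => constantCoeff (z k i)) := by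
    ext j i
    obtain ⟨t, ht⟩ := key2 j
    have h3 := congrArg constantCoeff (congrFun ht i)
    simp only [mulVec, dotProduct, transpose_apply, map_sum, map_mul, hA, zero_mul,
      Finset.sum_const_zero, Pi.sub_apply, map_sub, Finset.sum_apply, Pi.smul_apply,
      smul_eq_mul] at h3
    rw [Matrix.mul_apply]
    simp only [of_apply]
    have h4 : constantCoeff ((Pi.single j (1 : MvPolynomial (Fin 5) K) : l3 → _) i) =
        (1 : Matrix l3 l3 K) j i := by
      rw [Matrix.one_apply, Pi.single_apply]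
      by_cases hji : i = j
      · simp [hji]
      · rw [if_neg hji, if_neg (fun h => hji h.symm), map_zero]
    rw [← h4]
    exact (sub_eq_zero.1 h3.symm)
  have h5 : (1 : Matrix l3 l3 K).rank ≤ Fintype.card l3' := by
    rw [key3]
    exact (Matrix.rank_mul_le_left _ _).trans (Matrix.rank_le_card_width _)
  rw [Matrix.rank_one] at h5
  omega

/-- Modules with different numbers of generators of `Ext 2 _ S` are not related. -/
theorem QE.not_TI (h : QE A B C) (hA : ∀ i j, constantCoeff (A i j) = 0)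
    (q : LinearMap.ker C.mulVecLin →ₗ[MvPolynomial (Fin 5) K] M) (hq : Function.Surjective q)
    (hk : ∀ v, q v = 0 ↔ ∃ u, B *ᵥ u = v.1) (h' : QE A' B' C')
    (q' : LinearMap.ker C'.mulVecLin →ₗ[MvPolynomial (Fin 5) K] M') (hq' : Function.Surjective q')
    (hk' : ∀ v, q' v = 0 ↔ ∃ u, B' *ᵥ u = v.1) (hcard : Fintype.card l3' < Fintype.card l3)
    {κ : M' →ₗ[MvPolynomial (Fin 5) K] M} (hκ : TI κ) : False :=
  h.not_equiv hA q hq hk h' q' hq' hk' hcard (LinearEquiv.ofBijective _ hκ.bijective)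

/-- The same for a pair of maps `M ← M'' → M'`. -/
theorem QE.not_TI₂ (h : QE A B C) (hA : ∀ i j, constantCoeff (A i j) = 0)
    (q : LinearMap.ker C.mulVecLin →ₗ[MvPolynomial (Fin 5) K] M) (hq : Function.Surjective q)
    (hk : ∀ v, q v = 0 ↔ ∃ u, B *ᵥ u = v.1) (h' : QE A' B' C')
    (q' : LinearMap.ker C'.mulVecLin →ₗ[MvPolynomial (Fin 5) K] M') (hq' : Function.Surjective q')
    (hk' : ∀ v, q' v = 0 ↔ ∃ u, B' *ᵥ u = v.1) (hcard : Fintype.card l3' < Fintype.card l3)
    {M'' : Type u} [AddCommGroup M''] [Module (MvPolynomial (Fin 5) K) M'']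
    {κ : M'' →ₗ[MvPolynomial (Fin 5) K] M} (hκ : TI κ)
    {κ' : M'' →ₗ[MvPolynomial (Fin 5) K] M'} (hκ' : TI κ') : False :=
  h.not_equiv hA q hq hk h' q' hq' hk' hcard ((LinearEquiv.ofBijective _ hκ.bijective).trans
    (LinearEquiv.ofBijective _ hκ'.bijective).symm)

/-- If the entries of `A` have no constant term, then no `M''` is related both to `M` and to a
projective module. -/
theorem QE.not_TI_free (h : QE A B C) [Nonempty l3] (hA : ∀ i j, constantCoeff (A i j) = 0)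
    (q : LinearMap.ker C.mulVecLin →ₗ[MvPolynomial (Fin 5) K] M) (hq : Function.Surjective q)
    (hk : ∀ v, q v = 0 ↔ ∃ u, B *ᵥ u = v.1)
    [Module.Projective (MvPolynomial (Fin 5) K) M']
    {M'' : Type u} [AddCommGroup M''] [Module (MvPolynomial (Fin 5) K) M'']
    {κ : M'' →ₗ[MvPolynomial (Fin 5) K] M} (hκ : TI κ)
    {κ' : M'' →ₗ[MvPolynomial (Fin 5) K] M'} (hκ' : TI κ') : False := by
  obtain ⟨δ, _, h2⟩ := h.ext_two q hq hk
  obtain ⟨j⟩ := ‹Nonempty l3›
  have h0 : δ (Pi.single j 1) = 0 := by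
    apply hκ.bijective.1
    obtain ⟨y, hy⟩ := hκ'.bijective.2 (pb (MvPolynomial (Fin 5) K) κ 2 (δ (Pi.single j 1)))
    rw [← hy, van_free 1 y, map_zero, map_zero]
  obtain ⟨z, hz⟩ := (h2 (Pi.single j 1)).1 h0
  have h3 := congrArg constantCoeff (congrFun hz j)
  simp only [mulVec, dotProduct, transpose_apply, map_sum, map_mul, hA, zero_mul,
    Finset.sum_const_zero, Pi.single_eq_same, map_one] at h3
  exact zero_ne_one h3

end

end Pool.Agent.Lib.MP_745d3a_ag.NB
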