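import Pool.Agent.Lib.MP_745d3a_ag.NB.Main
import Pool.Agent.Lib.MP_745d3a_ag.NewBundle

/-!
The main theorem with the definitions of the statement.
-/

set_option autoImplicit false

noncomputable section

open MvPolynomial

namespace Pool.Agent.Lib.MP_745d3a_ag.NewBundle

open Pool.Agent.Lib.MP_745d3a_ag

theorem mem_forms {n : ℤ} {f : S} :
    f ∈ forms n ↔ IsWeightedHomogeneous (fun _ : Fin 5 => (1 : ℤ)) f n := Iff.rfl

theorem weight_one (d : Fin 5 →₀ ℕ) :
    Finsupp.weight (fun _ : Fin 5 => (1 : ℤ)) d = ((Finsupp.degree d : ℕ) : ℤ) := by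
  rw [Finsupp.weight_apply, Finsupp.degree, Finsupp.sum]
  simp

theorem forms_nat {n : ℕ} {f : S} (h : f ∈ forms n) : f.IsHomogeneous n := by
  intro d hd
  have h1 := h hd
  rw [weight_one] at h1
  have h2 : Finsupp.weight 1 d = Finsupp.degree d := by
    rw [Finsupp.degree_eq_weight_one]
    rfl
  rw [h2]
  exact_mod_cast h1

theorem forms_neg {n : ℤ} (hn : n < 0) {f : S} (h : f ∈ forms n) : f = 0 := by
  by_contra h0
  obtain ⟨d, hd⟩ := MvPolynomial.ne_zero_iff.1 h0
  have h1 := h hd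
  rw [weight_one] at h1
  omega

theorem IsRankTwoBundle.of {E : GradedModule} (h : NB.IsRankTwoBundle E.gr) :
    IsRankTwoBundle E where
  finite := h.finite
  reflexive := h.reflexive
  rank := h.rank
  locallyFree := h.locallyFree
  internal := h.internal
  smul_mem a b f m hf hm := by
    rcases lt_or_ge a 0 with ha | ha
    · rw [forms_neg ha hf, zero_smul]
      exact zero_mem _
    · obtain ⟨n, rfl⟩ := Int.eq_ofNat_of_zero_le ha
      exact h.smul_mem n b f m (forms_nat hf) hm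

theorem cycles_eq (f : Fin 5 → S) : cycles f = NB.hmKer f := by
  ext ω
  constructor
  · intro h
    have h1 : ∀ i j, ω.1 j i = -ω.1 i j := fun i j => congrFun (congrFun h.skew₁ i) j
    have h2 : ∀ i j, ω.2 j i = -ω.2 i j := fun i j => congrFun (congrFun h.skew₂ i) j
    have h0 : ∀ x : S, x = -x → x = 0 := fun x hx => by
      have h3 : (2 : S) * x = 0 := by linear_combination hx
      rcases mul_eq_zero.1 h3 with h4 | h4
      · exact absurd h4 two_ne_zero
      · exact h4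
    exact ⟨fun i j => ⟨h1 i j, h0 _ (h1 i i), h2 i j, h0 _ (h2 i i)⟩, h.closed⟩
  · intro h
    refine ⟨?_, ?_, h.2⟩
    · ext1 i j
      exact (h.1 i j).1
    · ext1 i j
      exact (h.1 i j).2.2.1

theorem hm_equiv (f : Fin 5 → S) :
    ∃ e : NB.HM f ≃ₗ[S] (hm f).M, ∀ n m, m ∈ NB.hmGr f n ↔ e m ∈ (hm f).gr n := by
  have key : ∀ Z : Submodule S (Matrix (Fin 5) (Fin 5) S × Matrix (Fin 5) (Fin 5) S),
      Z = NB.hmKer f → ∃ e : NB.HM f ≃ₗ[S] (quot (sub pairs Z) ((boundaries f).comap Z.subtype)).M,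
        ∀ n m, m ∈ NB.hmGr f n ↔
          e m ∈ (quot (sub pairs Z) ((boundaries f).comap Z.subtype)).gr n := by
    rintro Z rfl
    exact ⟨LinearEquiv.refl _ _, fun n m => Iff.rfl⟩
  exact key _ (cycles_eq f)

theorem IsSelfMap.nb {f : Fin 5 → S} {d : ℕ} (hf : IsSelfMap f d) : NB.IsSelfMap f d :=
  ⟨hf.pos, hf.form, hf.noZero⟩

/-- For each finite self-map `f` of `P^4`, of degree `d`, the module `hm f` is the module of a
vector bundle of rank two with Chern classes `d` and `4 d²`. -/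
theorem hm_bundle {f : Fin 5 → S} {d : ℕ} (hf : IsSelfMap f d) :
    IsRankTwoBundle (hm f) ∧ HasChern (hm f) d (4 * (d : ℤ) ^ 2) := by
  obtain ⟨e, he⟩ := hm_equiv f
  obtain ⟨h1, h2⟩ := NB.hm_bundle hf.nb
  exact ⟨IsRankTwoBundle.of (h1.of_equiv e he), h2.of_equiv e he⟩

theorem SheafIso.finrank_eq {E F : GradedModule} {k : ℤ} (h : SheafIso E F k) :
    ∃ n₀ : ℤ, ∀ n, n₀ ≤ n →
      Module.finrank ℂ (E.gr n) = Module.finrank ℂ (F.gr (n + k)) :=
  NB.SheafIso.finrank_eq (𝓜 := E.gr) (𝓝 := F.gr) h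

/-- the graded pieces of `S(a) ⊕ S(b)` -/
def splitEquiv (a b n : ℤ) : (split a b).gr n ≃ₗ[ℂ] (forms (n + a) × forms (n + b)) where
  toFun v := (⟨v.1.1, v.2.1⟩, ⟨v.1.2, v.2.2⟩)
  invFun w := ⟨(w.1.1, w.2.1), w.1.2, w.2.2⟩
  map_add' _ _ := rfl
  map_smul' _ _ := rfl
  left_inv _ := rfl
  right_inv _ := rfl

theorem finrank_split (a b : ℤ) (n : ℤ) (ha : -4 ≤ n + a) (hb : -4 ≤ n + b) :
    24 * (Module.finrank ℂ ((split a b).gr n) : ℤ) = NB.qq (n + a) + NB.qq (n + b) := by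
  have h1 : 24 * (Module.finrank ℂ (forms (n + a)) : ℤ) = NB.qq (n + a) :=
    NB.finrank_forms _ ha
  have h2 : 24 * (Module.finrank ℂ (forms (n + b)) : ℤ) = NB.qq (n + b) :=
    NB.finrank_forms _ hb
  have hfa : Module.Finite ℂ (forms (n + a)) := NB.finite_forms _
  have hfb : Module.Finite ℂ (forms (n + b)) := NB.finite_forms _
  rw [(splitEquiv a b n).finrank_eq, Module.finrank_prod]
  push_cast
  rw [mul_add, h1, h2]

/-- The module of the new bundle. -/
def new : GradedModule where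
  M := (NB.newMnd ℂ two_ne_zero).Md
  gr := (NB.newMnd ℂ two_ne_zero).deg

theorem new_chern : HasChern new 0 32 := NB.newMnd_chern (K := ℂ) two_ne_zero

theorem main : ∃ E : GradedModule, IsRankTwoBundle E ∧ HasChern E 0 32 ∧ Indecomposable E ∧
    (∀ a b : ℤ, ¬ SheafIso E (split a b) 0) ∧ ¬ IsHorrocksMumfordType E := by
  refine ⟨new, IsRankTwoBundle.of (NB.Mnd.bundle _), new_chern, ?_, ?_, ?_⟩
  · exact NB.new_indecomposable (K := ℂ) two_ne_zero
  · intro a b h
    obtain ⟨n₀, hn⟩ := h.finrank_eq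
    refine NB.no_split (NB.newMnd_chern (K := ℂ) two_ne_zero) a b
      (max n₀ (max (-4 - a) (-4 - b))) fun n hn' => ?_
    have h1 := hn n (by omega)
    rw [add_zero] at h1
    have h2 := finrank_split a b n (by omega) (by omega)
    rw [← h1] at h2
    exact h2
  · rintro ⟨f, d, k, hf, h⟩
    obtain ⟨h1, h2⟩ := NB.HasChern.unique (NB.newMnd_chern (K := ℂ) two_ne_zero) (hm_bundle hf).2
      h.finrank_eq
    exact NB.no_hm d hf.pos k h1 (by rw [h2])

end Pool.Agent.Lib.MP_745d3a_ag.NewBundle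

end
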