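import Pool.Agent.Lib.MP_745d3a_ag.NB.Defs

/-!
Homogeneity of the maps of the two monads.
-/

set_option autoImplicit false

noncomputable section

open MvPolynomial Matrix

namespace Pool.Agent.Lib.MP_745d3a_ag.NB

open Pool.Agent.Lib.MP_745d3a_ag.PB

variable {K : Type} [Field K]

lemma Form.zero (t : ℤ) : Form t (0 : S K) := isWeightedHomogeneous_zero K _ _

lemma Form.one : Form 0 (1 : S K) := isWeightedHomogeneous_one K _

lemma Form.add' {t : ℤ} {g h : S K} (hg : Form t g) (hh : Form t h) : Form t (g + h) :=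
  IsWeightedHomogeneous.add hg hh

lemma Form.neg' {t : ℤ} {g : S K} (hg : Form t g) : Form t (-g) :=
  (weightedHomogeneousSubmodule K (fun _ : Fin 5 => (1 : ℤ)) t).neg_mem hg

lemma Form.mul {s t : ℤ} {g h : S K} (hg : Form s g) (hh : Form t h) : Form (s + t) (g * h) :=
  IsWeightedHomogeneous.mul hg hh

lemma Form.two {t : ℤ} {g : S K} (hg : Form t g) : Form t (2 * g) := by
  rw [two_mul]
  exact hg.add' hg

lemma Form.tm {s t r : ℤ} {g h : S K} (hg : Form s g) (hh : Form t h) (e : s + t = r) :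
    Form r (g * h) := e ▸ hg.mul hh

/-- degrees of the values of `nA` -/
lemma nA_form {p : Fin 3 → S K} {z : Fin 2 → S K} (hp : ∀ i, Form 2 (p i)) (hz : ∀ i, Form 3 (z i))
    {t : ℤ} {a : Fin 3 → S K} (hx : ∀ k, Form (t - n3 k) (a k)) :
    ∀ i, Form (t - n2 i) (nA p z a i) := by
  intro i
  fin_cases i
  · have e : -(z 1 * a 0) =
        -((z 1) * a 0) := by ring
    change Form _ (-(z 1 * a 0))
    rw [e]
    exact Form.neg' (Form.tm (hz 1) (hx 0) (by dsimp [n0, n1, n2, n3, h0, h1, h2, h3]; ring))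
  · have e : -(z 1 * a 1) =
        -((z 1) * a 1) := by ring
    change Form _ (-(z 1 * a 1))
    rw [e]
    exact Form.neg' (Form.tm (hz 1) (hx 1) (by dsimp [n0, n1, n2, n3, h0, h1, h2, h3]; ring))
  · have e : -(z 1 * a 2) =
        -((z 1) * a 2) := by ring
    change Form _ (-(z 1 * a 2))
    rw [e]
    exact Form.neg' (Form.tm (hz 1) (hx 2) (by dsimp [n0, n1, n2, n3, h0, h1, h2, h3]; ring))
  · have e : z 0 * a 0 =
        (z 0) * a 0 := by ring
    change Form _ (z 0 * a 0)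
    rw [e]
    exact Form.tm (hz 0) (hx 0) (by dsimp [n0, n1, n2, n3, h0, h1, h2, h3]; ring)
  · have e : z 0 * a 1 =
        (z 0) * a 1 := by ring
    change Form _ (z 0 * a 1)
    rw [e]
    exact Form.tm (hz 0) (hx 1) (by dsimp [n0, n1, n2, n3, h0, h1, h2, h3]; ring)
  · have e : z 0 * a 2 =
        (z 0) * a 2 := by ring
    change Form _ (z 0 * a 2)
    rw [e]
    exact Form.tm (hz 0) (hx 2) (by dsimp [n0, n1, n2, n3, h0, h1, h2, h3]; ring)
  · have e : -(2 * p 0 * a 0) =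
        -(2 * ((p 0) * a 0)) := by ring
    change Form _ (-(2 * p 0 * a 0))
    rw [e]
    exact Form.neg' (Form.two (Form.tm (hp 0) (hx 0) (by dsimp [n0, n1, n2, n3, h0, h1, h2, h3]; ring)))
  · have e : -(2 * p 1 * a 1) =
        -(2 * ((p 1) * a 1)) := by ring
    change Form _ (-(2 * p 1 * a 1))
    rw [e]
    exact Form.neg' (Form.two (Form.tm (hp 1) (hx 1) (by dsimp [n0, n1, n2, n3, h0, h1, h2, h3]; ring)))
  · have e : -(2 * p 2 * a 2) =
        -(2 * ((p 2) * a 2)) := by ring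
    change Form _ (-(2 * p 2 * a 2))
    rw [e]
    exact Form.neg' (Form.two (Form.tm (hp 2) (hx 2) (by dsimp [n0, n1, n2, n3, h0, h1, h2, h3]; ring)))
  · have e : -(p 2 * a 1 + p 1 * a 2) =
        -((p 2) * a 1) +
        -((p 1) * a 2) := by ring
    change Form _ (-(p 2 * a 1 + p 1 * a 2))
    rw [e]
    refine Form.add' ?_ ?_
    · exact Form.neg' (Form.tm (hp 2) (hx 1) (by dsimp [n0, n1, n2, n3, h0, h1, h2, h3]; ring))
    · exact Form.neg' (Form.tm (hp 1) (hx 2) (by dsimp [n0, n1, n2, n3, h0, h1, h2, h3]; ring))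
  · have e : -(p 2 * a 0 + p 0 * a 2) =
        -((p 2) * a 0) +
        -((p 0) * a 2) := by ring
    change Form _ (-(p 2 * a 0 + p 0 * a 2))
    rw [e]
    refine Form.add' ?_ ?_
    · exact Form.neg' (Form.tm (hp 2) (hx 0) (by dsimp [n0, n1, n2, n3, h0, h1, h2, h3]; ring))
    · exact Form.neg' (Form.tm (hp 0) (hx 2) (by dsimp [n0, n1, n2, n3, h0, h1, h2, h3]; ring))
  · have e : -(p 1 * a 0 + p 0 * a 1) =
        -((p 1) * a 0) +
        -((p 0) * a 1) := by ring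
    change Form _ (-(p 1 * a 0 + p 0 * a 1))
    rw [e]
    refine Form.add' ?_ ?_
    · exact Form.neg' (Form.tm (hp 1) (hx 0) (by dsimp [n0, n1, n2, n3, h0, h1, h2, h3]; ring))
    · exact Form.neg' (Form.tm (hp 0) (hx 1) (by dsimp [n0, n1, n2, n3, h0, h1, h2, h3]; ring))
  · exact Form.zero _
  · exact Form.zero _
  · exact Form.zero _
  · exact Form.zero _
  · exact Form.zero _

/-- degrees of the values of `nB` -/
lemma nB_form {p : Fin 3 → S K} {z : Fin 2 → S K} (hp : ∀ i, Form 2 (p i)) (hz : ∀ i, Form 3 (z i))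
    {t : ℤ} {x : Fin 17 → S K} (hx : ∀ k, Form (t - n2 k) (x k)) :
    ∀ i, Form (t - n1 i) (nB p z x i) := by
  intro i
  fin_cases i
  · have e : x 12 - 2 * (z 0 * x 0 + z 1 * x 3) =
        -(2 * ((z 0) * x 0)) +
        ((1 : S K)) * x 12 +
        -(2 * ((z 1) * x 3)) := by ring
    change Form _ (x 12 - 2 * (z 0 * x 0 + z 1 * x 3))
    rw [e]
    refine Form.add' (Form.add' ?_ ?_) ?_
    · exact Form.neg' (Form.two (Form.tm (hz 0) (hx 0) (by dsimp [n0, n1, n2, n3, h0, h1, h2, h3]; ring)))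
    · exact Form.tm Form.one (hx 12) (by dsimp [n0, n1, n2, n3, h0, h1, h2, h3]; ring)
    · exact Form.neg' (Form.two (Form.tm (hz 1) (hx 3) (by dsimp [n0, n1, n2, n3, h0, h1, h2, h3]; ring)))
  · have e : x 13 - 2 * (z 0 * x 1 + z 1 * x 4) =
        -(2 * ((z 0) * x 1)) +
        ((1 : S K)) * x 13 +
        -(2 * ((z 1) * x 4)) := by ring
    change Form _ (x 13 - 2 * (z 0 * x 1 + z 1 * x 4))
    rw [e]
    refine Form.add' (Form.add' ?_ ?_) ?_
    · exact Form.neg' (Form.two (Form.tm (hz 0) (hx 1) (by dsimp [n0, n1, n2, n3, h0, h1, h2, h3]; ring)))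
    · exact Form.tm Form.one (hx 13) (by dsimp [n0, n1, n2, n3, h0, h1, h2, h3]; ring)
    · exact Form.neg' (Form.two (Form.tm (hz 1) (hx 4) (by dsimp [n0, n1, n2, n3, h0, h1, h2, h3]; ring)))
  · have e : x 14 - 2 * (z 0 * x 2 + z 1 * x 5) =
        ((1 : S K)) * x 14 +
        -(2 * ((z 0) * x 2)) +
        -(2 * ((z 1) * x 5)) := by ring
    change Form _ (x 14 - 2 * (z 0 * x 2 + z 1 * x 5))
    rw [e]
    refine Form.add' (Form.add' ?_ ?_) ?_
    · exact Form.tm Form.one (hx 14) (by dsimp [n0, n1, n2, n3, h0, h1, h2, h3]; ring)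
    · exact Form.neg' (Form.two (Form.tm (hz 0) (hx 2) (by dsimp [n0, n1, n2, n3, h0, h1, h2, h3]; ring)))
    · exact Form.neg' (Form.two (Form.tm (hz 1) (hx 5) (by dsimp [n0, n1, n2, n3, h0, h1, h2, h3]; ring)))
  · have e : 2 * p 0 * x 0 - z 1 * x 6 + x 15 =
        2 * ((p 0) * x 0) +
        ((1 : S K)) * x 15 +
        -((z 1) * x 6) := by ring
    change Form _ (2 * p 0 * x 0 - z 1 * x 6 + x 15)
    rw [e]
    refine Form.add' (Form.add' ?_ ?_) ?_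
    · exact Form.two (Form.tm (hp 0) (hx 0) (by dsimp [n0, n1, n2, n3, h0, h1, h2, h3]; ring))
    · exact Form.tm Form.one (hx 15) (by dsimp [n0, n1, n2, n3, h0, h1, h2, h3]; ring)
    · exact Form.neg' (Form.tm (hz 1) (hx 6) (by dsimp [n0, n1, n2, n3, h0, h1, h2, h3]; ring))
  · have e : 2 * p 1 * x 1 - z 1 * x 7 + x 15 =
        2 * ((p 1) * x 1) +
        ((1 : S K)) * x 15 +
        -((z 1) * x 7) := by ring
    change Form _ (2 * p 1 * x 1 - z 1 * x 7 + x 15)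
    rw [e]
    refine Form.add' (Form.add' ?_ ?_) ?_
    · exact Form.two (Form.tm (hp 1) (hx 1) (by dsimp [n0, n1, n2, n3, h0, h1, h2, h3]; ring))
    · exact Form.tm Form.one (hx 15) (by dsimp [n0, n1, n2, n3, h0, h1, h2, h3]; ring)
    · exact Form.neg' (Form.tm (hz 1) (hx 7) (by dsimp [n0, n1, n2, n3, h0, h1, h2, h3]; ring))
  · have e : 2 * p 2 * x 2 - z 1 * x 8 + x 16 =
        2 * ((p 2) * x 2) +
        ((1 : S K)) * x 16 +
        -((z 1) * x 8) := by ring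
    change Form _ (2 * p 2 * x 2 - z 1 * x 8 + x 16)
    rw [e]
    refine Form.add' (Form.add' ?_ ?_) ?_
    · exact Form.two (Form.tm (hp 2) (hx 2) (by dsimp [n0, n1, n2, n3, h0, h1, h2, h3]; ring))
    · exact Form.tm Form.one (hx 16) (by dsimp [n0, n1, n2, n3, h0, h1, h2, h3]; ring)
    · exact Form.neg' (Form.tm (hz 1) (hx 8) (by dsimp [n0, n1, n2, n3, h0, h1, h2, h3]; ring))
  · have e : p 1 * x 2 + p 2 * x 1 - z 1 * x 9 =
        (p 1) * x 2 +
        (p 2) * x 1 +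
        -((z 1) * x 9) := by ring
    change Form _ (p 1 * x 2 + p 2 * x 1 - z 1 * x 9)
    rw [e]
    refine Form.add' (Form.add' ?_ ?_) ?_
    · exact Form.tm (hp 1) (hx 2) (by dsimp [n0, n1, n2, n3, h0, h1, h2, h3]; ring)
    · exact Form.tm (hp 2) (hx 1) (by dsimp [n0, n1, n2, n3, h0, h1, h2, h3]; ring)
    · exact Form.neg' (Form.tm (hz 1) (hx 9) (by dsimp [n0, n1, n2, n3, h0, h1, h2, h3]; ring))
  · have e : p 0 * x 2 + p 2 * x 0 - z 1 * x 10 =
        (p 0) * x 2 +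
        (p 2) * x 0 +
        -((z 1) * x 10) := by ring
    change Form _ (p 0 * x 2 + p 2 * x 0 - z 1 * x 10)
    rw [e]
    refine Form.add' (Form.add' ?_ ?_) ?_
    · exact Form.tm (hp 0) (hx 2) (by dsimp [n0, n1, n2, n3, h0, h1, h2, h3]; ring)
    · exact Form.tm (hp 2) (hx 0) (by dsimp [n0, n1, n2, n3, h0, h1, h2, h3]; ring)
    · exact Form.neg' (Form.tm (hz 1) (hx 10) (by dsimp [n0, n1, n2, n3, h0, h1, h2, h3]; ring))
  · have e : p 0 * x 1 + p 1 * x 0 - z 1 * x 11 =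
        (p 0) * x 1 +
        (p 1) * x 0 +
        -((z 1) * x 11) := by ring
    change Form _ (p 0 * x 1 + p 1 * x 0 - z 1 * x 11)
    rw [e]
    refine Form.add' (Form.add' ?_ ?_) ?_
    · exact Form.tm (hp 0) (hx 1) (by dsimp [n0, n1, n2, n3, h0, h1, h2, h3]; ring)
    · exact Form.tm (hp 1) (hx 0) (by dsimp [n0, n1, n2, n3, h0, h1, h2, h3]; ring)
    · exact Form.neg' (Form.tm (hz 1) (hx 11) (by dsimp [n0, n1, n2, n3, h0, h1, h2, h3]; ring))
  · have e : 2 * p 0 * x 3 + z 0 * x 6 + x 16 =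
        2 * ((p 0) * x 3) +
        ((1 : S K)) * x 16 +
        (z 0) * x 6 := by ring
    change Form _ (2 * p 0 * x 3 + z 0 * x 6 + x 16)
    rw [e]
    refine Form.add' (Form.add' ?_ ?_) ?_
    · exact Form.two (Form.tm (hp 0) (hx 3) (by dsimp [n0, n1, n2, n3, h0, h1, h2, h3]; ring))
    · exact Form.tm Form.one (hx 16) (by dsimp [n0, n1, n2, n3, h0, h1, h2, h3]; ring)
    · exact Form.tm (hz 0) (hx 6) (by dsimp [n0, n1, n2, n3, h0, h1, h2, h3]; ring)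
  · have e : 2 * p 1 * x 4 + z 0 * x 7 - x 16 =
        2 * ((p 1) * x 4) +
        -(((1 : S K)) * x 16) +
        (z 0) * x 7 := by ring
    change Form _ (2 * p 1 * x 4 + z 0 * x 7 - x 16)
    rw [e]
    refine Form.add' (Form.add' ?_ ?_) ?_
    · exact Form.two (Form.tm (hp 1) (hx 4) (by dsimp [n0, n1, n2, n3, h0, h1, h2, h3]; ring))
    · exact Form.neg' (Form.tm Form.one (hx 16) (by dsimp [n0, n1, n2, n3, h0, h1, h2, h3]; ring))
    · exact Form.tm (hz 0) (hx 7) (by dsimp [n0, n1, n2, n3, h0, h1, h2, h3]; ring)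
  · have e : 2 * p 2 * x 5 + z 0 * x 8 + x 15 =
        2 * ((p 2) * x 5) +
        ((1 : S K)) * x 15 +
        (z 0) * x 8 := by ring
    change Form _ (2 * p 2 * x 5 + z 0 * x 8 + x 15)
    rw [e]
    refine Form.add' (Form.add' ?_ ?_) ?_
    · exact Form.two (Form.tm (hp 2) (hx 5) (by dsimp [n0, n1, n2, n3, h0, h1, h2, h3]; ring))
    · exact Form.tm Form.one (hx 15) (by dsimp [n0, n1, n2, n3, h0, h1, h2, h3]; ring)
    · exact Form.tm (hz 0) (hx 8) (by dsimp [n0, n1, n2, n3, h0, h1, h2, h3]; ring)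
  · have e : p 1 * x 5 + p 2 * x 4 + z 0 * x 9 =
        (p 1) * x 5 +
        (p 2) * x 4 +
        (z 0) * x 9 := by ring
    change Form _ (p 1 * x 5 + p 2 * x 4 + z 0 * x 9)
    rw [e]
    refine Form.add' (Form.add' ?_ ?_) ?_
    · exact Form.tm (hp 1) (hx 5) (by dsimp [n0, n1, n2, n3, h0, h1, h2, h3]; ring)
    · exact Form.tm (hp 2) (hx 4) (by dsimp [n0, n1, n2, n3, h0, h1, h2, h3]; ring)
    · exact Form.tm (hz 0) (hx 9) (by dsimp [n0, n1, n2, n3, h0, h1, h2, h3]; ring)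
  · have e : p 0 * x 5 + p 2 * x 3 + z 0 * x 10 =
        (p 0) * x 5 +
        (p 2) * x 3 +
        (z 0) * x 10 := by ring
    change Form _ (p 0 * x 5 + p 2 * x 3 + z 0 * x 10)
    rw [e]
    refine Form.add' (Form.add' ?_ ?_) ?_
    · exact Form.tm (hp 0) (hx 5) (by dsimp [n0, n1, n2, n3, h0, h1, h2, h3]; ring)
    · exact Form.tm (hp 2) (hx 3) (by dsimp [n0, n1, n2, n3, h0, h1, h2, h3]; ring)
    · exact Form.tm (hz 0) (hx 10) (by dsimp [n0, n1, n2, n3, h0, h1, h2, h3]; ring)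
  · have e : p 0 * x 4 + p 1 * x 3 + z 0 * x 11 =
        (p 0) * x 4 +
        (p 1) * x 3 +
        (z 0) * x 11 := by ring
    change Form _ (p 0 * x 4 + p 1 * x 3 + z 0 * x 11)
    rw [e]
    refine Form.add' (Form.add' ?_ ?_) ?_
    · exact Form.tm (hp 0) (hx 4) (by dsimp [n0, n1, n2, n3, h0, h1, h2, h3]; ring)
    · exact Form.tm (hp 1) (hx 3) (by dsimp [n0, n1, n2, n3, h0, h1, h2, h3]; ring)
    · exact Form.tm (hz 0) (hx 11) (by dsimp [n0, n1, n2, n3, h0, h1, h2, h3]; ring)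
  · have e : p 1 ^ 2 * x 8 - 2 * p 1 * p 2 * x 9 + p 2 ^ 2 * x 7 =
        (p 1 * p 1) * x 8 +
        -(2 * ((p 1 * p 2) * x 9)) +
        (p 2 * p 2) * x 7 := by ring
    change Form _ (p 1 ^ 2 * x 8 - 2 * p 1 * p 2 * x 9 + p 2 ^ 2 * x 7)
    rw [e]
    refine Form.add' (Form.add' ?_ ?_) ?_
    · exact Form.tm ((hp 1).mul (hp 1)) (hx 8) (by dsimp [n0, n1, n2, n3, h0, h1, h2, h3]; ring)
    · exact Form.neg' (Form.two (Form.tm ((hp 1).mul (hp 2)) (hx 9) (by dsimp [n0, n1, n2, n3, h0, h1, h2, h3]; ring)))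
    · exact Form.tm ((hp 2).mul (hp 2)) (hx 7) (by dsimp [n0, n1, n2, n3, h0, h1, h2, h3]; ring)
  · have e : p 0 ^ 2 * x 8 - 2 * p 0 * p 2 * x 10 + p 2 ^ 2 * x 6 =
        (p 0 * p 0) * x 8 +
        -(2 * ((p 0 * p 2) * x 10)) +
        (p 2 * p 2) * x 6 := by ring
    change Form _ (p 0 ^ 2 * x 8 - 2 * p 0 * p 2 * x 10 + p 2 ^ 2 * x 6)
    rw [e]
    refine Form.add' (Form.add' ?_ ?_) ?_
    · exact Form.tm ((hp 0).mul (hp 0)) (hx 8) (by dsimp [n0, n1, n2, n3, h0, h1, h2, h3]; ring)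
    · exact Form.neg' (Form.two (Form.tm ((hp 0).mul (hp 2)) (hx 10) (by dsimp [n0, n1, n2, n3, h0, h1, h2, h3]; ring)))
    · exact Form.tm ((hp 2).mul (hp 2)) (hx 6) (by dsimp [n0, n1, n2, n3, h0, h1, h2, h3]; ring)
  · have e : p 0 ^ 2 * x 7 - 2 * p 0 * p 1 * x 11 + p 1 ^ 2 * x 6 =
        (p 0 * p 0) * x 7 +
        -(2 * ((p 0 * p 1) * x 11)) +
        (p 1 * p 1) * x 6 := by ring
    change Form _ (p 0 ^ 2 * x 7 - 2 * p 0 * p 1 * x 11 + p 1 ^ 2 * x 6)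
    rw [e]
    refine Form.add' (Form.add' ?_ ?_) ?_
    · exact Form.tm ((hp 0).mul (hp 0)) (hx 7) (by dsimp [n0, n1, n2, n3, h0, h1, h2, h3]; ring)
    · exact Form.neg' (Form.two (Form.tm ((hp 0).mul (hp 1)) (hx 11) (by dsimp [n0, n1, n2, n3, h0, h1, h2, h3]; ring)))
    · exact Form.tm ((hp 1).mul (hp 1)) (hx 6) (by dsimp [n0, n1, n2, n3, h0, h1, h2, h3]; ring)
  · have e : x 12 - p 0 ^ 2 * x 9 + p 0 * p 1 * x 10 + p 0 * p 2 * x 11 - p 1 * p 2 * x 6 =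
        -((p 0 * p 0) * x 9) +
        (p 0 * p 1) * x 10 +
        (p 0 * p 2) * x 11 +
        -((p 1 * p 2) * x 6) +
        ((1 : S K)) * x 12 := by ring
    change Form _ (x 12 - p 0 ^ 2 * x 9 + p 0 * p 1 * x 10 + p 0 * p 2 * x 11 - p 1 * p 2 * x 6)
    rw [e]
    refine Form.add' (Form.add' (Form.add' (Form.add' ?_ ?_) ?_) ?_) ?_
    · exact Form.neg' (Form.tm ((hp 0).mul (hp 0)) (hx 9) (by dsimp [n0, n1, n2, n3, h0, h1, h2, h3]; ring))
    · exact Form.tm ((hp 0).mul (hp 1)) (hx 10) (by dsimp [n0, n1, n2, n3, h0, h1, h2, h3]; ring)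
    · exact Form.tm ((hp 0).mul (hp 2)) (hx 11) (by dsimp [n0, n1, n2, n3, h0, h1, h2, h3]; ring)
    · exact Form.neg' (Form.tm ((hp 1).mul (hp 2)) (hx 6) (by dsimp [n0, n1, n2, n3, h0, h1, h2, h3]; ring))
    · exact Form.tm Form.one (hx 12) (by dsimp [n0, n1, n2, n3, h0, h1, h2, h3]; ring)
  · have e : x 13 + p 0 * p 1 * x 9 - p 0 * p 2 * x 7 - p 1 ^ 2 * x 10 + p 1 * p 2 * x 11 =
        (p 0 * p 1) * x 9 +
        -((p 0 * p 2) * x 7) +
        -((p 1 * p 1) * x 10) +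
        (p 1 * p 2) * x 11 +
        ((1 : S K)) * x 13 := by ring
    change Form _ (x 13 + p 0 * p 1 * x 9 - p 0 * p 2 * x 7 - p 1 ^ 2 * x 10 + p 1 * p 2 * x 11)
    rw [e]
    refine Form.add' (Form.add' (Form.add' (Form.add' ?_ ?_) ?_) ?_) ?_
    · exact Form.tm ((hp 0).mul (hp 1)) (hx 9) (by dsimp [n0, n1, n2, n3, h0, h1, h2, h3]; ring)
    · exact Form.neg' (Form.tm ((hp 0).mul (hp 2)) (hx 7) (by dsimp [n0, n1, n2, n3, h0, h1, h2, h3]; ring))
    · exact Form.neg' (Form.tm ((hp 1).mul (hp 1)) (hx 10) (by dsimp [n0, n1, n2, n3, h0, h1, h2, h3]; ring))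
    · exact Form.tm ((hp 1).mul (hp 2)) (hx 11) (by dsimp [n0, n1, n2, n3, h0, h1, h2, h3]; ring)
    · exact Form.tm Form.one (hx 13) (by dsimp [n0, n1, n2, n3, h0, h1, h2, h3]; ring)
  · have e : x 14 - p 0 * p 1 * x 8 + p 0 * p 2 * x 9 + p 1 * p 2 * x 10 - p 2 ^ 2 * x 11 =
        -((p 0 * p 1) * x 8) +
        (p 0 * p 2) * x 9 +
        (p 1 * p 2) * x 10 +
        -((p 2 * p 2) * x 11) +
        ((1 : S K)) * x 14 := by ring
    change Form _ (x 14 - p 0 * p 1 * x 8 + p 0 * p 2 * x 9 + p 1 * p 2 * x 10 - p 2 ^ 2 * x 11)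
    rw [e]
    refine Form.add' (Form.add' (Form.add' (Form.add' ?_ ?_) ?_) ?_) ?_
    · exact Form.neg' (Form.tm ((hp 0).mul (hp 1)) (hx 8) (by dsimp [n0, n1, n2, n3, h0, h1, h2, h3]; ring))
    · exact Form.tm ((hp 0).mul (hp 2)) (hx 9) (by dsimp [n0, n1, n2, n3, h0, h1, h2, h3]; ring)
    · exact Form.tm ((hp 1).mul (hp 2)) (hx 10) (by dsimp [n0, n1, n2, n3, h0, h1, h2, h3]; ring)
    · exact Form.neg' (Form.tm ((hp 2).mul (hp 2)) (hx 11) (by dsimp [n0, n1, n2, n3, h0, h1, h2, h3]; ring))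
    · exact Form.tm Form.one (hx 14) (by dsimp [n0, n1, n2, n3, h0, h1, h2, h3]; ring)

/-- degrees of the values of `nC` -/
lemma nC_form {p : Fin 3 → S K} {z : Fin 2 → S K} (hp : ∀ i, Form 2 (p i)) (hz : ∀ i, Form 3 (z i))
    {t : ℤ} {u : Fin 21 → S K} (hx : ∀ k, Form (t - n1 k) (u k)) :
    ∀ i, Form (t - n0 i) (nC p z u i) := by
  intro i
  fin_cases i
  · have e : p 1 * u 2 + p 2 * u 1 - p 0 * u 15 - p 1 * u 20 - p 2 * u 19 + 2 * (z 0 * u 6 + z 1 * u 12) =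
        -((p 0) * u 15) +
        (p 1) * u 2 +
        -((p 1) * u 20) +
        (p 2) * u 1 +
        -((p 2) * u 19) +
        2 * ((z 1) * u 12) +
        2 * ((z 0) * u 6) := by ring
    change Form _ (p 1 * u 2 + p 2 * u 1 - p 0 * u 15 - p 1 * u 20 - p 2 * u 19 + 2 * (z 0 * u 6 + z 1 * u 12))
    rw [e]
    refine Form.add' (Form.add' (Form.add' (Form.add' (Form.add' (Form.add' ?_ ?_) ?_) ?_) ?_) ?_) ?_
    · exact Form.neg' (Form.tm (hp 0) (hx 15) (by dsimp [n0, n1, n2, n3, h0, h1, h2, h3]; ring))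
    · exact Form.tm (hp 1) (hx 2) (by dsimp [n0, n1, n2, n3, h0, h1, h2, h3]; ring)
    · exact Form.neg' (Form.tm (hp 1) (hx 20) (by dsimp [n0, n1, n2, n3, h0, h1, h2, h3]; ring))
    · exact Form.tm (hp 2) (hx 1) (by dsimp [n0, n1, n2, n3, h0, h1, h2, h3]; ring)
    · exact Form.neg' (Form.tm (hp 2) (hx 19) (by dsimp [n0, n1, n2, n3, h0, h1, h2, h3]; ring))
    · exact Form.two (Form.tm (hz 1) (hx 12) (by dsimp [n0, n1, n2, n3, h0, h1, h2, h3]; ring))
    · exact Form.two (Form.tm (hz 0) (hx 6) (by dsimp [n0, n1, n2, n3, h0, h1, h2, h3]; ring))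
  · have e : p 0 * u 2 + p 2 * u 0 - p 0 * u 20 - p 1 * u 16 - p 2 * u 18 + 2 * (z 0 * u 7 + z 1 * u 13) =
        (p 0) * u 2 +
        -((p 0) * u 20) +
        -((p 1) * u 16) +
        (p 2) * u 0 +
        -((p 2) * u 18) +
        2 * ((z 1) * u 13) +
        2 * ((z 0) * u 7) := by ring
    change Form _ (p 0 * u 2 + p 2 * u 0 - p 0 * u 20 - p 1 * u 16 - p 2 * u 18 + 2 * (z 0 * u 7 + z 1 * u 13))
    rw [e]
    refine Form.add' (Form.add' (Form.add' (Form.add' (Form.add' (Form.add' ?_ ?_) ?_) ?_) ?_) ?_) ?_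
    · exact Form.tm (hp 0) (hx 2) (by dsimp [n0, n1, n2, n3, h0, h1, h2, h3]; ring)
    · exact Form.neg' (Form.tm (hp 0) (hx 20) (by dsimp [n0, n1, n2, n3, h0, h1, h2, h3]; ring))
    · exact Form.neg' (Form.tm (hp 1) (hx 16) (by dsimp [n0, n1, n2, n3, h0, h1, h2, h3]; ring))
    · exact Form.tm (hp 2) (hx 0) (by dsimp [n0, n1, n2, n3, h0, h1, h2, h3]; ring)
    · exact Form.neg' (Form.tm (hp 2) (hx 18) (by dsimp [n0, n1, n2, n3, h0, h1, h2, h3]; ring))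
    · exact Form.two (Form.tm (hz 1) (hx 13) (by dsimp [n0, n1, n2, n3, h0, h1, h2, h3]; ring))
    · exact Form.two (Form.tm (hz 0) (hx 7) (by dsimp [n0, n1, n2, n3, h0, h1, h2, h3]; ring))
  · have e : p 0 * u 1 + p 1 * u 0 - p 0 * u 19 - p 1 * u 18 - p 2 * u 17 + 2 * (z 0 * u 8 + z 1 * u 14) =
        (p 0) * u 1 +
        -((p 0) * u 19) +
        (p 1) * u 0 +
        -((p 1) * u 18) +
        -((p 2) * u 17) +
        2 * ((z 1) * u 14) +
        2 * ((z 0) * u 8) := by ring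
    change Form _ (p 0 * u 1 + p 1 * u 0 - p 0 * u 19 - p 1 * u 18 - p 2 * u 17 + 2 * (z 0 * u 8 + z 1 * u 14))
    rw [e]
    refine Form.add' (Form.add' (Form.add' (Form.add' (Form.add' (Form.add' ?_ ?_) ?_) ?_) ?_) ?_) ?_
    · exact Form.tm (hp 0) (hx 1) (by dsimp [n0, n1, n2, n3, h0, h1, h2, h3]; ring)
    · exact Form.neg' (Form.tm (hp 0) (hx 19) (by dsimp [n0, n1, n2, n3, h0, h1, h2, h3]; ring))
    · exact Form.tm (hp 1) (hx 0) (by dsimp [n0, n1, n2, n3, h0, h1, h2, h3]; ring)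
    · exact Form.neg' (Form.tm (hp 1) (hx 18) (by dsimp [n0, n1, n2, n3, h0, h1, h2, h3]; ring))
    · exact Form.neg' (Form.tm (hp 2) (hx 17) (by dsimp [n0, n1, n2, n3, h0, h1, h2, h3]; ring))
    · exact Form.two (Form.tm (hz 1) (hx 14) (by dsimp [n0, n1, n2, n3, h0, h1, h2, h3]; ring))
    · exact Form.two (Form.tm (hz 0) (hx 8) (by dsimp [n0, n1, n2, n3, h0, h1, h2, h3]; ring))
  · have e : p 0 ^ 2 * u 11 - p 0 ^ 2 * u 4 + 2 * p 0 * p 1 * u 8 - 2 * p 0 * p 2 * u 13 + p 1 ^ 2 * u 11 - p 1 ^ 2 * u 3 - 2 * p 1 * p 2 * u 12 + p 2 ^ 2 * u 10 + p 2 ^ 2 * u 9 - z 0 * u 15 - z 0 * u 16 - z 1 * u 17 =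
        (p 0 * p 0) * u 11 +
        -((p 0 * p 0) * u 4) +
        2 * ((p 0 * p 1) * u 8) +
        -(2 * ((p 0 * p 2) * u 13)) +
        (p 1 * p 1) * u 11 +
        -((p 1 * p 1) * u 3) +
        -(2 * ((p 1 * p 2) * u 12)) +
        (p 2 * p 2) * u 10 +
        (p 2 * p 2) * u 9 +
        -((z 0) * u 15) +
        -((z 0) * u 16) +
        -((z 1) * u 17) := by ring
    change Form _ (p 0 ^ 2 * u 11 - p 0 ^ 2 * u 4 + 2 * p 0 * p 1 * u 8 - 2 * p 0 * p 2 * u 13 + p 1 ^ 2 * u 11 - p 1 ^ 2 * u 3 - 2 * p 1 * p 2 * u 12 + p 2 ^ 2 * u 10 + p 2 ^ 2 * u 9 - z 0 * u 15 - z 0 * u 16 - z 1 * u 17)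
    rw [e]
    refine Form.add' (Form.add' (Form.add' (Form.add' (Form.add' (Form.add' (Form.add' (Form.add' (Form.add' (Form.add' (Form.add' ?_ ?_) ?_) ?_) ?_) ?_) ?_) ?_) ?_) ?_) ?_) ?_
    · exact Form.tm ((hp 0).mul (hp 0)) (hx 11) (by dsimp [n0, n1, n2, n3, h0, h1, h2, h3]; ring)
    · exact Form.neg' (Form.tm ((hp 0).mul (hp 0)) (hx 4) (by dsimp [n0, n1, n2, n3, h0, h1, h2, h3]; ring))
    · exact Form.two (Form.tm ((hp 0).mul (hp 1)) (hx 8) (by dsimp [n0, n1, n2, n3, h0, h1, h2, h3]; ring))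
    · exact Form.neg' (Form.two (Form.tm ((hp 0).mul (hp 2)) (hx 13) (by dsimp [n0, n1, n2, n3, h0, h1, h2, h3]; ring)))
    · exact Form.tm ((hp 1).mul (hp 1)) (hx 11) (by dsimp [n0, n1, n2, n3, h0, h1, h2, h3]; ring)
    · exact Form.neg' (Form.tm ((hp 1).mul (hp 1)) (hx 3) (by dsimp [n0, n1, n2, n3, h0, h1, h2, h3]; ring))
    · exact Form.neg' (Form.two (Form.tm ((hp 1).mul (hp 2)) (hx 12) (by dsimp [n0, n1, n2, n3, h0, h1, h2, h3]; ring)))
    · exact Form.tm ((hp 2).mul (hp 2)) (hx 10) (by dsimp [n0, n1, n2, n3, h0, h1, h2, h3]; ring)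
    · exact Form.tm ((hp 2).mul (hp 2)) (hx 9) (by dsimp [n0, n1, n2, n3, h0, h1, h2, h3]; ring)
    · exact Form.neg' (Form.tm (hz 0) (hx 15) (by dsimp [n0, n1, n2, n3, h0, h1, h2, h3]; ring))
    · exact Form.neg' (Form.tm (hz 0) (hx 16) (by dsimp [n0, n1, n2, n3, h0, h1, h2, h3]; ring))
    · exact Form.neg' (Form.tm (hz 1) (hx 17) (by dsimp [n0, n1, n2, n3, h0, h1, h2, h3]; ring))
  · have e : p 0 ^ 2 * u 10 + p 0 ^ 2 * u 5 - 2 * p 0 * p 1 * u 14 - 2 * p 0 * p 2 * u 7 - p 1 ^ 2 * u 5 + p 1 ^ 2 * u 9 + 2 * p 1 * p 2 * u 6 + p 2 ^ 2 * u 3 - p 2 ^ 2 * u 4 - z 1 * u 15 + z 1 * u 16 - z 0 * u 17 =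
        (p 0 * p 0) * u 10 +
        (p 0 * p 0) * u 5 +
        -(2 * ((p 0 * p 1) * u 14)) +
        -(2 * ((p 0 * p 2) * u 7)) +
        -((p 1 * p 1) * u 5) +
        (p 1 * p 1) * u 9 +
        2 * ((p 1 * p 2) * u 6) +
        (p 2 * p 2) * u 3 +
        -((p 2 * p 2) * u 4) +
        -((z 1) * u 15) +
        (z 1) * u 16 +
        -((z 0) * u 17) := by ring
    change Form _ (p 0 ^ 2 * u 10 + p 0 ^ 2 * u 5 - 2 * p 0 * p 1 * u 14 - 2 * p 0 * p 2 * u 7 - p 1 ^ 2 * u 5 + p 1 ^ 2 * u 9 + 2 * p 1 * p 2 * u 6 + p 2 ^ 2 * u 3 - p 2 ^ 2 * u 4 - z 1 * u 15 + z 1 * u 16 - z 0 * u 17)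
    rw [e]
    refine Form.add' (Form.add' (Form.add' (Form.add' (Form.add' (Form.add' (Form.add' (Form.add' (Form.add' (Form.add' (Form.add' ?_ ?_) ?_) ?_) ?_) ?_) ?_) ?_) ?_) ?_) ?_) ?_
    · exact Form.tm ((hp 0).mul (hp 0)) (hx 10) (by dsimp [n0, n1, n2, n3, h0, h1, h2, h3]; ring)
    · exact Form.tm ((hp 0).mul (hp 0)) (hx 5) (by dsimp [n0, n1, n2, n3, h0, h1, h2, h3]; ring)
    · exact Form.neg' (Form.two (Form.tm ((hp 0).mul (hp 1)) (hx 14) (by dsimp [n0, n1, n2, n3, h0, h1, h2, h3]; ring)))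
    · exact Form.neg' (Form.two (Form.tm ((hp 0).mul (hp 2)) (hx 7) (by dsimp [n0, n1, n2, n3, h0, h1, h2, h3]; ring)))
    · exact Form.neg' (Form.tm ((hp 1).mul (hp 1)) (hx 5) (by dsimp [n0, n1, n2, n3, h0, h1, h2, h3]; ring))
    · exact Form.tm ((hp 1).mul (hp 1)) (hx 9) (by dsimp [n0, n1, n2, n3, h0, h1, h2, h3]; ring)
    · exact Form.two (Form.tm ((hp 1).mul (hp 2)) (hx 6) (by dsimp [n0, n1, n2, n3, h0, h1, h2, h3]; ring))
    · exact Form.tm ((hp 2).mul (hp 2)) (hx 3) (by dsimp [n0, n1, n2, n3, h0, h1, h2, h3]; ring)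
    · exact Form.neg' (Form.tm ((hp 2).mul (hp 2)) (hx 4) (by dsimp [n0, n1, n2, n3, h0, h1, h2, h3]; ring))
    · exact Form.neg' (Form.tm (hz 1) (hx 15) (by dsimp [n0, n1, n2, n3, h0, h1, h2, h3]; ring))
    · exact Form.tm (hz 1) (hx 16) (by dsimp [n0, n1, n2, n3, h0, h1, h2, h3]; ring)
    · exact Form.neg' (Form.tm (hz 0) (hx 17) (by dsimp [n0, n1, n2, n3, h0, h1, h2, h3]; ring))

/-- degrees of the values of `hA` -/
lemma hA_form {f : Fin 5 → S K} {d : ℤ} (hf : ∀ i, Form d (f i))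
    {t : ℤ} {c : Fin 2 → S K} (hx : ∀ k, Form (t - h3 d k) (c k)) :
    ∀ i, Form (t - h2 d i) (hA f c i) := by
  intro i
  fin_cases i
  · have e : c 0 * f 0 =
        (f 0) * c 0 := by ring
    change Form _ (c 0 * f 0)
    rw [e]
    exact Form.tm (hf 0) (hx 0) (by dsimp [n0, n1, n2, n3, h0, h1, h2, h3]; ring)
  · have e : c 0 * f 1 =
        (f 1) * c 0 := by ring
    change Form _ (c 0 * f 1)
    rw [e]
    exact Form.tm (hf 1) (hx 0) (by dsimp [n0, n1, n2, n3, h0, h1, h2, h3]; ring)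
  · have e : c 0 * f 2 =
        (f 2) * c 0 := by ring
    change Form _ (c 0 * f 2)
    rw [e]
    exact Form.tm (hf 2) (hx 0) (by dsimp [n0, n1, n2, n3, h0, h1, h2, h3]; ring)
  · have e : c 0 * f 3 =
        (f 3) * c 0 := by ring
    change Form _ (c 0 * f 3)
    rw [e]
    exact Form.tm (hf 3) (hx 0) (by dsimp [n0, n1, n2, n3, h0, h1, h2, h3]; ring)
  · have e : c 0 * f 4 =
        (f 4) * c 0 := by ring
    change Form _ (c 0 * f 4)
    rw [e]
    exact Form.tm (hf 4) (hx 0) (by dsimp [n0, n1, n2, n3, h0, h1, h2, h3]; ring)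
  · have e : c 1 * f 0 =
        (f 0) * c 1 := by ring
    change Form _ (c 1 * f 0)
    rw [e]
    exact Form.tm (hf 0) (hx 1) (by dsimp [n0, n1, n2, n3, h0, h1, h2, h3]; ring)
  · have e : c 1 * f 1 =
        (f 1) * c 1 := by ring
    change Form _ (c 1 * f 1)
    rw [e]
    exact Form.tm (hf 1) (hx 1) (by dsimp [n0, n1, n2, n3, h0, h1, h2, h3]; ring)
  · have e : c 1 * f 2 =
        (f 2) * c 1 := by ring
    change Form _ (c 1 * f 2)
    rw [e]
    exact Form.tm (hf 2) (hx 1) (by dsimp [n0, n1, n2, n3, h0, h1, h2, h3]; ring)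
  · have e : c 1 * f 3 =
        (f 3) * c 1 := by ring
    change Form _ (c 1 * f 3)
    rw [e]
    exact Form.tm (hf 3) (hx 1) (by dsimp [n0, n1, n2, n3, h0, h1, h2, h3]; ring)
  · have e : c 1 * f 4 =
        (f 4) * c 1 := by ring
    change Form _ (c 1 * f 4)
    rw [e]
    exact Form.tm (hf 4) (hx 1) (by dsimp [n0, n1, n2, n3, h0, h1, h2, h3]; ring)
  · exact Form.zero _
  · exact Form.zero _
  · exact Form.zero _
  · exact Form.zero _
  · exact Form.zero _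

/-- degrees of the values of `hB` -/
lemma hB_form {f : Fin 5 → S K} {d : ℤ} (hf : ∀ i, Form d (f i))
    {t : ℤ} {w : Fin 15 → S K} (hx : ∀ k, Form (t - h2 d k) (w k)) :
    ∀ i, Form (t - h1 i) (hB f w i) := by
  intro i
  fin_cases i
  · have e : f 0 * w 1 - f 1 * w 0 + w 13 =
        (f 0) * w 1 +
        -((f 1) * w 0) +
        ((1 : S K)) * w 13 := by ring
    change Form _ (f 0 * w 1 - f 1 * w 0 + w 13)
    rw [e]
    refine Form.add' (Form.add' ?_ ?_) ?_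
    · exact Form.tm (hf 0) (hx 1) (by dsimp [n0, n1, n2, n3, h0, h1, h2, h3]; ring)
    · exact Form.neg' (Form.tm (hf 1) (hx 0) (by dsimp [n0, n1, n2, n3, h0, h1, h2, h3]; ring))
    · exact Form.tm Form.one (hx 13) (by dsimp [n0, n1, n2, n3, h0, h1, h2, h3]; ring)
  · have e : f 0 * w 2 - f 2 * w 0 =
        (f 0) * w 2 +
        -((f 2) * w 0) := by ring
    change Form _ (f 0 * w 2 - f 2 * w 0)
    rw [e]
    refine Form.add' ?_ ?_
    · exact Form.tm (hf 0) (hx 2) (by dsimp [n0, n1, n2, n3, h0, h1, h2, h3]; ring)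
    · exact Form.neg' (Form.tm (hf 2) (hx 0) (by dsimp [n0, n1, n2, n3, h0, h1, h2, h3]; ring))
  · have e : f 0 * w 3 - f 3 * w 0 =
        (f 0) * w 3 +
        -((f 3) * w 0) := by ring
    change Form _ (f 0 * w 3 - f 3 * w 0)
    rw [e]
    refine Form.add' ?_ ?_
    · exact Form.tm (hf 0) (hx 3) (by dsimp [n0, n1, n2, n3, h0, h1, h2, h3]; ring)
    · exact Form.neg' (Form.tm (hf 3) (hx 0) (by dsimp [n0, n1, n2, n3, h0, h1, h2, h3]; ring))
  · have e : f 0 * w 4 - f 4 * w 0 - w 12 =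
        (f 0) * w 4 +
        -((f 4) * w 0) +
        -(((1 : S K)) * w 12) := by ring
    change Form _ (f 0 * w 4 - f 4 * w 0 - w 12)
    rw [e]
    refine Form.add' (Form.add' ?_ ?_) ?_
    · exact Form.tm (hf 0) (hx 4) (by dsimp [n0, n1, n2, n3, h0, h1, h2, h3]; ring)
    · exact Form.neg' (Form.tm (hf 4) (hx 0) (by dsimp [n0, n1, n2, n3, h0, h1, h2, h3]; ring))
    · exact Form.neg' (Form.tm Form.one (hx 12) (by dsimp [n0, n1, n2, n3, h0, h1, h2, h3]; ring))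
  · have e : f 1 * w 2 - f 2 * w 1 + w 14 =
        (f 1) * w 2 +
        -((f 2) * w 1) +
        ((1 : S K)) * w 14 := by ring
    change Form _ (f 1 * w 2 - f 2 * w 1 + w 14)
    rw [e]
    refine Form.add' (Form.add' ?_ ?_) ?_
    · exact Form.tm (hf 1) (hx 2) (by dsimp [n0, n1, n2, n3, h0, h1, h2, h3]; ring)
    · exact Form.neg' (Form.tm (hf 2) (hx 1) (by dsimp [n0, n1, n2, n3, h0, h1, h2, h3]; ring))
    · exact Form.tm Form.one (hx 14) (by dsimp [n0, n1, n2, n3, h0, h1, h2, h3]; ring)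
  · have e : f 1 * w 3 - f 3 * w 1 =
        (f 1) * w 3 +
        -((f 3) * w 1) := by ring
    change Form _ (f 1 * w 3 - f 3 * w 1)
    rw [e]
    refine Form.add' ?_ ?_
    · exact Form.tm (hf 1) (hx 3) (by dsimp [n0, n1, n2, n3, h0, h1, h2, h3]; ring)
    · exact Form.neg' (Form.tm (hf 3) (hx 1) (by dsimp [n0, n1, n2, n3, h0, h1, h2, h3]; ring))
  · have e : f 1 * w 4 - f 4 * w 1 =
        (f 1) * w 4 +
        -((f 4) * w 1) := by ring
    change Form _ (f 1 * w 4 - f 4 * w 1)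
    rw [e]
    refine Form.add' ?_ ?_
    · exact Form.tm (hf 1) (hx 4) (by dsimp [n0, n1, n2, n3, h0, h1, h2, h3]; ring)
    · exact Form.neg' (Form.tm (hf 4) (hx 1) (by dsimp [n0, n1, n2, n3, h0, h1, h2, h3]; ring))
  · have e : f 2 * w 3 - f 3 * w 2 + w 10 =
        (f 2) * w 3 +
        -((f 3) * w 2) +
        ((1 : S K)) * w 10 := by ring
    change Form _ (f 2 * w 3 - f 3 * w 2 + w 10)
    rw [e]
    refine Form.add' (Form.add' ?_ ?_) ?_
    · exact Form.tm (hf 2) (hx 3) (by dsimp [n0, n1, n2, n3, h0, h1, h2, h3]; ring)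
    · exact Form.neg' (Form.tm (hf 3) (hx 2) (by dsimp [n0, n1, n2, n3, h0, h1, h2, h3]; ring))
    · exact Form.tm Form.one (hx 10) (by dsimp [n0, n1, n2, n3, h0, h1, h2, h3]; ring)
  · have e : f 2 * w 4 - f 4 * w 2 =
        (f 2) * w 4 +
        -((f 4) * w 2) := by ring
    change Form _ (f 2 * w 4 - f 4 * w 2)
    rw [e]
    refine Form.add' ?_ ?_
    · exact Form.tm (hf 2) (hx 4) (by dsimp [n0, n1, n2, n3, h0, h1, h2, h3]; ring)
    · exact Form.neg' (Form.tm (hf 4) (hx 2) (by dsimp [n0, n1, n2, n3, h0, h1, h2, h3]; ring))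
  · have e : f 3 * w 4 - f 4 * w 3 + w 11 =
        (f 3) * w 4 +
        -((f 4) * w 3) +
        ((1 : S K)) * w 11 := by ring
    change Form _ (f 3 * w 4 - f 4 * w 3 + w 11)
    rw [e]
    refine Form.add' (Form.add' ?_ ?_) ?_
    · exact Form.tm (hf 3) (hx 4) (by dsimp [n0, n1, n2, n3, h0, h1, h2, h3]; ring)
    · exact Form.neg' (Form.tm (hf 4) (hx 3) (by dsimp [n0, n1, n2, n3, h0, h1, h2, h3]; ring))
    · exact Form.tm Form.one (hx 11) (by dsimp [n0, n1, n2, n3, h0, h1, h2, h3]; ring)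
  · have e : f 0 * w 6 - f 1 * w 5 =
        (f 0) * w 6 +
        -((f 1) * w 5) := by ring
    change Form _ (f 0 * w 6 - f 1 * w 5)
    rw [e]
    refine Form.add' ?_ ?_
    · exact Form.tm (hf 0) (hx 6) (by dsimp [n0, n1, n2, n3, h0, h1, h2, h3]; ring)
    · exact Form.neg' (Form.tm (hf 1) (hx 5) (by dsimp [n0, n1, n2, n3, h0, h1, h2, h3]; ring))
  · have e : f 0 * w 7 - f 2 * w 5 - w 11 =
        (f 0) * w 7 +
        -((f 2) * w 5) +
        -(((1 : S K)) * w 11) := by ring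
    change Form _ (f 0 * w 7 - f 2 * w 5 - w 11)
    rw [e]
    refine Form.add' (Form.add' ?_ ?_) ?_
    · exact Form.tm (hf 0) (hx 7) (by dsimp [n0, n1, n2, n3, h0, h1, h2, h3]; ring)
    · exact Form.neg' (Form.tm (hf 2) (hx 5) (by dsimp [n0, n1, n2, n3, h0, h1, h2, h3]; ring))
    · exact Form.neg' (Form.tm Form.one (hx 11) (by dsimp [n0, n1, n2, n3, h0, h1, h2, h3]; ring))
  · have e : f 0 * w 8 - f 3 * w 5 + w 14 =
        (f 0) * w 8 +
        -((f 3) * w 5) +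
        ((1 : S K)) * w 14 := by ring
    change Form _ (f 0 * w 8 - f 3 * w 5 + w 14)
    rw [e]
    refine Form.add' (Form.add' ?_ ?_) ?_
    · exact Form.tm (hf 0) (hx 8) (by dsimp [n0, n1, n2, n3, h0, h1, h2, h3]; ring)
    · exact Form.neg' (Form.tm (hf 3) (hx 5) (by dsimp [n0, n1, n2, n3, h0, h1, h2, h3]; ring))
    · exact Form.tm Form.one (hx 14) (by dsimp [n0, n1, n2, n3, h0, h1, h2, h3]; ring)
  · have e : f 0 * w 9 - f 4 * w 5 =
        (f 0) * w 9 +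
        -((f 4) * w 5) := by ring
    change Form _ (f 0 * w 9 - f 4 * w 5)
    rw [e]
    refine Form.add' ?_ ?_
    · exact Form.tm (hf 0) (hx 9) (by dsimp [n0, n1, n2, n3, h0, h1, h2, h3]; ring)
    · exact Form.neg' (Form.tm (hf 4) (hx 5) (by dsimp [n0, n1, n2, n3, h0, h1, h2, h3]; ring))
  · have e : f 1 * w 7 - f 2 * w 6 =
        (f 1) * w 7 +
        -((f 2) * w 6) := by ring
    change Form _ (f 1 * w 7 - f 2 * w 6)
    rw [e]
    refine Form.add' ?_ ?_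
    · exact Form.tm (hf 1) (hx 7) (by dsimp [n0, n1, n2, n3, h0, h1, h2, h3]; ring)
    · exact Form.neg' (Form.tm (hf 2) (hx 6) (by dsimp [n0, n1, n2, n3, h0, h1, h2, h3]; ring))
  · have e : f 1 * w 8 - f 3 * w 6 - w 12 =
        (f 1) * w 8 +
        -((f 3) * w 6) +
        -(((1 : S K)) * w 12) := by ring
    change Form _ (f 1 * w 8 - f 3 * w 6 - w 12)
    rw [e]
    refine Form.add' (Form.add' ?_ ?_) ?_
    · exact Form.tm (hf 1) (hx 8) (by dsimp [n0, n1, n2, n3, h0, h1, h2, h3]; ring)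
    · exact Form.neg' (Form.tm (hf 3) (hx 6) (by dsimp [n0, n1, n2, n3, h0, h1, h2, h3]; ring))
    · exact Form.neg' (Form.tm Form.one (hx 12) (by dsimp [n0, n1, n2, n3, h0, h1, h2, h3]; ring))
  · have e : f 1 * w 9 - f 4 * w 6 + w 10 =
        (f 1) * w 9 +
        -((f 4) * w 6) +
        ((1 : S K)) * w 10 := by ring
    change Form _ (f 1 * w 9 - f 4 * w 6 + w 10)
    rw [e]
    refine Form.add' (Form.add' ?_ ?_) ?_
    · exact Form.tm (hf 1) (hx 9) (by dsimp [n0, n1, n2, n3, h0, h1, h2, h3]; ring)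
    · exact Form.neg' (Form.tm (hf 4) (hx 6) (by dsimp [n0, n1, n2, n3, h0, h1, h2, h3]; ring))
    · exact Form.tm Form.one (hx 10) (by dsimp [n0, n1, n2, n3, h0, h1, h2, h3]; ring)
  · have e : f 2 * w 8 - f 3 * w 7 =
        (f 2) * w 8 +
        -((f 3) * w 7) := by ring
    change Form _ (f 2 * w 8 - f 3 * w 7)
    rw [e]
    refine Form.add' ?_ ?_
    · exact Form.tm (hf 2) (hx 8) (by dsimp [n0, n1, n2, n3, h0, h1, h2, h3]; ring)
    · exact Form.neg' (Form.tm (hf 3) (hx 7) (by dsimp [n0, n1, n2, n3, h0, h1, h2, h3]; ring))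
  · have e : f 2 * w 9 - f 4 * w 7 - w 13 =
        (f 2) * w 9 +
        -((f 4) * w 7) +
        -(((1 : S K)) * w 13) := by ring
    change Form _ (f 2 * w 9 - f 4 * w 7 - w 13)
    rw [e]
    refine Form.add' (Form.add' ?_ ?_) ?_
    · exact Form.tm (hf 2) (hx 9) (by dsimp [n0, n1, n2, n3, h0, h1, h2, h3]; ring)
    · exact Form.neg' (Form.tm (hf 4) (hx 7) (by dsimp [n0, n1, n2, n3, h0, h1, h2, h3]; ring))
    · exact Form.neg' (Form.tm Form.one (hx 13) (by dsimp [n0, n1, n2, n3, h0, h1, h2, h3]; ring))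
  · have e : f 3 * w 9 - f 4 * w 8 =
        (f 3) * w 9 +
        -((f 4) * w 8) := by ring
    change Form _ (f 3 * w 9 - f 4 * w 8)
    rw [e]
    refine Form.add' ?_ ?_
    · exact Form.tm (hf 3) (hx 9) (by dsimp [n0, n1, n2, n3, h0, h1, h2, h3]; ring)
    · exact Form.neg' (Form.tm (hf 4) (hx 8) (by dsimp [n0, n1, n2, n3, h0, h1, h2, h3]; ring))

/-- degrees of the values of `hC` -/
lemma hC_form {f : Fin 5 → S K} {d : ℤ} (hf : ∀ i, Form d (f i))
    {t : ℤ} {v : Fin 20 → S K} (hx : ∀ k, Form (t - h1 k) (v k)) :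
    ∀ i, Form (t - h0 d i) (hC f v i) := by
  intro i
  fin_cases i
  · have e : f 0 * v 16 - f 1 * v 13 + f 4 * v 10 - (f 0 * v 7 - f 2 * v 2 + f 3 * v 1) =
        (f 0) * v 16 +
        -((f 0) * v 7) +
        -((f 1) * v 13) +
        (f 2) * v 2 +
        -((f 3) * v 1) +
        (f 4) * v 10 := by ring
    change Form _ (f 0 * v 16 - f 1 * v 13 + f 4 * v 10 - (f 0 * v 7 - f 2 * v 2 + f 3 * v 1))
    rw [e]
    refine Form.add' (Form.add' (Form.add' (Form.add' (Form.add' ?_ ?_) ?_) ?_) ?_) ?_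
    · exact Form.tm (hf 0) (hx 16) (by dsimp [n0, n1, n2, n3, h0, h1, h2, h3]; ring)
    · exact Form.neg' (Form.tm (hf 0) (hx 7) (by dsimp [n0, n1, n2, n3, h0, h1, h2, h3]; ring))
    · exact Form.neg' (Form.tm (hf 1) (hx 13) (by dsimp [n0, n1, n2, n3, h0, h1, h2, h3]; ring))
    · exact Form.tm (hf 2) (hx 2) (by dsimp [n0, n1, n2, n3, h0, h1, h2, h3]; ring)
    · exact Form.neg' (Form.tm (hf 3) (hx 1) (by dsimp [n0, n1, n2, n3, h0, h1, h2, h3]; ring))
    · exact Form.tm (hf 4) (hx 10) (by dsimp [n0, n1, n2, n3, h0, h1, h2, h3]; ring)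
  · have e : f 0 * v 14 - f 1 * v 11 + f 2 * v 10 - (f 1 * v 9 - f 3 * v 6 + f 4 * v 5) =
        (f 0) * v 14 +
        -((f 1) * v 11) +
        -((f 1) * v 9) +
        (f 2) * v 10 +
        (f 3) * v 6 +
        -((f 4) * v 5) := by ring
    change Form _ (f 0 * v 14 - f 1 * v 11 + f 2 * v 10 - (f 1 * v 9 - f 3 * v 6 + f 4 * v 5))
    rw [e]
    refine Form.add' (Form.add' (Form.add' (Form.add' (Form.add' ?_ ?_) ?_) ?_) ?_) ?_
    · exact Form.tm (hf 0) (hx 14) (by dsimp [n0, n1, n2, n3, h0, h1, h2, h3]; ring)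
    · exact Form.neg' (Form.tm (hf 1) (hx 11) (by dsimp [n0, n1, n2, n3, h0, h1, h2, h3]; ring))
    · exact Form.neg' (Form.tm (hf 1) (hx 9) (by dsimp [n0, n1, n2, n3, h0, h1, h2, h3]; ring))
    · exact Form.tm (hf 2) (hx 10) (by dsimp [n0, n1, n2, n3, h0, h1, h2, h3]; ring)
    · exact Form.tm (hf 3) (hx 6) (by dsimp [n0, n1, n2, n3, h0, h1, h2, h3]; ring)
    · exact Form.neg' (Form.tm (hf 4) (hx 5) (by dsimp [n0, n1, n2, n3, h0, h1, h2, h3]; ring))
  · have e : f 1 * v 17 - f 2 * v 15 + f 3 * v 14 - (f 0 * v 8 - f 2 * v 3 + f 4 * v 1) =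
        -((f 0) * v 8) +
        (f 1) * v 17 +
        -((f 2) * v 15) +
        (f 2) * v 3 +
        (f 3) * v 14 +
        -((f 4) * v 1) := by ring
    change Form _ (f 1 * v 17 - f 2 * v 15 + f 3 * v 14 - (f 0 * v 8 - f 2 * v 3 + f 4 * v 1))
    rw [e]
    refine Form.add' (Form.add' (Form.add' (Form.add' (Form.add' ?_ ?_) ?_) ?_) ?_) ?_
    · exact Form.neg' (Form.tm (hf 0) (hx 8) (by dsimp [n0, n1, n2, n3, h0, h1, h2, h3]; ring))
    · exact Form.tm (hf 1) (hx 17) (by dsimp [n0, n1, n2, n3, h0, h1, h2, h3]; ring)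
    · exact Form.neg' (Form.tm (hf 2) (hx 15) (by dsimp [n0, n1, n2, n3, h0, h1, h2, h3]; ring))
    · exact Form.tm (hf 2) (hx 3) (by dsimp [n0, n1, n2, n3, h0, h1, h2, h3]; ring)
    · exact Form.tm (hf 3) (hx 14) (by dsimp [n0, n1, n2, n3, h0, h1, h2, h3]; ring)
    · exact Form.neg' (Form.tm (hf 4) (hx 1) (by dsimp [n0, n1, n2, n3, h0, h1, h2, h3]; ring))
  · have e : f 2 * v 19 - f 3 * v 18 + f 4 * v 17 - (f 0 * v 5 - f 1 * v 2 + f 3 * v 0) =
        -((f 0) * v 5) +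
        (f 1) * v 2 +
        (f 2) * v 19 +
        -((f 3) * v 0) +
        -((f 3) * v 18) +
        (f 4) * v 17 := by ring
    change Form _ (f 2 * v 19 - f 3 * v 18 + f 4 * v 17 - (f 0 * v 5 - f 1 * v 2 + f 3 * v 0))
    rw [e]
    refine Form.add' (Form.add' (Form.add' (Form.add' (Form.add' ?_ ?_) ?_) ?_) ?_) ?_
    · exact Form.neg' (Form.tm (hf 0) (hx 5) (by dsimp [n0, n1, n2, n3, h0, h1, h2, h3]; ring))
    · exact Form.tm (hf 1) (hx 2) (by dsimp [n0, n1, n2, n3, h0, h1, h2, h3]; ring)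
    · exact Form.tm (hf 2) (hx 19) (by dsimp [n0, n1, n2, n3, h0, h1, h2, h3]; ring)
    · exact Form.neg' (Form.tm (hf 3) (hx 0) (by dsimp [n0, n1, n2, n3, h0, h1, h2, h3]; ring))
    · exact Form.neg' (Form.tm (hf 3) (hx 18) (by dsimp [n0, n1, n2, n3, h0, h1, h2, h3]; ring))
    · exact Form.tm (hf 4) (hx 17) (by dsimp [n0, n1, n2, n3, h0, h1, h2, h3]; ring)
  · have e : f 0 * v 19 - f 3 * v 13 + f 4 * v 12 - (f 1 * v 8 - f 2 * v 6 + f 4 * v 4) =
        (f 0) * v 19 +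
        -((f 1) * v 8) +
        (f 2) * v 6 +
        -((f 3) * v 13) +
        (f 4) * v 12 +
        -((f 4) * v 4) := by ring
    change Form _ (f 0 * v 19 - f 3 * v 13 + f 4 * v 12 - (f 1 * v 8 - f 2 * v 6 + f 4 * v 4))
    rw [e]
    refine Form.add' (Form.add' (Form.add' (Form.add' (Form.add' ?_ ?_) ?_) ?_) ?_) ?_
    · exact Form.tm (hf 0) (hx 19) (by dsimp [n0, n1, n2, n3, h0, h1, h2, h3]; ring)
    · exact Form.neg' (Form.tm (hf 1) (hx 8) (by dsimp [n0, n1, n2, n3, h0, h1, h2, h3]; ring))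
    · exact Form.tm (hf 2) (hx 6) (by dsimp [n0, n1, n2, n3, h0, h1, h2, h3]; ring)
    · exact Form.neg' (Form.tm (hf 3) (hx 13) (by dsimp [n0, n1, n2, n3, h0, h1, h2, h3]; ring))
    · exact Form.tm (hf 4) (hx 12) (by dsimp [n0, n1, n2, n3, h0, h1, h2, h3]; ring)
    · exact Form.neg' (Form.tm (hf 4) (hx 4) (by dsimp [n0, n1, n2, n3, h0, h1, h2, h3]; ring))

end Pool.Agent.Lib.MP_745d3a_ag.NB
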