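import Pool.Agent.Lib.MP_745d3a_ag.NB.State
import Pool.Agent.Lib.MP_745d3a_ag.NB.Defs
import Pool.Agent.Lib.MP_745d3a_ag.NB.Bun

/-!
Homotopies and the elementary properties; reflexivity, rank, local freeness.
-/

set_option autoImplicit false

noncomputable section

open MvPolynomial Matrix

namespace Pool.Agent.Lib.MP_745d3a_ag.NB

open Pool.Agent.Lib.MP_745d3a_ag.PB

lemma coordX (K : Type) [Field K] : PF.Coord K (X : Fin 5 → S K) := ⟨by
  have : (aeval X : (MvPolynomial (Fin 5) K) →ₐ[K] (MvPolynomial (Fin 5) K)) =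
    AlgHom.id K (MvPolynomial (Fin 5) K) := by ext i; simp
  rw [this]; exact Function.bijective_id⟩

namespace Mnd

variable {K : Type} [Field K] [IsAlgClosed K] {α₃ α₂ α₁ α₀ : Type} [Fintype α₃] [Fintype α₂]
  [Fintype α₁] [Fintype α₀] (W : Mnd K α₃ α₂ α₁ α₀)

theorem isBun : PF.Bun (X : Fin 5 → S K) W.Md := by
  classical
  exact bun W.A W.B W.C W.BA W.CB W.injA W.exB W.surC W.card_eq

theorem finite : Module.Finite (S K) W.Md := W.isBun.fin

/- From helper70's tf, ht, lf_prime (PF.Bun) and `Bun.reflexive`. -/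
theorem reflexive : Module.IsReflexive (S K) W.Md := by
  have hx := coordX K
  have hM := W.isBun
  refine ⟨⟨?_, ?_⟩⟩
  · rw [injective_iff_map_eq_zero]
    intro m hm
    obtain ⟨s, hs, m₁, m₂, θ₁, θ₂, hθ, -⟩ := PF.Bun.local hx hM ⊥ Ideal.isPrime_bot
      ⟨0, by rw [Ideal.mem_bot]; exact X_ne_zero 0⟩
    have h1 : θ₁ m = 0 := LinearMap.congr_fun hm θ₁
    have h2 : θ₂ m = 0 := LinearMap.congr_fun hm θ₂
    have h3 := hθ m
    rw [h1, h2, zero_smul, zero_smul, add_zero] at h3
    exact (hM.tf s m h3).resolve_left fun h => hs (by rw [Ideal.mem_bot]; exact h)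
  · intro φ
    obtain ⟨m, hm⟩ := PF.Bun.reflexive hx hM (i₁ := 0) (i₂ := 1) (by decide) φ
    exact ⟨m, LinearMap.ext fun θ => (hm θ).symm⟩

theorem finrank_eq : Module.finrank (S K) W.Md = 2 := by
  have hx := coordX K
  have hM := W.isBun
  have := hM.fin
  obtain ⟨s, hs, m₁, m₂, θ₁, θ₂, hθ, -, -, -, -, hind⟩ := PF.Bun.local hx hM ⊥ Ideal.isPrime_bot
      ⟨0, by rw [Ideal.mem_bot]; exact X_ne_zero 0⟩
  let F : (Fin 2 → S K) →ₗ[S K] W.Md := Fintype.linearCombination (S K) ![m₁, m₂]
  have hF : Function.Injective F := by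
    rw [injective_iff_map_eq_zero]
    intro c hc
    have h1 : c 0 • m₁ + c 1 • m₂ = 0 := by
      have := hc
      rw [show F c = ∑ i, c i • ![m₁, m₂] i from rfl, Fin.sum_univ_two] at this
      exact this
    obtain ⟨h2, h3⟩ := hind _ _ h1
    funext i
    fin_cases i
    · exact h2
    · exact h3
  let G : W.Md →ₗ[S K] (Fin 2 → S K) := LinearMap.pi ![θ₁, θ₂]
  have hG : Function.Injective G := by
    rw [injective_iff_map_eq_zero]
    intro m hm
    have h1 : θ₁ m = 0 := congrFun hm 0
    have h2 : θ₂ m = 0 := congrFun hm 1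
    have h3 := hθ m
    rw [h1, h2, zero_smul, zero_smul, add_zero] at h3
    exact (hM.tf s m h3).resolve_left fun h => hs (by rw [Ideal.mem_bot]; exact h)
  apply le_antisymm
  · have h := LinearMap.finrank_le_finrank_of_injective hG
    simpa using h
  · have h := LinearMap.finrank_le_finrank_of_injective hF
    simpa using h

theorem free_loc (p : Ideal (S K)) [p.IsPrime] (hp : ∃ i, (X i : S K) ∉ p) :
    Module.Free (Localization.AtPrime p) (LocalizedModule p.primeCompl W.Md) := by
  have hx := coordX K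
  have hM := W.isBun
  obtain ⟨s, hs, m₁, m₂, θ₁, θ₂, hθ, -, -, -, -, hind⟩ := PF.Bun.local hx hM p inferInstance hp
  let F : (Fin 2 → S K) →ₗ[S K] W.Md := Fintype.linearCombination (S K) ![m₁, m₂]
  have hF1 : ∀ c, F c = c 0 • m₁ + c 1 • m₂ := by
    intro c
    rw [show F c = ∑ i, c i • ![m₁, m₂] i from rfl, Fin.sum_univ_two]
    rfl
  have hF : Function.Injective F := by
    rw [injective_iff_map_eq_zero]
    intro c hc
    rw [hF1] at hc
    obtain ⟨h2, h3⟩ := hind _ _ hc
    funext i
    fin_cases i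
    · exact h2
    · exact h3
  let L := LocalizedModule.map p.primeCompl F
  have hL : Function.Bijective L := by
    constructor
    · exact LocalizedModule.map_injective _ F hF
    · intro x
      induction x using LocalizedModule.induction_on with
      | h m t =>
        refine ⟨LocalizedModule.mk ![θ₁ m, θ₂ m] (⟨s, hs⟩ * t), ?_⟩
        have h1 : L (LocalizedModule.mk ![θ₁ m, θ₂ m] (⟨s, hs⟩ * t)) =
            LocalizedModule.mk (F ![θ₁ m, θ₂ m]) (⟨s, hs⟩ * t) := by
          simp [L, LocalizedModule.map_mk]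
        rw [h1, hF1]
        have h2 : (![θ₁ m, θ₂ m] 0 • m₁ + ![θ₁ m, θ₂ m] 1 • m₂ : W.Md) = s • m := (hθ m).symm
        rw [h2]
        exact LocalizedModule.mk_cancel_common_left ⟨s, hs⟩ t m
  have e : LocalizedModule p.primeCompl (Fin 2 → S K) ≃ₗ[Localization.AtPrime p]
      LocalizedModule p.primeCompl W.Md := LinearEquiv.ofBijective L hL
  have : Module.Free (Localization.AtPrime p) (LocalizedModule p.primeCompl (Fin 2 → S K)) :=
    Module.free_of_isLocalizedModule p.primeCompl
      (LocalizedModule.mkLinearMap p.primeCompl (Fin 2 → S K))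
  exact Module.Free.of_equiv e

end Mnd

end Pool.Agent.Lib.MP_745d3a_ag.NB

end
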