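import Pool.Agent.Lib.MP_745d3a_ag.NB.State
import Pool.Agent.Lib.MP_745d3a_ag.NB.Defs

/-!
The homology of the Horrocks-Mumford monad in matrix form is the module of the statement.
-/

set_option autoImplicit false

noncomputable section

open MvPolynomial Matrix

namespace Pool.Agent.Lib.MP_745d3a_ag.NB

open Pool.Agent.Lib.MP_745d3a_ag.PB

section

variable {R : Type} [CommRing R]

/-- the map `hC f` as a linear map -/
def hClm (f : Fin 5 → R) : (Fin 20 → R) →ₗ[R] (Fin 5 → R) where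
  toFun := hC f
  map_add' u v := by
    funext i
    fin_cases i
    · change f 0 * (u 16 + v 16) - f 1 * (u 13 + v 13) + f 4 * (u 10 + v 10) - (f 0 * (u 7 + v 7) - f 2
        * (u 2 + v 2) + f 3 * (u 1 + v 1)) = (f 0 * u 16 - f 1 * u 13 + f 4 * u 10 - (f 0 * u 7 -
        f 2 * u 2 + f 3 * u 1)) + (f 0 * v 16 - f 1 * v 13 + f 4 * v 10 - (f 0 * v 7 - f 2 * v 2
        + f 3 * v 1))
      ring
    · change f 0 * (u 14 + v 14) - f 1 * (u 11 + v 11) + f 2 * (u 10 + v 10) - (f 1 * (u 9 + v 9) - f 3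
        * (u 6 + v 6) + f 4 * (u 5 + v 5)) = (f 0 * u 14 - f 1 * u 11 + f 2 * u 10 - (f 1 * u 9 -
        f 3 * u 6 + f 4 * u 5)) + (f 0 * v 14 - f 1 * v 11 + f 2 * v 10 - (f 1 * v 9 - f 3 * v 6
        + f 4 * v 5))
      ring
    · change f 1 * (u 17 + v 17) - f 2 * (u 15 + v 15) + f 3 * (u 14 + v 14) - (f 0 * (u 8 + v 8) - f 2
        * (u 3 + v 3) + f 4 * (u 1 + v 1)) = (f 1 * u 17 - f 2 * u 15 + f 3 * u 14 - (f 0 * u 8 -
        f 2 * u 3 + f 4 * u 1)) + (f 1 * v 17 - f 2 * v 15 + f 3 * v 14 - (f 0 * v 8 - f 2 * v 3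
        + f 4 * v 1))
      ring
    · change f 2 * (u 19 + v 19) - f 3 * (u 18 + v 18) + f 4 * (u 17 + v 17) - (f 0 * (u 5 + v 5) - f 1
        * (u 2 + v 2) + f 3 * (u 0 + v 0)) = (f 2 * u 19 - f 3 * u 18 + f 4 * u 17 - (f 0 * u 5 -
        f 1 * u 2 + f 3 * u 0)) + (f 2 * v 19 - f 3 * v 18 + f 4 * v 17 - (f 0 * v 5 - f 1 * v 2
        + f 3 * v 0))
      ring
    · change f 0 * (u 19 + v 19) - f 3 * (u 13 + v 13) + f 4 * (u 12 + v 12) - (f 1 * (u 8 + v 8) - f 2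
        * (u 6 + v 6) + f 4 * (u 4 + v 4)) = (f 0 * u 19 - f 3 * u 13 + f 4 * u 12 - (f 1 * u 8 -
        f 2 * u 6 + f 4 * u 4)) + (f 0 * v 19 - f 3 * v 13 + f 4 * v 12 - (f 1 * v 8 - f 2 * v 6
        + f 4 * v 4))
      ring
  map_smul' c u := by
    funext i
    fin_cases i
    · change f 0 * (c * u 16) - f 1 * (c * u 13) + f 4 * (c * u 10) - (f 0 * (c * u 7) - f 2 * (c * u 2)
        + f 3 * (c * u 1)) = c * (f 0 * u 16 - f 1 * u 13 + f 4 * u 10 - (f 0 * u 7 - f 2 * u 2 +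
        f 3 * u 1))
      ring
    · change f 0 * (c * u 14) - f 1 * (c * u 11) + f 2 * (c * u 10) - (f 1 * (c * u 9) - f 3 * (c * u 6)
        + f 4 * (c * u 5)) = c * (f 0 * u 14 - f 1 * u 11 + f 2 * u 10 - (f 1 * u 9 - f 3 * u 6 +
        f 4 * u 5))
      ring
    · change f 1 * (c * u 17) - f 2 * (c * u 15) + f 3 * (c * u 14) - (f 0 * (c * u 8) - f 2 * (c * u 3)
        + f 4 * (c * u 1)) = c * (f 1 * u 17 - f 2 * u 15 + f 3 * u 14 - (f 0 * u 8 - f 2 * u 3 +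
        f 4 * u 1))
      ring
    · change f 2 * (c * u 19) - f 3 * (c * u 18) + f 4 * (c * u 17) - (f 0 * (c * u 5) - f 1 * (c * u 2)
        + f 3 * (c * u 0)) = c * (f 2 * u 19 - f 3 * u 18 + f 4 * u 17 - (f 0 * u 5 - f 1 * u 2 +
        f 3 * u 0))
      ring
    · change f 0 * (c * u 19) - f 3 * (c * u 13) + f 4 * (c * u 12) - (f 1 * (c * u 8) - f 2 * (c * u 6)
        + f 4 * (c * u 4)) = c * (f 0 * u 19 - f 3 * u 13 + f 4 * u 12 - (f 1 * u 8 - f 2 * u 6 +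
        f 4 * u 4))
      ring

/-- the map `hB f` as a linear map -/
def hBlm (f : Fin 5 → R) : (Fin 15 → R) →ₗ[R] (Fin 20 → R) where
  toFun := hB f
  map_add' u v := by
    funext i
    fin_cases i
    · change f 0 * (u 1 + v 1) - f 1 * (u 0 + v 0) + (u 13 + v 13) = (f 0 * u 1 - f 1 * u 0 + u 13) + (f
        0 * v 1 - f 1 * v 0 + v 13)
      ring
    · change f 0 * (u 2 + v 2) - f 2 * (u 0 + v 0) = (f 0 * u 2 - f 2 * u 0) + (f 0 * v 2 - f 2 * v 0)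
      ring
    · change f 0 * (u 3 + v 3) - f 3 * (u 0 + v 0) = (f 0 * u 3 - f 3 * u 0) + (f 0 * v 3 - f 3 * v 0)
      ring
    · change f 0 * (u 4 + v 4) - f 4 * (u 0 + v 0) - (u 12 + v 12) = (f 0 * u 4 - f 4 * u 0 - u 12) + (f
        0 * v 4 - f 4 * v 0 - v 12)
      ring
    · change f 1 * (u 2 + v 2) - f 2 * (u 1 + v 1) + (u 14 + v 14) = (f 1 * u 2 - f 2 * u 1 + u 14) + (f
        1 * v 2 - f 2 * v 1 + v 14)
      ring
    · change f 1 * (u 3 + v 3) - f 3 * (u 1 + v 1) = (f 1 * u 3 - f 3 * u 1) + (f 1 * v 3 - f 3 * v 1)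
      ring
    · change f 1 * (u 4 + v 4) - f 4 * (u 1 + v 1) = (f 1 * u 4 - f 4 * u 1) + (f 1 * v 4 - f 4 * v 1)
      ring
    · change f 2 * (u 3 + v 3) - f 3 * (u 2 + v 2) + (u 10 + v 10) = (f 2 * u 3 - f 3 * u 2 + u 10) + (f
        2 * v 3 - f 3 * v 2 + v 10)
      ring
    · change f 2 * (u 4 + v 4) - f 4 * (u 2 + v 2) = (f 2 * u 4 - f 4 * u 2) + (f 2 * v 4 - f 4 * v 2)
      ring
    · change f 3 * (u 4 + v 4) - f 4 * (u 3 + v 3) + (u 11 + v 11) = (f 3 * u 4 - f 4 * u 3 + u 11) + (f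
        3 * v 4 - f 4 * v 3 + v 11)
      ring
    · change f 0 * (u 6 + v 6) - f 1 * (u 5 + v 5) = (f 0 * u 6 - f 1 * u 5) + (f 0 * v 6 - f 1 * v 5)
      ring
    · change f 0 * (u 7 + v 7) - f 2 * (u 5 + v 5) - (u 11 + v 11) = (f 0 * u 7 - f 2 * u 5 - u 11) + (f
        0 * v 7 - f 2 * v 5 - v 11)
      ring
    · change f 0 * (u 8 + v 8) - f 3 * (u 5 + v 5) + (u 14 + v 14) = (f 0 * u 8 - f 3 * u 5 + u 14) + (f
        0 * v 8 - f 3 * v 5 + v 14)
      ring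
    · change f 0 * (u 9 + v 9) - f 4 * (u 5 + v 5) = (f 0 * u 9 - f 4 * u 5) + (f 0 * v 9 - f 4 * v 5)
      ring
    · change f 1 * (u 7 + v 7) - f 2 * (u 6 + v 6) = (f 1 * u 7 - f 2 * u 6) + (f 1 * v 7 - f 2 * v 6)
      ring
    · change f 1 * (u 8 + v 8) - f 3 * (u 6 + v 6) - (u 12 + v 12) = (f 1 * u 8 - f 3 * u 6 - u 12) + (f
        1 * v 8 - f 3 * v 6 - v 12)
      ring
    · change f 1 * (u 9 + v 9) - f 4 * (u 6 + v 6) + (u 10 + v 10) = (f 1 * u 9 - f 4 * u 6 + u 10) + (f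
        1 * v 9 - f 4 * v 6 + v 10)
      ring
    · change f 2 * (u 8 + v 8) - f 3 * (u 7 + v 7) = (f 2 * u 8 - f 3 * u 7) + (f 2 * v 8 - f 3 * v 7)
      ring
    · change f 2 * (u 9 + v 9) - f 4 * (u 7 + v 7) - (u 13 + v 13) = (f 2 * u 9 - f 4 * u 7 - u 13) + (f
        2 * v 9 - f 4 * v 7 - v 13)
      ring
    · change f 3 * (u 9 + v 9) - f 4 * (u 8 + v 8) = (f 3 * u 9 - f 4 * u 8) + (f 3 * v 9 - f 4 * v 8)
      ring
  map_smul' c u := by
    funext i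
    fin_cases i
    · change f 0 * (c * u 1) - f 1 * (c * u 0) + (c * u 13) = c * (f 0 * u 1 - f 1 * u 0 + u 13)
      ring
    · change f 0 * (c * u 2) - f 2 * (c * u 0) = c * (f 0 * u 2 - f 2 * u 0)
      ring
    · change f 0 * (c * u 3) - f 3 * (c * u 0) = c * (f 0 * u 3 - f 3 * u 0)
      ring
    · change f 0 * (c * u 4) - f 4 * (c * u 0) - (c * u 12) = c * (f 0 * u 4 - f 4 * u 0 - u 12)
      ring
    · change f 1 * (c * u 2) - f 2 * (c * u 1) + (c * u 14) = c * (f 1 * u 2 - f 2 * u 1 + u 14)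
      ring
    · change f 1 * (c * u 3) - f 3 * (c * u 1) = c * (f 1 * u 3 - f 3 * u 1)
      ring
    · change f 1 * (c * u 4) - f 4 * (c * u 1) = c * (f 1 * u 4 - f 4 * u 1)
      ring
    · change f 2 * (c * u 3) - f 3 * (c * u 2) + (c * u 10) = c * (f 2 * u 3 - f 3 * u 2 + u 10)
      ring
    · change f 2 * (c * u 4) - f 4 * (c * u 2) = c * (f 2 * u 4 - f 4 * u 2)
      ring
    · change f 3 * (c * u 4) - f 4 * (c * u 3) + (c * u 11) = c * (f 3 * u 4 - f 4 * u 3 + u 11)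
      ring
    · change f 0 * (c * u 6) - f 1 * (c * u 5) = c * (f 0 * u 6 - f 1 * u 5)
      ring
    · change f 0 * (c * u 7) - f 2 * (c * u 5) - (c * u 11) = c * (f 0 * u 7 - f 2 * u 5 - u 11)
      ring
    · change f 0 * (c * u 8) - f 3 * (c * u 5) + (c * u 14) = c * (f 0 * u 8 - f 3 * u 5 + u 14)
      ring
    · change f 0 * (c * u 9) - f 4 * (c * u 5) = c * (f 0 * u 9 - f 4 * u 5)
      ring
    · change f 1 * (c * u 7) - f 2 * (c * u 6) = c * (f 1 * u 7 - f 2 * u 6)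
      ring
    · change f 1 * (c * u 8) - f 3 * (c * u 6) - (c * u 12) = c * (f 1 * u 8 - f 3 * u 6 - u 12)
      ring
    · change f 1 * (c * u 9) - f 4 * (c * u 6) + (c * u 10) = c * (f 1 * u 9 - f 4 * u 6 + u 10)
      ring
    · change f 2 * (c * u 8) - f 3 * (c * u 7) = c * (f 2 * u 8 - f 3 * u 7)
      ring
    · change f 2 * (c * u 9) - f 4 * (c * u 7) - (c * u 13) = c * (f 2 * u 9 - f 4 * u 7 - u 13)
      ring
    · change f 3 * (c * u 9) - f 4 * (c * u 8) = c * (f 3 * u 9 - f 4 * u 8)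
      ring

theorem mt_toMatrix {m n : ℕ} (F : (Fin n → R) →ₗ[R] (Fin m → R)) :
    mt (fun x => F x) = LinearMap.toMatrix' F := by
  ext i j
  rw [LinearMap.toMatrix'_apply]
  simp only [mt]

theorem mt_hC_mul (f : Fin 5 → R) (v : Fin 20 → R) : mt (hC f) *ᵥ v = hC f v := by
  have h := mt_toMatrix (hClm f)
  change mt (hC f) = _ at h
  rw [h, LinearMap.toMatrix'_mulVec]
  rfl

theorem mt_hB_mul (f : Fin 5 → R) (v : Fin 15 → R) : mt (hB f) *ᵥ v = hB f v := by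
  have h := mt_toMatrix (hBlm f)
  change mt (hB f) = _ at h
  rw [h, LinearMap.toMatrix'_mulVec]
  rfl

/-- the skew matrix with given entries above the diagonal -/
def sk (a : Fin 10 → R) : Matrix (Fin 5) (Fin 5) R :=
  !![0, a 0, a 1, a 2, a 3; -a 0, 0, a 4, a 5, a 6; -a 1, -a 4, 0, a 7, a 8;
    -a 2, -a 5, -a 7, 0, a 9; -a 3, -a 6, -a 8, -a 9, 0]

/-- the two halves of a vector -/
def lo (v : Fin 20 → R) : Fin 10 → R :=
  ![v 0, v 1, v 2, v 3, v 4, v 5, v 6, v 7, v 8, v 9]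

/-- the two halves of a vector -/
def hi (v : Fin 20 → R) : Fin 10 → R :=
  ![v 10, v 11, v 12, v 13, v 14, v 15, v 16, v 17, v 18, v 19]

/-- the entries above the diagonal -/
def up (a : Matrix (Fin 5) (Fin 5) R) : Fin 10 → R :=
  ![a 0 1, a 0 2, a 0 3, a 0 4, a 1 2, a 1 3, a 1 4, a 2 3, a 2 4, a 3 4]

/-- the vector of two matrices -/
def bk (a b : Matrix (Fin 5) (Fin 5) R) : Fin 20 → R :=
  ![a 0 1, a 0 2, a 0 3, a 0 4, a 1 2, a 1 3, a 1 4, a 2 3, a 2 4, a 3 4,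
    b 0 1, b 0 2, b 0 3, b 0 4, b 1 2, b 1 3, b 1 4, b 2 3, b 2 4, b 3 4]

theorem bk_sk (v : Fin 20 → R) : bk (sk (lo v)) (sk (hi v)) = v := by
  funext i
  fin_cases i <;> rfl

theorem sk_up {a : Matrix (Fin 5) (Fin 5) R} (ha : ∀ i j, a j i = -a i j ∧ a i i = 0) :
    sk (up a) = a := by
  ext i j
  fin_cases i <;> fin_cases j <;>
    first | rfl | exact (ha _ 0).2.symm | exact (ha _ _).1.symm

theorem sk_bk {a b : Matrix (Fin 5) (Fin 5) R} (ha : ∀ i j, a j i = -a i j ∧ a i i = 0) :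
    sk (lo (bk a b)) = a :=
  sk_up ha

theorem sk_bk' {a b : Matrix (Fin 5) (Fin 5) R} (hb : ∀ i j, b j i = -b i j ∧ b i i = 0) :
    sk (hi (bk a b)) = b :=
  sk_up hb

theorem sk_skew (a : Fin 10 → R) (i j : Fin 5) : sk a j i = -sk a i j ∧ sk a i i = 0 := by
  fin_cases i <;> fin_cases j <;>
    first | exact ⟨rfl, rfl⟩ | exact ⟨(neg_neg _).symm, rfl⟩ | exact ⟨neg_zero.symm, rfl⟩

/-- the pair of skew matrices of a vector -/
def EL : (Fin 20 → R) →ₗ[R] (Matrix (Fin 5) (Fin 5) R × Matrix (Fin 5) (Fin 5) R) where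
  toFun v := (sk (lo v), sk (hi v))
  map_add' u v := by
    refine Prod.ext ?_ ?_
    · ext i j
      fin_cases i <;> fin_cases j
      · exact (add_zero (0 : R)).symm
      · exact (rfl : u 0 + v 0 = u 0 + v 0)
      · exact (rfl : u 1 + v 1 = u 1 + v 1)
      · exact (rfl : u 2 + v 2 = u 2 + v 2)
      · exact (rfl : u 3 + v 3 = u 3 + v 3)
      · exact neg_add (u 0) (v 0)
      · exact (add_zero (0 : R)).symm
      · exact (rfl : u 4 + v 4 = u 4 + v 4)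
      · exact (rfl : u 5 + v 5 = u 5 + v 5)
      · exact (rfl : u 6 + v 6 = u 6 + v 6)
      · exact neg_add (u 1) (v 1)
      · exact neg_add (u 4) (v 4)
      · exact (add_zero (0 : R)).symm
      · exact (rfl : u 7 + v 7 = u 7 + v 7)
      · exact (rfl : u 8 + v 8 = u 8 + v 8)
      · exact neg_add (u 2) (v 2)
      · exact neg_add (u 5) (v 5)
      · exact neg_add (u 7) (v 7)
      · exact (add_zero (0 : R)).symm
      · exact (rfl : u 9 + v 9 = u 9 + v 9)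
      · exact neg_add (u 3) (v 3)
      · exact neg_add (u 6) (v 6)
      · exact neg_add (u 8) (v 8)
      · exact neg_add (u 9) (v 9)
      · exact (add_zero (0 : R)).symm
    · ext i j
      fin_cases i <;> fin_cases j
      · exact (add_zero (0 : R)).symm
      · exact (rfl : u 10 + v 10 = u 10 + v 10)
      · exact (rfl : u 11 + v 11 = u 11 + v 11)
      · exact (rfl : u 12 + v 12 = u 12 + v 12)
      · exact (rfl : u 13 + v 13 = u 13 + v 13)
      · exact neg_add (u 10) (v 10)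
      · exact (add_zero (0 : R)).symm
      · exact (rfl : u 14 + v 14 = u 14 + v 14)
      · exact (rfl : u 15 + v 15 = u 15 + v 15)
      · exact (rfl : u 16 + v 16 = u 16 + v 16)
      · exact neg_add (u 11) (v 11)
      · exact neg_add (u 14) (v 14)
      · exact (add_zero (0 : R)).symm
      · exact (rfl : u 17 + v 17 = u 17 + v 17)
      · exact (rfl : u 18 + v 18 = u 18 + v 18)
      · exact neg_add (u 12) (v 12)
      · exact neg_add (u 15) (v 15)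
      · exact neg_add (u 17) (v 17)
      · exact (add_zero (0 : R)).symm
      · exact (rfl : u 19 + v 19 = u 19 + v 19)
      · exact neg_add (u 13) (v 13)
      · exact neg_add (u 16) (v 16)
      · exact neg_add (u 18) (v 18)
      · exact neg_add (u 19) (v 19)
      · exact (add_zero (0 : R)).symm
  map_smul' c v := by
    refine Prod.ext ?_ ?_
    · ext i j
      fin_cases i <;> fin_cases j
      · exact (mul_zero c).symm
      · exact (rfl : c * v 0 = c * v 0)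
      · exact (rfl : c * v 1 = c * v 1)
      · exact (rfl : c * v 2 = c * v 2)
      · exact (rfl : c * v 3 = c * v 3)
      · exact (mul_neg c (v 0)).symm
      · exact (mul_zero c).symm
      · exact (rfl : c * v 4 = c * v 4)
      · exact (rfl : c * v 5 = c * v 5)
      · exact (rfl : c * v 6 = c * v 6)
      · exact (mul_neg c (v 1)).symm
      · exact (mul_neg c (v 4)).symm
      · exact (mul_zero c).symm
      · exact (rfl : c * v 7 = c * v 7)
      · exact (rfl : c * v 8 = c * v 8)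
      · exact (mul_neg c (v 2)).symm
      · exact (mul_neg c (v 5)).symm
      · exact (mul_neg c (v 7)).symm
      · exact (mul_zero c).symm
      · exact (rfl : c * v 9 = c * v 9)
      · exact (mul_neg c (v 3)).symm
      · exact (mul_neg c (v 6)).symm
      · exact (mul_neg c (v 8)).symm
      · exact (mul_neg c (v 9)).symm
      · exact (mul_zero c).symm
    · ext i j
      fin_cases i <;> fin_cases j
      · exact (mul_zero c).symm
      · exact (rfl : c * v 10 = c * v 10)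
      · exact (rfl : c * v 11 = c * v 11)
      · exact (rfl : c * v 12 = c * v 12)
      · exact (rfl : c * v 13 = c * v 13)
      · exact (mul_neg c (v 10)).symm
      · exact (mul_zero c).symm
      · exact (rfl : c * v 14 = c * v 14)
      · exact (rfl : c * v 15 = c * v 15)
      · exact (rfl : c * v 16 = c * v 16)
      · exact (mul_neg c (v 11)).symm
      · exact (mul_neg c (v 14)).symm
      · exact (mul_zero c).symm
      · exact (rfl : c * v 17 = c * v 17)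
      · exact (rfl : c * v 18 = c * v 18)
      · exact (mul_neg c (v 12)).symm
      · exact (mul_neg c (v 15)).symm
      · exact (mul_neg c (v 17)).symm
      · exact (mul_zero c).symm
      · exact (rfl : c * v 19 = c * v 19)
      · exact (mul_neg c (v 13)).symm
      · exact (mul_neg c (v 16)).symm
      · exact (mul_neg c (v 18)).symm
      · exact (mul_neg c (v 19)).symm
      · exact (mul_zero c).symm

/-- `v ∧ w` -/
def wd (v w : Fin 5 → R) : Matrix (Fin 5) (Fin 5) R := fun i j => v i * w j - v j * w i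

theorem wd_skew (v w : Fin 5 → R) (i j : Fin 5) : wd v w j i = -wd v w i j ∧ wd v w i i = 0 :=
  ⟨by simp only [wd]; ring, by simp only [wd]; ring⟩

/-- three parts of a vector -/
def cat (v w c : Fin 5 → R) : Fin 15 → R :=
  ![v 0, v 1, v 2, v 3, v 4, w 0, w 1, w 2, w 3, w 4, c 0, c 1, c 2, c 3, c 4]

omit [CommRing R] in
theorem cat_eta (x : Fin 15 → R) : cat ![x 0, x 1, x 2, x 3, x 4] ![x 5, x 6, x 7, x 8, x 9]
    ![x 10, x 11, x 12, x 13, x 14] = x := by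
  funext i
  fin_cases i <;> rfl

theorem up_inj {a b : Matrix (Fin 5) (Fin 5) R} (ha : ∀ i j, a j i = -a i j ∧ a i i = 0)
    (hb : ∀ i j, b j i = -b i j ∧ b i i = 0) (h : up a = up b) : a = b := by
  rw [← sk_up ha, ← sk_up hb, h]

theorem sk_lo_hB (f v w c : Fin 5 → R) : sk (lo (hB f (cat v w c))) = wd f v +
    (c 0 • wd (Pi.single 2 1) (Pi.single 3 1) + c 1 • wd (Pi.single 3 1) (Pi.single 4 1) +
    c 2 • wd (Pi.single 4 1) (Pi.single 0 1) + c 3 • wd (Pi.single 0 1) (Pi.single 1 1) +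
    c 4 • wd (Pi.single 1 1) (Pi.single 2 1)) := by
  refine up_inj (sk_skew _) (fun i j => ⟨?_, ?_⟩) (funext fun n => ?_)
  · simp only [wd, Matrix.add_apply, Matrix.smul_apply, smul_eq_mul]
    ring
  · simp only [wd, Matrix.add_apply, Matrix.smul_apply, smul_eq_mul]
    ring
  · fin_cases n
    · change f 0 * v 1 - f 1 * v 0 + c 3 = (f 0 * v 1 - f 1 * v 0) + (c 0 * (0 * 0 - 0 * 0) + c 1 * (0 *
        0 - 0 * 0) + c 2 * (0 * 0 - 0 * 1) + c 3 * (1 * 1 - 0 * 0) + c 4 * (0 * 0 - 1 * 0))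
      ring
    · change f 0 * v 2 - f 2 * v 0 = (f 0 * v 2 - f 2 * v 0) + (c 0 * (0 * 0 - 1 * 0) + c 1 * (0 * 0 - 0
        * 0) + c 2 * (0 * 0 - 0 * 1) + c 3 * (1 * 0 - 0 * 0) + c 4 * (0 * 1 - 0 * 0))
      ring
    · change f 0 * v 3 - f 3 * v 0 = (f 0 * v 3 - f 3 * v 0) + (c 0 * (0 * 1 - 0 * 0) + c 1 * (0 * 0 - 1
        * 0) + c 2 * (0 * 0 - 0 * 1) + c 3 * (1 * 0 - 0 * 0) + c 4 * (0 * 0 - 0 * 0))
      ring
    · change f 0 * v 4 - f 4 * v 0 - c 2 = (f 0 * v 4 - f 4 * v 0) + (c 0 * (0 * 0 - 0 * 0) + c 1 * (0 *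
        1 - 0 * 0) + c 2 * (0 * 0 - 1 * 1) + c 3 * (1 * 0 - 0 * 0) + c 4 * (0 * 0 - 0 * 0))
      ring
    · change f 1 * v 2 - f 2 * v 1 + c 4 = (f 1 * v 2 - f 2 * v 1) + (c 0 * (0 * 0 - 1 * 0) + c 1 * (0 *
        0 - 0 * 0) + c 2 * (0 * 0 - 0 * 0) + c 3 * (0 * 0 - 0 * 1) + c 4 * (1 * 1 - 0 * 0))
      ring
    · change f 1 * v 3 - f 3 * v 1 = (f 1 * v 3 - f 3 * v 1) + (c 0 * (0 * 1 - 0 * 0) + c 1 * (0 * 0 - 1
        * 0) + c 2 * (0 * 0 - 0 * 0) + c 3 * (0 * 0 - 0 * 1) + c 4 * (1 * 0 - 0 * 0))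
      ring
    · change f 1 * v 4 - f 4 * v 1 = (f 1 * v 4 - f 4 * v 1) + (c 0 * (0 * 0 - 0 * 0) + c 1 * (0 * 1 - 0
        * 0) + c 2 * (0 * 0 - 1 * 0) + c 3 * (0 * 0 - 0 * 1) + c 4 * (1 * 0 - 0 * 0))
      ring
    · change f 2 * v 3 - f 3 * v 2 + c 0 = (f 2 * v 3 - f 3 * v 2) + (c 0 * (1 * 1 - 0 * 0) + c 1 * (0 *
        0 - 1 * 0) + c 2 * (0 * 0 - 0 * 0) + c 3 * (0 * 0 - 0 * 0) + c 4 * (0 * 0 - 0 * 1))
      ring
    · change f 2 * v 4 - f 4 * v 2 = (f 2 * v 4 - f 4 * v 2) + (c 0 * (1 * 0 - 0 * 0) + c 1 * (0 * 1 - 0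
        * 0) + c 2 * (0 * 0 - 1 * 0) + c 3 * (0 * 0 - 0 * 0) + c 4 * (0 * 0 - 0 * 1))
      ring
    · change f 3 * v 4 - f 4 * v 3 + c 1 = (f 3 * v 4 - f 4 * v 3) + (c 0 * (0 * 0 - 0 * 1) + c 1 * (1 *
        1 - 0 * 0) + c 2 * (0 * 0 - 1 * 0) + c 3 * (0 * 0 - 0 * 0) + c 4 * (0 * 0 - 0 * 0))
      ring

theorem sk_hi_hB (f v w c : Fin 5 → R) : sk (hi (hB f (cat v w c))) = wd f w +
    (c 0 • wd (Pi.single 1 1) (Pi.single 4 1) + c 1 • wd (Pi.single 2 1) (Pi.single 0 1) +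
    c 2 • wd (Pi.single 3 1) (Pi.single 1 1) + c 3 • wd (Pi.single 4 1) (Pi.single 2 1) +
    c 4 • wd (Pi.single 0 1) (Pi.single 3 1)) := by
  refine up_inj (sk_skew _) (fun i j => ⟨?_, ?_⟩) (funext fun n => ?_)
  · simp only [wd, Matrix.add_apply, Matrix.smul_apply, smul_eq_mul]
    ring
  · simp only [wd, Matrix.add_apply, Matrix.smul_apply, smul_eq_mul]
    ring
  · fin_cases n
    · change f 0 * w 1 - f 1 * w 0 = (f 0 * w 1 - f 1 * w 0) + (c 0 * (0 * 0 - 1 * 0) + c 1 * (0 * 0 - 0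
        * 1) + c 2 * (0 * 1 - 0 * 0) + c 3 * (0 * 0 - 0 * 0) + c 4 * (1 * 0 - 0 * 0))
      ring
    · change f 0 * w 2 - f 2 * w 0 - c 1 = (f 0 * w 2 - f 2 * w 0) + (c 0 * (0 * 0 - 0 * 0) + c 1 * (0 *
        0 - 1 * 1) + c 2 * (0 * 0 - 0 * 0) + c 3 * (0 * 1 - 0 * 0) + c 4 * (1 * 0 - 0 * 0))
      ring
    · change f 0 * w 3 - f 3 * w 0 + c 4 = (f 0 * w 3 - f 3 * w 0) + (c 0 * (0 * 0 - 0 * 0) + c 1 * (0 *
        0 - 0 * 1) + c 2 * (0 * 0 - 1 * 0) + c 3 * (0 * 0 - 0 * 0) + c 4 * (1 * 1 - 0 * 0))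
      ring
    · change f 0 * w 4 - f 4 * w 0 = (f 0 * w 4 - f 4 * w 0) + (c 0 * (0 * 1 - 0 * 0) + c 1 * (0 * 0 - 0
        * 1) + c 2 * (0 * 0 - 0 * 0) + c 3 * (0 * 0 - 1 * 0) + c 4 * (1 * 0 - 0 * 0))
      ring
    · change f 1 * w 2 - f 2 * w 1 = (f 1 * w 2 - f 2 * w 1) + (c 0 * (1 * 0 - 0 * 0) + c 1 * (0 * 0 - 1
        * 0) + c 2 * (0 * 0 - 0 * 1) + c 3 * (0 * 1 - 0 * 0) + c 4 * (0 * 0 - 0 * 0))
      ring
    · change f 1 * w 3 - f 3 * w 1 - c 2 = (f 1 * w 3 - f 3 * w 1) + (c 0 * (1 * 0 - 0 * 0) + c 1 * (0 *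
        0 - 0 * 0) + c 2 * (0 * 0 - 1 * 1) + c 3 * (0 * 0 - 0 * 0) + c 4 * (0 * 1 - 0 * 0))
      ring
    · change f 1 * w 4 - f 4 * w 1 + c 0 = (f 1 * w 4 - f 4 * w 1) + (c 0 * (1 * 1 - 0 * 0) + c 1 * (0 *
        0 - 0 * 0) + c 2 * (0 * 0 - 0 * 1) + c 3 * (0 * 0 - 1 * 0) + c 4 * (0 * 0 - 0 * 0))
      ring
    · change f 2 * w 3 - f 3 * w 2 = (f 2 * w 3 - f 3 * w 2) + (c 0 * (0 * 0 - 0 * 0) + c 1 * (1 * 0 - 0
        * 0) + c 2 * (0 * 0 - 1 * 0) + c 3 * (0 * 0 - 0 * 1) + c 4 * (0 * 1 - 0 * 0))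
      ring
    · change f 2 * w 4 - f 4 * w 2 - c 3 = (f 2 * w 4 - f 4 * w 2) + (c 0 * (0 * 1 - 0 * 0) + c 1 * (1 *
        0 - 0 * 0) + c 2 * (0 * 0 - 0 * 0) + c 3 * (0 * 0 - 1 * 1) + c 4 * (0 * 0 - 0 * 0))
      ring
    · change f 3 * w 4 - f 4 * w 3 = (f 3 * w 4 - f 4 * w 3) + (c 0 * (0 * 1 - 0 * 0) + c 1 * (0 * 0 - 0
        * 0) + c 2 * (1 * 0 - 0 * 0) + c 3 * (0 * 0 - 1 * 0) + c 4 * (0 * 0 - 0 * 1))
      ring

end

section

variable {K : Type} [Field K] {f : Fin 5 → S K}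

theorem mem_hmKer_iff (v : Fin 20 → S K) : EL v ∈ hmKer f ↔ hC f v = 0 := by
  constructor
  · rintro ⟨-, h⟩
    have h0 : f 0 * v 16 - f 1 * v 13 + f 4 * v 10 = f 0 * v 7 - f 2 * v 2 + f 3 * v 1 := h 0
    have h1 : f 1 * (-v 11) - f 2 * (-v 10) + f 0 * v 14 =
      f 1 * v 9 - f 3 * v 6 + f 4 * v 5 := h 1
    have h2 : f 2 * (-v 15) - f 3 * (-v 14) + f 1 * v 17 =
      f 2 * (-v 3) - f 4 * (-v 1) + f 0 * v 8 := h 2
    have h3 : f 3 * (-v 18) - f 4 * (-v 17) + f 2 * v 19 =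
      f 3 * v 0 - f 0 * (-v 5) + f 1 * (-v 2) := h 3
    have h4 : f 4 * v 12 - f 0 * (-v 19) + f 3 * (-v 13) =
      f 4 * v 4 - f 1 * (-v 8) + f 2 * (-v 6) := h 4
    funext i
    fin_cases i
    · change f 0 * v 16 - f 1 * v 13 + f 4 * v 10 - (f 0 * v 7 - f 2 * v 2 + f 3 * v 1) = 0
      linear_combination h0
    · change f 0 * v 14 - f 1 * v 11 + f 2 * v 10 - (f 1 * v 9 - f 3 * v 6 + f 4 * v 5) = 0
      linear_combination h1
    · change f 1 * v 17 - f 2 * v 15 + f 3 * v 14 - (f 0 * v 8 - f 2 * v 3 + f 4 * v 1) = 0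
      linear_combination h2
    · change f 2 * v 19 - f 3 * v 18 + f 4 * v 17 - (f 0 * v 5 - f 1 * v 2 + f 3 * v 0) = 0
      linear_combination h3
    · change f 0 * v 19 - f 3 * v 13 + f 4 * v 12 - (f 1 * v 8 - f 2 * v 6 + f 4 * v 4) = 0
      linear_combination h4
  · intro h
    refine ⟨fun i j => ⟨(sk_skew _ i j).1, (sk_skew _ i j).2, (sk_skew _ i j).1,
      (sk_skew _ i j).2⟩, fun i => ?_⟩
    have h0 : f 0 * v 16 - f 1 * v 13 + f 4 * v 10 - (f 0 * v 7 - f 2 * v 2 + f 3 * v 1) = 0 :=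
      congrFun h 0
    have h1 : f 0 * v 14 - f 1 * v 11 + f 2 * v 10 - (f 1 * v 9 - f 3 * v 6 + f 4 * v 5) = 0 :=
      congrFun h 1
    have h2 : f 1 * v 17 - f 2 * v 15 + f 3 * v 14 - (f 0 * v 8 - f 2 * v 3 + f 4 * v 1) = 0 :=
      congrFun h 2
    have h3 : f 2 * v 19 - f 3 * v 18 + f 4 * v 17 - (f 0 * v 5 - f 1 * v 2 + f 3 * v 0) = 0 :=
      congrFun h 3
    have h4 : f 0 * v 19 - f 3 * v 13 + f 4 * v 12 - (f 1 * v 8 - f 2 * v 6 + f 4 * v 4) = 0 :=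
      congrFun h 4
    fin_cases i
    · change f 0 * v 16 - f 1 * v 13 + f 4 * v 10 = f 0 * v 7 - f 2 * v 2 + f 3 * v 1
      linear_combination h0
    · change f 1 * (-v 11) - f 2 * (-v 10) + f 0 * v 14 = f 1 * v 9 - f 3 * v 6 + f 4 * v 5
      linear_combination h1
    · change f 2 * (-v 15) - f 3 * (-v 14) + f 1 * v 17 =
        f 2 * (-v 3) - f 4 * (-v 1) + f 0 * v 8
      linear_combination h2
    · change f 3 * (-v 18) - f 4 * (-v 17) + f 2 * v 19 =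
        f 3 * v 0 - f 0 * (-v 5) + f 1 * (-v 2)
      linear_combination h3
    · change f 4 * v 12 - f 0 * (-v 19) + f 3 * (-v 13) =
        f 4 * v 4 - f 1 * (-v 8) + f 2 * (-v 6)
      linear_combination h4

/-- the generators of the image -/
def gens (f : Fin 5 → S K) : Set (Matrix (Fin 5) (Fin 5) (S K) × Matrix (Fin 5) (Fin 5) (S K)) :=
  {ω | ∃ v w, ω = (wedge f v, wedge f w)} ∪
    {ω | ∃ i, ω = (wedge (bv (i + 2)) (bv (i + 3)), wedge (bv (i + 1)) (bv (i + 4)))}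

/-- the generators of the second kind -/
def gv (i : Fin 5) : Matrix (Fin 5) (Fin 5) (S K) × Matrix (Fin 5) (Fin 5) (S K) :=
  (wedge (bv (i + 2)) (bv (i + 3)), wedge (bv (i + 1)) (bv (i + 4)))

theorem EL_hB_cat (v w c : Fin 5 → S K) :
    EL (hB f (cat v w c)) = (wedge f v, wedge f w) + ∑ i : Fin 5, c i • gv i := by
  rw [Fin.sum_univ_five]
  exact Prod.ext (sk_lo_hB f v w c) (sk_hi_hB f v w c)

theorem EL_hB_mem (x : Fin 15 → S K) : EL (hB f x) ∈ Submodule.span (S K) (gens f) := by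
  rw [← cat_eta x, EL_hB_cat]
  refine Submodule.add_mem _ (Submodule.subset_span (Or.inl ⟨_, _, rfl⟩)) ?_
  exact Submodule.sum_mem _ fun i _ =>
    Submodule.smul_mem _ _ (Submodule.subset_span (Or.inr ⟨i, rfl⟩))

theorem bk_lo_hi (ω : hmKer f) : EL (bk ω.1.1 ω.1.2) = ω.1 := by
  obtain ⟨⟨a, b⟩, h, -⟩ := ω
  exact Prod.ext (sk_bk fun i j => ⟨(h i j).1, (h i j).2.1⟩)
    (sk_bk' fun i j => ⟨(h i j).2.2.1, (h i j).2.2.2⟩)

theorem bk_EL (v : Fin 20 → S K) : bk (EL v).1 (EL v).2 = v := bk_sk v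

theorem wedge_zero (v : Fin 5 → S K) : wedge v 0 = 0 := by
  funext i j
  simp [wedge]

theorem gens_hB {ω : Matrix (Fin 5) (Fin 5) (S K) × Matrix (Fin 5) (Fin 5) (S K)}
    (h : ω ∈ Submodule.span (S K) (gens f)) : ∃ x, EL (hB f x) = ω := by
  have h1 : Submodule.span (S K) (gens f) ≤ LinearMap.range (EL ∘ₗ hBlm f) := by
    rw [Submodule.span_le]
    rintro ω (⟨v, w, rfl⟩ | ⟨i, rfl⟩)
    · refine ⟨cat v w 0, ?_⟩
      change EL (hB f (cat v w 0)) = _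
      rw [EL_hB_cat]
      simp
    · refine ⟨cat 0 0 (Pi.single i 1), ?_⟩
      change EL (hB f (cat 0 0 (Pi.single i 1))) = gv i
      rw [EL_hB_cat, wedge_zero, Finset.sum_eq_single i]
      · rw [Pi.single_eq_same, one_smul]
        exact zero_add _
      · intro j _ hj
        rw [Pi.single_eq_of_ne hj, zero_smul]
      · intro hi
        exact absurd (Finset.mem_univ i) hi
  obtain ⟨x, hx⟩ := h1 h
  exact ⟨x, hx⟩

/-- the cycles -/
def cycEquiv (W : Mnd K (Fin 2) (Fin 15) (Fin 20) (Fin 5)) (hC' : W.C = mt (hC f)) :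
    W.cyc ≃ₗ[S K] hmKer f where
  toFun v := ⟨EL v.1, (mem_hmKer_iff _).2 (by
    have h : W.C *ᵥ v.1 = 0 := v.2
    rwa [hC', mt_hC_mul] at h)⟩
  map_add' u v := Subtype.ext (map_add EL u.1 v.1)
  map_smul' c v := Subtype.ext (map_smul EL c v.1)
  invFun ω := ⟨bk ω.1.1 ω.1.2, by
    have h : hC f (bk ω.1.1 ω.1.2) = 0 := (mem_hmKer_iff _).1 (by rw [bk_lo_hi]; exact ω.2)
    change W.C *ᵥ _ = 0
    rwa [hC', mt_hC_mul]⟩
  left_inv v := Subtype.ext (bk_EL v.1)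
  right_inv ω := Subtype.ext (bk_lo_hi ω)

theorem map_cycEquiv (W : Mnd K (Fin 2) (Fin 15) (Fin 20) (Fin 5)) (hB' : W.B = mt (hB f))
    (hC' : W.C = mt (hC f)) :
    (W.bdy.comap W.cyc.subtype).map (cycEquiv W hC' : W.cyc →ₗ[S K] hmKer f) = hmIm f := by
  ext ω
  constructor
  · rintro ⟨v, ⟨x, hx⟩, rfl⟩
    change EL v.1 ∈ Submodule.span (S K) (gens f)
    have hx' : W.B *ᵥ x = v.1 := hx
    rw [hB', mt_hB_mul] at hx'
    rw [← hx']
    exact EL_hB_mem x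
  · intro h
    obtain ⟨x, hx⟩ := gens_hB (f := f) (ω := ω.1) h
    have hv : hB f x ∈ W.cyc := by
      change W.C *ᵥ _ = 0
      rw [hC', mt_hC_mul, ← mem_hmKer_iff, hx]
      exact ω.2
    refine ⟨⟨hB f x, hv⟩, ⟨x, ?_⟩, Subtype.ext hx⟩
    change W.B *ᵥ x = hB f x
    rw [hB', mt_hB_mul]

theorem gr_iff (v : Fin 20 → S K) (n : ℤ) : v ∈ gr K h1 n ↔ EL v ∈ pairsGr K n := by
  constructor
  · intro h
    have h' : ∀ i, IsWeightedHomogeneous (fun _ : Fin 5 => (1 : ℤ)) (v i) n := fun i => by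
      have := h i
      simpa [Form, h1] using this
    have h0 : IsWeightedHomogeneous (fun _ : Fin 5 => (1 : ℤ)) (0 : S K) n :=
      isWeightedHomogeneous_zero K _ _
    have hn : ∀ i, IsWeightedHomogeneous (fun _ : Fin 5 => (1 : ℤ)) (-v i) n := fun i =>
      (weightedHomogeneousSubmodule K (fun _ : Fin 5 => (1 : ℤ)) n).neg_mem (h' i)
    intro i j
    fin_cases i <;> fin_cases j <;>
      exact ⟨by first | exact h0 | exact h' _ | exact hn _,
        by first | exact h0 | exact h' _ | exact hn _⟩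
  · intro h i
    have hi : Form (n - h1 i) (v i) ↔ IsWeightedHomogeneous (fun _ : Fin 5 => (1 : ℤ)) (v i) n := by
      simp [Form, h1]
    rw [hi]
    fin_cases i
    · exact (h 0 1).1
    · exact (h 0 2).1
    · exact (h 0 3).1
    · exact (h 0 4).1
    · exact (h 1 2).1
    · exact (h 1 3).1
    · exact (h 1 4).1
    · exact (h 2 3).1
    · exact (h 2 4).1
    · exact (h 3 4).1
    · exact (h 0 1).2
    · exact (h 0 2).2
    · exact (h 0 3).2
    · exact (h 0 4).2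
    · exact (h 1 2).2
    · exact (h 1 3).2
    · exact (h 1 4).2
    · exact (h 2 3).2
    · exact (h 2 4).2
    · exact (h 3 4).2

theorem iso_of (W : Mnd K (Fin 2) (Fin 15) (Fin 20) (Fin 5)) (hB' : W.B = mt (hB f))
    (hC' : W.C = mt (hC f)) (hd : W.d₁ = h1) :
    ∃ e : W.Md ≃ₗ[S K] HM f, ∀ n m, m ∈ W.deg n ↔ e m ∈ hmGr f n := by
  refine ⟨Submodule.Quotient.equiv _ _ (cycEquiv W hC') (map_cycEquiv W hB' hC'), fun n m => ?_⟩
  constructor
  · rintro ⟨v, hv, rfl⟩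
    have hv' : v.1 ∈ gr K W.d₁ n := hv
    rw [hd, gr_iff] at hv'
    exact ⟨cycEquiv W hC' v, hv', rfl⟩
  · rintro ⟨ω, hω, h⟩
    have h2 : EL ((cycEquiv W hC').symm ω).1 ∈ pairsGr K n := by
      have h3 : EL ((cycEquiv W hC').symm ω).1 = ω.1 :=
        congrArg Subtype.val ((cycEquiv W hC').apply_symm_apply ω)
      rw [h3]
      exact hω
    refine ⟨(cycEquiv W hC').symm ω, ?_, ?_⟩
    · change ((cycEquiv W hC').symm ω).1 ∈ gr K W.d₁ n
      rw [hd, gr_iff]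
      exact h2
    · apply (Submodule.Quotient.equiv _ _ (cycEquiv W hC') (map_cycEquiv W hB' hC')).injective
      rw [← h]
      change (hmIm f).mkQ (cycEquiv W hC' ((cycEquiv W hC').symm ω)) = (hmIm f).mkQ ω
      rw [LinearEquiv.apply_symm_apply]

end

end Pool.Agent.Lib.MP_745d3a_ag.NB

end
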