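import Pool.Agent.Lib.MP_745d3a_ag.NB.Defs

/-!
Exactness of the new monad at a point.
-/

set_option autoImplicit false

namespace Pool.Agent.Lib.MP_745d3a_ag.NB

section

variable {R : Type} [CommRing R]

lemma nB_nA (p : Fin 3 → R) (z : Fin 2 → R) (a : Fin 3 → R) : nB p z (nA p z a) = 0 := by
  funext i
  fin_cases i <;> simp [nA, nB] <;> ring

lemma nC_nB (p : Fin 3 → R) (z : Fin 2 → R) (x : Fin 17 → R) : nC p z (nB p z x) = 0 := by
  funext i
  fin_cases i <;> simp [nC, nB] <;> ring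

lemma hB_hA (f : Fin 5 → R) (c : Fin 2 → R) : hB f (hA f c) = 0 := by
  funext i
  fin_cases i <;> simp [hA, hB] <;> ring

lemma hC_hB (f : Fin 5 → R) (w : Fin 15 → R) : hC f (hB f w) = 0 := by
  funext i
  fin_cases i <;> simp [hC, hB] <;> ring

end

variable {F : Type} [Field F]

/-- multiplication of a vector by a nonzero vector in the symmetric square is injective -/
lemma symm_inj {p0 p1 p2 a0 a1 a2 : F} (hp : p0 ≠ 0 ∨ p1 ≠ 0 ∨ p2 ≠ 0)
    (h0 : p0 * a0 = 0) (h1 : p1 * a1 = 0) (h2' : p2 * a2 = 0) (h3 : p1 * a2 + p2 * a1 = 0)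
    (h4 : p0 * a2 + p2 * a0 = 0) (h5 : p0 * a1 + p1 * a0 = 0) : a0 = 0 ∧ a1 = 0 ∧ a2 = 0 := by
  rcases hp with hp | hp | hp
  · have e0 : a0 = 0 := (mul_eq_zero.1 h0).resolve_left hp
    subst e0
    refine ⟨rfl, ?_, ?_⟩
    · exact (mul_eq_zero.1 (by linear_combination h5 : p0 * a1 = 0)).resolve_left hp
    · exact (mul_eq_zero.1 (by linear_combination h4 : p0 * a2 = 0)).resolve_left hp
  · have e0 : a1 = 0 := (mul_eq_zero.1 h1).resolve_left hp
    subst e0
    refine ⟨?_, rfl, ?_⟩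
    · exact (mul_eq_zero.1 (by linear_combination h5 : p1 * a0 = 0)).resolve_left hp
    · exact (mul_eq_zero.1 (by linear_combination h3 : p1 * a2 = 0)).resolve_left hp
  · have e0 : a2 = 0 := (mul_eq_zero.1 h2').resolve_left hp
    subst e0
    refine ⟨?_, ?_, rfl⟩
    · exact (mul_eq_zero.1 (by linear_combination h4 : p2 * a0 = 0)).resolve_left hp
    · exact (mul_eq_zero.1 (by linear_combination h3 : p2 * a1 = 0)).resolve_left hp

lemma three_ne {p : Fin 3 → F} (hp : p ≠ 0) : p 0 ≠ 0 ∨ p 1 ≠ 0 ∨ p 2 ≠ 0 := by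
  by_contra hc
  push Not at hc
  exact hp (by ext i; fin_cases i <;> simp [hc])

lemma two_ne {z : Fin 2 → F} (hz : z ≠ 0) : z 0 ≠ 0 ∨ z 1 ≠ 0 := by
  by_contra hc
  push Not at hc
  exact hz (by ext i; fin_cases i <;> simp [hc])

lemma fin3_zero {a : Fin 3 → F} (h : a 0 = 0 ∧ a 1 = 0 ∧ a 2 = 0) : a = 0 := by
  ext i
  fin_cases i
  · exact h.1
  · exact h.2.1
  · exact h.2.2

lemma nA_inj (h2 : (2 : F) ≠ 0) (p : Fin 3 → F) (z : Fin 2 → F) (hpz : p ≠ 0 ∨ z ≠ 0)
    (a : Fin 3 → F) (h : nA p z a = 0) : a = 0 := by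
  have e0 : -(z 1 * a 0) = 0 := congrFun h 0
  have e1 : -(z 1 * a 1) = 0 := congrFun h 1
  have e2 : -(z 1 * a 2) = 0 := congrFun h 2
  have e3 : z 0 * a 0 = 0 := congrFun h 3
  have e4 : z 0 * a 1 = 0 := congrFun h 4
  have e5 : z 0 * a 2 = 0 := congrFun h 5
  have e6 : -(2 * p 0 * a 0) = 0 := congrFun h 6
  have e7 : -(2 * p 1 * a 1) = 0 := congrFun h 7
  have e8 : -(2 * p 2 * a 2) = 0 := congrFun h 8
  have e9 : -(p 2 * a 1 + p 1 * a 2) = 0 := congrFun h 9
  have e10 : -(p 2 * a 0 + p 0 * a 2) = 0 := congrFun h 10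
  have e11 : -(p 1 * a 0 + p 0 * a 1) = 0 := congrFun h 11
  rcases hpz with hp | hz
  · refine fin3_zero (symm_inj (three_ne hp) ?_ ?_ ?_ ?_ ?_ ?_)
    · exact (mul_eq_zero.1 (by linear_combination -e6 : 2 * (p 0 * a 0) = 0)).resolve_left h2
    · exact (mul_eq_zero.1 (by linear_combination -e7 : 2 * (p 1 * a 1) = 0)).resolve_left h2
    · exact (mul_eq_zero.1 (by linear_combination -e8 : 2 * (p 2 * a 2) = 0)).resolve_left h2
    · linear_combination -e9
    · linear_combination -e10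
    · linear_combination -e11
  · rcases two_ne hz with hz | hz
    · exact fin3_zero ⟨(mul_eq_zero.1 e3).resolve_left hz, (mul_eq_zero.1 e4).resolve_left hz,
        (mul_eq_zero.1 e5).resolve_left hz⟩
    · exact fin3_zero ⟨(mul_eq_zero.1 (neg_eq_zero.1 e0)).resolve_left hz,
        (mul_eq_zero.1 (neg_eq_zero.1 e1)).resolve_left hz,
        (mul_eq_zero.1 (neg_eq_zero.1 e2)).resolve_left hz⟩

/-- the frame is transversal to the kernel of the skew form -/
lemma frame (h2 : (2 : F) ≠ 0) {p0 p1 p2 z0 z1 a0 a1 a2 c d : F}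
    (hpz : (p0 ≠ 0 ∨ p1 ≠ 0 ∨ p2 ≠ 0) ∨ (z0 ≠ 0 ∨ z1 ≠ 0))
    (s3 : p1 * a2 + p2 * a1 = 0) (s4 : p0 * a2 + p2 * a0 = 0) (s5 : p0 * a1 + p1 * a0 = 0)
    (s0 : p0 * a0 + z0 * c + z1 * d = 0) (s1 : p1 * a1 + z0 * c - z1 * d = 0)
    (s2 : p2 * a2 + z0 * d + z1 * c = 0)
    (f0 : c * p2 ^ 2 + d * p1 ^ 2 = 0) (f1 : c * p2 ^ 2 + d * p0 ^ 2 = 0)
    (f2 : c * (p1 ^ 2 + p0 ^ 2) = 0)
    (g0 : c * p1 ^ 2 - d * p2 ^ 2 = 0) (g1 : c * p0 ^ 2 + d * p2 ^ 2 = 0)
    (g2 : d * p1 ^ 2 - d * p0 ^ 2 = 0)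
    (t0 : z1 * a0 - c * p1 * p2 = 0) (t1 : z1 * a1 - c * p0 * p2 = 0)
    (t2 : z1 * a2 - d * p0 * p1 = 0)
    (r0 : z0 * a0 + d * p1 * p2 = 0) (r1 : z0 * a1 - d * p0 * p2 = 0)
    (r2 : z0 * a2 + c * p0 * p1 = 0) :
    (a0 = 0 ∧ a1 = 0 ∧ a2 = 0) ∧ c = 0 ∧ d = 0 := by
  by_cases hp : p0 ≠ 0 ∨ p1 ≠ 0 ∨ p2 ≠ 0
  · have hcd : c = 0 ∧ d = 0 := by
      by_cases hc : c = 0
      · refine ⟨hc, ?_⟩
        subst hc
        rcases hp with hp | hp | hp
        · exact (mul_eq_zero.1 (by linear_combination f1 : d * p0 ^ 2 = 0)).resolve_right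
            (pow_ne_zero 2 hp)
        · exact (mul_eq_zero.1 (by linear_combination f0 : d * p1 ^ 2 = 0)).resolve_right
            (pow_ne_zero 2 hp)
        · exact (mul_eq_zero.1 (by linear_combination g1 : d * p2 ^ 2 = 0)).resolve_right
            (pow_ne_zero 2 hp)
      · exfalso
        have k1 : p1 ^ 2 + p0 ^ 2 = 0 := (mul_eq_zero.1 f2).resolve_left hc
        have k2 : d * (2 * p1 ^ 2) = 0 := by linear_combination g2 + d * k1
        rcases mul_eq_zero.1 k2 with hd | hd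
        · subst hd
          have q2 : p2 ^ 2 = 0 := (mul_eq_zero.1 (by linear_combination f0 : c * p2 ^ 2 = 0)).resolve_left hc
          have q1 : p1 ^ 2 = 0 := (mul_eq_zero.1 (by linear_combination g0 : c * p1 ^ 2 = 0)).resolve_left hc
          have q0 : p0 ^ 2 = 0 := (mul_eq_zero.1 (by linear_combination g1 : c * p0 ^ 2 = 0)).resolve_left hc
          rcases hp with hp | hp | hp
          · exact pow_ne_zero 2 hp q0
          · exact pow_ne_zero 2 hp q1
          · exact pow_ne_zero 2 hp q2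
        · have q1 : p1 ^ 2 = 0 := (mul_eq_zero.1 hd).resolve_left h2
          have q0 : p0 ^ 2 = 0 := by linear_combination k1 - q1
          have q2 : p2 ^ 2 = 0 := (mul_eq_zero.1 (by linear_combination f0 - d * q1 :
            c * p2 ^ 2 = 0)).resolve_left hc
          rcases hp with hp | hp | hp
          · exact pow_ne_zero 2 hp q0
          · exact pow_ne_zero 2 hp q1
          · exact pow_ne_zero 2 hp q2
    obtain ⟨hc, hd⟩ := hcd
    subst hc hd
    exact ⟨symm_inj hp (by linear_combination s0) (by linear_combination s1)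
      (by linear_combination s2) s3 s4 s5, rfl, rfl⟩
  · have hz := hpz.resolve_left hp
    push Not at hp
    obtain ⟨rfl, rfl, rfl⟩ := hp
    have k0 : z0 * c = 0 := (mul_eq_zero.1 (by linear_combination s0 + s1 :
      2 * (z0 * c) = 0)).resolve_left h2
    have k1 : z1 * d = 0 := (mul_eq_zero.1 (by linear_combination s0 - s1 :
      2 * (z1 * d) = 0)).resolve_left h2
    have k2 : z0 * d + z1 * c = 0 := by linear_combination s2
    rcases hz with hz | hz
    · have hc : c = 0 := (mul_eq_zero.1 k0).resolve_left hz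
      subst hc
      have hd : d = 0 := (mul_eq_zero.1 (by linear_combination k2 : z0 * d = 0)).resolve_left hz
      subst hd
      exact ⟨⟨(mul_eq_zero.1 (by linear_combination r0 : z0 * a0 = 0)).resolve_left hz,
        (mul_eq_zero.1 (by linear_combination r1 : z0 * a1 = 0)).resolve_left hz,
        (mul_eq_zero.1 (by linear_combination r2 : z0 * a2 = 0)).resolve_left hz⟩, rfl, rfl⟩
    · have hd : d = 0 := (mul_eq_zero.1 k1).resolve_left hz
      subst hd
      have hc : c = 0 := (mul_eq_zero.1 (by linear_combination k2 : z1 * c = 0)).resolve_left hz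
      subst hc
      exact ⟨⟨(mul_eq_zero.1 (by linear_combination t0 : z1 * a0 = 0)).resolve_left hz,
        (mul_eq_zero.1 (by linear_combination t1 : z1 * a1 = 0)).resolve_left hz,
        (mul_eq_zero.1 (by linear_combination t2 : z1 * a2 = 0)).resolve_left hz⟩, rfl, rfl⟩

/-- symmetric matrices which vanish on the orthogonal complement of `p` -/
lemma symm_ex (h2 : (2 : F) ≠ 0) {p0 p1 p2 x6 x7 x8 x9 x10 x11 : F}
    (hp : p0 ≠ 0 ∨ p1 ≠ 0 ∨ p2 ≠ 0)
    (e15 : p1 ^ 2 * x8 - 2 * p1 * p2 * x9 + p2 ^ 2 * x7 = 0)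
    (e16 : p0 ^ 2 * x8 - 2 * p0 * p2 * x10 + p2 ^ 2 * x6 = 0)
    (e17 : p0 ^ 2 * x7 - 2 * p0 * p1 * x11 + p1 ^ 2 * x6 = 0)
    (e18 : - p0 ^ 2 * x9 + p0 * p1 * x10 + p0 * p2 * x11 - p1 * p2 * x6 = 0)
    (e19 : p0 * p1 * x9 - p0 * p2 * x7 - p1 ^ 2 * x10 + p1 * p2 * x11 = 0)
    (e20 : - p0 * p1 * x8 + p0 * p2 * x9 + p1 * p2 * x10 - p2 ^ 2 * x11 = 0) :
    ∃ a0 a1 a2 : F, x6 = -(2 * p0 * a0) ∧ x7 = -(2 * p1 * a1) ∧ x8 = -(2 * p2 * a2) ∧
      x9 = -(p2 * a1 + p1 * a2) ∧ x10 = -(p2 * a0 + p0 * a2) ∧ x11 = -(p1 * a0 + p0 * a1) := by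
  rcases hp with hp | hp | hp
  · refine ⟨-x6 / (2 * p0), (-x11 + p1 * x6 / (2 * p0)) / p0, (-x10 + p2 * x6 / (2 * p0)) / p0,
      ?_, ?_, ?_, ?_, ?_, ?_⟩
    · field_simp
    · field_simp
      linear_combination e17
    · field_simp
      linear_combination e16
    · field_simp
      linear_combination -2 * e18
    · field_simp
      ring
    · field_simp
      ring
  · refine ⟨(-x11 + p0 * x7 / (2 * p1)) / p1, -x7 / (2 * p1), (-x9 + p2 * x7 / (2 * p1)) / p1,
      ?_, ?_, ?_, ?_, ?_, ?_⟩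
    · field_simp
      linear_combination e17
    · field_simp
    · field_simp
      linear_combination e15
    · field_simp
      ring
    · field_simp
      linear_combination -2 * e19
    · field_simp
      ring
  · refine ⟨(-x10 + p0 * x8 / (2 * p2)) / p2, (-x9 + p1 * x8 / (2 * p2)) / p2, -x8 / (2 * p2),
      ?_, ?_, ?_, ?_, ?_, ?_⟩
    · field_simp
      linear_combination e16
    · field_simp
      linear_combination e15
    · field_simp
    · field_simp
      ring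
    · field_simp
      ring
    · field_simp
      linear_combination -2 * e20

lemma nB_ker (h2 : (2 : F) ≠ 0) (p : Fin 3 → F) (z : Fin 2 → F) (hpz : p ≠ 0 ∨ z ≠ 0)
    (x : Fin 17 → F) (h : nB p z x = 0) : ∃ a, nA p z a = x := by
  have e0 : x 12 - 2 * (z 0 * x 0 + z 1 * x 3) = 0 := congrFun h 0
  have e1 : x 13 - 2 * (z 0 * x 1 + z 1 * x 4) = 0 := congrFun h 1
  have e2 : x 14 - 2 * (z 0 * x 2 + z 1 * x 5) = 0 := congrFun h 2
  have e3 : 2 * p 0 * x 0 - z 1 * x 6 + x 15 = 0 := congrFun h 3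
  have e4 : 2 * p 1 * x 1 - z 1 * x 7 + x 15 = 0 := congrFun h 4
  have e5 : 2 * p 2 * x 2 - z 1 * x 8 + x 16 = 0 := congrFun h 5
  have e6 : p 1 * x 2 + p 2 * x 1 - z 1 * x 9 = 0 := congrFun h 6
  have e7 : p 0 * x 2 + p 2 * x 0 - z 1 * x 10 = 0 := congrFun h 7
  have e8 : p 0 * x 1 + p 1 * x 0 - z 1 * x 11 = 0 := congrFun h 8
  have e9 : 2 * p 0 * x 3 + z 0 * x 6 + x 16 = 0 := congrFun h 9
  have e10 : 2 * p 1 * x 4 + z 0 * x 7 - x 16 = 0 := congrFun h 10
  have e11 : 2 * p 2 * x 5 + z 0 * x 8 + x 15 = 0 := congrFun h 11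
  have e12 : p 1 * x 5 + p 2 * x 4 + z 0 * x 9 = 0 := congrFun h 12
  have e13 : p 0 * x 5 + p 2 * x 3 + z 0 * x 10 = 0 := congrFun h 13
  have e14 : p 0 * x 4 + p 1 * x 3 + z 0 * x 11 = 0 := congrFun h 14
  have e15 : p 1 ^ 2 * x 8 - 2 * p 1 * p 2 * x 9 + p 2 ^ 2 * x 7 = 0 := congrFun h 15
  have e16 : p 0 ^ 2 * x 8 - 2 * p 0 * p 2 * x 10 + p 2 ^ 2 * x 6 = 0 := congrFun h 16
  have e17 : p 0 ^ 2 * x 7 - 2 * p 0 * p 1 * x 11 + p 1 ^ 2 * x 6 = 0 := congrFun h 17
  have e18 : x 12 - p 0 ^ 2 * x 9 + p 0 * p 1 * x 10 + p 0 * p 2 * x 11 - p 1 * p 2 * x 6 = 0 :=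
    congrFun h 18
  have e19 : x 13 + p 0 * p 1 * x 9 - p 0 * p 2 * x 7 - p 1 ^ 2 * x 10 + p 1 * p 2 * x 11 = 0 :=
    congrFun h 19
  have e20 : x 14 - p 0 * p 1 * x 8 + p 0 * p 2 * x 9 + p 1 * p 2 * x 10 - p 2 ^ 2 * x 11 = 0 :=
    congrFun h 20
  have hpz' : (p 0 ≠ 0 ∨ p 1 ≠ 0 ∨ p 2 ≠ 0) ∨ (z 0 ≠ 0 ∨ z 1 ≠ 0) := hpz.imp three_ne two_ne
  obtain ⟨⟨k0, k1, k2⟩, k3, k4⟩ := frame h2 (a0 := x 12) (a1 := x 13) (a2 := x 14) (c := x 15)
    (d := x 16) hpz'
    (by linear_combination p 1 * e2 + p 2 * e1 + 2 * z 0 * e6 + 2 * z 1 * e12)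
    (by linear_combination p 0 * e2 + p 2 * e0 + 2 * z 0 * e7 + 2 * z 1 * e13)
    (by linear_combination p 0 * e1 + p 1 * e0 + 2 * z 0 * e8 + 2 * z 1 * e14)
    (by linear_combination p 0 * e0 + z 0 * e3 + z 1 * e9)
    (by linear_combination p 1 * e1 + z 0 * e4 + z 1 * e10)
    (by linear_combination p 2 * e2 + z 0 * e5 + z 1 * e11)
    (by linear_combination p 2 ^ 2 * e4 + p 1 ^ 2 * e5 + z 1 * e15 - 2 * p 1 * p 2 * e6)
    (by linear_combination p 2 ^ 2 * e3 + p 0 ^ 2 * e5 + z 1 * e16 - 2 * p 0 * p 2 * e7)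
    (by linear_combination p 1 ^ 2 * e3 + p 0 ^ 2 * e4 + z 1 * e17 - 2 * p 0 * p 1 * e8)
    (by linear_combination p 2 ^ 2 * e10 + p 1 ^ 2 * e11 - z 0 * e15 - 2 * p 1 * p 2 * e12)
    (by linear_combination p 2 ^ 2 * e9 + p 0 ^ 2 * e11 - z 0 * e16 - 2 * p 0 * p 2 * e13)
    (by linear_combination p 1 ^ 2 * e9 + p 0 ^ 2 * e10 - z 0 * e17 - 2 * p 0 * p 1 * e14)
    (by linear_combination z 1 * e18 + p 0 * p 1 * e7 + p 0 * p 2 * e8 - p 0 ^ 2 * e6 - p 1 * p 2 * e3)
    (by linear_combination z 1 * e19 + p 0 * p 1 * e6 - p 0 * p 2 * e4 - p 1 ^ 2 * e7 + p 1 * p 2 * e8)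
    (by linear_combination z 1 * e20 - p 0 * p 1 * e5 + p 0 * p 2 * e6 + p 1 * p 2 * e7 - p 2 ^ 2 * e8)
    (by linear_combination z 0 * e18 + p 0 ^ 2 * e12 - p 0 * p 1 * e13 - p 0 * p 2 * e14 + p 1 * p 2 * e9)
    (by linear_combination z 0 * e19 - p 0 * p 1 * e12 + p 0 * p 2 * e10 + p 1 ^ 2 * e13 - p 1 * p 2 * e14)
    (by linear_combination z 0 * e20 + p 0 * p 1 * e11 - p 0 * p 2 * e12 - p 1 * p 2 * e13 + p 2 ^ 2 * e14)
  simp only [k0, k1, k2, k3, k4] at e0 e1 e2 e3 e4 e5 e9 e10 e11 e18 e19 e20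
  have fin : ∀ a : Fin 3 → F, x 0 = -(z 1 * a 0) → x 1 = -(z 1 * a 1) → x 2 = -(z 1 * a 2) →
      x 3 = z 0 * a 0 → x 4 = z 0 * a 1 → x 5 = z 0 * a 2 → x 6 = -(2 * p 0 * a 0) →
      x 7 = -(2 * p 1 * a 1) → x 8 = -(2 * p 2 * a 2) → x 9 = -(p 2 * a 1 + p 1 * a 2) →
      x 10 = -(p 2 * a 0 + p 0 * a 2) → x 11 = -(p 1 * a 0 + p 0 * a 1) → nA p z a = x := by
    intro a h0 h1 h2 h3 h4 h5 h6 h7 h8 h9 h10 h11
    funext i
    fin_cases i
    · exact h0.symm
    · exact h1.symm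
    · exact h2.symm
    · exact h3.symm
    · exact h4.symm
    · exact h5.symm
    · exact h6.symm
    · exact h7.symm
    · exact h8.symm
    · exact h9.symm
    · exact h10.symm
    · exact h11.symm
    · exact k0.symm
    · exact k1.symm
    · exact k2.symm
    · exact k3.symm
    · exact k4.symm
  have q0 : z 0 * x 0 + z 1 * x 3 = 0 := (mul_eq_zero.1 (by linear_combination -e0 :
    2 * (z 0 * x 0 + z 1 * x 3) = 0)).resolve_left h2
  have q1 : z 0 * x 1 + z 1 * x 4 = 0 := (mul_eq_zero.1 (by linear_combination -e1 :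
    2 * (z 0 * x 1 + z 1 * x 4) = 0)).resolve_left h2
  have q2 : z 0 * x 2 + z 1 * x 5 = 0 := (mul_eq_zero.1 (by linear_combination -e2 :
    2 * (z 0 * x 2 + z 1 * x 5) = 0)).resolve_left h2
  by_cases hz0 : z 0 = 0
  · by_cases hz1 : z 1 = 0
    · have hp : p 0 ≠ 0 ∨ p 1 ≠ 0 ∨ p 2 ≠ 0 := by
        rcases hpz' with h | h
        · exact h
        · exact absurd hz1 (h.resolve_left (not_not.2 hz0))
      simp only [hz0, hz1] at e3 e4 e5 e6 e7 e8 e9 e10 e11 e12 e13 e14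
      obtain ⟨r0, r1, r2⟩ := symm_inj (a0 := x 0) (a1 := x 1) (a2 := x 2) hp
        ((mul_eq_zero.1 (by linear_combination e3 : 2 * (p 0 * x 0) = 0)).resolve_left h2)
        ((mul_eq_zero.1 (by linear_combination e4 : 2 * (p 1 * x 1) = 0)).resolve_left h2)
        ((mul_eq_zero.1 (by linear_combination e5 : 2 * (p 2 * x 2) = 0)).resolve_left h2)
        (by linear_combination e6) (by linear_combination e7) (by linear_combination e8)
      obtain ⟨r3, r4, r5⟩ := symm_inj (a0 := x 3) (a1 := x 4) (a2 := x 5) hp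
        ((mul_eq_zero.1 (by linear_combination e9 : 2 * (p 0 * x 3) = 0)).resolve_left h2)
        ((mul_eq_zero.1 (by linear_combination e10 : 2 * (p 1 * x 4) = 0)).resolve_left h2)
        ((mul_eq_zero.1 (by linear_combination e11 : 2 * (p 2 * x 5) = 0)).resolve_left h2)
        (by linear_combination e12) (by linear_combination e13) (by linear_combination e14)
      obtain ⟨a0, a1, a2, w6, w7, w8, w9, w10, w11⟩ := symm_ex h2 hp e15 e16 e17
        (by linear_combination e18) (by linear_combination e19) (by linear_combination e20)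
      refine ⟨![a0, a1, a2], fin _ ?_ ?_ ?_ ?_ ?_ ?_ w6 w7 w8 w9 w10 w11⟩ <;>
      simp [hz0, hz1, r0, r1, r2, r3, r4, r5]
    · refine ⟨![-x 0 / z 1, -x 1 / z 1, -x 2 / z 1], fin _ ?_ ?_ ?_ ?_ ?_ ?_ ?_ ?_ ?_ ?_ ?_ ?_⟩
      · show x 0 = -(z 1 * (-x 0 / z 1))
        field_simp
      · show x 1 = -(z 1 * (-x 1 / z 1))
        field_simp
      · show x 2 = -(z 1 * (-x 2 / z 1))
        field_simp
      · show x 3 = z 0 * (-x 0 / z 1)
        field_simp
        linear_combination q0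
      · show x 4 = z 0 * (-x 1 / z 1)
        field_simp
        linear_combination q1
      · show x 5 = z 0 * (-x 2 / z 1)
        field_simp
        linear_combination q2
      · show x 6 = -(2 * p 0 * (-x 0 / z 1))
        field_simp
        linear_combination -e3
      · show x 7 = -(2 * p 1 * (-x 1 / z 1))
        field_simp
        linear_combination -e4
      · show x 8 = -(2 * p 2 * (-x 2 / z 1))
        field_simp
        linear_combination -e5
      · show x 9 = -(p 2 * (-x 1 / z 1) + p 1 * (-x 2 / z 1))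
        field_simp
        linear_combination -e6
      · show x 10 = -(p 2 * (-x 0 / z 1) + p 0 * (-x 2 / z 1))
        field_simp
        linear_combination -e7
      · show x 11 = -(p 1 * (-x 0 / z 1) + p 0 * (-x 1 / z 1))
        field_simp
        linear_combination -e8
  · refine ⟨![x 3 / z 0, x 4 / z 0, x 5 / z 0], fin _ ?_ ?_ ?_ ?_ ?_ ?_ ?_ ?_ ?_ ?_ ?_ ?_⟩
    · show x 0 = -(z 1 * (x 3 / z 0))
      field_simp
      linear_combination q0
    · show x 1 = -(z 1 * (x 4 / z 0))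
      field_simp
      linear_combination q1
    · show x 2 = -(z 1 * (x 5 / z 0))
      field_simp
      linear_combination q2
    · show x 3 = z 0 * (x 3 / z 0)
      field_simp
    · show x 4 = z 0 * (x 4 / z 0)
      field_simp
    · show x 5 = z 0 * (x 5 / z 0)
      field_simp
    · show x 6 = -(2 * p 0 * (x 3 / z 0))
      field_simp
      linear_combination e9
    · show x 7 = -(2 * p 1 * (x 4 / z 0))
      field_simp
      linear_combination e10
    · show x 8 = -(2 * p 2 * (x 5 / z 0))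
      field_simp
      linear_combination e11
    · show x 9 = -(p 2 * (x 4 / z 0) + p 1 * (x 5 / z 0))
      field_simp
      linear_combination e12
    · show x 10 = -(p 2 * (x 3 / z 0) + p 0 * (x 5 / z 0))
      field_simp
      linear_combination e13
    · show x 11 = -(p 1 * (x 3 / z 0) + p 0 * (x 4 / z 0))
      field_simp
      linear_combination e14

/-- the transpose of the last map is injective -/
lemma nC_left (h2 : (2 : F) ≠ 0) (p : Fin 3 → F) (z : Fin 2 → F) (hpz : p ≠ 0 ∨ z ≠ 0)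
    (c : Fin 5 → F) (h : ∀ u, ∑ i, c i * nC p z u i = 0) : c = 0 := by
  have H : ∀ k : Fin 21, ∑ i, c i * nC p z (Pi.single k 1) i = 0 := fun k => h _
  have e0 := H 0
  have e1 := H 1
  have e2 := H 2
  have e3 := H 3
  have e4 := H 4
  have e5 := H 5
  have e6 := H 6
  have e7 := H 7
  have e8 := H 8
  have e9 := H 9
  have e10 := H 10
  have e11 := H 11
  have e12 := H 12
  have e13 := H 13
  have e14 := H 14
  have e15 := H 15
  have e16 := H 16
  have e17 := H 17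
  clear h H
  simp only [Fin.sum_univ_five, nC, Matrix.cons_val, Pi.single_apply, Fin.reduceEq, if_true,
    if_false] at e0 e1 e2 e3 e4 e5 e6 e7 e8 e9 e10 e11 e12 e13 e14 e15 e16 e17
  have hpz' : (p 0 ≠ 0 ∨ p 1 ≠ 0 ∨ p 2 ≠ 0) ∨ (z 0 ≠ 0 ∨ z 1 ≠ 0) := hpz.imp three_ne two_ne
  obtain ⟨⟨k0, k1, k2⟩, k3, k4⟩ := frame h2 (a0 := c 0) (a1 := c 1) (a2 := c 2) (c := c 3)
    (d := c 4) hpz'
    (by linear_combination e0) (by linear_combination e1) (by linear_combination e2)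
    (by linear_combination -e15) (by linear_combination -e16) (by linear_combination -e17)
    (by linear_combination e9) (by linear_combination e10) (by linear_combination e11)
    (by linear_combination -e3) (by linear_combination -e4) (by linear_combination -e5)
    ((mul_eq_zero.1 (by linear_combination e12 :
      2 * (z 1 * c 0 - c 3 * p 1 * p 2) = 0)).resolve_left h2)
    ((mul_eq_zero.1 (by linear_combination e13 :
      2 * (z 1 * c 1 - c 3 * p 0 * p 2) = 0)).resolve_left h2)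
    ((mul_eq_zero.1 (by linear_combination e14 :
      2 * (z 1 * c 2 - c 4 * p 0 * p 1) = 0)).resolve_left h2)
    ((mul_eq_zero.1 (by linear_combination e6 :
      2 * (z 0 * c 0 + c 4 * p 1 * p 2) = 0)).resolve_left h2)
    ((mul_eq_zero.1 (by linear_combination e7 :
      2 * (z 0 * c 1 - c 4 * p 0 * p 2) = 0)).resolve_left h2)
    ((mul_eq_zero.1 (by linear_combination e8 :
      2 * (z 0 * c 2 + c 3 * p 0 * p 1) = 0)).resolve_left h2)
  ext i
  fin_cases i
  · exact k0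
  · exact k1
  · exact k2
  · exact k3
  · exact k4

end Pool.Agent.Lib.MP_745d3a_ag.NB
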