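import Pool.Agent.Lib.MP_745d3a_ag.NB.Defs

/-!
Exactness of the Horrocks-Mumford monad at a point.
-/

set_option autoImplicit false

namespace Pool.Agent.Lib.MP_745d3a_ag.NB

variable {K : Type} [Field K]

theorem five {f : Fin 5 → K} (hf : f ≠ 0) :
    f 0 ≠ 0 ∨ f 1 ≠ 0 ∨ f 2 ≠ 0 ∨ f 3 ≠ 0 ∨ f 4 ≠ 0 := by
  by_contra hc
  push Not at hc
  apply hf
  funext i
  fin_cases i
  · exact hc.1
  · exact hc.2.1
  · exact hc.2.2.1
  · exact hc.2.2.2.1
  · exact hc.2.2.2.2

theorem hA_inj (f : Fin 5 → K) (hf : f ≠ 0) (c : Fin 2 → K) (h : hA f c = 0) : c = 0 := by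
  obtain ⟨k, hk⟩ : ∃ k, f k ≠ 0 := by
    by_contra hc
    push Not at hc
    exact hf (funext hc)
  have e := fun i => congrFun h i
  have h0 : ∀ k, c 0 * f k = 0 := by
    intro k
    fin_cases k
    · simpa [hA] using e 0
    · simpa [hA] using e 1
    · simpa [hA] using e 2
    · simpa [hA] using e 3
    · simpa [hA] using e 4
  have h1 : ∀ k, c 1 * f k = 0 := by
    intro k
    fin_cases k
    · simpa [hA] using e 5
    · simpa [hA] using e 6
    · simpa [hA] using e 7
    · simpa [hA] using e 8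
    · simpa [hA] using e 9
  funext j
  fin_cases j
  · exact (mul_eq_zero.mp (h0 k)).resolve_right hk
  · exact (mul_eq_zero.mp (h1 k)).resolve_right hk


theorem core5 {f0 f1 f2 f3 f4 s0 s1 s2 s3 s4 : K} (hf : f0 ≠ 0)
    (h0 : f0 * s0 = 0) (h1 : f1 * s1 = 0)
    (P1 : f0 * s1 + f3 * s2 = 0) (M4 : f0 * s2 + f1 * s4 = 0)
    (P3 : f0 * s4 + f2 * s3 = 0) (M3 : f0 * s3 + f4 * s1 = 0) :
    s0 = 0 ∧ s1 = 0 ∧ s2 = 0 ∧ s3 = 0 ∧ s4 = 0 := by
  have mz : ∀ {x y : K}, x ≠ 0 → x * y = 0 → y = 0 := fun hx h => (mul_eq_zero.mp h).resolve_left hx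
  have e0 := mz hf h0
  have e1 : s1 = 0 := by
    have : f0 ^ 4 * s1 = 0 := by
      linear_combination f0 ^ 3 * P1 - f0 ^ 2 * f3 * M4 + f0 * f3 * f1 * P3 - f3 * f1 * f2 * M3 +
        f2 * f3 * f4 * h1
    exact mz (pow_ne_zero 4 hf) this
  subst e1
  have e3 : s3 = 0 := mz hf (by linear_combination M3)
  subst e3
  have e4 : s4 = 0 := mz hf (by linear_combination P3)
  subst e4
  have e2 : s2 = 0 := mz hf (by linear_combination M4)
  exact ⟨e0, rfl, e2, rfl, rfl⟩

/-- the ten equations `f ∧ Σ s_i a_i⁺ = 0`, `f ∧ Σ s_i a_i⁻ = 0` have only the zero solution. -/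
theorem core (f s : Fin 5 → K) (hf : f ≠ 0) (hd : ∀ i, f i * s i = 0)
    (P0 : f 4 * s 0 + f 2 * s 1 = 0) (P1 : f 0 * s 1 + f 3 * s 2 = 0)
    (P2 : f 1 * s 2 + f 4 * s 3 = 0) (P3 : f 2 * s 3 + f 0 * s 4 = 0)
    (P4 : f 3 * s 4 + f 1 * s 0 = 0)
    (M0 : f 2 * s 0 + f 1 * s 3 = 0) (M1 : f 3 * s 1 + f 2 * s 4 = 0)
    (M2 : f 4 * s 2 + f 3 * s 0 = 0) (M3 : f 0 * s 3 + f 4 * s 1 = 0)
    (M4 : f 1 * s 4 + f 0 * s 2 = 0) : s = 0 := by
  have key : s 0 = 0 ∧ s 1 = 0 ∧ s 2 = 0 ∧ s 3 = 0 ∧ s 4 = 0 := by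
    rcases five hf with hk | hk | hk | hk | hk
    · obtain ⟨a, b, c, d, e⟩ := core5 (f0 := f 0) (f1 := f 1) (f2 := f 2) (f3 := f 3) (f4 := f 4)
        (s0 := s 0) (s1 := s 1) (s2 := s 2) (s3 := s 3) (s4 := s 4)
        hk (hd 0) (hd 1) P1 (by linear_combination M4) (by linear_combination P3) M3
      exact ⟨a, b, c, d, e⟩
    · obtain ⟨a, b, c, d, e⟩ := core5 (f0 := f 1) (f1 := f 2) (f2 := f 3) (f3 := f 4) (f4 := f 0)
        (s0 := s 1) (s1 := s 2) (s2 := s 3) (s3 := s 4) (s4 := s 0)
        hk (hd 1) (hd 2) P2 (by linear_combination M0) (by linear_combination P4)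
        (by linear_combination M4)
      exact ⟨e, a, b, c, d⟩
    · obtain ⟨a, b, c, d, e⟩ := core5 (f0 := f 2) (f1 := f 3) (f2 := f 4) (f3 := f 0) (f4 := f 1)
        (s0 := s 2) (s1 := s 3) (s2 := s 4) (s3 := s 0) (s4 := s 1)
        hk (hd 2) (hd 3) P3 (by linear_combination M1) (by linear_combination P0)
        (by linear_combination M0)
      exact ⟨d, e, a, b, c⟩
    · obtain ⟨a, b, c, d, e⟩ := core5 (f0 := f 3) (f1 := f 4) (f2 := f 0) (f3 := f 1) (f4 := f 2)
        (s0 := s 3) (s1 := s 4) (s2 := s 0) (s3 := s 1) (s4 := s 2)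
        hk (hd 3) (hd 4) P4 (by linear_combination M2) (by linear_combination P1)
        (by linear_combination M1)
      exact ⟨c, d, e, a, b⟩
    · obtain ⟨a, b, c, d, e⟩ := core5 (f0 := f 4) (f1 := f 0) (f2 := f 1) (f3 := f 2) (f4 := f 3)
        (s0 := s 4) (s1 := s 0) (s2 := s 1) (s3 := s 2) (s4 := s 3)
        hk (hd 4) (hd 0) P0 (by linear_combination M3) (by linear_combination P2)
        (by linear_combination M2)
      exact ⟨b, c, d, e, a⟩
  funext i
  fin_cases i
  · exact key.1
  · exact key.2.1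
  · exact key.2.2.1
  · exact key.2.2.2.1
  · exact key.2.2.2.2

theorem hB_exact (f : Fin 5 → K) (hf : f ≠ 0) (w : Fin 15 → K) (h : hB f w = 0) :
    ∃ c, hA f c = w := by
  have e := fun i => congrFun h i
  have q0 := e 0
  have q1 := e 1
  have q2 := e 2
  have q3 := e 3
  have q4 := e 4
  have q5 := e 5
  have q6 := e 6
  have q7 := e 7
  have q8 := e 8
  have q9 := e 9
  have r0 := e 10
  have r1 := e 11
  have r2 := e 12
  have r3 := e 13
  have r4 := e 14
  have r5 := e 15
  have r6 := e 16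
  have r7 := e 17
  have r8 := e 18
  have r9 := e 19
  simp [hB] at q0 q1 q2 q3 q4 q5 q6 q7 q8 q9 r0 r1 r2 r3 r4 r5 r6 r7 r8 r9
  -- q : e01 e02 e03 e04 e12 e13 e14 e23 e24 e34
  have hs : (![w 10, w 11, w 12, w 13, w 14] : Fin 5 → K) = 0 := by
    refine core f _ hf ?_ ?_ ?_ ?_ ?_ ?_ ?_ ?_ ?_ ?_ ?_
    · intro i
      fin_cases i <;> simp
      · have : f 0 * w 10 = 0 := by linear_combination f 0 * q7 - f 2 * q2 + f 3 * q1
        exact mul_eq_zero.mp this
      · have : f 1 * w 11 = 0 := by linear_combination f 1 * q9 - f 3 * q6 + f 4 * q5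
        exact mul_eq_zero.mp this
      · have : f 2 * w 12 = 0 := by linear_combination f 0 * q8 - f 2 * q3 + f 4 * q1
        exact mul_eq_zero.mp this
      · have : f 3 * w 13 = 0 := by linear_combination f 0 * q5 - f 1 * q2 + f 3 * q0
        exact mul_eq_zero.mp this
      · have : f 4 * w 14 = 0 := by linear_combination f 1 * q8 - f 2 * q6 + f 4 * q4
        exact mul_eq_zero.mp this
    · show f 4 * w 10 + f 2 * w 11 = 0
      linear_combination f 2 * q9 - f 3 * q8 + f 4 * q7
    · show f 0 * w 11 + f 3 * w 12 = 0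
      linear_combination f 0 * q9 - f 3 * q3 + f 4 * q2
    · show f 1 * w 12 + f 4 * w 13 = 0
      linear_combination f 0 * q6 - f 1 * q3 + f 4 * q0
    · show f 2 * w 13 + f 0 * w 14 = 0
      linear_combination f 0 * q4 - f 1 * q1 + f 2 * q0
    · show f 3 * w 14 + f 1 * w 10 = 0
      linear_combination f 1 * q7 - f 2 * q5 + f 3 * q4
    · show f 2 * w 10 + f 1 * w 13 = 0
      linear_combination -(f 1 * r8 - f 2 * r6 + f 4 * r4)
    · show f 3 * w 11 + f 2 * w 14 = 0
      linear_combination -(f 0 * r7 - f 2 * r2 + f 3 * r1)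
    · show f 4 * w 12 + f 3 * w 10 = 0
      linear_combination -(f 1 * r9 - f 3 * r6 + f 4 * r5)
    · show f 0 * w 13 + f 4 * w 11 = 0
      linear_combination -(f 0 * r8 - f 2 * r3 + f 4 * r1)
    · show f 1 * w 14 + f 0 * w 12 = 0
      linear_combination -(f 0 * r5 - f 1 * r2 + f 3 * r0)
  have s0 : w 10 = 0 := by simpa using congrFun hs 0
  have s1 : w 11 = 0 := by simpa using congrFun hs 1
  have s2 : w 12 = 0 := by simpa using congrFun hs 2
  have s3 : w 13 = 0 := by simpa using congrFun hs 3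
  have s4 : w 14 = 0 := by simpa using congrFun hs 4
  rw [s0] at q7 r6
  rw [s1] at q9 r1
  rw [s2] at q3 r5
  rw [s3] at q0 r8
  rw [s4] at q4 r2
  have fin : ∀ a b : K, w 0 = a * f 0 → w 1 = a * f 1 → w 2 = a * f 2 → w 3 = a * f 3 →
      w 4 = a * f 4 → w 5 = b * f 0 → w 6 = b * f 1 → w 7 = b * f 2 → w 8 = b * f 3 →
      w 9 = b * f 4 → ∃ c, hA f c = w := by
    intro a b g0 g1 g2 g3 g4 g5 g6 g7 g8 g9
    refine ⟨![a, b], ?_⟩
    funext i
    fin_cases i <;> simp [hA, s0, s1, s2, s3, s4, g0, g1, g2, g3, g4, g5, g6, g7, g8, g9]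
  rcases five hf with hk | hk | hk | hk | hk
  · refine fin (w 0 / f 0) (w 5 / f 0) ?_ ?_ ?_ ?_ ?_ ?_ ?_ ?_ ?_ ?_ <;> field_simp
    · linear_combination q0
    · linear_combination q1
    · linear_combination q2
    · linear_combination q3
    · linear_combination r0
    · linear_combination r1
    · linear_combination r2
    · linear_combination r3
  · refine fin (w 1 / f 1) (w 6 / f 1) ?_ ?_ ?_ ?_ ?_ ?_ ?_ ?_ ?_ ?_ <;> field_simp
    · linear_combination -q0
    · linear_combination q4
    · linear_combination q5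
    · linear_combination q6
    · linear_combination -r0
    · linear_combination r4
    · linear_combination r5
    · linear_combination r6
  · refine fin (w 2 / f 2) (w 7 / f 2) ?_ ?_ ?_ ?_ ?_ ?_ ?_ ?_ ?_ ?_ <;> field_simp
    · linear_combination -q1
    · linear_combination -q4
    · linear_combination q7
    · linear_combination q8
    · linear_combination -r1
    · linear_combination -r4
    · linear_combination r7
    · linear_combination r8
  · refine fin (w 3 / f 3) (w 8 / f 3) ?_ ?_ ?_ ?_ ?_ ?_ ?_ ?_ ?_ ?_ <;> field_simp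
    · linear_combination -q2
    · linear_combination -q5
    · linear_combination -q7
    · linear_combination q9
    · linear_combination -r2
    · linear_combination -r5
    · linear_combination -r7
    · linear_combination r9
  · refine fin (w 4 / f 4) (w 9 / f 4) ?_ ?_ ?_ ?_ ?_ ?_ ?_ ?_ ?_ ?_ <;> field_simp
    · linear_combination -q3
    · linear_combination -q6
    · linear_combination -q8
    · linear_combination -q9
    · linear_combination -r3
    · linear_combination -r6
    · linear_combination -r8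
    · linear_combination -r9

/-- the linear map `hC f` -/
def hCl (f : Fin 5 → K) : (Fin 20 → K) →ₗ[K] (Fin 5 → K) where
  toFun := hC f
  map_add' u v := by
    funext i
    fin_cases i <;> simp [hC] <;> ring
  map_smul' a v := by
    funext i
    fin_cases i <;> simp [hC] <;> ring

theorem hC_tr (f : Fin 5 → K) (hf : f ≠ 0) (c : Fin 5 → K)
    (h : ∀ v, ∑ i, hC f v i * c i = 0) : c = 0 := by
  have e := fun j : Fin 20 => h (Pi.single j 1)
  refine core f c hf ?_ ?_ ?_ ?_ ?_ ?_ ?_ ?_ ?_ ?_ ?_
  · intro i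
    fin_cases i
    · have := e 16
      simp [hC, Fin.sum_univ_five] at this
      simpa using this
    · have := e 9
      simp [hC, Fin.sum_univ_five] at this
      simpa using this
    · have := e 3
      simp [hC, Fin.sum_univ_five] at this
      simpa using this
    · have := e 0
      simp [hC, Fin.sum_univ_five] at this
      simpa using this
    · have := e 12
      simp [hC, Fin.sum_univ_five] at this
      simpa using this
  · have := e 10
    simp [hC, Fin.sum_univ_five] at this
    linear_combination this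
  · have := e 14
    simp [hC, Fin.sum_univ_five] at this
    linear_combination this
  · have := e 17
    simp [hC, Fin.sum_univ_five] at this
    linear_combination this
  · have := e 19
    simp [hC, Fin.sum_univ_five] at this
    linear_combination this
  · have := e 13
    simp [hC, Fin.sum_univ_five] at this
    linear_combination -this
  · have := e 2
    simp [hC, Fin.sum_univ_five] at this
    linear_combination this
  · have := e 6
    simp [hC, Fin.sum_univ_five] at this
    linear_combination this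
  · have := e 1
    simp [hC, Fin.sum_univ_five] at this
    linear_combination -this
  · have := e 5
    simp [hC, Fin.sum_univ_five] at this
    linear_combination -this
  · have := e 8
    simp [hC, Fin.sum_univ_five] at this
    linear_combination -this

theorem hC_sur (f : Fin 5 → K) (hf : f ≠ 0) (u : Fin 5 → K) : ∃ v, hC f v = u := by
  have hr : LinearMap.range (hCl f) = ⊤ := by
    by_contra hne
    obtain ⟨φ, hφ, hle⟩ := Submodule.exists_le_ker_of_lt_top _ (lt_top_iff_ne_top.mpr hne)
    apply hφ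
    have hc := hC_tr f hf (fun i => φ (fun j => if i = j then 1 else 0)) (by
      intro v
      have := hle (LinearMap.mem_range_self (hCl f) v)
      rw [LinearMap.mem_ker, LinearMap.pi_apply_eq_sum_univ φ] at this
      simpa [hCl, smul_eq_mul] using this)
    apply LinearMap.ext
    intro x
    rw [LinearMap.pi_apply_eq_sum_univ φ x]
    apply Finset.sum_eq_zero
    intro i _
    have := congrFun hc i
    simp only [Pi.zero_apply] at this
    rw [this, smul_zero]
  obtain ⟨v, hv⟩ := LinearMap.range_eq_top.mp hr u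
  exact ⟨v, hv⟩

end Pool.Agent.Lib.MP_745d3a_ag.NB
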