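import Pool.Agent.Lib.MP_745d3a_ag.NB.State
import Pool.Agent.Lib.MP_745d3a_ag.NB.Pt
import Pool.Agent.Lib.MP_745d3a_ag.NB.PtH
import Pool.Agent.Lib.MP_745d3a_ag.NB.Fm

/-!
The two monads.
-/

set_option autoImplicit false

noncomputable section

open MvPolynomial Matrix

namespace Pool.Agent.Lib.MP_745d3a_ag.NB

open Pool.Agent.Lib.MP_745d3a_ag.PB

section mt

variable {R R' : Type} [CommRing R] [CommRing R'] {l m n : ℕ}

lemma mt_mulVec {F : (Fin n → R) → (Fin m → R)} (ha : ∀ x y, F (x + y) = F x + F y)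
    (hs : ∀ (c : R) x, F (c • x) = c • F x) (u : Fin n → R) : mt F *ᵥ u = F u := by
  let L : (Fin n → R) →ₗ[R] (Fin m → R) := { toFun := F, map_add' := ha, map_smul' := hs }
  have h : mt F = LinearMap.toMatrix' L := by
    ext i j
    rw [LinearMap.toMatrix'_apply]
    rfl
  rw [h, LinearMap.toMatrix'_mulVec]
  rfl

lemma mt_mul {F : (Fin n → R) → (Fin m → R)} {G : (Fin m → R) → (Fin l → R)}
    (ha : ∀ x y, G (x + y) = G x + G y) (hs : ∀ (c : R) x, G (c • x) = c • G x)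
    (h : ∀ x, G (F x) = 0) : mt G * mt F = 0 := by
  ext i j
  have h1 : (mt G * mt F) i j = (mt G *ᵥ F (Pi.single j 1)) i := rfl
  rw [h1, mt_mulVec ha hs, h]
  rfl

lemma nA_add (p : Fin 3 → R) (z : Fin 2 → R) (x y : Fin 3 → R) :
    nA p z (x + y) = nA p z x + nA p z y := by
  funext i
  fin_cases i <;> simp [nA] <;> ring

lemma nA_smul (p : Fin 3 → R) (z : Fin 2 → R) (c : R) (x : Fin 3 → R) :
    nA p z (c • x) = c • nA p z x := by
  funext i
  fin_cases i <;> simp [nA] <;> ring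

lemma nB_add (p : Fin 3 → R) (z : Fin 2 → R) (x y : Fin 17 → R) :
    nB p z (x + y) = nB p z x + nB p z y := by
  funext i
  fin_cases i <;> simp [nB] <;> ring

lemma nB_smul (p : Fin 3 → R) (z : Fin 2 → R) (c : R) (x : Fin 17 → R) :
    nB p z (c • x) = c • nB p z x := by
  funext i
  fin_cases i <;> simp [nB] <;> ring

lemma nC_add (p : Fin 3 → R) (z : Fin 2 → R) (x y : Fin 21 → R) :
    nC p z (x + y) = nC p z x + nC p z y := by
  funext i
  fin_cases i <;> simp [nC] <;> ring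

lemma nC_smul (p : Fin 3 → R) (z : Fin 2 → R) (c : R) (x : Fin 21 → R) :
    nC p z (c • x) = c • nC p z x := by
  funext i
  fin_cases i <;> simp [nC] <;> ring

lemma hA_add (f : Fin 5 → R) (x y : Fin 2 → R) : hA f (x + y) = hA f x + hA f y := by
  funext i
  fin_cases i <;> simp [hA] <;> ring

lemma hA_smul (f : Fin 5 → R) (c : R) (x : Fin 2 → R) : hA f (c • x) = c • hA f x := by
  funext i
  fin_cases i <;> simp [hA] <;> ring

lemma hB_add (f : Fin 5 → R) (x y : Fin 15 → R) : hB f (x + y) = hB f x + hB f y := by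
  funext i
  fin_cases i <;> simp [hB] <;> ring

lemma hB_smul (f : Fin 5 → R) (c : R) (x : Fin 15 → R) : hB f (c • x) = c • hB f x := by
  funext i
  fin_cases i <;> simp [hB] <;> ring

lemma hC_add (f : Fin 5 → R) (x y : Fin 20 → R) : hC f (x + y) = hC f x + hC f y := by
  funext i
  fin_cases i <;> simp [hC] <;> ring

lemma hC_smul (f : Fin 5 → R) (c : R) (x : Fin 20 → R) : hC f (c • x) = c • hC f x := by
  funext i
  fin_cases i <;> simp [hC] <;> ring

lemma nA_map (φ : R →+* R') (p : Fin 3 → R) (z : Fin 2 → R) (x : Fin 3 → R) (i : Fin 17) :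
    φ (nA p z x i) = nA (fun k => φ (p k)) (fun k => φ (z k)) (fun k => φ (x k)) i := by
  have h2 : φ 2 = 2 := map_ofNat φ 2
  fin_cases i <;> simp [nA, h2]

lemma nB_map (φ : R →+* R') (p : Fin 3 → R) (z : Fin 2 → R) (x : Fin 17 → R) (i : Fin 21) :
    φ (nB p z x i) = nB (fun k => φ (p k)) (fun k => φ (z k)) (fun k => φ (x k)) i := by
  have h2 : φ 2 = 2 := map_ofNat φ 2
  fin_cases i <;> simp [nB, h2]

lemma nC_map (φ : R →+* R') (p : Fin 3 → R) (z : Fin 2 → R) (x : Fin 21 → R) (i : Fin 5) :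
    φ (nC p z x i) = nC (fun k => φ (p k)) (fun k => φ (z k)) (fun k => φ (x k)) i := by
  have h2 : φ 2 = 2 := map_ofNat φ 2
  fin_cases i <;> simp [nC, h2]

lemma hA_map (φ : R →+* R') (f : Fin 5 → R) (x : Fin 2 → R) (i : Fin 15) :
    φ (hA f x i) = hA (fun k => φ (f k)) (fun k => φ (x k)) i := by
  fin_cases i <;> simp [hA]

lemma hB_map (φ : R →+* R') (f : Fin 5 → R) (x : Fin 15 → R) (i : Fin 20) :
    φ (hB f x i) = hB (fun k => φ (f k)) (fun k => φ (x k)) i := by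
  fin_cases i <;> simp [hB]

lemma hC_map (φ : R →+* R') (f : Fin 5 → R) (x : Fin 20 → R) (i : Fin 5) :
    φ (hC f x i) = hC (fun k => φ (f k)) (fun k => φ (x k)) i := by
  fin_cases i <;> simp [hC]

lemma map_single {n : ℕ} (φ : R →+* R') (j : Fin n) :
    (fun k => φ ((Pi.single j 1 : Fin n → R) k)) = Pi.single j 1 := by
  funext k
  by_cases h : k = j
  · subst h
    simp
  · simp [Pi.single_eq_of_ne h]

/-- surjectivity from the injectivity of the transpose -/
lemma sur_of_left {F : Type} [Field F] {G : (Fin n → F) → (Fin m → F)}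
    (ha : ∀ x y, G (x + y) = G x + G y) (hs : ∀ (c : F) x, G (c • x) = c • G x)
    (h : ∀ c : Fin m → F, (∀ u, ∑ i, c i * G u i = 0) → c = 0) (u : Fin m → F) :
    ∃ w, G w = u := by
  let L : (Fin n → F) →ₗ[F] (Fin m → F) := { toFun := G, map_add' := ha, map_smul' := hs }
  have hr : LinearMap.range L = ⊤ := by
    by_contra hne
    obtain ⟨φ, hφ, hle⟩ := Submodule.exists_le_ker_of_lt_top _ (lt_top_iff_ne_top.mpr hne)
    apply hφ
    have hc := h (fun i => φ (fun j => if i = j then 1 else 0)) (by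
      intro v
      have := hle (LinearMap.mem_range_self L v)
      rw [LinearMap.mem_ker, LinearMap.pi_apply_eq_sum_univ φ] at this
      refine Eq.trans (Finset.sum_congr rfl fun i _ => ?_) this
      rw [smul_eq_mul, mul_comm]
      rfl)
    apply LinearMap.ext
    intro x
    rw [LinearMap.pi_apply_eq_sum_univ φ x]
    apply Finset.sum_eq_zero
    intro i _
    have := congrFun hc i
    simp only [Pi.zero_apply] at this
    rw [this, smul_zero]
  obtain ⟨v, hv⟩ := LinearMap.range_eq_top.mp hr u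
  exact ⟨v, hv⟩

end mt

section

variable {K : Type} [Field K]

lemma form_single {n : ℕ} (d : Fin n → ℤ) (j k : Fin n) :
    Form (d j - d k) ((Pi.single j 1 : Fin n → S K) k) := by
  by_cases h : k = j
  · subst h
    rw [Pi.single_eq_same, sub_self]
    exact Form.one
  · rw [Pi.single_eq_of_ne h]
    exact Form.zero _

lemma pp_form (i : Fin 3) : Form 2 (pp K i) := by
  have h : ∀ j : Fin 5, Form 1 (X j : S K) := fun j =>
    isWeightedHomogeneous_X K (fun _ : Fin 5 => (1 : ℤ)) j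
  fin_cases i
  · change Form 2 ((X 0 : S K) ^ 2)
    rw [pow_two]
    exact (h 0).mul (h 0)
  · change Form 2 ((X 1 : S K) ^ 2)
    rw [pow_two]
    exact (h 1).mul (h 1)
  · change Form 2 ((X 2 : S K) ^ 2)
    rw [pow_two]
    exact (h 2).mul (h 2)

lemma zz_form (i : Fin 2) : Form 3 (zz K i) := by
  have h : ∀ j : Fin 5, Form 1 (X j : S K) := fun j =>
    isWeightedHomogeneous_X K (fun _ : Fin 5 => (1 : ℤ)) j
  fin_cases i
  · change Form 3 ((X 3 : S K) ^ 3)
    rw [pow_succ, pow_two]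
    exact ((h 3).mul (h 3)).mul (h 3)
  · change Form 3 ((X 4 : S K) ^ 3)
    rw [pow_succ, pow_two]
    exact ((h 4).mul (h 4)).mul (h 4)

lemma pz_ne (v : Fin 5 → K) (hv : v ≠ 0) :
    (fun k => eval v (pp K k)) ≠ 0 ∨ (fun k => eval v (zz K k)) ≠ 0 := by
  by_contra hc
  push Not at hc
  obtain ⟨h1, h2⟩ := hc
  apply hv
  have a0 : eval v ((X 0 : S K) ^ 2) = 0 := congrFun h1 0
  have a1 : eval v ((X 1 : S K) ^ 2) = 0 := congrFun h1 1
  have a2 : eval v ((X 2 : S K) ^ 2) = 0 := congrFun h1 2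
  have a3 : eval v ((X 3 : S K) ^ 3) = 0 := congrFun h2 0
  have a4 : eval v ((X 4 : S K) ^ 3) = 0 := congrFun h2 1
  simp only [map_pow, eval_X] at a0 a1 a2 a3 a4
  funext i
  fin_cases i
  · exact eq_zero_of_pow_eq_zero a0
  · exact eq_zero_of_pow_eq_zero a1
  · exact eq_zero_of_pow_eq_zero a2
  · exact eq_zero_of_pow_eq_zero a3
  · exact eq_zero_of_pow_eq_zero a4

lemma ev_mt_nA (v : Fin 5 → K) (p : Fin 3 → S K) (z : Fin 2 → S K) :
    ev v (mt (nA p z)) = mt (nA (fun k => eval v (p k)) (fun k => eval v (z k))) := by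
  ext i j
  change eval v (nA p z (Pi.single j 1) i) = nA _ _ (Pi.single j 1) i
  rw [nA_map (eval v), map_single]

lemma ev_mt_nB (v : Fin 5 → K) (p : Fin 3 → S K) (z : Fin 2 → S K) :
    ev v (mt (nB p z)) = mt (nB (fun k => eval v (p k)) (fun k => eval v (z k))) := by
  ext i j
  change eval v (nB p z (Pi.single j 1) i) = nB _ _ (Pi.single j 1) i
  rw [nB_map (eval v), map_single]

lemma ev_mt_nC (v : Fin 5 → K) (p : Fin 3 → S K) (z : Fin 2 → S K) :
    ev v (mt (nC p z)) = mt (nC (fun k => eval v (p k)) (fun k => eval v (z k))) := by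
  ext i j
  change eval v (nC p z (Pi.single j 1) i) = nC _ _ (Pi.single j 1) i
  rw [nC_map (eval v), map_single]

lemma ev_mt_hA (v : Fin 5 → K) (f : Fin 5 → S K) :
    ev v (mt (hA f)) = mt (hA (fun k => eval v (f k))) := by
  ext i j
  change eval v (hA f (Pi.single j 1) i) = hA _ (Pi.single j 1) i
  rw [hA_map (eval v), map_single]

lemma ev_mt_hB (v : Fin 5 → K) (f : Fin 5 → S K) :
    ev v (mt (hB f)) = mt (hB (fun k => eval v (f k))) := by
  ext i j
  change eval v (hB f (Pi.single j 1) i) = hB _ (Pi.single j 1) i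
  rw [hB_map (eval v), map_single]

lemma ev_mt_hC (v : Fin 5 → K) (f : Fin 5 → S K) :
    ev v (mt (hC f)) = mt (hC (fun k => eval v (f k))) := by
  ext i j
  change eval v (hC f (Pi.single j 1) i) = hC _ (Pi.single j 1) i
  rw [hC_map (eval v), map_single]

lemma form_of_hom {g : S K} {d : ℕ} (h : g.IsHomogeneous d) : Form (d : ℤ) g := by
  intro s hs
  have h1 := h hs
  rw [Finsupp.weight_apply, Finsupp.sum] at h1 ⊢
  rw [← h1]
  push_cast
  refine Finset.sum_congr rfl fun i _ => ?_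
  simp

/-- The new monad. -/
def newMnd (K : Type) [Field K] (h2 : (2 : K) ≠ 0) : Mnd K (Fin 3) (Fin 17) (Fin 21) (Fin 5) where
  A := mt (nA (pp K) (zz K))
  B := mt (nB (pp K) (zz K))
  C := mt (nC (pp K) (zz K))
  d₃ := n3
  d₂ := n2
  d₁ := n1
  d₀ := n0
  hA := fun i j => nA_form pp_form zz_form (fun k => form_single n3 j k) i
  hB := fun i j => nB_form pp_form zz_form (fun k => form_single n2 j k) i
  hC := fun i j => nC_form pp_form zz_form (fun k => form_single n1 j k) i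
  BA := mt_mul (nB_add _ _) (nB_smul _ _) (nB_nA _ _)
  CB := mt_mul (nC_add _ _) (nC_smul _ _) (nC_nB _ _)
  injA := fun v hv u hu => by
    rw [ev_mt_nA, mt_mulVec (nA_add _ _) (nA_smul _ _)] at hu
    exact nA_inj h2 _ _ (pz_ne v hv) u hu
  exB := fun v hv u hu => by
    rw [ev_mt_nB, mt_mulVec (nB_add _ _) (nB_smul _ _)] at hu
    obtain ⟨a, ha⟩ := nB_ker h2 _ _ (pz_ne v hv) u hu
    refine ⟨a, ?_⟩
    rw [ev_mt_nA, mt_mulVec (nA_add _ _) (nA_smul _ _)]
    exact ha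
  surC := fun v hv u => by
    obtain ⟨w, hw⟩ := sur_of_left (nC_add _ _) (nC_smul _ _) (nC_left h2 _ _ (pz_ne v hv)) u
    refine ⟨w, ?_⟩
    rw [ev_mt_nC, mt_mulVec (nC_add _ _) (nC_smul _ _)]
    exact hw
  card_eq := by simp

theorem newMnd_d {K : Type} [Field K] (h2 : (2 : K) ≠ 0) : (newMnd K h2).d₃ = n3 ∧
    (newMnd K h2).d₂ = n2 ∧ (newMnd K h2).d₁ = n1 ∧ (newMnd K h2).d₀ = n0 :=
  ⟨rfl, rfl, rfl, rfl⟩

theorem newMnd_A {K : Type} [Field K] (h2 : (2 : K) ≠ 0) :
    (newMnd K h2).A = mt (nA (pp K) (zz K)) ∧ (newMnd K h2).B = mt (nB (pp K) (zz K)) ∧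
    (newMnd K h2).C = mt (nC (pp K) (zz K)) :=
  ⟨rfl, rfl, rfl⟩

lemma f_ne {f : Fin 5 → S K} {d : ℕ} (hf : IsSelfMap f d) (v : Fin 5 → K) (hv : v ≠ 0) :
    (fun k => eval v (f k)) ≠ 0 := by
  intro h
  exact hv (hf.noZero v fun i => congrFun h i)

/-- The Horrocks-Mumford monad, pulled back by a self-map. -/
def hmMnd {K : Type} [Field K] {f : Fin 5 → S K} {d : ℕ} (hf : IsSelfMap f d) :
    Mnd K (Fin 2) (Fin 15) (Fin 20) (Fin 5) where
  A := mt (hA f)
  B := mt (hB f)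
  C := mt (hC f)
  d₃ := h3 d
  d₂ := h2 d
  d₁ := h1
  d₀ := h0 d
  hA := fun i j => hA_form (fun i => form_of_hom (hf.hom i)) (fun k => form_single (h3 d) j k) i
  hB := fun i j => hB_form (fun i => form_of_hom (hf.hom i)) (fun k => form_single (h2 d) j k) i
  hC := fun i j => hC_form (fun i => form_of_hom (hf.hom i)) (fun k => form_single h1 j k) i
  BA := mt_mul (hB_add _) (hB_smul _) (hB_hA _)
  CB := mt_mul (hC_add _) (hC_smul _) (hC_hB _)
  injA := fun v hv u hu => by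
    rw [ev_mt_hA, mt_mulVec (hA_add _) (hA_smul _)] at hu
    exact hA_inj _ (f_ne hf v hv) u hu
  exB := fun v hv u hu => by
    rw [ev_mt_hB, mt_mulVec (hB_add _) (hB_smul _)] at hu
    obtain ⟨a, ha⟩ := hB_exact _ (f_ne hf v hv) u hu
    refine ⟨a, ?_⟩
    rw [ev_mt_hA, mt_mulVec (hA_add _) (hA_smul _)]
    exact ha
  surC := fun v hv u => by
    obtain ⟨w, hw⟩ := hC_sur _ (f_ne hf v hv) u
    refine ⟨w, ?_⟩
    rw [ev_mt_hC, mt_mulVec (hC_add _) (hC_smul _)]
    exact hw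
  card_eq := by simp

theorem hmMnd_A {K : Type} [Field K] {f : Fin 5 → S K} {d : ℕ} (hf : IsSelfMap f d) :
    (hmMnd hf).B = mt (hB f) ∧ (hmMnd hf).C = mt (hC f) ∧ (hmMnd hf).d₃ = h3 d ∧
    (hmMnd hf).d₂ = h2 d ∧ (hmMnd hf).d₁ = h1 ∧ (hmMnd hf).d₀ = h0 d :=
  ⟨rfl, rfl, rfl, rfl, rfl, rfl⟩

end

end Pool.Agent.Lib.MP_745d3a_ag.NB

end
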