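import Pool.Agent.Lib.MP_745d3a_ag.NB.State
import Pool.Agent.Lib.MP_745d3a_ag.NB.Defs
import Pool.Agent.Lib.MP_745d3a_ag.NB.HmIso
import Pool.Agent.Lib.MP_745d3a_ag.NB.Mnds

/-!
The new monad and the Horrocks-Mumford monad.
-/

set_option autoImplicit false

noncomputable section

open MvPolynomial Matrix

namespace Pool.Agent.Lib.MP_745d3a_ag.NB

open Pool.Agent.Lib.MP_745d3a_ag.PB

/- G8: v ↦ (the two skew-symmetric matrices with the entries v 0, …, v 9 and v 10, …, v 19 above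
the diagonal, order 01 02 03 04 12 13 14 23 24 34). -/
theorem hm_iso {K : Type} [Field K] {f : Fin 5 → S K} {d : ℕ} (hf : IsSelfMap f d) :
    ∃ e : (hmMnd hf).Md ≃ₗ[S K] HM f, ∀ n m, m ∈ (hmMnd hf).deg n ↔ e m ∈ hmGr f n :=
  iso_of (hmMnd hf) (hmMnd_A hf).1 (hmMnd_A hf).2.1 (hmMnd_A hf).2.2.2.2.1

end Pool.Agent.Lib.MP_745d3a_ag.NB

end
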