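import Pool.Agent.Lib.MP_745d3a_ag.NB.G3
import Pool.Agent.Lib.MP_745d3a_ag.NB.G8

/-!
The Hilbert polynomials of the new bundle and of the Horrocks-Mumford bundles.
-/

set_option autoImplicit false

noncomputable section

open MvPolynomial Matrix

namespace Pool.Agent.Lib.MP_745d3a_ag.NB

open Pool.Agent.Lib.MP_745d3a_ag.PB

theorem sum_n3 (n : ℤ) : ∑ i, qq (n - n3 i) = 3 * qq (n - 7) := by
  simp only [Fin.sum_univ_succ, Finset.univ_eq_empty, Finset.sum_empty, n3]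
  ring

theorem sum_n2 (n : ℤ) : ∑ i, qq (n - n2 i) =
    6 * qq (n - 4) + 6 * qq (n - 5) + 3 * qq (n - 1) + 2 * qq (n - 2) := by
  have h : ∑ i, qq (n - n2 i) = qq (n - 4) + (qq (n - 4) + (qq (n - 4) + (qq (n - 4) +
      (qq (n - 4) + (qq (n - 4) + (qq (n - 5) + (qq (n - 5) + (qq (n - 5) + (qq (n - 5) +
      (qq (n - 5) + (qq (n - 5) + (qq (n - 1) + (qq (n - 1) + (qq (n - 1) + (qq (n - 2) +
      (qq (n - 2) + 0)))))))))))))))) := by
    simp only [Fin.sum_univ_succ, Finset.univ_eq_empty, Finset.sum_empty]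
    rfl
  rw [h]
  ring

theorem sum_n1 (n : ℤ) : ∑ i, qq (n - n1 i) = 9 * qq (n - 1) + 12 * qq (n - 2) := by
  have h : ∑ i, qq (n - n1 i) = qq (n - 1) + (qq (n - 1) + (qq (n - 1) + (qq (n - 2) +
      (qq (n - 2) + (qq (n - 2) + (qq (n - 2) + (qq (n - 2) + (qq (n - 2) + (qq (n - 2) +
      (qq (n - 2) + (qq (n - 2) + (qq (n - 2) + (qq (n - 2) + (qq (n - 2) + (qq (n - 1) +
      (qq (n - 1) + (qq (n - 1) + (qq (n - 1) + (qq (n - 1) + (qq (n - 1) +
      0)))))))))))))))))))) := by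
    simp only [Fin.sum_univ_succ, Finset.univ_eq_empty, Finset.sum_empty]
    rfl
  rw [h]
  ring

theorem sum_n0 (n : ℤ) : ∑ i, qq (n - n0 i) = 3 * qq (n + 1) + 2 * qq (n + 2) := by
  have h : ∑ i, qq (n - n0 i) = qq (n - -1) + (qq (n - -1) + (qq (n - -1) + (qq (n - -2) +
      (qq (n - -2) + 0)))) := by
    simp only [Fin.sum_univ_succ, Finset.univ_eq_empty, Finset.sum_empty]
    rfl
  rw [h]
  simp only [sub_neg_eq_add]
  ring

theorem sum_h3 (n d : ℤ) : ∑ i, qq (n - h3 d i) = 2 * qq (n - 2 * d) := by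
  simp only [Fin.sum_univ_succ, Finset.univ_eq_empty, Finset.sum_empty, h3]
  ring

theorem sum_h2 (n d : ℤ) : ∑ i, qq (n - h2 d i) = 10 * qq (n - d) + 5 * qq n := by
  have h : ∑ i, qq (n - h2 d i) = qq (n - d) + (qq (n - d) + (qq (n - d) + (qq (n - d) +
      (qq (n - d) + (qq (n - d) + (qq (n - d) + (qq (n - d) + (qq (n - d) + (qq (n - d) +
      (qq (n - 0) + (qq (n - 0) + (qq (n - 0) + (qq (n - 0) + (qq (n - 0) +
      0)))))))))))))) := by
    simp only [Fin.sum_univ_succ, Finset.univ_eq_empty, Finset.sum_empty]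
    rfl
  rw [h]
  simp only [sub_zero]
  ring

theorem sum_h1 (n : ℤ) : ∑ i, qq (n - h1 i) = 20 * qq n := by
  simp only [h1, sub_zero, Finset.sum_const, Finset.card_univ, Fintype.card_fin, nsmul_eq_mul]
  norm_num

theorem sum_h0 (n d : ℤ) : ∑ i, qq (n - h0 d i) = 5 * qq (n + d) := by
  simp only [h0, sub_neg_eq_add, Finset.sum_const, Finset.card_univ, Fintype.card_fin,
    nsmul_eq_mul]
  norm_num

/-- the new bundle has the Chern numbers `0` and `32` -/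
theorem newMnd_chern {K : Type} [Field K] [IsAlgClosed K] (h2 : (2 : K) ≠ 0) :
    HasChern (newMnd K h2).deg 0 32 := by
  obtain ⟨n₀, hn⟩ := (newMnd K h2).hilb
  obtain ⟨e3, e2, e1, e0⟩ := newMnd_d h2
  refine ⟨n₀, fun n hle => ?_⟩
  rw [hn n hle, e3, e2, e1, e0, sum_n3, sum_n2, sum_n1, sum_n0]
  simp only [qq]
  ring

/-- the Horrocks-Mumford bundles -/
theorem hmMnd_chern {K : Type} [Field K] [IsAlgClosed K] {f : Fin 5 → S K} {d : ℕ}
    (hf : IsSelfMap f d) : HasChern (hmMnd hf).deg d (4 * (d : ℤ) ^ 2) := by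
  obtain ⟨n₀, hn⟩ := (hmMnd hf).hilb
  obtain ⟨-, -, e3, e2, e1, e0⟩ := hmMnd_A hf
  refine ⟨n₀, fun n hle => ?_⟩
  rw [hn n hle, e3, e2, e1, e0, sum_h3, sum_h2, sum_h1, sum_h0]
  simp only [qq]
  ring

end Pool.Agent.Lib.MP_745d3a_ag.NB

end
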