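import Pool.Agent.Lib.MP_745d3a_ag.NB.State
import Pool.Agent.Lib.MP_745d3a_ag.NB.Defs

/-!
Transport of `IsRankTwoBundle` and `HasChern` along an isomorphism of graded modules.
-/

set_option autoImplicit false

noncomputable section

open MvPolynomial Matrix

namespace Pool.Agent.Lib.MP_745d3a_ag.NB

open Pool.Agent.Lib.MP_745d3a_ag.PB

section

variable {K : Type} [Field K] {M N : Type} [AddCommGroup M] [Module K M]
  [Module (MvPolynomial (Fin 5) K) M] [IsScalarTower K (MvPolynomial (Fin 5) K) M]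
  [AddCommGroup N] [Module K N] [Module (MvPolynomial (Fin 5) K) N]
  [IsScalarTower K (MvPolynomial (Fin 5) K) N]
  {𝓜 : ℤ → Submodule K M} {𝓝 : ℤ → Submodule K N}

lemma map_gr_eq (e : M ≃ₗ[MvPolynomial (Fin 5) K] N) (he : ∀ n m, m ∈ 𝓜 n ↔ e m ∈ 𝓝 n) (n : ℤ) :
    (𝓜 n).map (e.restrictScalars K : M →ₗ[K] N) = 𝓝 n := by
  ext y
  constructor
  · rintro ⟨m, hm, rfl⟩
    exact (he n m).mp hm
  · intro hy
    refine ⟨e.symm y, (he n _).mpr ?_, ?_⟩
    · rwa [e.apply_symm_apply]
    · exact e.apply_symm_apply y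

theorem IsRankTwoBundle.of_equiv (h : IsRankTwoBundle 𝓜) (e : M ≃ₗ[MvPolynomial (Fin 5) K] N)
    (he : ∀ n m, m ∈ 𝓜 n ↔ e m ∈ 𝓝 n) : IsRankTwoBundle 𝓝 where
  finite := by
    have := h.finite
    exact Module.Finite.equiv e
  reflexive := by
    have := h.reflexive
    exact Module.equiv e
  rank := by rw [← e.finrank_eq]; exact h.rank
  locallyFree := by
    intro p _ hp
    have := h.locallyFree p hp
    exact Module.Free.of_equiv (IsLocalizedModule.mapEquiv p.primeCompl
      (LocalizedModule.mkLinearMap p.primeCompl M) (LocalizedModule.mkLinearMap p.primeCompl N)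
      (Localization.AtPrime p) e)
  internal := by
    have h1 := (DirectSum.isInternal_submodule_iff_iSupIndep_and_iSup_eq_top 𝓜).mp h.internal
    refine (DirectSum.isInternal_submodule_iff_iSupIndep_and_iSup_eq_top 𝓝).mpr ⟨?_, ?_⟩
    · have h2 := h1.1.map_orderIso (Submodule.orderIsoMapComap (e.restrictScalars K))
      have h3 : (Submodule.orderIsoMapComap (e.restrictScalars K) ∘ 𝓜) = 𝓝 :=
        funext fun n => map_gr_eq e he n
      rwa [h3] at h2
    · have h2 := congrArg (Submodule.map (e.restrictScalars K : M →ₗ[K] N)) h1.2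
      rw [Submodule.map_iSup, Submodule.map_top] at h2
      have h3 : (fun n => (𝓜 n).map (e.restrictScalars K : M →ₗ[K] N)) = 𝓝 :=
        funext fun n => map_gr_eq e he n
      rw [h3] at h2
      rw [h2]
      exact LinearEquiv.range (e.restrictScalars K)
  smul_mem := by
    intro n k f m hf hm
    have h1 := (he k (e.symm m)).mpr (by rwa [e.apply_symm_apply])
    have h2 := h.smul_mem n k f _ hf h1
    have h3 := (he _ _).mp h2
    rwa [map_smul, e.apply_symm_apply] at h3

theorem HasChern.of_equiv {c1 c2 : ℤ} (h : HasChern 𝓜 c1 c2)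
    (e : M ≃ₗ[MvPolynomial (Fin 5) K] N) (he : ∀ n m, m ∈ 𝓜 n ↔ e m ∈ 𝓝 n) :
    HasChern 𝓝 c1 c2 := by
  obtain ⟨n₀, hn⟩ := h
  refine ⟨n₀, fun n hn' => ?_⟩
  rw [← hn n hn', ← map_gr_eq e he n]
  rw [show (Submodule.map (e.restrictScalars K : M →ₗ[K] N) (𝓜 n)) =
    Submodule.map ((e.restrictScalars K : M ≃ₗ[K] N) : M →ₗ[K] N) (𝓜 n) from rfl,
    LinearEquiv.finrank_map_eq]

end

end Pool.Agent.Lib.MP_745d3a_ag.NB

end
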