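import Pool.Agent.Lib.MP_745d3a_ag.NB.State
import Pool.Agent.Lib.MP_745d3a_ag.NB.Defs

/-!
The grading.
-/

set_option autoImplicit false

noncomputable section

open MvPolynomial Matrix

namespace Pool.Agent.Lib.MP_745d3a_ag.NB

open Pool.Agent.Lib.MP_745d3a_ag.PB

section Comp

variable {K : Type} [Field K]

/-- the component of degree `t` of a polynomial -/
def cmp (K : Type) [Field K] (t : ℤ) : S K →ₗ[K] S K :=
  weightedHomogeneousComponent (fun _ : Fin 5 => (1 : ℤ)) t

theorem cmp_form (t : ℤ) (g : S K) : Form t (cmp K t g) :=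
  weightedHomogeneousComponent_isWeightedHomogeneous t g

theorem cmp_same {t : ℤ} {g : S K} (h : Form t g) : cmp K t g = g :=
  IsWeightedHomogeneous.weightedHomogeneousComponent_same h

theorem cmp_ne {s t : ℤ} {g : S K} (h : Form s g) (hst : s ≠ t) : cmp K t g = 0 :=
  IsWeightedHomogeneous.weightedHomogeneousComponent_ne t h hst.symm

theorem cmp_mul {e : ℤ} {g : S K} (hg : Form e g) (t : ℤ) (u : S K) :
    cmp K t (g * u) = g * cmp K (t - e) u := by
  classical
  let _ : GradedAlgebra (weightedHomogeneousSubmodule K (fun _ : Fin 5 => (1 : ℤ))) :=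
    weightedGradedAlgebra K (fun _ : Fin 5 => (1 : ℤ))
  have key := DirectSum.coe_decompose_mul_add_of_left_mem
    (weightedHomogeneousSubmodule K (fun _ : Fin 5 => (1 : ℤ))) (i := e) (j := t - e)
    (a := g) (b := u) ((mem_weightedHomogeneousSubmodule K _ e g).mpr hg)
  have e1 := weightedDecomposition.decompose'_apply K (fun _ : Fin 5 => (1 : ℤ)) (g * u)
    (e + (t - e))
  have e2 := weightedDecomposition.decompose'_apply K (fun _ : Fin 5 => (1 : ℤ)) u (t - e)
  have e3 : (DirectSum.decompose (weightedHomogeneousSubmodule K (fun _ : Fin 5 => (1 : ℤ)))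
      (g * u) (e + (t - e)) : S K) = weightedHomogeneousComponent (fun _ : Fin 5 => (1 : ℤ))
        (e + (t - e)) (g * u) := e1
  have e4 : (DirectSum.decompose (weightedHomogeneousSubmodule K (fun _ : Fin 5 => (1 : ℤ)))
      u (t - e) : S K) = weightedHomogeneousComponent (fun _ : Fin 5 => (1 : ℤ)) (t - e) u := e2
  rw [e3, e4] at key
  rw [show e + (t - e) = t by ring] at key
  exact key

theorem exists_finset_cmp (g : S K) : ∃ T : Finset ℤ, ∀ t, t ∉ T → cmp K t g = 0 := by
  refine ⟨(weightedHomogeneousComponent_finsupp (w := fun _ : Fin 5 => (1 : ℤ)) g).toFinset,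
    fun t ht => ?_⟩
  rw [Set.Finite.mem_toFinset, Function.mem_support, not_not] at ht
  exact ht

theorem sum_cmp (g : S K) (T : Finset ℤ) (hT : ∀ t, t ∉ T → cmp K t g = 0) :
    ∑ t ∈ T, cmp K t g = g := by
  have h := sum_weightedHomogeneousComponent (fun _ : Fin 5 => (1 : ℤ)) g
  rw [finsum_eq_sum_of_support_subset _ (s := T) ?_] at h
  · exact h
  · intro t ht
    by_contra hc
    exact ht (hT t hc)

variable {α β : Type}

/-- the component of degree `t` of a vector -/
def cv (K : Type) [Field K] {α : Type} (d : α → ℤ) (t : ℤ) : (α → S K) →ₗ[K] (α → S K) :=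
  LinearMap.pi fun i => (cmp K (t - d i)) ∘ₗ LinearMap.proj i

theorem cv_apply (d : α → ℤ) (t : ℤ) (u : α → S K) (i : α) :
    cv K d t u i = cmp K (t - d i) (u i) := rfl

theorem cv_mem (d : α → ℤ) (t : ℤ) (u : α → S K) : cv K d t u ∈ gr K d t := fun _ =>
  cmp_form _ _

theorem cv_same {d : α → ℤ} {t : ℤ} {u : α → S K} (h : u ∈ gr K d t) : cv K d t u = u :=
  funext fun i => cmp_same (h i)

theorem cv_ne {d : α → ℤ} {s t : ℤ} {u : α → S K} (h : u ∈ gr K d s) (hst : s ≠ t) :
    cv K d t u = 0 :=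
  funext fun i => cmp_ne (h i) (by omega)

theorem cv_mulVec [Fintype β] {d : α → ℤ} {e : β → ℤ} {B : Matrix α β (S K)} (hB : HMat d e B)
    (t : ℤ) (u : β → S K) : cv K d t (B *ᵥ u) = B *ᵥ cv K e t u := by
  funext i
  rw [cv_apply]
  simp only [Matrix.mulVec, dotProduct, map_sum]
  refine Finset.sum_congr rfl fun j _ => ?_
  rw [cmp_mul (hB i j), cv_apply, show t - d i - (e j - d i) = t - e j by ring]

theorem exists_sum_cv [Fintype α] (d : α → ℤ) (u : α → S K) :
    ∃ T : Finset ℤ, ∑ t ∈ T, cv K d t u = u := by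
  classical
  choose T hT using fun i => exists_finset_cmp (u i)
  refine ⟨Finset.univ.biUnion fun i => (T i).image (fun s => s + d i), funext fun i => ?_⟩
  rw [Finset.sum_apply]
  simp only [cv_apply]
  set U := Finset.univ.biUnion fun i => (T i).image (fun s => s + d i) with hU
  have h1 : ∑ t ∈ U, cmp K (t - d i) (u i) = ∑ s ∈ U.image (fun t => t - d i), cmp K s (u i) := by
    rw [Finset.sum_image]
    intro a _ b _ hab
    simpa using hab
  rw [h1]
  apply sum_cmp
  intro t ht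
  apply hT
  intro hc
  apply ht
  rw [Finset.mem_image]
  refine ⟨t + d i, ?_, by ring⟩
  rw [hU, Finset.mem_biUnion]
  exact ⟨i, Finset.mem_univ _, Finset.mem_image.mpr ⟨t, hc, rfl⟩⟩

end Comp

namespace Mnd

variable {K : Type} [Field K] {α₃ α₂ α₁ α₀ : Type} [Fintype α₃] [Fintype α₂]
  [Fintype α₁] [Fintype α₀] (W : Mnd K α₃ α₂ α₁ α₀)

theorem cv_mem_cyc (t : ℤ) {u : α₁ → S K} (hu : u ∈ W.cyc) : cv K W.d₁ t u ∈ W.cyc := by
  have h : W.C *ᵥ u = 0 := hu
  change W.C *ᵥ cv K W.d₁ t u = 0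
  rw [← cv_mulVec W.hC, h, map_zero]

theorem cv_mem_bdy (t : ℤ) {u : α₁ → S K} (hu : u ∈ W.bdy) : cv K W.d₁ t u ∈ W.bdy := by
  obtain ⟨y, rfl⟩ := hu
  exact ⟨cv K W.d₂ t y, (cv_mulVec W.hB t y).symm⟩

theorem cl_eq_zero {u : W.cyc} : W.cl u = 0 ↔ (u : α₁ → S K) ∈ W.bdy := by
  rw [cl, Submodule.mkQ_apply, Submodule.Quotient.mk_eq_zero, Submodule.mem_comap]
  rfl

theorem cl_mem_deg {t : ℤ} {u : W.cyc} (hu : (u : α₁ → S K) ∈ gr K W.d₁ t) :
    W.cl u ∈ W.deg t := ⟨u, hu, rfl⟩

theorem internal : DirectSum.IsInternal W.deg := by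
  classical
  constructor
  · rw [injective_iff_map_eq_zero]
    intro x hx
    have hch : ∀ t, ∃ u : W.cyc, (u : α₁ → S K) ∈ gr K W.d₁ t ∧ W.cl u = (x t : W.Md) :=
      fun t => by
        obtain ⟨u, hu, he⟩ := (x t).2
        exact ⟨u, hu, he⟩
    choose u hu he using hch
    have hs : (∑ t ∈ x.support, W.cl (u t)) = 0 := by
      rw [DirectSum.coeAddMonoidHom_eq_dfinsuppSum, DFinsupp.sum] at hx
      rw [← hx]
      exact Finset.sum_congr rfl fun t _ => he t
    rw [← map_sum, cl_eq_zero] at hs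
    refine DFinsupp.ext fun s => ?_
    by_cases hsx : s ∈ x.support
    · have h1 := W.cv_mem_bdy s hs
      have h2 : cv K W.d₁ s ((∑ t ∈ x.support, u t : W.cyc) : α₁ → S K) = u s := by
        rw [Submodule.coe_sum, map_sum, Finset.sum_eq_single s]
        · exact cv_same (hu s)
        · intro t _ ht
          exact cv_ne (hu t) ht
        · intro h; exact absurd hsx h
      rw [h2] at h1
      have h3 : W.cl (u s) = 0 := W.cl_eq_zero.mpr h1
      rw [he s] at h3
      exact Subtype.ext h3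
    · simpa using hsx
  · intro m
    obtain ⟨u, rfl⟩ : ∃ u, W.cl u = m := Submodule.mkQ_surjective _ m
    obtain ⟨T, hT⟩ := exists_sum_cv W.d₁ (u : α₁ → S K)
    refine ⟨∑ t ∈ T, DirectSum.of (fun i => W.deg i) t
      ⟨W.cl ⟨cv K W.d₁ t u, W.cv_mem_cyc t u.2⟩, W.cl_mem_deg (cv_mem _ _ _)⟩, ?_⟩
    rw [map_sum]
    simp only [DirectSum.coeAddMonoidHom_of]
    rw [← map_sum]
    congr 1
    refine Subtype.ext ?_
    rw [Submodule.coe_sum]
    exact hT

theorem smul_mem (n : ℕ) (k : ℤ) (f : S K) (m : W.Md) (hf : f.IsHomogeneous n)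
    (hm : m ∈ W.deg k) : f • m ∈ W.deg (k + n) := by
  obtain ⟨u, hu, rfl⟩ := hm
  refine ⟨f • u, fun i => ?_, ?_⟩
  · have h1 : Form (n : ℤ) f := by
      intro d hd
      have := hf hd
      rw [← this]
      simp [Finsupp.weight, Finsupp.linearCombination_apply, Finsupp.sum]
    have h2 := IsWeightedHomogeneous.mul h1 (hu i)
    have h3 : (n : ℤ) + (k - W.d₁ i) = k + n - W.d₁ i := by ring
    rw [h3] at h2
    exact h2
  · exact map_smul W.cl f u

end Mnd

end Pool.Agent.Lib.MP_745d3a_ag.NB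

end
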