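import Pool.Agent.Lib.MP_745d3a_ag.NB.State
import Pool.Agent.Lib.MP_745d3a_ag.NB.Defs

set_option autoImplicit false

noncomputable section

open MvPolynomial Matrix

namespace Pool.Agent.Lib.MP_745d3a_ag.NB

open Pool.Agent.Lib.MP_745d3a_ag.PB

lemma weight_eq_degree (e : Fin 5 →₀ ℕ) :
    Finsupp.weight (fun _ : Fin 5 => (1 : ℤ)) e = ((Finsupp.degree e : ℕ) : ℤ) := by
  rw [Finsupp.weight_apply, Finsupp.degree_apply, Finsupp.sum]
  push_cast
  exact Finset.sum_congr rfl fun i _ => by simp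

lemma weight_set (t : ℤ) : {e : Fin 5 →₀ ℕ | Finsupp.weight (fun _ : Fin 5 => (1 : ℤ)) e = t} =
    if t < 0 then ∅ else
      ((Finset.finsuppAntidiag (Finset.univ : Finset (Fin 5)) t.toNat : Finset (Fin 5 →₀ ℕ)) :
        Set (Fin 5 →₀ ℕ)) := by
  ext e
  split_ifs with h
  · simp only [Set.mem_ofPred_eq, Set.mem_empty_iff_false, iff_false, weight_eq_degree]
    omega
  · rw [Set.mem_ofPred_eq, weight_eq_degree, Finset.mem_coe, Finset.mem_finsuppAntidiag,
      Finsupp.degree_eq_sum]
    have h0 : (Finset.univ.sum fun i => e i) = Finset.univ.sum e := rfl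
    rw [h0]
    constructor
    · intro h1
      refine ⟨?_, Finset.subset_univ _⟩
      omega
    · rintro ⟨h1, -⟩
      omega

instance finite_forms {K : Type} [Field K] (t : ℤ) :
    Module.Finite K (weightedHomogeneousSubmodule K (fun _ : Fin 5 => (1 : ℤ)) t) := by
  rw [weightedHomogeneousSubmodule_eq_finsupp_supported]
  have : Finite ({e : Fin 5 →₀ ℕ | Finsupp.weight (fun _ : Fin 5 => (1 : ℤ)) e = t}) := by
    rw [weight_set]
    split_ifs
    · infer_instance
    · exact Finset.finite_toSet _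
  exact Module.Finite.of_basis (basisRestrictSupport K _)

/- G4a: dimension of the forms of degree t (t ≥ -4: 24 dim = qq t; t < 0: dim = 0). -/
theorem finrank_forms {K : Type} [Field K] (t : ℤ) (ht : -4 ≤ t) :
    24 * (Module.finrank K (weightedHomogeneousSubmodule K (fun _ : Fin 5 => (1 : ℤ)) t) : ℤ) =
      qq t := by
  have h1 : Module.finrank K (weightedHomogeneousSubmodule K (fun _ : Fin 5 => (1 : ℤ)) t) =
      Nat.card ({e : Fin 5 →₀ ℕ | Finsupp.weight (fun _ : Fin 5 => (1 : ℤ)) e = t}) := by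
    rw [weightedHomogeneousSubmodule_eq_finsupp_supported]
    exact Module.finrank_eq_nat_card_basis (basisRestrictSupport K _)
  rw [h1, weight_set]
  split_ifs with h
  · rw [Nat.card_eq_zero.2 (Or.inl inferInstance)]
    have : t = -4 ∨ t = -3 ∨ t = -2 ∨ t = -1 := by omega
    rcases this with rfl | rfl | rfl | rfl <;> rfl
  · obtain ⟨n, rfl⟩ := Int.eq_ofNat_of_zero_le (not_lt.1 h)
    rw [Nat.card_coe_set_eq, Set.ncard_coe_finset, Finset.card_finsuppAntidiag_nat_eq_choose]
    rw [Finset.card_univ, Fintype.card_fin, Int.toNat_natCast]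
    have h2 : 5 + n - 1 = n + 4 := by omega
    rw [h2, show (n + 4).choose n = (n + 4).choose 4 from (Nat.choose_symm_add).symm ▸ rfl]
    have h3 : ((n + 4).choose 4 : ℤ) * 24 = (n + 1) * (n + 2) * (n + 3) * (n + 4) := by
      have h4 := Nat.descFactorial_eq_factorial_mul_choose (n + 4) 4
      have h5 : (n + 4).descFactorial 4 = (n + 1) * (n + 2) * (n + 3) * (n + 4) := by
        simp [Nat.descFactorial]
        ring
      rw [h5] at h4
      have h6 : Nat.factorial 4 = 24 := rfl
      rw [h6] at h4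
      have h7 : (((n + 1) * (n + 2) * (n + 3) * (n + 4) : ℕ) : ℤ) = ((24 * (n + 4).choose 4 : ℕ) : ℤ) := by
        rw [h4]
      push_cast at h7
      linarith
    rw [qq, mul_comm]
    exact h3

/-- the graded pieces of `S(a) ⊕ S(b)` -/
def splitEquiv (K : Type) [Field K] (a b n : ℤ) : splitGr K a b n ≃ₗ[K]
    (weightedHomogeneousSubmodule K (fun _ : Fin 5 => (1 : ℤ)) (n + a) ×
      weightedHomogeneousSubmodule K (fun _ : Fin 5 => (1 : ℤ)) (n + b)) where
  toFun v := (⟨v.1 0, v.2.1⟩, ⟨v.1 1, v.2.2⟩)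
  invFun w := ⟨![w.1.1, w.2.1], w.1.2, w.2.2⟩
  map_add' _ _ := rfl
  map_smul' _ _ := rfl
  left_inv v := by
    apply Subtype.ext
    funext i
    fin_cases i <;> rfl
  right_inv w := rfl

/- G4b -/
theorem finrank_split {K : Type} [Field K] (a b : ℤ) (n : ℤ) (ha : -4 ≤ n + a)
    (hb : -4 ≤ n + b) :
    24 * (Module.finrank K (splitGr K a b n) : ℤ) = qq (n + a) + qq (n + b) := by
  rw [(splitEquiv K a b n).finrank_eq, Module.finrank_prod]
  push_cast
  rw [mul_add, finrank_forms _ ha, finrank_forms _ hb]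

end Pool.Agent.Lib.MP_745d3a_ag.NB

end
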