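import Pool.Agent.Lib.MP_745d3a_ag.PB.Defs

/-!
From pointwise exactness to homotopies for powers of the variables.
-/

set_option autoImplicit false

noncomputable section

open MvPolynomial Matrix

namespace Pool.Agent.Lib.MP_745d3a_ag.NB

open Pool.Agent.Lib.MP_745d3a_ag.PB

variable {K : Type*} [Field K]

/-- an ideal without common zeros outside the origin contains powers of the variables -/
lemma exists_pow_mem [IsAlgClosed K] (I : Ideal (S K))
    (h : ∀ v : Fin 5 → K, v ≠ 0 → ∃ g ∈ I, eval v g ≠ 0) : ∃ N : ℕ, ∀ j, (X j : S K) ^ N ∈ I := by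
  have h1 : ∀ j, (X j : S K) ∈ I.radical := by
    intro j
    rw [← vanishingIdeal_zeroLocus_eq_radical (K := K) I]
    intro v hv
    by_cases h0 : v = 0
    · subst h0; simp
    · obtain ⟨g, hg, hg'⟩ := h v h0
      exact absurd (hv g hg) (by simpa using hg')
  choose n hn using h1
  refine ⟨∑ j, n j, fun j => ?_⟩
  exact Ideal.pow_mem_of_pow_mem I (hn j) (Finset.single_le_sum (fun _ _ => Nat.zero_le _) (Finset.mem_univ j))

section field

variable {m n : Type*} [Fintype m] [Fintype n] [DecidableEq m] [DecidableEq n]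

/-- an injective matrix has a left inverse -/
lemma exists_left_inv (A : Matrix m n K) (h : ∀ u, A *ᵥ u = 0 → u = 0) :
    ∃ L : Matrix n m K, L * A = 1 := by
  have hi : LinearMap.ker (Matrix.toLin' A) = ⊥ := by
    rw [LinearMap.ker_eq_bot']
    intro u hu
    exact h u (by simpa using hu)
  obtain ⟨g, hg⟩ := LinearMap.exists_leftInverse_of_injective _ hi
  refine ⟨LinearMap.toMatrix' g, ?_⟩
  have := congrArg LinearMap.toMatrix' hg
  rwa [LinearMap.toMatrix'_comp, LinearMap.toMatrix'_toLin', LinearMap.toMatrix'_id] at this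

/-- a surjective matrix has a right inverse -/
lemma exists_right_inv (A : Matrix m n K) (h : ∀ u, ∃ w, A *ᵥ w = u) :
    ∃ L : Matrix n m K, A * L = 1 := by
  have hi : LinearMap.range (Matrix.toLin' A) = ⊤ := by
    rw [LinearMap.range_eq_top]
    intro u
    obtain ⟨w, hw⟩ := h u
    exact ⟨w, by simpa using hw⟩
  obtain ⟨g, hg⟩ := LinearMap.exists_rightInverse_of_surjective _ hi
  refine ⟨LinearMap.toMatrix' g, ?_⟩
  have := congrArg LinearMap.toMatrix' hg
  rwa [LinearMap.toMatrix'_comp, LinearMap.toMatrix'_toLin', LinearMap.toMatrix'_id] at this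

end field

section

variable {α₃ α₂ α₁ α₀ : Type*} [Fintype α₃] [Fintype α₂] [Fintype α₁] [Fintype α₀]
  [DecidableEq α₃] [DecidableEq α₂] [DecidableEq α₀]

lemma eval_det {m : Type*} [Fintype m] [DecidableEq m] (v : Fin 5 → K) (M : Matrix m m (S K)) :
    eval v M.det = (ev v M).det := by
  rw [RingHom.map_det]
  rfl

/-- surjectivity at a point gives a right inverse up to a function not vanishing there -/
theorem pt_hR (v : Fin 5 → K) (C : Matrix α₀ α₁ (S K)) (surC : ∀ u, ∃ w, ev v C *ᵥ w = u) :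
    ∃ (g : S K) (R : Matrix α₁ α₀ (S K)), eval v g = 1 ∧
      C * R = g • (1 : Matrix α₀ α₀ (S K)) := by
  classical
  obtain ⟨R₀, hR₀⟩ := exists_right_inv (ev v C) surC
  refine ⟨(C * cst R₀).det, cst R₀ * (C * cst R₀).adjugate, ?_, ?_⟩
  · rw [eval_det, ev_mul, ev_cst, hR₀, Matrix.det_one]
  · rw [← Matrix.mul_assoc, Matrix.mul_adjugate]

/-- exactness at a point gives homotopies up to a function not vanishing there -/
theorem pt_hL (v : Fin 5 → K) (A : Matrix α₂ α₃ (S K)) (B : Matrix α₁ α₂ (S K))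
    (BA : B * A = 0) (injA : ∀ u, ev v A *ᵥ u = 0 → u = 0)
    (exB : ∀ u, ev v B *ᵥ u = 0 → ∃ w, ev v A *ᵥ w = u) :
    ∃ (g : S K) (L : Matrix α₂ α₁ (S K)) (L' : Matrix α₃ α₂ (S K)), eval v g = 1 ∧
      L * B + A * L' = g • (1 : Matrix α₂ α₂ (S K)) ∧
      L' * A = g • (1 : Matrix α₃ α₃ (S K)) := by
  classical
  obtain ⟨L₀, hL₀⟩ := exists_left_inv (ev v A) injA
  obtain ⟨G, hG⟩ := exists_left_inv (Matrix.fromRows (ev v B) L₀) (by
    intro u hu
    rw [Matrix.fromRows_mulVec] at hu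
    have hB : ev v B *ᵥ u = 0 := by
      ext i
      simpa using congrFun hu (Sum.inl i)
    have hL : L₀ *ᵥ u = 0 := by
      ext i
      simpa using congrFun hu (Sum.inr i)
    obtain ⟨w, hw⟩ := exB u hB
    have : w = 0 := by
      have h1 : L₀ *ᵥ (ev v A *ᵥ w) = 0 := by rw [hw, hL]
      rwa [Matrix.mulVec_mulVec, hL₀, Matrix.one_mulVec] at h1
    rw [← hw, this, Matrix.mulVec_zero])
  have hG' : G.toCols₁ * ev v B + G.toCols₂ * L₀ = 1 := by
    rw [← Matrix.fromCols_mul_fromRows, Matrix.fromCols_toCols, hG]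
  set P₀ : Matrix α₂ α₁ (S K) := cst G.toCols₁ with hP₀
  set Q₀ : Matrix α₂ α₃ (S K) := cst G.toCols₂ with hQ₀
  set M : Matrix α₂ α₂ (S K) := P₀ * B + Q₀ * cst L₀ with hM
  set T : Matrix α₃ α₃ (S K) := cst L₀ * A with hT
  have hMv : ev v M = 1 := by
    rw [hM, ev_add, ev_mul, ev_mul, hP₀, hQ₀, ev_cst, ev_cst, ev_cst, hG']
  have hTv : ev v T = 1 := by rw [hT, ev_mul, ev_cst, hL₀]
  have e1 : M.adjugate * P₀ * B + M.adjugate * Q₀ * cst L₀ = M.det • 1 := by
    rw [Matrix.mul_assoc, Matrix.mul_assoc, ← Matrix.mul_add, ← hM, Matrix.adjugate_mul]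
  have e2 : M.adjugate * Q₀ * T = M.det • A := by
    have := congrArg (fun Z => Z * A) e1
    simp only [Matrix.add_mul, Matrix.smul_mul, Matrix.one_mul] at this
    rw [Matrix.mul_assoc (M.adjugate * P₀) B A, BA, Matrix.mul_zero, zero_add,
      Matrix.mul_assoc (M.adjugate * Q₀)] at this
    exact this
  have e3 : T.det • (M.adjugate * Q₀) = M.det • (A * T.adjugate) := by
    have := congrArg (fun Z => Z * T.adjugate) e2
    rw [Matrix.mul_assoc, Matrix.mul_adjugate, Matrix.mul_smul, Matrix.mul_one,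
      Matrix.smul_mul] at this
    exact this
  refine ⟨M.det * T.det, T.det • (M.adjugate * P₀), M.det • (T.adjugate * cst L₀), ?_, ?_, ?_⟩
  · rw [map_mul, eval_det, eval_det, hMv, hTv]
    simp
  · have e4 : A * M.det • (T.adjugate * cst L₀) = T.det • (M.adjugate * Q₀ * cst L₀) := by
      rw [Matrix.mul_smul, ← Matrix.mul_assoc, ← Matrix.smul_mul, ← e3, Matrix.smul_mul]
    rw [e4, Matrix.smul_mul, ← smul_add, e1, smul_smul, mul_comm]
  · rw [Matrix.smul_mul, Matrix.mul_assoc, ← hT, Matrix.adjugate_mul, smul_smul]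

/-- surjectivity at all points gives right inverses up to powers of the variables -/
theorem exists_hR [IsAlgClosed K] (C : Matrix α₀ α₁ (S K))
    (surC : ∀ v : Fin 5 → K, v ≠ 0 → ∀ u, ∃ w, ev v C *ᵥ w = u) :
    ∃ N : ℕ, ∀ j, ∃ R : Matrix α₁ α₀ (S K), C * R = (X j ^ N : S K) • (1 : Matrix α₀ α₀ (S K)) := by
  let I : Ideal (S K) :=
    { carrier := {g | ∃ R : Matrix α₁ α₀ (S K), C * R = g • (1 : Matrix α₀ α₀ (S K))}
      add_mem' := by
        rintro a b ⟨R, hR⟩ ⟨R', hR'⟩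
        exact ⟨R + R', by rw [Matrix.mul_add, hR, hR', add_smul]⟩
      zero_mem' := ⟨0, by simp⟩
      smul_mem' := by
        rintro c a ⟨R, hR⟩
        exact ⟨c • R, by rw [Matrix.mul_smul, hR, smul_smul, smul_eq_mul]⟩ }
  obtain ⟨N, hN⟩ := exists_pow_mem I (fun v hv => by
    obtain ⟨g, R, hg, hR⟩ := pt_hR v C (surC v hv)
    exact ⟨g, ⟨R, hR⟩, by rw [hg]; exact one_ne_zero⟩)
  exact ⟨N, hN⟩

/-- exactness at all points gives homotopies up to powers of the variables -/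
theorem exists_hL [IsAlgClosed K] (A : Matrix α₂ α₃ (S K)) (B : Matrix α₁ α₂ (S K))
    (BA : B * A = 0)
    (injA : ∀ v : Fin 5 → K, v ≠ 0 → ∀ u, ev v A *ᵥ u = 0 → u = 0)
    (exB : ∀ v : Fin 5 → K, v ≠ 0 → ∀ u, ev v B *ᵥ u = 0 → ∃ w, ev v A *ᵥ w = u) :
    ∃ N : ℕ, ∀ j, ∃ (L : Matrix α₂ α₁ (S K)) (L' : Matrix α₃ α₂ (S K)),
      L * B + A * L' = (X j ^ N : S K) • (1 : Matrix α₂ α₂ (S K)) ∧
      L' * A = (X j ^ N : S K) • (1 : Matrix α₃ α₃ (S K)) := by
  let I : Ideal (S K) :=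
    { carrier := {g | ∃ (L : Matrix α₂ α₁ (S K)) (L' : Matrix α₃ α₂ (S K)),
        L * B + A * L' = g • (1 : Matrix α₂ α₂ (S K)) ∧
        L' * A = g • (1 : Matrix α₃ α₃ (S K))}
      add_mem' := by
        rintro a b ⟨L, L', h1, h2⟩ ⟨M, M', h3, h4⟩
        refine ⟨L + M, L' + M', ?_, ?_⟩
        · rw [Matrix.add_mul, Matrix.mul_add, add_smul, ← h1, ← h3]; abel
        · rw [Matrix.add_mul, add_smul, h2, h4]
      zero_mem' := ⟨0, 0, by simp, by simp⟩
      smul_mem' := by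
        rintro c a ⟨L, L', h1, h2⟩
        refine ⟨c • L, c • L', ?_, ?_⟩
        · rw [Matrix.smul_mul, Matrix.mul_smul, ← smul_add, h1, smul_smul, smul_eq_mul]
        · rw [Matrix.smul_mul, h2, smul_smul, smul_eq_mul] }
  obtain ⟨N, hN⟩ := exists_pow_mem I (fun v hv => by
    obtain ⟨g, L, L', hg, h1, h2⟩ := pt_hL v A B BA (injA v hv) (exB v hv)
    exact ⟨g, ⟨L, L', h1, h2⟩, by rw [hg]; exact one_ne_zero⟩)
  exact ⟨N, hN⟩

end

end Pool.Agent.Lib.MP_745d3a_ag.NB
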