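import Pool.Agent.Lib.MP_745d3a_ag.NB.G2
import Pool.Agent.Lib.MP_745d3a_ag.NB.G4ab
import Pool.Agent.Lib.MP_745d3a_ag.NB.Dep
import Pool.Agent.Lib.MP_745d3a_ag.NB.Hty

/-!
The Hilbert function in large degrees.
-/

set_option autoImplicit false

noncomputable section

open MvPolynomial Matrix

namespace Pool.Agent.Lib.MP_745d3a_ag.NB

open Pool.Agent.Lib.MP_745d3a_ag.PB

section pieces

variable {K : Type} [Field K] {α β : Type}

/-- the graded pieces of a free module -/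
def grEquiv (K : Type) [Field K] {α : Type} (d : α → ℤ) (t : ℤ) : gr K d t ≃ₗ[K]
    (∀ i, weightedHomogeneousSubmodule K (fun _ : Fin 5 => (1 : ℤ)) (t - d i)) where
  toFun v i := ⟨v.1 i, v.2 i⟩
  invFun w := ⟨fun i => (w i).1, fun i => (w i).2⟩
  map_add' _ _ := rfl
  map_smul' _ _ := rfl
  left_inv _ := rfl
  right_inv _ := rfl

instance finite_gr [Fintype α] (d : α → ℤ) (t : ℤ) : Module.Finite K (gr K d t) :=
  Module.Finite.equiv (grEquiv K d t).symm

lemma finrank_gr [Fintype α] (d : α → ℤ) (t : ℤ) (ht : ∀ i, -4 ≤ t - d i) :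
    24 * (Module.finrank K (gr K d t) : ℤ) = ∑ i, qq (t - d i) := by
  rw [(grEquiv K d t).finrank_eq, Module.finrank_pi_fintype]
  push_cast
  rw [Finset.mul_sum]
  exact Finset.sum_congr rfl fun i _ => finrank_forms _ (ht i)

lemma mulVec_mem_gr [Fintype β] {d : α → ℤ} {e : β → ℤ} {B : Matrix α β (S K)} (hB : HMat d e B)
    {t : ℤ} {u : β → S K} (hu : u ∈ gr K e t) : B *ᵥ u ∈ gr K d t := by
  rw [← cv_same hu, ← cv_mulVec hB]
  exact cv_mem _ _ _

/-- a homogeneous matrix on the pieces of degree `t` -/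
def mg [Fintype β] {d : α → ℤ} {e : β → ℤ} {B : Matrix α β (S K)} (hB : HMat d e B) (t : ℤ) :
    gr K e t →ₗ[K] gr K d t :=
  ((B.mulVecLin.restrictScalars K).comp (gr K e t).subtype).codRestrict (gr K d t)
    (fun u => mulVec_mem_gr hB u.2)

lemma mg_coe [Fintype β] {d : α → ℤ} {e : β → ℤ} {B : Matrix α β (S K)} (hB : HMat d e B) (t : ℤ)
    (u : gr K e t) : (mg hB t u : α → S K) = B *ᵥ (u : β → S K) := rfl

lemma form_mem_idl {N : ℕ} {t : ℤ} (ht : 5 * (N : ℤ) ≤ t) {g : S K} (hg : Form t g) :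
    g ∈ idl K N Finset.univ := by
  rw [Aa1_mem]
  intro s hs
  by_contra hcon
  push Not at hcon
  have h1 := hg (mem_support_iff.mp hs)
  rw [weight_eq_degree, Finsupp.degree_eq_sum, Fin.sum_univ_five] at h1
  have := hcon 0 (Finset.mem_univ _)
  have := hcon 1 (Finset.mem_univ _)
  have := hcon 2 (Finset.mem_univ _)
  have := hcon 3 (Finset.mem_univ _)
  have := hcon 4 (Finset.mem_univ _)
  omega

/-- surjectivity in large degrees -/
lemma surj_large [Fintype α] [Fintype β] [DecidableEq α] {d : α → ℤ} {e : β → ℤ}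
    {C : Matrix α β (S K)} (hC : HMat d e C) {N : ℕ} (R : Fin 5 → Matrix β α (S K))
    (hR : ∀ j, C * R j = (X j ^ N : S K) • (1 : Matrix α α (S K))) {t : ℤ}
    (ht : ∀ i, 5 * (N : ℤ) ≤ t - d i) : Function.Surjective (mg hC t) := by
  intro w
  have h1 : ∀ i, ∃ c : Fin 5 → S K, ∑ j, c j * X j ^ N = (w : α → S K) i := by
    intro i
    have h2 := form_mem_idl (ht i) (w.2 i)
    unfold idl at h2
    rw [Finset.coe_univ, Set.image_univ] at h2
    exact (Ideal.mem_span_range_iff_exists_fun).mp h2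
  choose c hc using h1
  have h3 : (w : α → S K) = C *ᵥ (∑ j, R j *ᵥ (fun i => c i j)) := by
    rw [Matrix.mulVec_sum]
    have h4 : ∀ j, C *ᵥ (R j *ᵥ (fun i => c i j)) = (X j ^ N : S K) • (fun i => c i j) := by
      intro j
      rw [Matrix.mulVec_mulVec, hR, Matrix.smul_mulVec, Matrix.one_mulVec]
    simp only [h4]
    funext i
    rw [← hc i, Finset.sum_apply]
    exact Finset.sum_congr rfl fun j _ => mul_comm _ _
  refine ⟨⟨cv K e t (∑ j, R j *ᵥ (fun i => c i j)), cv_mem _ _ _⟩, ?_⟩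
  apply Subtype.ext
  rw [mg_coe]
  change C *ᵥ cv K e t (∑ j, R j *ᵥ (fun i => c i j)) = _
  rw [← cv_mulVec hC, ← h3, cv_same w.2]

lemma rank_quot {V M : Type} [AddCommGroup V] [Module K V] [Module.Finite K V] [AddCommGroup M]
    [Module (S K) M] [Module K M] [IsScalarTower K (S K) M] (P : Submodule (S K) M)
    (f : V →ₗ[K] M ⧸ P) : Module.finrank K (LinearMap.range f) +
      Module.finrank K (LinearMap.ker f) = Module.finrank K V :=
  LinearMap.finrank_range_add_finrank_ker f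

end pieces

namespace Mnd

variable {K : Type} [Field K] {α₃ α₂ α₁ α₀ : Type} [Fintype α₃] [Fintype α₂]
  [Fintype α₁] [Fintype α₀] (W : Mnd K α₃ α₂ α₁ α₀)

/-- a cycle of degree `t` as a cycle -/
def toCyc (t : ℤ) : LinearMap.ker (mg W.hC t) →ₗ[K] W.cyc where
  toFun u := ⟨((u : gr K W.d₁ t) : α₁ → S K), by
    have h := u.2
    rw [LinearMap.mem_ker] at h
    exact congrArg Subtype.val h⟩
  map_add' _ _ := rfl
  map_smul' _ _ := rfl

/-- the class of a cycle of degree `t` -/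
def clg (t : ℤ) : LinearMap.ker (mg W.hC t) →ₗ[K] W.Md :=
  (W.cl.restrictScalars K).comp (W.toCyc t)

lemma range_clg (t : ℤ) : LinearMap.range (W.clg t) = W.deg t := by
  ext m
  constructor
  · rintro ⟨u, rfl⟩
    exact ⟨W.toCyc t u, u.1.2, rfl⟩
  · rintro ⟨u, hu, rfl⟩
    refine ⟨⟨⟨u, hu⟩, ?_⟩, rfl⟩
    rw [LinearMap.mem_ker]
    exact Subtype.ext u.2

lemma rank_md {V V' : Type} [AddCommGroup V] [Module K V] [AddCommGroup V'] [Module K V']
    [Module.Finite K V] (g : V →ₗ[K] V') (f : LinearMap.ker g →ₗ[K] W.Md) :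
    Module.finrank K (LinearMap.range f) + Module.finrank K (LinearMap.ker f) =
      Module.finrank K (LinearMap.ker g) :=
  rank_quot (M := W.cyc) (W.bdy.comap W.cyc.subtype) f

lemma rank_clg (t : ℤ) : Module.finrank K (W.deg t) + Module.finrank K (LinearMap.ker (W.clg t)) =
    Module.finrank K (LinearMap.ker (mg W.hC t)) := by
  rw [← range_clg]
  exact W.rank_md (mg W.hC t) (W.clg t)

theorem hilb [IsAlgClosed K] : ∃ n₀ : ℤ, ∀ n, n₀ ≤ n → 24 * (Module.finrank K (W.deg n) : ℤ) =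
    ∑ i, qq (n - W.d₁ i) - ∑ i, qq (n - W.d₀ i) - ∑ i, qq (n - W.d₂ i) + ∑ i, qq (n - W.d₃ i) := by
  classical
  obtain ⟨N, hN⟩ := exists_hR W.C W.surC
  choose R hR using hN
  obtain ⟨N', hN'⟩ := exists_hL W.A W.B W.BA W.injA W.exB
  choose L L' hL hL' using hN'
  have P : Pre N' W.A W.B L L' := ⟨W.BA, hL, hL'⟩
  refine ⟨(∑ i, |W.d₀ i| + ∑ i, |W.d₁ i| + ∑ i, |W.d₂ i| + ∑ i, |W.d₃ i|) + 5 * N, fun n hn => ?_⟩
  have b0 : ∀ i, W.d₀ i ≤ ∑ i, |W.d₀ i| := fun i =>
    (le_abs_self _).trans (Finset.single_le_sum (f := fun i => |W.d₀ i|) (fun _ _ => abs_nonneg _) (Finset.mem_univ i))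
  have b1 : ∀ i, W.d₁ i ≤ ∑ i, |W.d₁ i| := fun i =>
    (le_abs_self _).trans (Finset.single_le_sum (f := fun i => |W.d₁ i|) (fun _ _ => abs_nonneg _) (Finset.mem_univ i))
  have b2 : ∀ i, W.d₂ i ≤ ∑ i, |W.d₂ i| := fun i =>
    (le_abs_self _).trans (Finset.single_le_sum (f := fun i => |W.d₂ i|) (fun _ _ => abs_nonneg _) (Finset.mem_univ i))
  have b3 : ∀ i, W.d₃ i ≤ ∑ i, |W.d₃ i| := fun i =>
    (le_abs_self _).trans (Finset.single_le_sum (f := fun i => |W.d₃ i|) (fun _ _ => abs_nonneg _) (Finset.mem_univ i))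
  have p0 : 0 ≤ ∑ i, |W.d₀ i| := Finset.sum_nonneg fun _ _ => abs_nonneg _
  have p1 : 0 ≤ ∑ i, |W.d₁ i| := Finset.sum_nonneg fun _ _ => abs_nonneg _
  have p2 : 0 ≤ ∑ i, |W.d₂ i| := Finset.sum_nonneg fun _ _ => abs_nonneg _
  have p3 : 0 ≤ ∑ i, |W.d₃ i| := Finset.sum_nonneg fun _ _ => abs_nonneg _
  have f0 := finrank_gr (K := K) W.d₀ n (fun i => by have := b0 i; omega)
  have f1 := finrank_gr (K := K) W.d₁ n (fun i => by have := b1 i; omega)
  have f2 := finrank_gr (K := K) W.d₂ n (fun i => by have := b2 i; omega)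
  have f3 := finrank_gr (K := K) W.d₃ n (fun i => by have := b3 i; omega)
  -- the last map
  have hs := surj_large W.hC R hR (t := n) (fun i => by have := b0 i; omega)
  have e1 := LinearMap.finrank_range_add_finrank_ker (mg W.hC n)
  rw [LinearMap.range_eq_top.mpr hs, finrank_top] at e1
  -- the homology
  have e2 := W.rank_clg n
  -- boundaries
  have e3 := LinearMap.finrank_range_add_finrank_ker (mg W.hB n)
  have hBA : ∀ x : α₃ → S K, W.B *ᵥ (W.A *ᵥ x) = 0 := P.hBA
  have hCB : ∀ x : α₂ → S K, W.C *ᵥ (W.B *ᵥ x) = 0 := fun x => by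
    rw [Matrix.mulVec_mulVec, W.CB, Matrix.zero_mulVec]
  have e4 : LinearMap.ker (mg W.hB n) = LinearMap.range (mg W.hA n) := by
    ext u
    constructor
    · intro hu
      rw [LinearMap.mem_ker] at hu
      have hu' : W.B *ᵥ (u : α₂ → S K) = 0 := congrArg Subtype.val hu
      obtain ⟨s, hs⟩ := P.ex (A₀ := ∅) (i := 0) (j := 1) (by simp) (by simp) (by decide)
        (x := (u : α₂ → S K)) (by rw [hu']; exact mo_zero)
      have hs' := sub_eq_zero.mp (mo_empty hs)
      refine ⟨⟨cv K W.d₃ n s, cv_mem _ _ _⟩, Subtype.ext ?_⟩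
      rw [mg_coe]
      change W.A *ᵥ cv K W.d₃ n s = _
      rw [← cv_mulVec W.hA, ← hs', cv_same u.2]
    · rintro ⟨x, rfl⟩
      rw [LinearMap.mem_ker]
      exact Subtype.ext (hBA _)
  have e5 : Module.finrank K (LinearMap.range (mg W.hA n)) = Module.finrank K (gr K W.d₃ n) := by
    apply LinearMap.finrank_range_of_inj
    rw [← LinearMap.ker_eq_bot, LinearMap.ker_eq_bot']
    intro x hx
    have hx' : W.A *ᵥ (x : α₃ → S K) = 0 := congrArg Subtype.val hx
    have := P.inj (A₀ := ∅) (j := 0) (by simp) (x := (x : α₃ → S K)) (by rw [hx']; exact mo_zero)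
    exact Subtype.ext (mo_empty this)
  have e6 : Module.finrank K (LinearMap.ker (W.clg n)) =
      Module.finrank K (LinearMap.range (mg W.hB n)) := by
    have hle : LinearMap.range (mg W.hB n) ≤ LinearMap.ker (mg W.hC n) := by
      rintro _ ⟨x, rfl⟩
      rw [LinearMap.mem_ker]
      exact Subtype.ext (hCB _)
    have hk : LinearMap.ker (W.clg n) =
        (LinearMap.range (mg W.hB n)).comap (LinearMap.ker (mg W.hC n)).subtype := by
      ext u
      rw [LinearMap.mem_ker, Submodule.mem_comap]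
      have h1 : W.clg n u = 0 ↔ ((u : gr K W.d₁ n) : α₁ → S K) ∈ W.bdy := W.cl_eq_zero
      rw [h1]
      constructor
      · intro h2
        obtain ⟨y, hy⟩ := h2
        refine ⟨⟨cv K W.d₂ n y, cv_mem _ _ _⟩, Subtype.ext ?_⟩
        rw [mg_coe]
        change W.B *ᵥ cv K W.d₂ n y = _
        rw [← cv_mulVec W.hB]
        have hy' : W.B *ᵥ y = ((u : gr K W.d₁ n) : α₁ → S K) := hy
        rw [hy', cv_same (u : gr K W.d₁ n).2]
        rfl
      · rintro ⟨x, hx⟩
        refine ⟨x, ?_⟩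
        have := congrArg Subtype.val hx
        exact this
    rw [hk]
    exact LinearEquiv.finrank_eq (Submodule.comapSubtypeEquivOfLe hle)
  rw [e4, e5] at e3
  rw [e6] at e2
  have e1' := congrArg (Nat.cast : ℕ → ℤ) e1
  have e2' := congrArg (Nat.cast : ℕ → ℤ) e2
  have e3' := congrArg (Nat.cast : ℕ → ℤ) e3
  push_cast at e1' e2' e3'
  linarith

end Mnd

end Pool.Agent.Lib.MP_745d3a_ag.NB

end
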