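import Pool.Agent.Lib.MP_745d3a_ag.NB.State
import Pool.Agent.Lib.MP_745d3a_ag.PFAlg
import Pool.Agent.Lib.MP_745d3a_ag.NB.Defs

/-!
Decomposable reflexive modules of rank two are free.
-/

set_option autoImplicit false

noncomputable section

open MvPolynomial Matrix

namespace Pool.Agent.Lib.MP_745d3a_ag.NB

open Pool.Agent.Lib.MP_745d3a_ag.PB

section G5

variable {R M : Type*} [CommRing R] [IsDomain R] [AddCommGroup M] [Module R M]

lemma g5_tf [Module.IsReflexive R M] (a : R) (m : M) (h : a • m = 0) : a = 0 ∨ m = 0 := by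
  by_cases ha : a = 0
  · exact Or.inl ha
  · right
    apply (Module.bijective_dual_eval R M).1
    rw [map_zero]
    refine LinearMap.ext fun φ => ?_
    have : a * φ m = 0 := by rw [← smul_eq_mul, ← map_smul, h, map_zero]
    simpa using (mul_eq_zero.mp this).resolve_left ha

lemma g5_ht [UniqueFactorizationMonoid R] [Module.IsReflexive R M] (a b : R) (hab : IsRelPrime a b)
    (m n : M) (h : a • m = b • n) : ∃ k, m = b • k := by
  by_cases hb : b = 0
  · subst hb
    obtain ⟨w, rfl⟩ := isRelPrime_zero_right.1 hab
    refine ⟨0, ?_⟩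
    rw [zero_smul] at h
    have h5 : ((w⁻¹ : Rˣ) : R) • ((w : R) • m) = 0 := by rw [h, smul_zero]
    rw [smul_smul, ← Units.val_mul, inv_mul_cancel, Units.val_one, one_smul] at h5
    rw [h5, zero_smul]
  · have hdiv : ∀ φ : Module.Dual R M, ∃ c, φ m = b * c := by
      intro φ
      have h1 : a * φ m = b * φ n := by
        rw [← smul_eq_mul, ← map_smul, h, map_smul, smul_eq_mul]
      have h2 : b ∣ a * φ m := ⟨φ n, h1⟩
      exact hab.symm.dvd_of_dvd_mul_left h2
    choose c hc using hdiv
    let Ψ : Module.Dual R (Module.Dual R M) :=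
      { toFun := c
        map_add' := by
          intro φ ψ
          apply mul_left_cancel₀ hb
          rw [mul_add, ← hc, ← hc, ← hc, LinearMap.add_apply]
        map_smul' := by
          intro r φ
          apply mul_left_cancel₀ hb
          rw [← hc, RingHom.id_apply, LinearMap.smul_apply, hc φ, smul_eq_mul, smul_eq_mul]
          ring }
    obtain ⟨k, hk⟩ := (Module.bijective_dual_eval R M).2 Ψ
    refine ⟨k, ?_⟩
    apply (Module.bijective_dual_eval R M).1
    refine LinearMap.ext fun φ => ?_
    have h1 : φ k = c φ := DFunLike.congr_fun hk φ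
    rw [map_smul, LinearMap.smul_apply, Module.Dual.eval_apply, Module.Dual.eval_apply, h1, hc φ,
      smul_eq_mul]

/-- A nonzero direct summand with a nonzero complement of a module of rank two is free. -/
lemma g5_summand [UniqueFactorizationMonoid R] [IsNoetherianRing R] [Module.Finite R M]
    [Module.IsReflexive R M] (hr : Module.finrank R M = 2) {N₁ N₂ : Submodule R M}
    (hc : IsCompl N₁ N₂) (h1 : N₁ ≠ ⊥) (h2 : N₂ ≠ ⊥) : Module.Free R N₁ := by
  classical
  obtain ⟨w, hw, hw0⟩ := Submodule.exists_mem_ne_zero_of_ne_bot h2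
  have hdisj : ∀ x : M, x ∈ N₁ → x ∈ N₂ → x = 0 := fun x hx hx' =>
    Submodule.disjoint_def.1 hc.disjoint x hx hx'
  have hfin : Module.Finite R N₁ := inferInstance
  have hcyc := PF.cyclic (S := R) (V := N₁)
    (fun a m h => by
      have h' : a • (m : M) = 0 := by
        have := congrArg Subtype.val h
        simpa using this
      rcases g5_tf a (m : M) h' with h3 | h3
      · exact Or.inl h3
      · exact Or.inr (Subtype.ext h3))
    (fun a b hab m n h => by
      have h' : a • (m : M) = b • (n : M) := by
        have := congrArg Subtype.val h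
        simpa using this
      obtain ⟨k, hk⟩ := g5_ht a b hab (m : M) (n : M) h'
      obtain ⟨k1, hk1, k2, hk2, hk12⟩ := Submodule.mem_sup.1
        (show k ∈ N₁ ⊔ N₂ by rw [hc.sup_eq_top]; trivial)
      refine ⟨⟨k1, hk1⟩, Subtype.ext ?_⟩
      change (m : M) = b • k1
      have h3 : (m : M) - b • k1 = b • k2 := by
        rw [hk, ← hk12, smul_add, add_sub_cancel_left]
      have h4 : (m : M) - b • k1 = 0 := hdisj _
        (N₁.sub_mem m.2 (N₁.smul_mem b hk1)) (by rw [h3]; exact N₂.smul_mem b hk2)
      exact sub_eq_zero.1 h4)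
    (fun u v => by
      let l : Fin 3 → M := ![(u : M), (v : M), w]
      have hnl : ¬ LinearIndependent R l := by
        intro hli
        have := hli.fintype_card_le_finrank
        rw [hr] at this
        simp at this
      obtain ⟨c, hc', i, hi⟩ := Fintype.not_linearIndependent_iff.1 hnl
      rw [Fin.sum_univ_three] at hc'
      have hc2 : c 0 • (u : M) + c 1 • (v : M) + c 2 • w = 0 := by simpa [l] using hc'
      have h3 : c 2 • w = 0 := by
        refine hdisj _ ?_ (N₂.smul_mem _ hw)
        have : c 2 • w = -(c 0 • (u : M) + c 1 • (v : M)) := by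
          rw [eq_neg_iff_add_eq_zero, add_comm]
          exact hc2
        rw [this]
        exact N₁.neg_mem (N₁.add_mem (N₁.smul_mem _ u.2) (N₁.smul_mem _ v.2))
      have h4 : c 2 = 0 := (g5_tf _ _ h3).resolve_right hw0
      rw [h3, add_zero] at hc2
      refine ⟨c 0, -c 1, ?_, Subtype.ext ?_⟩
      · by_contra hcon
        push Not at hcon
        have h5 : c 1 = 0 := by simpa using hcon.2
        apply hi
        fin_cases i <;> simp [hcon.1, h5, h4]
      · change c 0 • (u : M) = (-c 1) • (v : M)
        rw [neg_smul, eq_neg_iff_add_eq_zero]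
        exact hc2)
  obtain ⟨e, he⟩ := hcyc
  have he0 : e ≠ 0 := by
    rintro rfl
    apply h1
    rw [eq_bot_iff]
    intro x hx
    obtain ⟨c, hc'⟩ := he ⟨x, hx⟩
    rw [smul_zero] at hc'
    exact congrArg Subtype.val hc'
  refine Module.Free.of_equiv (LinearEquiv.ofBijective (LinearMap.toSpanSingleton R N₁ e) ⟨?_, ?_⟩)
  · rw [injective_iff_map_eq_zero]
    intro a ha
    rw [LinearMap.toSpanSingleton_apply] at ha
    have ha' : a • (e : M) = 0 := by
      have := congrArg Subtype.val ha
      simpa using this
    rcases g5_tf a (e : M) ha' with h3 | h3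
    · exact h3
    · exact absurd (Subtype.ext h3) he0
  · intro m
    obtain ⟨c, hc'⟩ := he m
    exact ⟨c, by rw [LinearMap.toSpanSingleton_apply, ← hc']⟩

end G5

theorem indecomposable_of_not_free {K : Type} [Field K] {M : Type} [AddCommGroup M] [Module K M]
    [Module (S K) M] [IsScalarTower K (S K) M] {𝓜 : ℤ → Submodule K M} (h : IsRankTwoBundle 𝓜)
    (hf : ¬ Module.Free (S K) M) : Indecomposable K M := by
  intro N₁ N₂ hc
  by_contra hcon
  push Not at hcon
  have := h.finite
  have := h.reflexive
  have := g5_summand (R := S K) h.rank hc hcon.1 hcon.2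
  have := g5_summand (R := S K) h.rank hc.symm hcon.2 hcon.1
  exact hf (Module.Free.of_equiv (Submodule.prodEquivOfIsCompl N₁ N₂ hc))

end Pool.Agent.Lib.MP_745d3a_ag.NB

end
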