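import Pool.Agent.Lib.MP_745d3a_ag.NB.State
import Pool.Agent.Lib.MP_745d3a_ag.NB.Defs

/-!
Isomorphisms in large degrees preserve dimensions.
-/

set_option autoImplicit false

noncomputable section

open MvPolynomial Matrix

namespace Pool.Agent.Lib.MP_745d3a_ag.NB

open Pool.Agent.Lib.MP_745d3a_ag.PB

/- G6: for n ≥ t the isomorphism e restricts to a K-linear bijection 𝓜 n ≃ 𝓝 (n + k)
(𝓜 n ≤ upper 𝓜 t, 𝓝 (n + k) ≤ upper 𝓝 (t + k)). -/
theorem SheafIso.finrank_eq {K M N : Type} [Field K] [AddCommGroup M] [Module K M]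
    [Module (S K) M] [IsScalarTower K (S K) M] [AddCommGroup N] [Module K N] [Module (S K) N]
    [IsScalarTower K (S K) N] {𝓜 : ℤ → Submodule K M} {𝓝 : ℤ → Submodule K N} {k : ℤ}
    (h : SheafIso 𝓜 𝓝 k) : ∃ n₀ : ℤ, ∀ n, n₀ ≤ n →
      Module.finrank K (𝓜 n) = Module.finrank K (𝓝 (n + k)) := by
  obtain ⟨t, e, he⟩ := h
  refine ⟨t, fun n hn => ?_⟩
  have hM : ∀ m : 𝓜 n, (m : M) ∈ upper 𝓜 t := fun m =>
    Submodule.subset_span ⟨n, hn, m.2⟩
  have hN : ∀ m : 𝓝 (n + k), (m : N) ∈ upper 𝓝 (t + k) := fun m =>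
    Submodule.subset_span ⟨n + k, by omega, m.2⟩
  have hsm : ∀ (c : K) (m : 𝓜 n), (e ⟨((c • m : 𝓜 n) : M), hM (c • m)⟩ : N) =
      c • (e ⟨(m : M), hM m⟩ : N) := by
    intro c m
    have h1 : (⟨((c • m : 𝓜 n) : M), hM (c • m)⟩ : upper 𝓜 t) =
        (algebraMap K (S K) c) • (⟨(m : M), hM m⟩ : upper 𝓜 t) := by
      apply Subtype.ext
      change c • (m : M) = (algebraMap K (S K) c) • (m : M)
      rw [algebraMap_smul]
    rw [h1, map_smul]
    change (algebraMap K (S K) c) • (e ⟨(m : M), hM m⟩ : N) = _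
    rw [algebraMap_smul]
  let φ : 𝓜 n →ₗ[K] 𝓝 (n + k) :=
    { toFun := fun m => ⟨(e ⟨(m : M), hM m⟩ : N), (he n hn ⟨(m : M), hM m⟩).1 m.2⟩
      map_add' := fun a b => by
        apply Subtype.ext
        change (e ⟨((a + b : 𝓜 n) : M), hM (a + b)⟩ : N) =
          (e ⟨(a : M), hM a⟩ : N) + (e ⟨(b : M), hM b⟩ : N)
        have h1 : (⟨((a + b : 𝓜 n) : M), hM (a + b)⟩ : upper 𝓜 t) =
            (⟨(a : M), hM a⟩ : upper 𝓜 t) + ⟨(b : M), hM b⟩ := Subtype.ext rfl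
        rw [h1, map_add]
        rfl
      map_smul' := fun c m => by
        apply Subtype.ext
        exact hsm c m }
  have hφ : Function.Bijective φ := by
    constructor
    · intro a b hab
      have h1 : (e ⟨(a : M), hM a⟩ : N) = (e ⟨(b : M), hM b⟩ : N) :=
        congrArg (fun z : 𝓝 (n + k) => (z : N)) hab
      have h2 := e.injective (Subtype.ext h1)
      exact Subtype.ext (congrArg (fun z : upper 𝓜 t => (z : M)) h2)
    · intro y
      have h1 : ((e.symm ⟨(y : N), hN y⟩ : upper 𝓜 t) : M) ∈ 𝓜 n := by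
        rw [he n hn, e.apply_symm_apply]
        exact y.2
      refine ⟨⟨_, h1⟩, Subtype.ext ?_⟩
      change (e ⟨((e.symm ⟨(y : N), hN y⟩ : upper 𝓜 t) : M), _⟩ : N) = y
      have h2 : (⟨((e.symm ⟨(y : N), hN y⟩ : upper 𝓜 t) : M), hM ⟨_, h1⟩⟩ : upper 𝓜 t) =
          e.symm ⟨(y : N), hN y⟩ := Subtype.ext rfl
      rw [h2, e.apply_symm_apply]
  exact (LinearEquiv.ofBijective φ hφ).finrank_eq

end Pool.Agent.Lib.MP_745d3a_ag.NB

end
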