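import Pool.Agent.Lib.MP_745d3a_ag.NB.State
import Pool.Agent.Lib.MP_745d3a_ag.NB.Defs

/-!
Comparison of Hilbert polynomials.
-/

set_option autoImplicit false

noncomputable section

open MvPolynomial Matrix

namespace Pool.Agent.Lib.MP_745d3a_ag.NB

open Pool.Agent.Lib.MP_745d3a_ag.PB

/-- the leading coefficients of a cubic polynomial vanishing for all large arguments are zero -/
theorem cubic_zero {A B C E N : ℤ} (h : ∀ n, N ≤ n → A * n ^ 3 + B * n ^ 2 + C * n + E = 0) :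
    A = 0 ∧ B = 0 := by
  have h0 := h N le_rfl
  have h1 := h (N + 1) (by omega)
  have h2 := h (N + 2) (by omega)
  have h3 := h (N + 3) (by omega)
  have hA : 6 * A = 0 := by linear_combination h3 - 3 * h2 + 3 * h1 - h0
  have hA' : A = 0 := by omega
  subst hA'
  have hB : 2 * B = 0 := by linear_combination h2 - 2 * h1 + h0
  exact ⟨rfl, by omega⟩

/- G7: HasChern determines c1 and c2: compare the coefficients of n^3 and n^2 of two polynomials
which agree for all large n. With the shift by k: (c1, c2) becomes (c1 + 2 k, c2 + k c1 + k^2). -/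
theorem HasChern.unique {K M N : Type} [Field K] [AddCommGroup M] [Module K M]
    [AddCommGroup N] [Module K N] {𝓜 : ℤ → Submodule K M} {𝓝 : ℤ → Submodule K N}
    {c1 c2 c1' c2' k : ℤ} (h : HasChern 𝓜 c1 c2) (h' : HasChern 𝓝 c1' c2')
    (hd : ∃ n₀ : ℤ, ∀ n, n₀ ≤ n → Module.finrank K (𝓜 n) = Module.finrank K (𝓝 (n + k))) :
    c1 = c1' + 2 * k ∧ c2 = c2' + k * c1' + k ^ 2 := by
  obtain ⟨n₁, h⟩ := h
  obtain ⟨n₂, h'⟩ := h'
  obtain ⟨n₀, hd⟩ := hd
  have key := cubic_zero (A := 4 * (c1 - c1' - 2 * k))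
    (B := 6 * (c1 ^ 2 - 2 * c2) + 30 * c1 + 70 - (12 * k ^ 2 + 3 * k * (4 * c1' + 20) +
      (6 * (c1' ^ 2 - 2 * c2') + 30 * c1' + 70)))
    (C := (4 * (c1 ^ 3 - 3 * c1 * c2) + 30 * (c1 ^ 2 - 2 * c2) + 70 * c1 + 100) -
      (8 * k ^ 3 + 3 * k ^ 2 * (4 * c1' + 20) +
        2 * k * (6 * (c1' ^ 2 - 2 * c2') + 30 * c1' + 70) +
        (4 * (c1' ^ 3 - 3 * c1' * c2') + 30 * (c1' ^ 2 - 2 * c2') + 70 * c1' + 100)))
    (E := ((c1 ^ 4 - 4 * c1 ^ 2 * c2 + 2 * c2 ^ 2) + 10 * (c1 ^ 3 - 3 * c1 * c2) +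
      35 * (c1 ^ 2 - 2 * c2) + 50 * c1 + 48) -
      (2 * k ^ 4 + (4 * c1' + 20) * k ^ 3 + (6 * (c1' ^ 2 - 2 * c2') + 30 * c1' + 70) * k ^ 2 +
        (4 * (c1' ^ 3 - 3 * c1' * c2') + 30 * (c1' ^ 2 - 2 * c2') + 70 * c1' + 100) * k +
        ((c1' ^ 4 - 4 * c1' ^ 2 * c2' + 2 * c2' ^ 2) + 10 * (c1' ^ 3 - 3 * c1' * c2') +
      35 * (c1' ^ 2 - 2 * c2') + 50 * c1' + 48)))
    (N := max n₀ (max n₁ (n₂ - k))) ?_
  · obtain ⟨hA, hB⟩ := key
    have h1 : c1 = c1' + 2 * k := by omega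
    subst h1
    refine ⟨rfl, ?_⟩
    have h2 : 12 * (c2 - (c2' + k * c1' + k ^ 2)) = 0 := by linear_combination -hB
    omega
  · intro n hn
    have e1 := h n (by omega)
    have e2 := h' (n + k) (by omega)
    have e3 : (Module.finrank K (𝓜 n) : ℤ) = Module.finrank K (𝓝 (n + k)) := by
      rw [hd n (by omega)]
    linear_combination e2 - e1 + 24 * e3

/- not of Horrocks-Mumford type -/
theorem no_hm (d : ℕ) (hd : 0 < d) (k : ℤ) (h1 : 0 = (d : ℤ) + 2 * k)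
    (h2 : 32 = 4 * (d : ℤ) ^ 2 + k * d + k ^ 2) : False := by
  have h3 : (d : ℤ) = -2 * k := by linarith
  rw [h3] at h2
  have h4 : 15 * k ^ 2 = 32 := by linear_combination -h2
  omega

/- not split: the Hilbert polynomial of S(a) ⊕ S(b) is the one with c1 = a + b, c2 = a b -/
theorem no_split {K M : Type} [Field K] [AddCommGroup M] [Module K M] {𝓜 : ℤ → Submodule K M}
    (h : HasChern 𝓜 0 32) (a b : ℤ) (n₀ : ℤ) (hs : ∀ n, n₀ ≤ n →
      24 * (Module.finrank K (𝓜 n) : ℤ) = qq (n + a) + qq (n + b)) : False := by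
  obtain ⟨n₁, h⟩ := h
  have key := cubic_zero (A := -4 * (a + b))
    (B := -384 - (6 * a ^ 2 + 30 * a) - (6 * b ^ 2 + 30 * b))
    (C := -1920 - (4 * a ^ 3 + 30 * a ^ 2 + 70 * a) - (4 * b ^ 3 + 30 * b ^ 2 + 70 * b))
    (E := -192 - (a ^ 4 + 10 * a ^ 3 + 35 * a ^ 2 + 50 * a) -
      (b ^ 4 + 10 * b ^ 3 + 35 * b ^ 2 + 50 * b)) (N := max n₀ n₁) ?_
  · obtain ⟨hA, hB⟩ := key
    have hb : b = -a := by omega
    subst hb
    nlinarith [sq_nonneg a]
  · intro n hn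
    have e1 := h n (by omega)
    have e2 := hs n (by omega)
    simp only [qq] at e2
    linear_combination e2 - e1

end Pool.Agent.Lib.MP_745d3a_ag.NB

end
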