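import Pool.Agent.Lib.MP_745d3a_ag.NB.State
import Pool.Agent.Lib.MP_745d3a_ag.NB.Defs
import Pool.Agent.Lib.MP_745d3a_ag.NB.Hty
import Pool.Agent.Lib.MP_745d3a_ag.NB.ExtE

/-!
The number of generators of `Ext 2 M S` is an invariant of the sheaf.
-/

set_option autoImplicit false

noncomputable section

open MvPolynomial Matrix

namespace Pool.Agent.Lib.MP_745d3a_ag.NB

open Pool.Agent.Lib.MP_745d3a_ag.PB

section

variable {K : Type} [Field K]

/-- the inclusion of the part of large degree -/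
lemma upper_TI {M : Type} [AddCommGroup M] [Module K M] [Module (S K) M]
    {𝓜 : ℤ → Submodule K M}
    (hs : ∃ s : Finset M, Submodule.span (S K) (s : Set M) = ⊤ ∧ ∀ m ∈ s, ∃ n, m ∈ 𝓜 n)
    (hsm : ∀ (n : ℕ) (k : ℤ) (f : S K) (m : M), f.IsHomogeneous n → m ∈ 𝓜 k → f • m ∈ 𝓜 (k + n))
    (t : ℤ) : TI (upper 𝓜 t).subtype := by
  classical
  obtain ⟨s, hs, hs'⟩ := hs
  choose! n hn using hs'
  -- a uniform exponent
  obtain ⟨N, hN⟩ : ∃ N : ℕ, ∀ m ∈ s, t ≤ n m + N := by
    refine ⟨∑ m ∈ s, (t - n m).toNat, fun m hm => ?_⟩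
    have h1 : (t - n m).toNat ≤ ∑ m ∈ s, (t - n m).toNat :=
      Finset.single_le_sum (f := fun m => (t - n m).toNat) (fun _ _ => Nat.zero_le _) hm
    have h2 : t - n m ≤ ((t - n m).toNat : ℤ) := Int.self_le_toNat _
    have h3 : (((t - n m).toNat : ℕ) : ℤ) ≤ ((∑ m ∈ s, (t - n m).toNat : ℕ) : ℤ) := by
      exact_mod_cast h1
    linarith
  have key : ∀ (i : Fin 5) (m : M), (X i ^ N : S K) • m ∈ upper 𝓜 t := by
    intro i m
    have hm : m ∈ Submodule.span (S K) (s : Set M) := by rw [hs]; trivial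
    induction hm using Submodule.span_induction with
    | mem x hx =>
      exact Submodule.subset_span ⟨n x + N, hN x hx,
        hsm N (n x) _ x (by simpa using isHomogeneous_X_pow i N) (hn x hx)⟩
    | zero => rw [smul_zero]; exact Submodule.zero_mem _
    | add x y _ _ hx hy => rw [smul_add]; exact Submodule.add_mem _ hx hy
    | smul a x _ hx => rw [smul_comm]; exact Submodule.smul_mem _ _ hx
  intro i
  refine ⟨N, LinearMap.codRestrict _ (LinearMap.lsmul (S K) M (X i ^ N)) (key i), ?_, ?_⟩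
  · intro m
    rfl
  · intro m
    exact Subtype.ext rfl

lemma TI_of_equiv {M M' : Type} [AddCommGroup M] [Module (S K) M] [AddCommGroup M']
    [Module (S K) M'] (e : M ≃ₗ[S K] M') : TI (e : M →ₗ[S K] M') := fun i =>
  ⟨0, e.symm, fun m' => by simp, fun m => by simp⟩

/-- finitely generated by homogeneous elements -/
lemma exists_hom_gens {M : Type} [AddCommGroup M] [Module K M] [Module (S K) M]
    {𝓜 : ℤ → Submodule K M} [hf : Module.Finite (S K) M] (hi : DirectSum.IsInternal 𝓜) :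
    ∃ s : Finset M, Submodule.span (S K) (s : Set M) = ⊤ ∧ ∀ m ∈ s, ∃ n, m ∈ 𝓜 n := by
  classical
  obtain ⟨T, hT⟩ := hf.fg_top
  have h1 : ∀ m : M, ∃ s : Finset M, (∀ x ∈ s, ∃ n, x ∈ 𝓜 n) ∧
      m ∈ Submodule.span (S K) (s : Set M) := by
    intro m
    have hm : m ∈ (⨆ n, 𝓜 n : Submodule K M) := by
      rw [hi.submodule_iSup_eq_top]; trivial
    induction hm using Submodule.iSup_induction' with
    | mem n x hx => exact ⟨{x}, by simpa using ⟨n, hx⟩, Submodule.subset_span (by simp)⟩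
    | zero => exact ⟨∅, by simp, Submodule.zero_mem _⟩
    | add x y _ _ hx hy =>
      obtain ⟨s, hs, hs'⟩ := hx
      obtain ⟨s', hs1, hs1'⟩ := hy
      refine ⟨s ∪ s', ?_, ?_⟩
      · intro z hz
        rcases Finset.mem_union.1 hz with hz | hz
        · exact hs z hz
        · exact hs1 z hz
      · refine Submodule.add_mem _ (Submodule.span_mono ?_ hs') (Submodule.span_mono ?_ hs1')
        · exact_mod_cast Finset.subset_union_left
        · exact_mod_cast Finset.subset_union_right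
  choose s hs hs' using h1
  refine ⟨T.biUnion s, ?_, ?_⟩
  · rw [eq_top_iff, ← hT, Submodule.span_le]
    intro x hx
    refine Submodule.span_mono ?_ (hs' x)
    intro y hy
    exact Finset.mem_coe.2 (Finset.mem_biUnion.2 ⟨x, hx, hy⟩)
  · intro m hm
    obtain ⟨x, _, hx⟩ := Finset.mem_biUnion.1 hm
    exact hs x m hx

lemma split_gens (a b : ℤ) : ∃ s : Finset (Fin 2 → S K),
    Submodule.span (S K) (s : Set (Fin 2 → S K)) = ⊤ ∧ ∀ m ∈ s, ∃ n, m ∈ splitGr K a b n := by
  classical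
  refine ⟨{Pi.single 0 1, Pi.single 1 1}, ?_, ?_⟩
  · rw [eq_top_iff]
    intro v _
    have hv : v = v 0 • Pi.single 0 (1 : S K) + v 1 • Pi.single 1 (1 : S K) := by
      ext1 i
      fin_cases i
      · simp
      · simp
    rw [hv]
    refine Submodule.add_mem _ (Submodule.smul_mem _ _ (Submodule.subset_span ?_))
      (Submodule.smul_mem _ _ (Submodule.subset_span ?_))
    · simp
    · simp
  · intro m hm
    simp only [Finset.mem_insert, Finset.mem_singleton] at hm
    rcases hm with rfl | rfl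
    · refine ⟨-a, ?_, ?_⟩
      · rw [neg_add_cancel, Pi.single_eq_same]
        exact isWeightedHomogeneous_one K _
      · rw [Pi.single_eq_of_ne (by decide)]
        exact isWeightedHomogeneous_zero K _ _
    · refine ⟨-b, ?_, ?_⟩
      · rw [Pi.single_eq_of_ne (by decide)]
        exact isWeightedHomogeneous_zero K _ _
      · rw [neg_add_cancel, Pi.single_eq_same]
        exact isWeightedHomogeneous_one K _

lemma split_smul (a b : ℤ) (n : ℕ) (k : ℤ) (f : S K) (m : Fin 2 → S K) (hf : f.IsHomogeneous n)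
    (hm : m ∈ splitGr K a b k) : f • m ∈ splitGr K a b (k + n) := by
  have hf' : IsWeightedHomogeneous (fun _ : Fin 5 => (1 : ℤ)) f (n : ℤ) := by
    intro d hd
    have h1 := hf hd
    have h2 : Finsupp.weight (fun _ : Fin 5 => (1 : ℤ)) d =
        ((Finsupp.weight (1 : Fin 5 → ℕ) d : ℕ) : ℤ) := by
      simp [Finsupp.weight_apply, Finsupp.sum]
    rw [h2, h1]
  constructor
  · have h1 := hf'.mul hm.1
    rw [show (n : ℤ) + (k + a) = k + n + a by ring] at h1
    exact h1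
  · have h1 := hf'.mul hm.2
    rw [show (n : ℤ) + (k + b) = k + n + b by ring] at h1
    exact h1

/-- forms of positive degree have no constant term -/
lemma constantCoeff_of_form {t : ℤ} (ht : t ≠ 0) {g : S K} (hg : Form t g) :
    constantCoeff g = 0 := by
  by_contra h
  have h1 := hg (d := 0) (by rw [← constantCoeff_eq]; exact h)
  rw [map_zero] at h1
  exact ht h1.symm

end

namespace Mnd

variable {K : Type} [Field K] {α₃ α₂ α₁ α₀ : Type} [Fintype α₃] [Fintype α₂]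
  [Fintype α₁] [Fintype α₀] (W : Mnd K α₃ α₂ α₁ α₀)

lemma cl_surj_x : Function.Surjective W.cl := Submodule.mkQ_surjective _

lemma cl_zero_iff (v : W.cyc) : W.cl v = 0 ↔ ∃ u, W.B *ᵥ u = v.1 := by
  rw [cl, Submodule.mkQ_apply, Submodule.Quotient.mk_eq_zero]
  exact Iff.rfl

variable [IsAlgClosed K] [DecidableEq α₃] [DecidableEq α₂] [DecidableEq α₁] [DecidableEq α₀]

lemma qe : QE W.A W.B W.C := by
  refine ⟨W.BA, W.CB, ?_, ?_⟩
  · intro i
    obtain ⟨N, hN⟩ := exists_hL W.A W.B W.BA W.injA W.exB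
    obtain ⟨L, L', h1, h2⟩ := hN i
    exact ⟨N, L, L', h1, h2⟩
  · intro i
    obtain ⟨N, hN⟩ := exists_hR W.C W.surC
    obtain ⟨R, hR⟩ := hN i
    exact ⟨N, R, hR⟩

/-- The homology is not free when the entries of `A` have no constant term. -/
theorem not_free [Nonempty α₃] (hA : ∀ i j, constantCoeff (W.A i j) = 0) :
    ¬ Module.Free (S K) W.Md := fun h =>
  W.qe.not_free hA W.cl W.cl_surj_x W.cl_zero_iff inferInstance

variable {α₃' α₂' α₁' α₀' : Type} [Fintype α₃'] [Fintype α₂']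
  [Fintype α₁'] [Fintype α₀'] [DecidableEq α₃'] [DecidableEq α₂'] [DecidableEq α₁']
  [DecidableEq α₀'] (W' : Mnd K α₃' α₂' α₁' α₀')

/-- Monads with different numbers of generators of `L₃` have different sheaves. -/
theorem not_sheafIso (hA : ∀ i j, constantCoeff (W.A i j) = 0)
    (hcard : Fintype.card α₃' < Fintype.card α₃)
    {𝓜 : ℤ → Submodule K W.Md}
    (hs : ∃ s : Finset W.Md, Submodule.span (S K) (s : Set W.Md) = ⊤ ∧ ∀ m ∈ s, ∃ n, m ∈ 𝓜 n)
    (hsm : ∀ (n : ℕ) (k : ℤ) (f : S K) (m : W.Md), f.IsHomogeneous n → m ∈ 𝓜 k →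
      f • m ∈ 𝓜 (k + n))
    {M' : Type} [AddCommGroup M'] [Module K M'] [Module (S K) M'] (e : W'.Md ≃ₗ[S K] M')
    {𝓝 : ℤ → Submodule K M'}
    (hs' : ∃ s : Finset M', Submodule.span (S K) (s : Set M') = ⊤ ∧ ∀ m ∈ s, ∃ n, m ∈ 𝓝 n)
    (hsm' : ∀ (n : ℕ) (k : ℤ) (f : S K) (m : M'), f.IsHomogeneous n → m ∈ 𝓝 k →
      f • m ∈ 𝓝 (k + n)) (k : ℤ) : ¬ SheafIso 𝓜 𝓝 k := by
  rintro ⟨t, φ, _⟩
  refine W.qe.not_TI₂ hA W.cl W.cl_surj_x W.cl_zero_iff W'.qe (e.toLinearMap ∘ₗ W'.cl)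
    (e.surjective.comp W'.cl_surj_x) ?_ hcard (upper_TI hs hsm t)
    ((upper_TI hs' hsm' (t + k)).comp (TI_of_equiv φ))
  intro v
  rw [← W'.cl_zero_iff, LinearMap.comp_apply]
  exact e.map_eq_zero_iff

/-- The sheaf of the homology is not the sheaf of a free module. -/
theorem not_sheafIso_free [Nonempty α₃] (hA : ∀ i j, constantCoeff (W.A i j) = 0)
    {𝓜 : ℤ → Submodule K W.Md}
    (hs : ∃ s : Finset W.Md, Submodule.span (S K) (s : Set W.Md) = ⊤ ∧ ∀ m ∈ s, ∃ n, m ∈ 𝓜 n)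
    (hsm : ∀ (n : ℕ) (k : ℤ) (f : S K) (m : W.Md), f.IsHomogeneous n → m ∈ 𝓜 k →
      f • m ∈ 𝓜 (k + n)) (a b k : ℤ) : ¬ SheafIso 𝓜 (splitGr K a b) k := by
  rintro ⟨t, φ, _⟩
  exact W.qe.not_TI_free hA W.cl W.cl_surj_x W.cl_zero_iff (upper_TI hs hsm t)
    ((upper_TI (split_gens a b) (split_smul a b) (t + k)).comp (TI_of_equiv φ))

end Mnd

end Pool.Agent.Lib.MP_745d3a_ag.NB

end
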