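import Pool.Agent.Lib.MP_745d3a_ag.NB.G1
import Pool.Agent.Lib.MP_745d3a_ag.NB.G2
import Pool.Agent.Lib.MP_745d3a_ag.NB.G3
import Pool.Agent.Lib.MP_745d3a_ag.NB.G4ab
import Pool.Agent.Lib.MP_745d3a_ag.NB.G5
import Pool.Agent.Lib.MP_745d3a_ag.NB.G6
import Pool.Agent.Lib.MP_745d3a_ag.NB.G7
import Pool.Agent.Lib.MP_745d3a_ag.NB.G8
import Pool.Agent.Lib.MP_745d3a_ag.NB.G10
import Pool.Agent.Lib.MP_745d3a_ag.NB.G11
import Pool.Agent.Lib.MP_745d3a_ag.NB.X1

/-!
The new bundle and the Horrocks-Mumford bundles.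
-/

set_option autoImplicit false

noncomputable section

open MvPolynomial Matrix

namespace Pool.Agent.Lib.MP_745d3a_ag.NB

open Pool.Agent.Lib.MP_745d3a_ag.PB

theorem Mnd.bundle {K : Type} [Field K] [IsAlgClosed K] {α₃ α₂ α₁ α₀ : Type} [Fintype α₃]
    [Fintype α₂] [Fintype α₁] [Fintype α₀] (W : Mnd K α₃ α₂ α₁ α₀) : IsRankTwoBundle W.deg :=
  ⟨W.finite, W.reflexive, W.finrank_eq, fun p _ hp => W.free_loc p hp, W.internal,
    fun n k f m hf hm => W.smul_mem n k f m hf hm⟩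

/- transport along the isomorphism of G8 -/
theorem hm_bundle {K : Type} [Field K] [IsAlgClosed K] {f : Fin 5 → S K} {d : ℕ}
    (hf : IsSelfMap f d) : IsRankTwoBundle (hmGr f) ∧ HasChern (hmGr f) d (4 * (d : ℤ) ^ 2) := by
  obtain ⟨e, he⟩ := hm_iso hf
  exact ⟨(Mnd.bundle (hmMnd hf)).of_equiv e he, (hmMnd_chern hf).of_equiv e he⟩

section new

variable {K : Type} [Field K] [IsAlgClosed K] (h2 : (2 : K) ≠ 0)

omit [IsAlgClosed K] in
lemma newMnd_constantCoeff (i : Fin 17) (j : Fin 3) :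
    constantCoeff ((newMnd K h2).A i j) = 0 := by
  have h := (newMnd K h2).hA i j
  rw [(newMnd_d h2).1, (newMnd_d h2).2.1] at h
  refine constantCoeff_of_form ?_ h
  have h3 : ∀ i : Fin 17, n2 i ≤ 5 := by decide
  have h4 := h3 i
  show (7 : ℤ) - n2 i ≠ 0
  omega

theorem new_indecomposable : Indecomposable K (newMnd K h2).Md :=
  indecomposable_of_not_free (Mnd.bundle _)
    ((newMnd K h2).not_free (newMnd_constantCoeff h2))

end new

end Pool.Agent.Lib.MP_745d3a_ag.NB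

end
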