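import Mathlib

/-!
Definitions used in the statement: rank two vector bundles on projective four-space as graded
modules, isomorphisms in large degrees, the Horrocks-Mumford bundle and its pull-backs.
-/

set_option autoImplicit false

noncomputable section

open MvPolynomial

namespace Pool.Agent.Lib.MP_745d3a_ag.NB

/-- A module `M` over the polynomial ring in five variables over `K`, with subspaces `gr n`,
`n ∈ ℤ`. -/
structure GradedModule (K : Type) [Field K] where
  M : Type
  [addCommGroup : AddCommGroup M]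
  [module : Module K M]
  [moduleS : Module (MvPolynomial (Fin 5) K) M]
  [tower : IsScalarTower K (MvPolynomial (Fin 5) K) M]
  gr : ℤ → Submodule K M

attribute [instance] GradedModule.addCommGroup GradedModule.module GradedModule.moduleS
  GradedModule.tower

/-- `M`, with its pieces `𝓜 n`, is a finitely generated reflexive graded module of rank two over
`S = K[x_0, …, x_4]` whose localisation at each prime not containing all the variables is free:
these are the modules `⊕ₙ H⁰(P^4, E(n))` of the vector bundles `E` of rank two on `P^4`. -/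
structure IsRankTwoBundle {K M : Type} [Field K] [AddCommGroup M] [Module K M]
    [Module (MvPolynomial (Fin 5) K) M] (𝓜 : ℤ → Submodule K M) : Prop where
  finite : Module.Finite (MvPolynomial (Fin 5) K) M
  reflexive : Module.IsReflexive (MvPolynomial (Fin 5) K) M
  rank : Module.finrank (MvPolynomial (Fin 5) K) M = 2
  locallyFree : ∀ (p : Ideal (MvPolynomial (Fin 5) K)) [p.IsPrime],
    (∃ i, (X i : MvPolynomial (Fin 5) K) ∉ p) →
      Module.Free (Localization.AtPrime p) (LocalizedModule p.primeCompl M)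
  internal : DirectSum.IsInternal 𝓜
  smul_mem : ∀ (n : ℕ) (k : ℤ) (f : MvPolynomial (Fin 5) K) (m : M), f.IsHomogeneous n →
    m ∈ 𝓜 k → f • m ∈ 𝓜 (k + n)

/-- `M` is not a direct sum of two nonzero submodules. -/
def Indecomposable (K M : Type) [Field K] [AddCommGroup M] [Module (MvPolynomial (Fin 5) K) M] :
    Prop :=
  ∀ N₁ N₂ : Submodule (MvPolynomial (Fin 5) K) M, IsCompl N₁ N₂ → N₁ = ⊥ ∨ N₂ = ⊥

/-- The submodule generated by the pieces of degree at least `t`. -/
def upper {K M : Type} [Field K] [AddCommGroup M] [Module K M] [Module (MvPolynomial (Fin 5) K) M]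
    (𝓜 : ℤ → Submodule K M) (t : ℤ) : Submodule (MvPolynomial (Fin 5) K) M :=
  Submodule.span (MvPolynomial (Fin 5) K) {m | ∃ n, t ≤ n ∧ m ∈ 𝓜 n}

/-- The graded modules `M` and `N(k)` are isomorphic in large degrees: the sheaves on `P^4`
associated with `M` and `N(k)` are isomorphic (Serre). -/
def SheafIso {K M N : Type} [Field K] [AddCommGroup M] [Module K M]
    [Module (MvPolynomial (Fin 5) K) M] [AddCommGroup N] [Module K N]
    [Module (MvPolynomial (Fin 5) K) N]
    (𝓜 : ℤ → Submodule K M) (𝓝 : ℤ → Submodule K N) (k : ℤ) : Prop :=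
  ∃ (t : ℤ) (e : upper 𝓜 t ≃ₗ[MvPolynomial (Fin 5) K] upper 𝓝 (t + k)),
    ∀ n, t ≤ n → ∀ m : upper 𝓜 t, (m : M) ∈ 𝓜 n ↔ (e m : N) ∈ 𝓝 (n + k)

/-- The bundle with the graded module `M` has the Chern numbers `c1`, `c2`: the Hilbert polynomial
of `M` is the one given by the Riemann-Roch theorem for a bundle of rank two on `P^4`. -/
def HasChern {K M : Type} [Field K] [AddCommGroup M] [Module K M] (𝓜 : ℤ → Submodule K M)
    (c1 c2 : ℤ) : Prop :=
  ∃ n₀ : ℤ, ∀ n, n₀ ≤ n → 24 * (Module.finrank K (𝓜 n) : ℤ) =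
    2 * n ^ 4 + (4 * c1 + 20) * n ^ 3 + (6 * (c1 ^ 2 - 2 * c2) + 30 * c1 + 70) * n ^ 2 +
    (4 * (c1 ^ 3 - 3 * c1 * c2) + 30 * (c1 ^ 2 - 2 * c2) + 70 * c1 + 100) * n +
    ((c1 ^ 4 - 4 * c1 ^ 2 * c2 + 2 * c2 ^ 2) + 10 * (c1 ^ 3 - 3 * c1 * c2) +
      35 * (c1 ^ 2 - 2 * c2) + 50 * c1 + 48)

/-- The grading of `S(a) ⊕ S(b)`. -/
def splitGr (K : Type) [Field K] (a b : ℤ) (n : ℤ) :
    Submodule K (Fin 2 → MvPolynomial (Fin 5) K) where
  carrier := {v | IsWeightedHomogeneous (fun _ : Fin 5 => (1 : ℤ)) (v 0) (n + a) ∧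
    IsWeightedHomogeneous (fun _ : Fin 5 => (1 : ℤ)) (v 1) (n + b)}
  add_mem' := fun hu hv => ⟨hu.1.add hv.1, hu.2.add hv.2⟩
  zero_mem' := ⟨isWeightedHomogeneous_zero K _ _, isWeightedHomogeneous_zero K _ _⟩
  smul_mem' := fun c _ hu =>
    ⟨(weightedHomogeneousSubmodule K (fun _ : Fin 5 => (1 : ℤ)) _).smul_mem c hu.1,
      (weightedHomogeneousSubmodule K (fun _ : Fin 5 => (1 : ℤ)) _).smul_mem c hu.2⟩

section HM

variable {K : Type} [Field K]

/-- The bivector `v ∧ w`, as a skew-symmetric matrix. -/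
def wedge (v w : Fin 5 → MvPolynomial (Fin 5) K) :
    Matrix (Fin 5) (Fin 5) (MvPolynomial (Fin 5) K) :=
  fun i j => v i * w j - v j * w i

/-- The basis vector `e_i`. -/
def bv (i : Fin 5) : Fin 5 → MvPolynomial (Fin 5) K := Pi.single i 1

/-- For a bivector `ω`, the coefficient of `e_p ∧ e_q ∧ e_r` in `f ∧ ω`. -/
def wedge3 (f : Fin 5 → MvPolynomial (Fin 5) K)
    (ω : Matrix (Fin 5) (Fin 5) (MvPolynomial (Fin 5) K)) (p q r : Fin 5) :
    MvPolynomial (Fin 5) K :=
  f p * ω q r - f q * ω p r + f r * ω p q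

/-- The kernel of the second map of the Horrocks-Mumford monad
`O(2)^5 → (Λ²T)^2 → O(3)^5`, pulled back by `f` (up to a twist). Here `V` is the vector space with
basis `e_0, …, e_4` and `Λ²T(-2)` is the quotient of `Λ²V ⊗ O` by the multiples of
`f = ∑ f_i e_i`, and the second map sends `(ω₁, ω₂)` to the vector with the entries
`f ∧ (e_{i+2} ∧ e_{i+3} ∧ ω₂ - e_{i+1} ∧ e_{i+4} ∧ ω₁)`, `i` modulo `5`. -/
def hmKer (f : Fin 5 → MvPolynomial (Fin 5) K) :
    Submodule (MvPolynomial (Fin 5) K) (Matrix (Fin 5) (Fin 5) (MvPolynomial (Fin 5) K) ×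
      Matrix (Fin 5) (Fin 5) (MvPolynomial (Fin 5) K)) where
  carrier := {ω | (∀ i j, ω.1 j i = -ω.1 i j ∧ ω.1 i i = 0 ∧ ω.2 j i = -ω.2 i j ∧ ω.2 i i = 0) ∧
    ∀ i : Fin 5, wedge3 f ω.2 i (i + 1) (i + 4) = wedge3 f ω.1 i (i + 2) (i + 3)}
  add_mem' := by
    rintro ⟨a, b⟩ ⟨a', b'⟩ ⟨h, k⟩ ⟨h', k'⟩
    refine ⟨fun i j => ⟨?_, ?_, ?_, ?_⟩, fun i => ?_⟩
    · have h1 := (h i j).1
      have h2 := (h' i j).1
      change a j i + a' j i = -(a i j + a' i j)
      change a j i = -a i j at h1
      change a' j i = -a' i j at h2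
      rw [h1, h2]; ring
    · have h1 := (h i j).2.1
      have h2 := (h' i j).2.1
      change a i i + a' i i = 0
      change a i i = 0 at h1
      change a' i i = 0 at h2
      rw [h1, h2]; ring
    · have h1 := (h i j).2.2.1
      have h2 := (h' i j).2.2.1
      change b j i + b' j i = -(b i j + b' i j)
      change b j i = -b i j at h1
      change b' j i = -b' i j at h2
      rw [h1, h2]; ring
    · have h1 := (h i j).2.2.2
      have h2 := (h' i j).2.2.2
      change b i i + b' i i = 0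
      change b i i = 0 at h1
      change b' i i = 0 at h2
      rw [h1, h2]; ring
    · have h1 := k i
      have h2 := k' i
      change wedge3 f (b + b') i (i + 1) (i + 4) = wedge3 f (a + a') i (i + 2) (i + 3)
      change wedge3 f b i (i + 1) (i + 4) = wedge3 f a i (i + 2) (i + 3) at h1
      change wedge3 f b' i (i + 1) (i + 4) = wedge3 f a' i (i + 2) (i + 3) at h2
      simp only [wedge3, Matrix.add_apply] at *
      linear_combination h1 + h2
  zero_mem' := by
    refine ⟨fun i j => ⟨?_, rfl, ?_, rfl⟩, fun i => ?_⟩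
    · change (0 : MvPolynomial (Fin 5) K) = -0
      ring
    · change (0 : MvPolynomial (Fin 5) K) = -0
      ring
    · change wedge3 f 0 i (i + 1) (i + 4) = wedge3 f 0 i (i + 2) (i + 3)
      simp [wedge3]
  smul_mem' := by
    rintro c ⟨a, b⟩ ⟨h, k⟩
    refine ⟨fun i j => ⟨?_, ?_, ?_, ?_⟩, fun i => ?_⟩
    · have h1 := (h i j).1
      change c * a j i = -(c * a i j)
      change a j i = -a i j at h1
      rw [h1]; ring
    · have h1 := (h i j).2.1
      change c * a i i = 0
      change a i i = 0 at h1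
      rw [h1]; ring
    · have h1 := (h i j).2.2.1
      change c * b j i = -(c * b i j)
      change b j i = -b i j at h1
      rw [h1]; ring
    · have h1 := (h i j).2.2.2
      change c * b i i = 0
      change b i i = 0 at h1
      rw [h1]; ring
    · have h1 := k i
      change wedge3 f (c • b) i (i + 1) (i + 4) = wedge3 f (c • a) i (i + 2) (i + 3)
      change wedge3 f b i (i + 1) (i + 4) = wedge3 f a i (i + 2) (i + 3) at h1
      simp only [wedge3, Matrix.smul_apply, smul_eq_mul] at *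
      linear_combination c * h1

/-- The submodule of the pairs `(f ∧ v + ∑ c_i e_{i+2} ∧ e_{i+3}, f ∧ w + ∑ c_i e_{i+1} ∧ e_{i+4})`:
the image of the first map of the Horrocks-Mumford monad, pulled back by `f`. -/
def hmIm (f : Fin 5 → MvPolynomial (Fin 5) K) : Submodule (MvPolynomial (Fin 5) K) (hmKer f) :=
  (Submodule.span (MvPolynomial (Fin 5) K) ({ω | ∃ v w, ω = (wedge f v, wedge f w)} ∪
    {ω | ∃ i, ω = (wedge (bv (i + 2)) (bv (i + 3)), wedge (bv (i + 1)) (bv (i + 4)))})).comap
      (hmKer f).subtype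

/-- The homology of the pull-back by `f = (f_0 : … : f_4)` of the Horrocks-Mumford monad, that is
the module of the pull-back by `f` of the Horrocks-Mumford bundle, up to a twist: for forms `f_i`
of degree `d` without common zero it is `⊕ₙ H⁰(f^*(F_HM)(n - 2 d))`. In particular
`HM (x_0, …, x_4)` is the module of `F_HM(-2)`, with Chern numbers `1` and `4`. -/
abbrev HM (f : Fin 5 → MvPolynomial (Fin 5) K) : Type := hmKer f ⧸ hmIm f

/-- The pairs of bivectors with coefficients of degree `n`. -/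
def pairsGr (K : Type) [Field K] (n : ℤ) :
    Submodule K (Matrix (Fin 5) (Fin 5) (MvPolynomial (Fin 5) K) ×
      Matrix (Fin 5) (Fin 5) (MvPolynomial (Fin 5) K)) where
  carrier := {ω | ∀ i j, IsWeightedHomogeneous (fun _ : Fin 5 => (1 : ℤ)) (ω.1 i j) n ∧
    IsWeightedHomogeneous (fun _ : Fin 5 => (1 : ℤ)) (ω.2 i j) n}
  add_mem' := fun h h' i j => ⟨(h i j).1.add (h' i j).1, (h i j).2.add (h' i j).2⟩
  zero_mem' := fun _ _ => ⟨isWeightedHomogeneous_zero K _ _, isWeightedHomogeneous_zero K _ _⟩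
  smul_mem' := fun c _ h i j =>
    ⟨(weightedHomogeneousSubmodule K (fun _ : Fin 5 => (1 : ℤ)) n).smul_mem c (h i j).1,
      (weightedHomogeneousSubmodule K (fun _ : Fin 5 => (1 : ℤ)) n).smul_mem c (h i j).2⟩

/-- The grading of `HM f`. -/
def hmGr (f : Fin 5 → MvPolynomial (Fin 5) K) (n : ℤ) : Submodule K (HM f) :=
  ((pairsGr K n).comap ((hmKer f).subtype.restrictScalars K)).map
    ((hmIm f).mkQ.restrictScalars K)

/-- `f_0, …, f_4` are forms of degree `d ≥ 1` without common zero other than the origin: they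
define the finite self-map `(f_0 : … : f_4)` of `P^4`. -/
structure IsSelfMap (f : Fin 5 → MvPolynomial (Fin 5) K) (d : ℕ) : Prop where
  pos : 0 < d
  hom : ∀ i, (f i).IsHomogeneous d
  noZero : ∀ v : Fin 5 → K, (∀ i, eval v (f i) = 0) → v = 0

/-- `M` is of Horrocks-Mumford type: for some finite self-map `f` of `P^4` and some integer `k`,
its sheaf is isomorphic to the twist by `k` of the pull-back by `f` of the Horrocks-Mumford
bundle. -/
def IsHorrocksMumfordType {M : Type} [AddCommGroup M] [Module K M]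
    [Module (MvPolynomial (Fin 5) K) M] (𝓜 : ℤ → Submodule K M) : Prop :=
  ∃ (f : Fin 5 → MvPolynomial (Fin 5) K) (d : ℕ) (k : ℤ), IsSelfMap f d ∧ SheafIso 𝓜 (hmGr f) k

/-- The generators of `hmIm f` lie in `hmKer f`: the Horrocks-Mumford monad is a complex. -/
lemma span_le_hmKer (f : Fin 5 → MvPolynomial (Fin 5) K) :
    Submodule.span (MvPolynomial (Fin 5) K) ({ω | ∃ v w, ω = (wedge f v, wedge f w)} ∪
      {ω | ∃ i, ω = (wedge (bv (i + 2)) (bv (i + 3)), wedge (bv (i + 1)) (bv (i + 4)))}) ≤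
        hmKer f := by
  rw [Submodule.span_le]
  rintro ω (⟨v, w, rfl⟩ | ⟨i, rfl⟩)
  · refine ⟨fun i j => ⟨?_, ?_, ?_, ?_⟩, fun i => ?_⟩
    · simp only [wedge]; ring
    · simp only [wedge]; ring
    · simp only [wedge]; ring
    · simp only [wedge]; ring
    · simp only [wedge3, wedge]; ring
  · refine ⟨fun k j => ⟨?_, ?_, ?_, ?_⟩, fun k => ?_⟩
    · simp only [wedge]; ring
    · simp only [wedge]; ring
    · simp only [wedge]; ring
    · simp only [wedge]; ring
    · fin_cases i <;> fin_cases k <;> simp [wedge3, wedge, bv]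

end HM

end Pool.Agent.Lib.MP_745d3a_ag.NB

end
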